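import Pool.Agent.Lib.MP_0d9445_pr.Walk.Defs
import Pool.Agent.Lib.MP_0d9445_pr.Net.Min
import Pool.Agent.Lib.MP_0d9445_pr.Cell.Win

/-!
# Finite nets, energies and the hypotheses of the deterministic walk theorem (problem 0d9445)
-/

noncomputable section

open MeasureTheory ProbabilityTheory Set Filter Topology
open scoped NNReal ENNReal Classical

namespace Pool.Agent.Lib.MP_0d9445_pr.Walk

open BM Cell

/-- Half-open square with lower left corner `a` and side `l`. -/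
def box (a : ℂ) (l : ℝ) : Set ℂ :=
  {w | a.re ≤ w.re ∧ w.re < a.re + l ∧ a.im ≤ w.im ∧ w.im < a.im + l}

/-- Corner of the subsquare `(i, j)` of level `k` of `box a l`; its side is `l / 2 ^ k`. -/
def sub (a : ℂ) (l : ℝ) (k i j : ℕ) : ℂ := a + ((l / 2 ^ k : ℝ) : ℂ) * (i + j * Complex.I)

/-- The linear function with gradient `p`. -/
def lin (p w : ℂ) : ℝ := p.re * w.re + p.im * w.im

/-- Derivative in the direction `p`. -/
def dir (p : ℂ) (v : ℂ → ℝ) (w : ℂ) : ℝ := fderiv ℝ v w p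

/-- The Laplacian. -/
def lapl (v : ℂ → ℝ) (w : ℂ) : ℝ :=
  dir 1 (dir 1 v) w + dir Complex.I (dir Complex.I v) w

/-- Smooth functions with compact support inside `U`. -/
structure Test (U : Set ℂ) (v : ℂ → ℝ) : Prop where
  smooth : ContDiff ℝ (⊤ : ℕ∞) v
  cpt : HasCompactSupport v
  supp : tsupport v ⊆ U

/-- `-(1/2) Δ u = φ μ` in the sense of distributions in `U`. -/
def WeakSol (U : Set ℂ) (μ : Measure ℂ) (u φ : ℂ → ℝ) : Prop :=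
  ∀ v, Test U v → ∫ w, u w * lapl v w = -2 * ∫ w, v w * φ w ∂μ

/-- A finite family of cells. -/
structure FC where
  V : Finset ℂ
  H : ℂ → Set ℂ

/-- The cells that meet `K`. -/
def Cells.toFC (C : Cells) (K : Set ℂ) : FC :=
  ⟨if h : {x | x ∈ C.V ∧ (C.H x ∩ K).Nonempty}.Finite then h.toFinset else ∅, C.H⟩

namespace FC

variable (N : FC)

/-- The graph of a finite family of cells. -/
def G : Net ℂ where
  N x := N.V.filter fun y => x ∈ N.V ∧ x ≠ y ∧ (N.H x ∩ N.H y).Nonempty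
  symm x y hy := by
    rw [Finset.mem_filter] at hy ⊢
    exact ⟨hy.2.1, hy.1, hy.2.2.1.symm, by rw [inter_comm]; exact hy.2.2.2⟩

theorem mem_N {x y : ℂ} :
    y ∈ N.G.N x ↔ y ∈ N.V ∧ x ∈ N.V ∧ x ≠ y ∧ (N.H x ∩ N.H y).Nonempty := Finset.mem_filter

/-- Weighted Dirichlet form. -/
def enw (A : Finset ℂ) (ψ u v : ℂ → ℝ) : ℝ :=
  1 / 2 * ∑ x ∈ A, ∑ y ∈ N.G.N x, ψ x * ((u x - u y) * (v x - v y))

/-- Centres in `S`. -/
def pts (S : Set ℂ) : Finset ℂ := N.V.filter fun x => x ∈ S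

theorem mem_pts {S : Set ℂ} {x : ℂ} : x ∈ N.pts S ↔ x ∈ N.V ∧ x ∈ S := Finset.mem_filter

/-- Cells contained in `S`. -/
abbrev inside (S : Set ℂ) : Finset ℂ := ins N.H N.V S

/-- The corrector: the minimiser of the energy in `S` with linear data. -/
def corr (S : Set ℂ) (p : ℂ) : ℂ → ℝ := N.G.hx (N.pts S) (lin p)

/-- Minimal energy in `S` with linear data. -/
def nu (S : Set ℂ) (p : ℂ) : ℝ := N.G.nu (N.pts S) (lin p)

/-- Energy of the identity map in `S`. -/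
def X (S : Set ℂ) : ℝ :=
  N.G.en (N.pts S) Complex.re Complex.re + N.G.en (N.pts S) Complex.im Complex.im

/-- Sum of the squared diameters of the cells with centre in `S`. -/
def Y (S : Set ℂ) : ℝ := ∑ x ∈ N.pts S, Metric.diam (N.H x) ^ 2

/-- The cells are compact, connected, small, contain their centres and cover `K`. -/
structure Nice (K : Set ℂ) (ε : ℝ) : Prop where
  cpt : ∀ x ∈ N.V, IsCompact (N.H x)
  conn : ∀ x ∈ N.V, IsPreconnected (N.H x)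
  mem : ∀ x ∈ N.V, x ∈ N.H x
  diam : ∀ x ∈ N.V, Metric.diam (N.H x) ≤ ε
  cover : ∀ w ∈ K, ∃ x ∈ N.V, w ∈ N.H x

variable {N} in
theorem Nice.cw {K : Set ℂ} {ε : ℝ} (h : N.Nice K ε) : CW N.G N.H N.V K where
  closed x hx := (h.cpt x hx).isClosed
  conn := h.conn
  nonempty x hx := ⟨x, h.mem x hx⟩
  cover w hw := by
    obtain ⟨x, hx, hwx⟩ := h.cover w hw
    exact mem_iUnion₂.2 ⟨x, hx, hwx⟩
  adj x hx y hy hxy hn := N.mem_N.2 ⟨hy, hx, hxy, hn⟩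
  nbr x _ _ y hy := ⟨(N.mem_N.1 hy).1, (N.mem_N.1 hy).2.2.2⟩

variable {N} in
theorem Nice.dist_le {K : Set ℂ} {ε : ℝ} (h : N.Nice K ε) {x : ℂ} (hx : x ∈ N.V) {v w : ℂ}
    (hv : v ∈ N.H x) (hw : w ∈ N.H x) : dist v w ≤ ε :=
  (Metric.dist_le_diam_of_mem (h.cpt x hx).isBounded hv hw).trans (h.diam x hx)

variable {N} in
theorem Nice.nbr_le {K : Set ℂ} {ε : ℝ} (h : N.Nice K ε) {x y : ℂ} (hy : y ∈ N.G.N x) :
    ‖x - y‖ ≤ 2 * ε := by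
  obtain ⟨h1, h2, -, w, hwx, hwy⟩ := N.mem_N.1 hy
  have a := h.dist_le h2 (h.mem x h2) hwx
  have b := h.dist_le h1 hwy (h.mem y h1)
  have c := dist_triangle x w y
  rw [← dist_eq_norm]
  linarith

/-- One step of the walk stopped on leaving `U`. -/
def step (U : Set ℂ) (x : ℂ) : Set ℂ := if x ∈ N.inside U then (N.G.N x : Set ℂ) else {x}

end FC

/-- The four dyadic children of a square belong to the family. -/
def ChildClosed (FF : Set (ℂ × ℝ)) : Prop :=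
  ∀ s ∈ FF, 0 < s.2 ∧ ∀ i j : ℕ, i < 2 → j < 2 → (sub s.1 s.2 1 i j, s.2 / 2) ∈ FF

/-- The open set covered by the interiors of the squares of a family. -/
def cov (FF : Set (ℂ × ℝ)) : Set ℂ := ⋃ s ∈ FF, interior (box s.1 s.2)

/-- Power bound for the mass of small discs. -/
def Frost (μ : Measure ℂ) (K : Set ℂ) : Prop :=
  μ K < ⊤ ∧ ∃ C α r₀ : ℝ, 0 < α ∧ 0 < r₀ ∧
    ∀ x ∈ K, ∀ r, 0 < r → r ≤ r₀ → μ (Metric.ball x r ∩ K) ≤ ENNReal.ofReal (C * r ^ α)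

/-- The hypotheses on a sequence of nets in the compact window `K`, with limit energy constant `a`
and mass functions `ρ n`. -/
structure Good (K : Set ℂ) (μ : Measure ℂ) (a : ℝ) (N : ℕ → FC) (ρ : ℕ → ℂ → ℝ)
    (FF : Set (ℂ × ℝ)) : Prop where
  cpt : IsCompact K
  a_pos : 0 < a
  nice : ∀ ε > 0, ∀ᶠ n in atTop, (N n).Nice K ε
  xy : ∃ C : ℝ, ∀ c r, 0 < r → sqC c r ⊆ K →
    ∀ᶠ n in atTop, (N n).X (sqC c r) ≤ C * r ^ 2 ∧ (N n).Y (sqC c r) ≤ C * r ^ 2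
  child : ChildClosed FF
  sub_int : ∀ s ∈ FF, closure (box s.1 s.2) ⊆ interior K
  null : volume (interior K \ cov FF) = 0
  nu : ∀ s ∈ FF, ∀ p ∈ ({1, Complex.I, 1 + Complex.I} : Set ℂ),
    Tendsto (fun n => (N n).nu (box s.1 s.2) p) atTop (𝓝 (a * ‖p‖ ^ 2 * s.2 ^ 2))
  rho_nonneg : ∀ n x, 0 ≤ ρ n x
  mass : ∀ φ : ℂ → ℝ, Continuous φ → tsupport φ ⊆ interior K →
    Tendsto (fun n => ∑ x ∈ (N n).V, ρ n x * φ x) atTop (𝓝 (2 * a * ∫ w, φ w ∂μ))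
  frost : Frost μ K
  green : ∀ ε > 0, ∃ δ > 0, ∀ r, 0 < r → r ≤ δ → ∀ᶠ n in atTop, ∀ c u, sqC c (8 * r) ⊆ K →
    (N n).G.Sol ((N n).inside (sqO c r)) 0 (ρ n) 0 u → ∀ x, u x ≤ ε

/-- A small square whose frame lies in `U` lies in `U`. -/
def Frames (U : Set ℂ) : Prop :=
  ∃ r₀ > 0, ∀ c r, 0 < r → r < r₀ → frame c r ⊆ U → sqO c r ⊆ U

/-- An admissible domain in the window `K`. -/
structure Adm (K U : Set ℂ) : Prop where
  isOpen : IsOpen U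
  sub : closure U ⊆ interior K
  frames : Frames U

/-- A sequence of vertex functions with data `g` off `U`, bounded by `L`, with source bounded by
`L ρ`. -/
structure Sol (U : Set ℂ) (N : ℕ → FC) (ρ : ℕ → ℂ → ℝ) (g : ℂ → ℝ) (L : ℝ)
    (u : ℕ → ℂ → ℝ) : Prop where
  bdry : ∀ᶠ n in atTop, ∀ x, x ∉ (N n).inside U → u n x = g x
  src : ∀ᶠ n in atTop, ∀ x ∈ (N n).inside U, |(N n).G.lap (u n) x| ≤ L * ρ n x
  bdd : ∀ᶠ n in atTop, ∀ x ∈ (N n).inside U, |u n x| ≤ L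

/-- Uniform convergence of vertex functions on the vertices in `S`. -/
def UnifOn (S : Set ℂ) (N : ℕ → FC) (u : ℕ → ℂ → ℝ) (v : ℂ → ℝ) : Prop :=
  ∀ η > 0, ∀ᶠ n in atTop, ∀ x ∈ (N n).pts S, |u n x - v x| ≤ η

/-- The clock at the exit time from `U`. -/
def exitClock (b : ℝ≥0 → ℂ) (A : ℝ≥0 → ℝ) (U : Set ℂ) : ℝ := A (sInf {s : ℝ≥0 | b s ∉ U})

/-- What the rest of the proof uses about the stopped time-changed motion `Y` from `x` with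
lifetime `σ` in `U`. -/
structure PathPack {Ω : Type} [MeasurableSpace Ω] (P : Measure Ω) (U : Set ℂ) (x : ℂ)
    (Y : ℝ → Ω → ℂ) (σ : Ω → ℝ) : Prop where
  measY : ∀ t, AEMeasurable (Y t) P
  measσ : AEMeasurable σ P
  path : ∀ᵐ ω ∂P, Continuous (fun t => Y t ω) ∧ Y 0 ω = x ∧ 0 < σ ω ∧
    (∀ t, t < σ ω → Y t ω ∈ U) ∧ ∀ t, σ ω ≤ t → Y t ω ∈ frontier U

/-- The martingale problem for the pair `(u, φ)`. -/
def MartPair {Ω : Type} [MeasurableSpace Ω] (P : Measure Ω) (Y : ℝ → Ω → ℂ) (σ : Ω → ℝ)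
    (u φ : ℂ → ℝ) : Prop :=
  ∀ (k : ℕ) (τ : Fin k → ℝ) (f : Fin k → ℂ → ℝ) (s t : ℝ), (∀ i, Continuous (f i)) →
    (∀ i, τ i ≤ s) → 0 ≤ s → s ≤ t →
    ∫ ω, (∏ i, f i (Y (τ i) ω)) *
      (u (Y t ω) - u (Y s ω) + ∫ r in s..t, if r < σ ω then φ (Y r ω) else 0) ∂P = 0

/-- The walks are well defined on the sets `R n`, which lie in `K'`, and their jumps vanish. -/
structure WalkOK (K' : Set ℂ) (St : ℕ → ℂ → Set ℂ) (R : ℕ → Set ℂ) (x : ℕ → ℂ) : Prop where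
  ok : ∀ᶠ n in atTop, x n ∈ R n ∧ R n ⊆ K' ∧
    ∀ y ∈ R n, (St n y).Finite ∧ (St n y).Nonempty ∧ St n y ⊆ R n
  jump : ∀ ε > 0, ∀ᶠ n in atTop, ∀ y ∈ R n, ∀ y' ∈ St n y, ‖y - y'‖ ≤ ε

/-- Uniform modulus of continuity of the walks on the time scale `m n`. -/
def Tight (St : ℕ → ℂ → Set ℂ) (R : ℕ → Set ℂ) (m : ℕ → ℝ) : Prop :=
  ∀ T η : ℝ, 0 < η → ∃ δ > 0, ∀ᶠ n in atTop, ∀ y ∈ R n, ∀ L : ℕ, (L : ℝ) ≤ m n * T →
    walkExp (St n) L y (fun w =>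
      if ∃ i j : ℕ, i ≤ j ∧ j ≤ L ∧ (j : ℝ) - i ≤ δ * m n ∧ η < ‖w i - w j‖ then 1 else 0) ≤ η

/-- Convergence of the finite-dimensional laws. -/
def Fdd {Ω : Type} [MeasurableSpace Ω] (P : Measure Ω) (Y : ℝ → Ω → ℂ) (St : ℕ → ℂ → Set ℂ)
    (x : ℕ → ℂ) (m : ℕ → ℝ) : Prop :=
  ∀ (k : ℕ) (τ : Fin k → ℝ) (f : Fin k → ℂ → ℝ) (j : ℕ → Fin k → ℕ) (L : ℕ → ℕ),
    (∀ i, Continuous (f i)) → (∀ n, Monotone (j n)) → (∀ n i, j n i ≤ L n) →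
    (∀ i, Tendsto (fun n => (j n i : ℝ) / m n) atTop (𝓝 (τ i))) →
    Tendsto (fun n => walkExp (St n) (L n) (x n) fun w => ∏ i, f i (w (j n i))) atTop
      (𝓝 (∫ ω, ∏ i, f i (Y (τ i) ω) ∂P))

/-- Convergence in law of the interpolated walks to `Y`, uniformly on bounded time intervals. -/
def PathConv {Ω : Type} [MeasurableSpace Ω] (P : Measure Ω) (Y : ℝ → Ω → ℂ)
    (St : ℕ → ℂ → Set ℂ) (x : ℕ → ℂ) (m : ℕ → ℝ) : Prop :=
  ∀ (T : ℝ), 0 < T → ∀ F : BoundedContinuousFunction C(Icc (0 : ℝ) T, ℂ) ℝ,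
    Tendsto (fun n => walkExp (St n) (⌈m n * T⌉₊ + 1) (x n) fun w => F (toC T (interp (m n) w)))
      atTop (𝓝 (∫ ω, F (toC T fun t => Y t ω) ∂P))

/-- The hypotheses on the environment in the open set `O` (what the field layers deliver). -/
structure Env (O : Set ℂ) (μ : Measure ℂ) (C : ℕ → Cells) (Γ : ℕ → Set ℂ) (a M : ℕ → ℝ) :
    Prop where
  mem : ∀ n, ∀ x ∈ (C n).V, x ∈ (C n).H x
  nice : ∀ K, IsCompact K → K ⊆ O → ∀ ε > 0, ∀ᶠ n in atTop,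
    {x | x ∈ (C n).V ∧ ((C n).H x ∩ K).Nonempty}.Finite ∧ ((C n).toFC K).Nice K ε
  xy : ∀ K, IsCompact K → K ⊆ O → ∃ Cst : ℝ, ∀ c r, 0 < r → sqC c r ⊆ K → ∀ᶠ n in atTop,
    ((C n).toFC K).X (sqC c r) ≤ Cst * r ^ 2 ∧ ((C n).toFC K).Y (sqC c r) ≤ Cst * r ^ 2
  a_pos : ∀ n, 0 < a n
  nu : ∃ FF : Set (ℂ × ℝ), FF.Countable ∧ ChildClosed FF ∧ volume (O \ cov FF) = 0 ∧
    ∀ K, IsCompact K → K ⊆ O → ∀ s ∈ FF, closure (box s.1 s.2) ⊆ interior K →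
      ∀ p ∈ ({1, Complex.I, 1 + Complex.I} : Set ℂ),
        Tendsto (fun n => ((C n).toFC K).nu (box s.1 s.2) p - a n * ‖p‖ ^ 2 * s.2 ^ 2) atTop (𝓝 0)
  M_top : Tendsto M atTop atTop
  mass : ∀ K, IsCompact K → K ⊆ O → ∀ φ : ℂ → ℝ, Continuous φ → tsupport φ ⊆ interior K →
    Tendsto (fun n => (∑ x ∈ ((C n).toFC K).V,
      (if x ∈ Γ n then ((C n).toFC K).G.deg x else 0) * φ x) / M n) atTop (𝓝 (∫ w, φ w ∂μ))
  frost : ∀ K, IsCompact K → K ⊆ O → Frost μ K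
  green : ∀ K, IsCompact K → K ⊆ O → ∀ ε > 0, ∃ δ > 0, ∀ r, 0 < r → r ≤ δ →
    ∀ᶠ n in atTop, ∀ c u, sqC c (8 * r) ⊆ K →
    ((C n).toFC K).G.Sol (((C n).toFC K).inside (sqO c r)) 0
      (fun x => (if x ∈ Γ n then ((C n).toFC K).G.deg x else 0) / M n) 0 u → ∀ x, u x ≤ ε

/-- The time spent at vertices outside `Γ n` by the walk from `x n` is negligible. -/
def BadNegl (O : Set ℂ) (C : ℕ → Cells) (Γ : ℕ → Set ℂ) (M : ℕ → ℝ) (x : ℕ → ℂ) : Prop :=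
  ∀ K U, IsCompact K → K ⊆ O → IsOpen U → closure U ⊆ interior K → ∀ ε > 0, ∀ᶠ n in atTop, ∀ u,
    ((C n).toFC K).G.Sol (((C n).toFC K).inside U) 0
      (fun x => (if x ∈ Γ n then 0 else ((C n).toFC K).G.deg x) / M n) 0 u → u (x n) ≤ ε

end Pool.Agent.Lib.MP_0d9445_pr.Walk
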