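import Pool.Agent.Lib.MP_0d9445_pr.Walk.Iface

noncomputable section

open MeasureTheory ProbabilityTheory Set Filter Topology
open scoped NNReal ENNReal Classical

namespace Pool.Agent.Lib.MP_0d9445_pr.Walk

open BM Cell

namespace PfBnd

/-- Sums of nonnegative terms over centres are subadditive over finite unions. -/
theorem sum_union_le (N : FC) {ι : Type*} (T : Finset ι) (A : ι → Set ℂ) (f : ℂ → ℝ)
    (hf : ∀ x, 0 ≤ f x) :
    ∑ x ∈ N.pts (⋃ s ∈ T, A s), f x ≤ ∑ s ∈ T, ∑ x ∈ N.pts (A s), f x := by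
  simp only [FC.pts, Finset.sum_filter]
  rw [Finset.sum_comm]
  refine Finset.sum_le_sum fun x _ => ?_
  have h0 : ∀ s ∈ T, 0 ≤ (if x ∈ A s then f x else 0) := fun s _ => by
    split_ifs
    · exact hf x
    · exact le_rfl
  by_cases hx : x ∈ ⋃ s ∈ T, A s
  · obtain ⟨s, hs, hxs⟩ := mem_iUnion₂.1 hx
    rw [if_pos hx]
    have := Finset.single_le_sum h0 hs
    rwa [if_pos hxs] at this
  · rw [if_neg hx]
    exact Finset.sum_nonneg h0

theorem X_eq (N : FC) (S : Set ℂ) : N.X S = ∑ x ∈ N.pts S,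
    (1 / 2 * ∑ y ∈ N.G.N x, (x.re - y.re) * (x.re - y.re) +
      1 / 2 * ∑ y ∈ N.G.N x, (x.im - y.im) * (x.im - y.im)) := by
  simp only [FC.X, Net.en, Finset.sum_add_distrib, Finset.mul_sum]

theorem X_union_le (N : FC) {ι : Type*} (T : Finset ι) (A : ι → Set ℂ) :
    N.X (⋃ s ∈ T, A s) ≤ ∑ s ∈ T, N.X (A s) := by
  simp only [X_eq]
  refine sum_union_le N T A _ fun x => add_nonneg ?_ ?_
  · exact mul_nonneg (by norm_num) (Finset.sum_nonneg fun y _ => mul_self_nonneg _)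
  · exact mul_nonneg (by norm_num) (Finset.sum_nonneg fun y _ => mul_self_nonneg _)

theorem Y_union_le (N : FC) {ι : Type*} (T : Finset ι) (A : ι → Set ℂ) :
    N.Y (⋃ s ∈ T, A s) ≤ ∑ s ∈ T, N.Y (A s) :=
  sum_union_le N T A _ fun _ => sq_nonneg _

variable {K : Set ℂ} {μ : Measure ℂ} {a : ℝ} {N : ℕ → FC} {ρ : ℕ → ℂ → ℝ} {FF : Set (ℂ × ℝ)}

theorem part2 (h : Good K μ a N ρ FF) :
    ∃ C : ℝ, 0 ≤ C ∧ ∀ T : Finset (ℂ × ℝ), (∀ s ∈ T, 0 < s.2 ∧ sqC s.1 s.2 ⊆ K) →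
      ∀ᶠ n in atTop, (N n).X (⋃ s ∈ T, sqC s.1 s.2) ≤ C * ∑ s ∈ T, s.2 ^ 2 ∧
        (N n).Y (⋃ s ∈ T, sqC s.1 s.2) ≤ C * ∑ s ∈ T, s.2 ^ 2 := by
  obtain ⟨C, hC⟩ := h.xy
  refine ⟨max C 0, le_max_right _ _, fun T hT => ?_⟩
  have h1 : ∀ᶠ n in atTop, ∀ s ∈ T, (N n).X (sqC s.1 s.2) ≤ C * s.2 ^ 2 ∧
      (N n).Y (sqC s.1 s.2) ≤ C * s.2 ^ 2 :=
    (Finset.eventually_all T).2 fun s hs => hC s.1 s.2 (hT s hs).1 (hT s hs).2
  have h2 : ∀ s : ℂ × ℝ, C * s.2 ^ 2 ≤ max C 0 * s.2 ^ 2 := fun s =>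
    mul_le_mul_of_nonneg_right (le_max_left _ _) (sq_nonneg _)
  filter_upwards [h1] with n hn
  rw [Finset.mul_sum]
  exact ⟨(X_union_le _ T _).trans (Finset.sum_le_sum fun s hs => (hn s hs).1.trans (h2 s)),
    (Y_union_le _ T _).trans (Finset.sum_le_sum fun s hs => (hn s hs).2.trans (h2 s))⟩

theorem exists_cover {K K' : Set ℂ} (hK' : IsCompact K') (hs : K' ⊆ interior K) :
    ∃ T : Finset (ℂ × ℝ), (∀ s ∈ T, 0 < s.2 ∧ sqC s.1 s.2 ⊆ K) ∧ K' ⊆ ⋃ s ∈ T, sqC s.1 s.2 := by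
  have h1 : ∀ c ∈ K', ∃ r : ℝ, 0 < r ∧ sqC c r ⊆ K := by
    intro c hc
    obtain ⟨ε, hε, hb⟩ := Metric.mem_nhds_iff.1 (mem_interior_iff_mem_nhds.1 (hs hc))
    refine ⟨ε / 3, by positivity, fun w hw => hb ?_⟩
    have h2 : sn c w ≤ ε / 3 := hw
    have := dist_le_sn c w
    rw [Metric.mem_ball]
    linarith
  choose! r hr using h1
  obtain ⟨t, ht, hc⟩ := hK'.elim_nhds_subcover (fun c => sqC c (r c)) fun c hc => by
    refine mem_of_superset (Metric.ball_mem_nhds c (hr c hc).1) fun w hw => ?_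
    exact (sn_le_dist c w).trans (Metric.mem_ball.1 hw).le
  refine ⟨t.image fun c => (c, r c), fun s hs => ?_, fun w hw => ?_⟩
  · obtain ⟨c, hc, rfl⟩ := Finset.mem_image.1 hs
    exact hr c (ht c hc)
  · obtain ⟨c, hc, hwc⟩ := mem_iUnion₂.1 (hc hw)
    exact mem_iUnion₂.2 ⟨(c, r c), Finset.mem_image_of_mem _ hc, hwc⟩

theorem mass_le (h : Good K μ a N ρ FF) {K' : Set ℂ} (hK' : IsCompact K')
    (hs : K' ⊆ interior K) : ∃ C : ℝ, ∀ᶠ n in atTop, ∑ x ∈ (N n).pts K', ρ n x ≤ C := by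
  obtain ⟨φ, h1, h2, h3⟩ := exists_tsupport_one_of_isOpen_isClosed isOpen_interior
    (h.cpt.closure_of_subset interior_subset) hK'.isClosed hs
  have h4 := h.mass φ φ.continuous h1
  refine ⟨2 * a * ∫ w, φ w ∂μ + 1, ?_⟩
  filter_upwards [h4.eventually (Iic_mem_nhds (lt_add_one _))] with n hn
  refine le_trans ?_ hn
  calc ∑ x ∈ (N n).pts K', ρ n x = ∑ x ∈ (N n).pts K', ρ n x * φ x := by
        refine Finset.sum_congr rfl fun x hx => ?_
        rw [h2 ((N n).mem_pts.1 hx).2, Pi.one_apply, mul_one]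
    _ ≤ ∑ x ∈ (N n).V, ρ n x * φ x :=
        Finset.sum_le_sum_of_subset_of_nonneg (Finset.filter_subset _ _)
          fun x _ _ => mul_nonneg (h.rho_nonneg n x) (h3 x).1

theorem part1 (hCS : CS) (h : Good K μ a N ρ FF) (K' : Set ℂ) (hK' : IsCompact K')
    (hs : K' ⊆ interior K) : ∃ C : ℝ, 0 ≤ C ∧ ∀ᶠ n in atTop,
      (N n).X K' ≤ C ∧ (N n).Y K' ≤ C ∧ ∑ x ∈ (N n).pts K', ρ n x ≤ C := by
  obtain ⟨C, -, hC⟩ := part2 h
  obtain ⟨T, hT, hc⟩ := exists_cover hK' hs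
  obtain ⟨D, hD⟩ := mass_le h hK' hs
  refine ⟨max (max (C * ∑ s ∈ T, s.2 ^ 2) D) 0, le_max_right _ _, ?_⟩
  filter_upwards [hC T hT, hD] with n h1 h2
  obtain ⟨-, -, h3, h4⟩ := hCS.2.2.2 (N n) K' _ hc
  exact ⟨(h3.trans h1.1).trans ((le_max_left _ _).trans (le_max_left _ _)),
    (h4.trans h1.2).trans ((le_max_left _ _).trans (le_max_left _ _)),
    h2.trans ((le_max_right _ _).trans (le_max_left _ _))⟩

theorem part3 (h : Good K μ a N ρ FF) (φ : ℕ → ℕ) (hφ : Tendsto φ atTop atTop) :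
    Good K μ a (fun n => N (φ n)) (fun n => ρ (φ n)) FF where
  cpt := h.cpt
  a_pos := h.a_pos
  nice ε hε := hφ.eventually (h.nice ε hε)
  xy := h.xy.imp fun _ hC c r hr hK => hφ.eventually (hC c r hr hK)
  child := h.child
  sub_int := h.sub_int
  null := h.null
  nu s hs p hp := (h.nu s hs p hp).comp hφ
  rho_nonneg n x := h.rho_nonneg (φ n) x
  mass ψ h1 h2 := (h.mass ψ h1 h2).comp hφ
  frost := h.frost
  green ε hε := (h.green ε hε).imp fun _ hδ =>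
    ⟨hδ.1, fun r hr hrδ => hφ.eventually (hδ.2 r hr hrδ)⟩

/-- A segment in the closure of `U` from a point of `U` to a point outside `U`. -/
theorem exists_exit {U : Set ℂ} (hU : IsOpen U) (hb : Bornology.IsBounded U) {x : ℂ}
    (hx : x ∈ U) : ∃ L : Set ℂ, IsPreconnected L ∧ L ⊆ closure U ∧ x ∈ L ∧ ∃ w ∈ L, w ∉ U := by
  have hf : Continuous fun t : ℝ => x + (t : ℂ) := by fun_prop
  set S : Set ℝ := Ici 0 ∩ (fun t : ℝ => x + (t : ℂ)) ⁻¹' Uᶜ with hS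
  have hcl : IsClosed S := isClosed_Ici.inter (hU.isClosed_compl.preimage hf)
  have hne : S.Nonempty := by
    obtain ⟨R, hR⟩ := hb.subset_ball x
    refine ⟨max R 0, mem_Ici.2 (le_max_right _ _), fun hm => ?_⟩
    have h1 := Metric.mem_ball.1 (hR hm)
    rw [dist_self_add_left, Complex.norm_real, Real.norm_eq_abs,
      abs_of_nonneg (le_max_right _ _)] at h1
    exact absurd (le_max_left R 0) (not_le.2 h1)
  have hbd : BddBelow S := ⟨0, fun t ht => ht.1⟩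
  have hm := hcl.csInf_mem hne hbd
  have hpos : 0 < sInf S := by
    refine lt_of_le_of_ne hm.1 fun e => hm.2 ?_
    rw [← e]
    simpa using hx
  refine ⟨(fun t : ℝ => x + (t : ℂ)) '' Icc 0 (sInf S), isPreconnected_Icc.image _ hf.continuousOn,
    ?_, ⟨0, ⟨le_rfl, hpos.le⟩, by simp⟩, _, ⟨sInf S, ⟨hpos.le, le_rfl⟩, rfl⟩, hm.2⟩
  rw [← closure_Ico hpos.ne]
  refine (image_closure_subset_closure_image hf).trans (closure_mono ?_)
  rintro _ ⟨t, ht, rfl⟩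
  by_contra hn
  exact absurd (csInf_le hbd ⟨ht.1, hn⟩) (not_le.2 ht.2)

theorem esc_of_nice {M : FC} {K U : Set ℂ} {ε : ℝ} (hK : IsCompact K) (h : M.Nice K ε)
    (hU : IsOpen U) (hs : closure U ⊆ K) : M.G.Esc (M.inside U) := by
  intro x hx
  obtain ⟨h1, h2⟩ := mem_ins.1 hx
  obtain ⟨L, hL, hLU, hxL, w, hw, hwU⟩ :=
    exists_exit hU (hK.isBounded.subset (subset_closure.trans hs)) (h2 (h.mem x h1))
  obtain ⟨y, hy, hwy⟩ := h.cover w (hs (hLU hw))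
  exact ⟨y, fun hh => hwU ((mem_ins.1 hh).2 hwy), h.cw.reach hL (hLU.trans hs)
    (mem_mt.2 ⟨h1, x, h.mem x h1, hxL⟩) (mem_mt.2 ⟨hy, w, hwy, hw⟩)⟩

theorem part4 (h : Good K μ a N ρ FF) (s : ℂ × ℝ) (hs : s ∈ FF) :
    ∀ᶠ n in atTop, (N n).G.Esc ((N n).G.inner ((N n).pts (box s.1 s.2))) := by
  have hc : IsCompact (closure (box s.1 s.2)) :=
    h.cpt.of_isClosed_subset isClosed_closure ((h.sub_int s hs).trans interior_subset)
  obtain ⟨δ, hδ, hsub⟩ := hc.exists_cthickening_subset_open isOpen_interior (h.sub_int s hs)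
  filter_upwards [h.nice (δ / 2) (by positivity)] with n hn
  refine (esc_of_nice h.cpt hn (U := Metric.thickening δ (closure (box s.1 s.2)))
    Metric.isOpen_thickening ((Metric.closure_thickening_subset_cthickening _ _).trans
      (hsub.trans interior_subset))).mono fun x hx => ?_
  obtain ⟨h1, h2⟩ := (N n).mem_pts.1 (Finset.mem_filter.1 hx).1
  refine mem_ins.2 ⟨h1, fun w hw => Metric.mem_thickening_iff.2 ⟨x, subset_closure h2, ?_⟩⟩
  have := hn.dist_le h1 hw (hn.mem x h1)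
  linarith

end PfBnd

theorem Bnd_of (hGeo : Geo) (hCS : CS) : Bnd := by
  intro K μ a N ρ FF h
  refine ⟨PfBnd.part1 hCS h, PfBnd.part2 h, PfBnd.part3 h, PfBnd.part4 h, fun U hU hs => ?_⟩
  filter_upwards [h.nice 1 one_pos] with n hn
  exact PfBnd.esc_of_nice h.cpt hn hU hs

end Pool.Agent.Lib.MP_0d9445_pr.Walk
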