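import Pool.Agent.Lib.MP_0d9445_pr.Walk.Iface

noncomputable section

open MeasureTheory ProbabilityTheory Set Filter Topology
open scoped NNReal ENNReal Classical

namespace Pool.Agent.Lib.MP_0d9445_pr.Walk

open BM Cell

namespace PfGeo

open Complex in
theorem sqC_eq (c : ℂ) (r : ℝ) :
    sqC c r = Icc (c.re - r) (c.re + r) ×ℂ Icc (c.im - r) (c.im + r) := by
  ext w
  simp only [sqC, mem_ofPred_eq, sn_le_iff, abs_le, mem_reProdIm, mem_Icc]
  constructor
  · rintro ⟨⟨h1, h2⟩, h3, h4⟩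
    exact ⟨⟨by linarith, by linarith⟩, by linarith, by linarith⟩
  · rintro ⟨⟨h1, h2⟩, h3, h4⟩
    exact ⟨⟨by linarith, by linarith⟩, by linarith, by linarith⟩

open Complex in
theorem sqO_eq (c : ℂ) (r : ℝ) :
    sqO c r = Ioo (c.re - r) (c.re + r) ×ℂ Ioo (c.im - r) (c.im + r) := by
  ext w
  simp only [sqO, mem_ofPred_eq, sn_lt_iff, abs_lt, mem_reProdIm, mem_Ioo]
  constructor
  · rintro ⟨⟨h1, h2⟩, h3, h4⟩
    exact ⟨⟨by linarith, by linarith⟩, by linarith, by linarith⟩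
  · rintro ⟨⟨h1, h2⟩, h3, h4⟩
    exact ⟨⟨by linarith, by linarith⟩, by linarith, by linarith⟩

open Complex in
theorem box_eq (a : ℂ) (l : ℝ) :
    box a l = Ico a.re (a.re + l) ×ℂ Ico a.im (a.im + l) := by
  ext w
  simp only [box, mem_ofPred_eq, mem_reProdIm, mem_Ico]
  tauto

theorem ctr_re (a : ℂ) (l : ℝ) : (ctr a l).re = a.re + l / 2 := by simp [ctr]

theorem ctr_im (a : ℂ) (l : ℝ) : (ctr a l).im = a.im + l / 2 := by simp [ctr]

theorem sub_re (a : ℂ) (l : ℝ) (k i j : ℕ) : (sub a l k i j).re = a.re + l / 2 ^ k * i := by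
  simp only [sub, Complex.add_re, Complex.mul_re, Complex.ofReal_re, Complex.ofReal_im,
    Complex.natCast_re, Complex.natCast_im, Complex.I_re, Complex.I_im]
  ring

theorem sub_im (a : ℂ) (l : ℝ) (k i j : ℕ) : (sub a l k i j).im = a.im + l / 2 ^ k * j := by
  simp only [sub, Complex.add_im, Complex.add_re, Complex.mul_im, Complex.mul_re,
    Complex.ofReal_re, Complex.ofReal_im, Complex.natCast_re, Complex.natCast_im, Complex.I_re,
    Complex.I_im]
  ring

theorem isOpen_sqO (c : ℂ) (r : ℝ) : IsOpen (sqO c r) :=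
  isOpen_lt (continuous_sn c) continuous_const

theorem isCompact_sqC (c : ℂ) (r : ℝ) : IsCompact (sqC c r) := by
  refine Metric.isCompact_of_isClosed_isBounded (isClosed_le (continuous_sn c) continuous_const) ?_
  refine (Metric.isBounded_closedBall (x := c) (r := 2 * r)).subset fun w hw => ?_
  have h1 : sn c w ≤ r := hw
  have := dist_le_sn c w
  rw [Metric.mem_closedBall]
  linarith

theorem closure_sqO (c : ℂ) {r : ℝ} (hr : 0 < r) : closure (sqO c r) = sqC c r := by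
  rw [sqO_eq, sqC_eq, Complex.closure_reProdIm, closure_Ioo (by linarith),
    closure_Ioo (by linarith)]

theorem interior_sqC (c : ℂ) (r : ℝ) : interior (sqC c r) = sqO c r := by
  rw [sqO_eq, sqC_eq, Complex.interior_reProdIm, interior_Icc, interior_Icc]

theorem frontier_sqO (c : ℂ) {r : ℝ} (hr : 0 < r) : frontier (sqO c r) = frame c r := by
  rw [frontier, closure_sqO c hr, (isOpen_sqO c r).interior_eq]
  ext w
  simp only [sqC, sqO, frame, Set.mem_sdiff, mem_ofPred_eq, not_lt]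
  exact ⟨fun h => le_antisymm h.1 h.2, fun h => ⟨h.le, h.ge⟩⟩

theorem closure_box (a : ℂ) {l : ℝ} (hl : 0 < l) :
    closure (box a l) = sqC (ctr a l) (l / 2) := by
  rw [box_eq, sqC_eq, Complex.closure_reProdIm, closure_Ico (by linarith),
    closure_Ico (by linarith), ctr_re, ctr_im]
  congr 2 <;> ring

theorem interior_box (a : ℂ) (l : ℝ) : interior (box a l) = sqO (ctr a l) (l / 2) := by
  rw [box_eq, sqO_eq, Complex.interior_reProdIm, interior_Ico, interior_Ico, ctr_re, ctr_im]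
  congr 2 <;> ring

theorem convex_sqO (c : ℂ) (r : ℝ) : Convex ℝ (sqO c r) := by
  rw [← interior_sqC]
  exact (convex_sqC c r).interior

theorem convex_box (a : ℂ) (l : ℝ) : Convex ℝ (box a l) := by
  rw [box_eq]
  exact ((convex_Ico _ _).linear_preimage Complex.reLm).inter
    ((convex_Ico _ _).linear_preimage Complex.imLm)

theorem measurableSet_box (a : ℂ) (l : ℝ) : MeasurableSet (box a l) := by
  rw [box_eq]
  exact (Complex.measurable_re measurableSet_Ico).inter (Complex.measurable_im measurableSet_Ico)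

theorem volume_box (a : ℂ) {l : ℝ} (hl : 0 < l) : volume (box a l) = ENNReal.ofReal (l ^ 2) := by
  have e : box a l = Complex.measurableEquivRealProd ⁻¹'
      (Ico a.re (a.re + l) ×ˢ Ico a.im (a.im + l)) := by
    ext w
    simp only [box, mem_ofPred_eq, mem_preimage, Complex.measurableEquivRealProd_apply, mem_prod,
      mem_Ico]
    tauto
  rw [e, Complex.volume_preserving_equiv_real_prod.measure_preimage_equiv, Measure.volume_eq_prod,
    Measure.prod_prod, Real.volume_Ico, Real.volume_Ico, add_sub_cancel_left, add_sub_cancel_left,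
    ← ENNReal.ofReal_mul hl.le, sq]

theorem volume_frontier_box (a : ℂ) (l : ℝ) : volume (frontier (box a l)) = 0 :=
  (convex_box a l).addHaar_frontier volume

theorem part1 {a h x : ℝ} (hh : 0 < h) (n : ℕ) :
    (a ≤ x ∧ x < a + h * n) ↔ ∃ i < n, a + h * (i : ℕ) ≤ x ∧ x < a + h * (i : ℕ) + h := by
  constructor
  · rintro ⟨h1, h2⟩
    have h0 : 0 ≤ (x - a) / h := div_nonneg (by linarith) hh.le
    have f1 := Nat.floor_le h0
    have f2 := Nat.lt_floor_add_one ((x - a) / h)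
    rw [le_div_iff₀ hh] at f1
    rw [div_lt_iff₀ hh] at f2
    refine ⟨⌊(x - a) / h⌋₊, ?_, by linarith, by linarith⟩
    rw [Nat.floor_lt h0, div_lt_iff₀ hh]
    linarith
  · rintro ⟨i, hi, h1, h2⟩
    have h3 : (i : ℝ) + 1 ≤ n := by exact_mod_cast hi
    have h4 : (0 : ℝ) ≤ i := Nat.cast_nonneg i
    constructor <;> nlinarith

theorem disj1 {a h x : ℝ} (hh : 0 < h) {i i' : ℕ} (h1 : a + h * i ≤ x) (h2 : x < a + h * i + h)
    (h3 : a + h * i' ≤ x) (h4 : x < a + h * i' + h) : i = i' := by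
  have e1 : (i : ℝ) < i' + 1 := by
    by_contra hc
    push Not at hc
    nlinarith
  have e2 : (i' : ℝ) < i + 1 := by
    by_contra hc
    push Not at hc
    nlinarith
  have e3 : i < i' + 1 := by exact_mod_cast e1
  have e4 : i' < i + 1 := by exact_mod_cast e2
  omega

theorem sub_part (a : ℂ) (l : ℝ) (k : ℕ) (w : ℂ) (hl : 0 < l) : w ∈ box a l ↔
    ∃ i < 2 ^ k, ∃ j < 2 ^ k, w ∈ box (sub a l k i j) (l / 2 ^ k) := by
  have hh : 0 < l / 2 ^ k := by positivity
  have e : l / 2 ^ k * ((2 ^ k : ℕ) : ℝ) = l := by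
    push_cast
    field_simp
  have p1 := part1 (a := a.re) (x := w.re) hh (2 ^ k)
  have p2 := part1 (a := a.im) (x := w.im) hh (2 ^ k)
  rw [e] at p1 p2
  simp only [box, mem_ofPred_eq, sub_re, sub_im]
  constructor
  · rintro ⟨h1, h2, h3, h4⟩
    obtain ⟨i, hi, a1, a2⟩ := p1.1 ⟨h1, h2⟩
    obtain ⟨j, hj, b1, b2⟩ := p2.1 ⟨h3, h4⟩
    exact ⟨i, hi, j, hj, a1, a2, b1, b2⟩
  · rintro ⟨i, hi, j, hj, a1, a2, b1, b2⟩
    obtain ⟨h1, h2⟩ := p1.2 ⟨i, hi, a1, a2⟩
    obtain ⟨h3, h4⟩ := p2.2 ⟨j, hj, b1, b2⟩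
    exact ⟨h1, h2, h3, h4⟩

theorem sub_disj (a : ℂ) (l : ℝ) (k i j i' j' : ℕ) (w : ℂ) (hl : 0 < l)
    (h : w ∈ box (sub a l k i j) (l / 2 ^ k)) (h' : w ∈ box (sub a l k i' j') (l / 2 ^ k)) :
    i = i' ∧ j = j' := by
  have hh : 0 < l / 2 ^ k := by positivity
  simp only [box, mem_ofPred_eq, sub_re, sub_im] at h h'
  exact ⟨disj1 hh h.1 h.2.1 h'.1 h'.2.1, disj1 hh h.2.2.1 h.2.2.2 h'.2.2.1 h'.2.2.2⟩

theorem sub_sub (a : ℂ) (l : ℝ) (k i j i' j' : ℕ) :
    sub (sub a l k i j) (l / 2 ^ k) 1 i' j' = sub a l (k + 1) (2 * i + i') (2 * j + j') := by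
  apply Complex.ext
  · rw [sub_re, sub_re, sub_re]
    push_cast
    field_simp
    ring
  · rw [sub_im, sub_im, sub_im]
    push_cast
    field_simp
    ring

theorem desc (FF : Set (ℂ × ℝ)) (h : ChildClosed FF) (s : ℂ × ℝ) (hs : s ∈ FF) (k : ℕ) :
    ∀ i j : ℕ, i < 2 ^ k → j < 2 ^ k → (sub s.1 s.2 k i j, s.2 / 2 ^ k) ∈ FF := by
  induction k with
  | zero =>
    intro i j hi hj
    obtain rfl : i = 0 := by omega
    obtain rfl : j = 0 := by omega
    simpa [sub] using hs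
  | succ k ih =>
    intro i j hi hj
    rw [pow_succ] at hi hj
    have h1 := (h _ (ih (i / 2) (j / 2) (by omega) (by omega))).2 (i % 2) (j % 2) (by omega)
      (by omega)
    simp only [sub_sub, Nat.div_add_mod] at h1
    rwa [div_div, ← pow_succ] at h1

theorem exists_level {l ρ : ℝ} (hρ : 0 < ρ) : ∃ k : ℕ, l / 2 ^ k < ρ := by
  obtain ⟨k, hk⟩ := pow_unbounded_of_one_lt (l / ρ) (one_lt_two (α := ℝ))
  refine ⟨k, ?_⟩
  rw [div_lt_iff₀ hρ] at hk
  rw [div_lt_iff₀ (by positivity)]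
  linarith

theorem null_cover (Z O : Set ℂ) (hZ : IsCompact Z) (h0 : volume Z = 0) (hO : IsOpen O)
    (hZO : Z ⊆ O) (ε : ℝ) (hε : ε > 0) :
    ∃ T : Finset (ℂ × ℝ), (∀ s ∈ T, 0 < s.2 ∧ sqC s.1 (2 * s.2) ⊆ O) ∧
      Z ⊆ ⋃ s ∈ T, sqO s.1 s.2 ∧ ∑ s ∈ T, s.2 ^ 2 ≤ ε := by
  obtain ⟨G, hZG, hG, hGv⟩ := Z.exists_isOpen_lt_of_lt (μ := volume) (ENNReal.ofReal ε)
    (by rw [h0]; exact ENNReal.ofReal_pos.2 hε)
  obtain ⟨δ, hδ, hth⟩ := hZ.exists_cthickening_subset_open (hG.inter hO) (subset_inter hZG hZO)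
  obtain ⟨R, hR0, hR⟩ := hZ.isBounded.subset_ball_lt 0 (0 : ℂ)
  set a : ℂ := ⟨-R, -R⟩ with ha
  have hl : 0 < 2 * R := by linarith
  have hZb : Z ⊆ box a (2 * R) := fun z hz => by
    have h1 : ‖z‖ < R := by simpa using hR hz
    have h2 := abs_lt.1 ((Complex.abs_re_le_norm z).trans_lt h1)
    have h3 := abs_lt.1 ((Complex.abs_im_le_norm z).trans_lt h1)
    refine ⟨?_, ?_, ?_, ?_⟩ <;> simp only [ha] <;> linarith [h2.1, h2.2, h3.1, h3.2]
  obtain ⟨k, hk⟩ := exists_level (l := 2 * R) (ρ := δ / 5) (by positivity)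
  set h : ℝ := 2 * R / 2 ^ k with hh
  have hh0 : 0 < h := by positivity
  set B : ℕ × ℕ → Set ℂ := fun q => box (sub a (2 * R) k q.1 q.2) h with hB
  set c : ℕ × ℕ → ℂ := fun q => ctr (sub a (2 * R) k q.1 q.2) h with hc
  have hBc : ∀ q, ∀ w ∈ B q, sn (c q) w ≤ h / 2 := fun q w hw => by
    have := subset_closure hw
    rw [closure_box _ hh0] at this
    exact this
  set T0 : Finset (ℕ × ℕ) := (Finset.range (2 ^ k) ×ˢ Finset.range (2 ^ k)).filter
    fun q => (B q ∩ Z).Nonempty with hT0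
  have key : ∀ q ∈ T0, sqC (c q) (2 * h) ⊆ G ∩ O := fun q hq w hw => by
    obtain ⟨z, hz1, hz2⟩ := (Finset.mem_filter.1 hq).2
    refine hth (Metric.mem_cthickening_of_dist_le w z δ Z hz2 ?_)
    have e1 : sn (c q) w ≤ 2 * h := hw
    have e2 := hBc q z hz1
    have e3 := sn_triangle z (c q) w
    have e4 := dist_le_sn z w
    rw [sn_comm z (c q)] at e3
    linarith
  refine ⟨T0.image fun q => (c q, h), ?_, ?_, ?_⟩
  · intro s hs
    obtain ⟨q, hq, rfl⟩ := Finset.mem_image.1 hs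
    exact ⟨hh0, (key q hq).trans inter_subset_right⟩
  · intro z hz
    obtain ⟨i, hi, j, hj, hw⟩ := (sub_part a (2 * R) k z hl).1 (hZb hz)
    have hq : (i, j) ∈ T0 := Finset.mem_filter.2
      ⟨Finset.mem_product.2 ⟨Finset.mem_range.2 hi, Finset.mem_range.2 hj⟩, z, hw, hz⟩
    refine mem_iUnion₂.2 ⟨(c (i, j), h), Finset.mem_image_of_mem _ hq, ?_⟩
    have := hBc (i, j) z hw
    change sn (c (i, j)) z < h
    linarith
  · have s1 : ∑ s ∈ T0.image (fun q => (c q, h)), s.2 ^ 2 ≤ ∑ _q ∈ T0, h ^ 2 :=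
      Finset.sum_image_le_of_nonneg (f := fun s : ℂ × ℝ => s.2 ^ 2) fun s _ => sq_nonneg _
    refine s1.trans ?_
    have hd : (T0 : Set (ℕ × ℕ)).PairwiseDisjoint B := fun q _ q' _ hne =>
      Set.disjoint_left.2 fun w h1 h2 => hne <| by
        obtain ⟨e1, e2⟩ := sub_disj a (2 * R) k _ _ _ _ w hl h1 h2
        exact Prod.ext e1 e2
    have hm := measure_biUnion_finset (μ := volume) hd fun q _ => measurableSet_box _ _
    have hsub : ⋃ q ∈ T0, B q ⊆ G := iUnion₂_subset fun q hq w hw =>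
      (key q hq (show sn (c q) w ≤ 2 * h by linarith [hBc q w hw])).1
    have hle := (measure_mono (μ := volume) hsub).trans hGv.le
    rw [hm, Finset.sum_congr rfl fun q _ => volume_box _ hh0,
      ← ENNReal.ofReal_sum_of_nonneg fun q _ => sq_nonneg h] at hle
    exact (ENNReal.ofReal_le_ofReal_iff hε.le).1 hle

theorem null_sub (FF : Set (ℂ × ℝ)) (O O' : Set ℂ) (hc : FF.Countable) (hF : ChildClosed FF)
    (h0 : volume (O \ cov FF) = 0) (hO' : IsOpen O') (hsub : O' ⊆ O) :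
    ChildClosed {s | s ∈ FF ∧ closure (box s.1 s.2) ⊆ O'} ∧
      volume (O' \ cov {s | s ∈ FF ∧ closure (box s.1 s.2) ⊆ O'}) = 0 := by
  constructor
  · rintro s ⟨hs, hs'⟩
    have hl := (hF s hs).1
    refine ⟨hl, fun i j hi hj => ⟨(hF s hs).2 i j hi hj, (closure_mono fun w hw => ?_).trans hs'⟩⟩
    refine (sub_part s.1 s.2 1 w hl).2 ⟨i, by simpa using hi, j, by simpa using hj, ?_⟩
    simpa using hw
  · have hn : volume (⋃ s ∈ FF, frontier (box s.1 s.2)) = 0 :=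
      (measure_biUnion_null_iff hc).2 fun s _ => volume_frontier_box _ _
    refine measure_mono_null (t := (O \ cov FF) ∪ ⋃ s ∈ FF, frontier (box s.1 s.2)) ?_
      (measure_union_null h0 hn)
    rintro w ⟨hw, hw'⟩
    by_contra hcon
    rw [mem_union, not_or] at hcon
    have hcov : w ∈ cov FF := by
      by_contra h
      exact hcon.1 ⟨hsub hw, h⟩
    obtain ⟨s, hs, hws⟩ := mem_iUnion₂.1 hcov
    have hl := (hF s hs).1
    obtain ⟨ρ, hρ, hball⟩ := Metric.isOpen_iff.1 hO' w hw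
    obtain ⟨k, hk⟩ := exists_level (l := s.2) (ρ := ρ / 2) (by positivity)
    have hh : 0 < s.2 / 2 ^ k := by positivity
    obtain ⟨i, hi, j, hj, hb⟩ := (sub_part s.1 s.2 k w hl).1 (interior_subset hws)
    have hd := desc FF hF s hs k i j hi hj
    have hint : w ∈ interior (box (sub s.1 s.2 k i j) (s.2 / 2 ^ k)) := by
      by_contra h
      exact hcon.2 (mem_iUnion₂.2 ⟨_, hd, subset_closure hb, h⟩)
    refine hw' (mem_iUnion₂.2 ⟨(sub s.1 s.2 k i j, s.2 / 2 ^ k), ⟨hd, fun y hy => hball ?_⟩, hint⟩)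
    have hw2 := subset_closure hb
    rw [closure_box _ hh] at hy hw2
    have e1 : sn (ctr (sub s.1 s.2 k i j) (s.2 / 2 ^ k)) y ≤ s.2 / 2 ^ k / 2 := hy
    have e2 : sn (ctr (sub s.1 s.2 k i j) (s.2 / 2 ^ k)) w ≤ s.2 / 2 ^ k / 2 := hw2
    have e3 := sn_triangle w (ctr (sub s.1 s.2 k i j) (s.2 / 2 ^ k)) y
    have e4 := dist_le_sn w y
    rw [sn_comm w (ctr _ _)] at e3
    rw [Metric.mem_ball]
    linarith

theorem frames_holes (c : ℂ) (R δ : ℝ) (Z : Set ℂ) (hδ : 0 < δ) :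
    Frames (sqO c R \ ⋃ p ∈ Z, sqC p δ) := by
  refine ⟨δ, hδ, fun c' r _ hr hf w hw => ⟨?_, fun hmem => ?_⟩⟩
  · exact sqC_subset_of_convex (convex_sqO c R) (hf.trans sdiff_subset) (sqO_subset _ _ hw)
  · obtain ⟨p, hp, hwp⟩ := mem_iUnion₂.1 hmem
    have hy : ∃ y ∈ sqC p δ, r ≤ sn c' y := by
      have f1 : ∀ t : ℝ, |t| = δ → (⟨p.re + t, p.im⟩ : ℂ) ∈ sqC p δ := fun t ht => by
        simp [sqC, sn, ht, hδ.le]
      rcases le_total c'.re p.re with h | h
      · refine ⟨_, f1 δ (abs_of_pos hδ), le_max_of_le_left (le_abs.2 (Or.inl ?_))⟩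
        simp only
        linarith
      · refine ⟨_, f1 (-δ) (by rw [abs_neg, abs_of_pos hδ]),
          le_max_of_le_left (le_abs.2 (Or.inr ?_))⟩
        simp only
        linarith
    obtain ⟨y, hy1, hy2⟩ := hy
    obtain ⟨z, hz1, hz2⟩ := meets_frame (convex_sqC p δ).isPreconnected hwp hy1
      (sqO_subset _ _ hw) hy2
    exact (hf hz2).2 (mem_iUnion₂.2 ⟨p, hp, hz1⟩)

end PfGeo

open PfGeo in
theorem Geo_of : Geo where
  sq_cpt := isCompact_sqC
  osq_open := isOpen_sqO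
  osq_closure c r hr := ⟨closure_sqO c hr, frontier_sqO c hr, interior_sqC c r⟩
  box_sq a l hl := ⟨closure_box a hl, interior_box a l⟩
  box_vol a l hl := ⟨measurableSet_box a l, volume_box a hl, volume_frontier_box a l⟩
  sub_part := sub_part
  sub_disj := sub_disj
  pts_part N a l k hl := by
    constructor
    · ext x
      simp only [FC.mem_pts, Finset.mem_biUnion, Finset.mem_product, Finset.mem_range,
        sub_part a l k x hl]
      constructor
      · rintro ⟨hx, i, hi, j, hj, h⟩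
        exact ⟨(i, j), ⟨hi, hj⟩, hx, h⟩
      · rintro ⟨q, ⟨hi, hj⟩, hx, h⟩
        exact ⟨hx, q.1, hi, q.2, hj, h⟩
    · intro q _ q' _ hne
      refine Finset.disjoint_left.2 fun w h1 h2 => hne ?_
      obtain ⟨e1, e2⟩ := sub_disj a l k _ _ _ _ w hl (N.mem_pts.1 h1).2 (N.mem_pts.1 h2).2
      exact Prod.ext e1 e2
  desc := desc
  adm_osq K c r hr h := ⟨isOpen_sqO c r, by rwa [closure_sqO c hr], 1, one_pos,
    fun c' r' _ _ hf => (sqO_subset _ _).trans (sqC_subset_of_convex (convex_sqO c r) hf)⟩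
  null_cover := null_cover
  null_sub := null_sub
  frames_holes := frames_holes

end Pool.Agent.Lib.MP_0d9445_pr.Walk
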