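import Pool.Agent.Lib.MP_0d9445_pr.Walk.Hyp

/-!
# Interface statements of the walk layer (problem 0d9445)

Every statement is a `Prop`; a proof file proves `theorem X_of : A → B → X`.
-/

noncomputable section

open MeasureTheory ProbabilityTheory Set Filter Topology
open scoped NNReal ENNReal Classical

namespace Pool.Agent.Lib.MP_0d9445_pr.Walk

open BM Cell

/-- Centre of `box a l`. -/
def ctr (a : ℂ) (l : ℝ) : ℂ := a + ((l / 2 : ℝ) : ℂ) * (1 + Complex.I)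

/-- Plane geometry of squares and boxes. -/
structure Geo : Prop where
  sq_cpt : ∀ c r, IsCompact (sqC c r)
  osq_open : ∀ c r, IsOpen (sqO c r)
  osq_closure : ∀ c r, 0 < r → closure (sqO c r) = sqC c r ∧ frontier (sqO c r) = frame c r ∧
    interior (sqC c r) = sqO c r
  box_sq : ∀ a l, 0 < l → closure (box a l) = sqC (ctr a l) (l / 2) ∧
    interior (box a l) = sqO (ctr a l) (l / 2)
  box_vol : ∀ a l, 0 < l → MeasurableSet (box a l) ∧ volume (box a l) = ENNReal.ofReal (l ^ 2) ∧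
    volume (frontier (box a l)) = 0
  sub_part : ∀ a l k w, 0 < l → (w ∈ box a l ↔
    ∃ i < 2 ^ k, ∃ j < 2 ^ k, w ∈ box (sub a l k i j) (l / 2 ^ k))
  sub_disj : ∀ a l k i j i' j' w, 0 < l → w ∈ box (sub a l k i j) (l / 2 ^ k) →
    w ∈ box (sub a l k i' j') (l / 2 ^ k) → i = i' ∧ j = j'
  pts_part : ∀ (N : FC) a l k, 0 < l →
    N.pts (box a l) = (Finset.range (2 ^ k) ×ˢ Finset.range (2 ^ k)).biUnion
      (fun q => N.pts (box (sub a l k q.1 q.2) (l / 2 ^ k))) ∧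
    ((Finset.range (2 ^ k) ×ˢ Finset.range (2 ^ k) : Finset (ℕ × ℕ)) : Set (ℕ × ℕ)).PairwiseDisjoint
      fun q => N.pts (box (sub a l k q.1 q.2) (l / 2 ^ k))
  desc : ∀ FF, ChildClosed FF → ∀ s ∈ FF, ∀ k i j : ℕ, i < 2 ^ k → j < 2 ^ k →
    (sub s.1 s.2 k i j, s.2 / 2 ^ k) ∈ FF
  adm_osq : ∀ K c r, 0 < r → sqC c r ⊆ interior K → Adm K (sqO c r)
  null_cover : ∀ (Z O : Set ℂ), IsCompact Z → volume Z = 0 → IsOpen O → Z ⊆ O → ∀ ε > 0,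
    ∃ T : Finset (ℂ × ℝ), (∀ s ∈ T, 0 < s.2 ∧ sqC s.1 (2 * s.2) ⊆ O) ∧
      Z ⊆ ⋃ s ∈ T, sqO s.1 s.2 ∧ ∑ s ∈ T, s.2 ^ 2 ≤ ε
  null_sub : ∀ (FF : Set (ℂ × ℝ)) (O O' : Set ℂ), FF.Countable → ChildClosed FF →
    volume (O \ cov FF) = 0 → IsOpen O' → O' ⊆ O →
      ChildClosed {s | s ∈ FF ∧ closure (box s.1 s.2) ⊆ O'} ∧
      volume (O' \ cov {s | s ∈ FF ∧ closure (box s.1 s.2) ⊆ O'}) = 0
  frames_holes : ∀ (c : ℂ) (R δ : ℝ) (Z : Set ℂ), 0 < δ →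
    Frames (sqO c R \ ⋃ p ∈ Z, sqC p δ)

/-- A path that the walk can follow in `L` steps from `x`. -/
def IsTraj (St : ℂ → Set ℂ) (L : ℕ) (x : ℂ) (w : ℕ → ℂ) : Prop :=
  w 0 = x ∧ (∀ i < L, w (i + 1) ∈ St (w i)) ∧ ∀ i, L ≤ i → w i = w L

/-- The steps from points of `R` are finite, nonempty and stay in `R`. -/
def Closed (St : ℂ → Set ℂ) (R : Set ℂ) : Prop :=
  ∀ y ∈ R, (St y).Finite ∧ (St y).Nonempty ∧ St y ⊆ R

/-- The path that follows `w` up to time `k` and then `w'`. -/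
def glue (k : ℕ) (w w' : ℕ → ℂ) (i : ℕ) : ℂ := if i ≤ k then w i else w' (i - k)

/-- Basic facts on the walk expectation. -/
structure WalkBasics : Prop where
  mono : ∀ St R L x F F', Closed St R → x ∈ R → (∀ w, IsTraj St L x w → F w ≤ F' w) →
    walkExp St L x F ≤ walkExp St L x F'
  add : ∀ St R L x F F', Closed St R → x ∈ R →
    walkExp St L x (fun w => F w + F' w) = walkExp St L x F + walkExp St L x F'
  smul : ∀ St R L x (c : ℝ) F, Closed St R → x ∈ R →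
    walkExp St L x (fun w => c * F w) = c * walkExp St L x F
  const : ∀ St R L x (c : ℝ), Closed St R → x ∈ R → walkExp St L x (fun _ => c) = c
  traj_mem : ∀ St R L x w, Closed St R → x ∈ R → IsTraj St L x w → ∀ i, w i ∈ R
  markov : ∀ St R k L x F, Closed St R → x ∈ R → walkExp St (k + L) x F =
    walkExp St k x fun w => walkExp St L (w k) fun w' => F (glue k w w')
  trunc : ∀ St R k L x F, Closed St R → x ∈ R → k ≤ L →
    (∀ w w', (∀ i ≤ k, w i = w' i) → F w = F w') → walkExp St L x F = walkExp St k x F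
  congr : ∀ St St' R L x F, Closed St R → x ∈ R → (∀ y ∈ R, St y = St' y) →
    walkExp St L x F = walkExp St' L x F
  abs_le : ∀ St L x F (c : ℝ), (∀ w, |F w| ≤ c) → |walkExp St L x F| ≤ c
  stop : ∀ St St' R (I : Set ℂ) L x F (c : ℝ), Closed St R → x ∈ R →
    (∀ y ∈ I, St y = St' y) → (∀ w, |F w| ≤ c) →
      |walkExp St L x F - walkExp St' L x F| ≤
        2 * c * walkExp St L x fun w => if ∃ i < L, w i ∉ I then 1 else 0
  one : ∀ (N : FC) U x (u : ℂ → ℝ), x ∈ N.inside U → (N.G.N x).Nonempty →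
    walkExp (N.step U) 1 x (fun w => u (w 1)) = u x - N.G.lap u x / N.G.deg x
  one' : ∀ (N : FC) U x (u : ℂ → ℝ), x ∉ N.inside U →
    walkExp (N.step U) 1 x (fun w => u (w 1)) = u x

/-- F1: inversion of discrete Laplace transforms. -/
def F1 : Prop :=
  ∀ (a : ℕ → ℕ → ℝ) (m : ℕ → ℝ) (b : ℝ → ℝ) (c : ℝ), Tendsto m atTop atTop →
    (∀ᶠ n in atTop, ∀ j, |a n j| ≤ c) → Continuous b → (∀ t, |b t| ≤ c) →
    (∀ α : ℕ, 1 ≤ α → Tendsto (fun n => ∑' j : ℕ, (1 + α / m n)⁻¹ ^ (j + 1) * (a n j / m n))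
      atTop (𝓝 (∫ t in Ioi (0 : ℝ), Real.exp (-(α * t)) * b t))) →
    (∀ η > 0, ∃ δ > 0, ∀ᶠ n in atTop, ∀ i j : ℕ, i ≤ j → (j : ℝ) - i ≤ δ * m n →
      |a n i - a n j| ≤ η) →
    ∀ (j : ℕ → ℕ) (t : ℝ), Tendsto (fun n => (j n : ℝ) / m n) atTop (𝓝 t) →
      Tendsto (fun n => a n (j n)) atTop (𝓝 (b t))

/-- F2: the discrete and the continuous resolvent identity for scalar functions. -/
def F2 : Prop :=
  (∀ (v a e : ℕ → ℝ) (m α c b : ℝ), 0 < m → 0 < α → (∀ j, |v j| ≤ c) → (∀ j, |a j| ≤ c) →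
    (∀ j, v j - v (j + 1) = (a j - α * v j) / m - e j) →
    (∀ J, ∑ j ∈ Finset.range J, |e j| ≤ b) →
      |v 0 - ∑' j : ℕ, (1 + α / m)⁻¹ ^ (j + 1) * (a j / m)| ≤ b) ∧
  ∀ (v a : ℝ → ℝ) (α c : ℝ), 0 < α → Measurable v → Measurable a → (∀ t, |v t| ≤ c) →
    (∀ t, |a t| ≤ c) → (∀ t, 0 ≤ t → v t - v 0 = -∫ r in (0 : ℝ)..t, (a r - α * v r)) →
      v 0 = ∫ t in Ioi (0 : ℝ), Real.exp (-(α * t)) * a t

/-- Tay: first-order Taylor bound for test functions; derivatives of test functions. -/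
def Tay : Prop :=
  ∀ (U : Set ℂ) (χ : ℂ → ℝ), Test U χ →
    (∀ p, Test U (dir p χ)) ∧ Test U (lapl χ) ∧
    ∃ C : ℝ, 0 ≤ C ∧ ∀ x y, |χ x - χ y| ≤ C * ‖x - y‖ ∧
      |χ x - χ y - (dir 1 χ x * (x - y).re + dir Complex.I χ x * (x - y).im)| ≤ C * ‖x - y‖ ^ 2

/-- Part: a test function splits along an open cover of its support. -/
def Part : Prop :=
  ∀ {ι : Type} (O : ι → Set ℂ) (v : ℂ → ℝ), (∀ i, IsOpen (O i)) → Test (⋃ i, O i) v →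
    ∃ (T : Finset ι) (vs : ι → ℂ → ℝ), (∀ i ∈ T, Test (O i) (vs i) ∧
      tsupport (vs i) ⊆ tsupport v ∧ ∀ w, |vs i w| ≤ |v w|) ∧ ∀ w, v w = ∑ i ∈ T, vs i w

/-- Bnd: bounds on compact subsets of the window; subsequences; escape. -/
def Bnd : Prop :=
  ∀ K μ a N ρ FF, Good K μ a N ρ FF →
    (∀ K', IsCompact K' → K' ⊆ interior K → ∃ C : ℝ, 0 ≤ C ∧ ∀ᶠ n in atTop,
      (N n).X K' ≤ C ∧ (N n).Y K' ≤ C ∧ ∑ x ∈ (N n).pts K', ρ n x ≤ C) ∧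
    (∃ C : ℝ, 0 ≤ C ∧ ∀ T : Finset (ℂ × ℝ), (∀ s ∈ T, 0 < s.2 ∧ sqC s.1 s.2 ⊆ K) →
      ∀ᶠ n in atTop, (N n).X (⋃ s ∈ T, sqC s.1 s.2) ≤ C * ∑ s ∈ T, s.2 ^ 2 ∧
        (N n).Y (⋃ s ∈ T, sqC s.1 s.2) ≤ C * ∑ s ∈ T, s.2 ^ 2) ∧
    (∀ φ : ℕ → ℕ, Tendsto φ atTop atTop → Good K μ a (fun n => N (φ n)) (fun n => ρ (φ n)) FF) ∧
    (∀ s ∈ FF, ∀ᶠ n in atTop, (N n).G.Esc ((N n).G.inner ((N n).pts (box s.1 s.2)))) ∧
    ∀ U, IsOpen U → closure U ⊆ K → ∀ᶠ n in atTop, (N n).G.Esc ((N n).inside U)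

/-- CS: Cauchy-Schwarz for sums over half edges. -/
def CS : Prop :=
  (∀ (N : FC) (A : Finset ℂ) (β : ℂ → ℂ → ℝ) (u v : ℂ → ℝ) (c : ℝ),
    (∀ x ∈ A, ∀ y ∈ N.G.N x, |β x y| ≤ c * |u x - u y|) →
      |1 / 2 * ∑ x ∈ A, ∑ y ∈ N.G.N x, β x y * (v x - v y)| ≤
        c * Real.sqrt (N.G.en A u u) * Real.sqrt (N.G.en A v v)) ∧
  (∀ (N : FC) (S : Set ℂ) (β : ℂ → ℂ → ℝ) (v : ℂ → ℝ) (c : ℝ),
    (∀ x ∈ N.pts S, ∀ y ∈ N.G.N x, |β x y| ≤ c * ‖x - y‖) →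
      |1 / 2 * ∑ x ∈ N.pts S, ∑ y ∈ N.G.N x, β x y * (v x - v y)| ≤
        c * Real.sqrt (N.X S) * Real.sqrt (N.G.en (N.pts S) v v)) ∧
  (∀ (N : FC) (S : Set ℂ) (g : ℂ → ℝ) (L : ℝ), (∀ x y, |g x - g y| ≤ L * ‖x - y‖) →
    N.G.en (N.pts S) g g ≤ L ^ 2 * N.X S) ∧
  ∀ (N : FC) (S S' : Set ℂ), S ⊆ S' → 0 ≤ N.X S ∧ 0 ≤ N.Y S ∧ N.X S ≤ N.X S' ∧ N.Y S ≤ N.Y S'

/-- The energies are bounded on compact subsets of the window. -/
def EnBdd (K : Set ℂ) (N : ℕ → FC) (u : ℕ → ℂ → ℝ) : Prop :=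
  ∀ K', IsCompact K' → K' ⊆ interior K → ∃ E : ℝ, ∀ᶠ n in atTop,
    (N n).G.en ((N n).pts K') (u n) (u n) ≤ E

/-- C5: energy bound. -/
def C5 : Prop :=
  ∀ K μ a N ρ FF U (g : ℂ → ℝ) (L : ℝ) u, Good K μ a N ρ FF → IsOpen U → closure U ⊆ interior K →
    (∀ x y, |g x - g y| ≤ L * ‖x - y‖) → Sol U N ρ g L u → EnBdd K N u

/-- Asymptotic equicontinuity. -/
def Equi (N : ℕ → FC) (u : ℕ → ℂ → ℝ) : Prop :=
  ∀ η > 0, ∃ δ > 0, ∀ᶠ n in atTop, ∀ x ∈ (N n).V, ∀ y ∈ (N n).V, ‖x - y‖ ≤ δ →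
    |u n x - u n y| ≤ η

/-- C6: equicontinuity. -/
def C6 : Prop :=
  ∀ K μ a N ρ FF U (g : ℂ → ℝ) (L : ℝ) u, Good K μ a N ρ FF → Adm K U →
    (∀ x y, |g x - g y| ≤ L * ‖x - y‖) → Sol U N ρ g L u → EnBdd K N u → Equi N u

/-- L1: Arzela-Ascoli for vertex functions. -/
def L1 : Prop :=
  ∀ (K U : Set ℂ) (N : ℕ → FC) (g : ℂ → ℝ) (L : ℝ) (u : ℕ → ℂ → ℝ), IsCompact K → IsOpen U →
    closure U ⊆ interior K → (∀ ε > 0, ∀ᶠ n in atTop, (N n).Nice K ε) → Continuous g →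
    (∀ᶠ n in atTop, ∀ x, x ∉ (N n).inside U → u n x = g x) →
    (∀ᶠ n in atTop, ∀ x ∈ (N n).inside U, |u n x| ≤ L) → Equi N u →
      ∃ (φ : ℕ → ℕ) (v : ℂ → ℝ), StrictMono φ ∧ Continuous v ∧ (∀ w, w ∉ U → v w = g w) ∧
        UnifOn univ (fun n => N (φ n)) (fun n => u (φ n)) v

/-- H3a: the defect of the patch vanishes; fluxes through subsquares. -/
def H3a : Prop :=
  ∀ K μ a N ρ FF (s : ℂ × ℝ) (p : ℂ), Good K μ a N ρ FF → s ∈ FF →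
    p ∈ ({1, Complex.I} : Set ℂ) → ∀ k : ℕ,
      (∀ η > 0, ∀ᶠ n in atTop, ∃ v : ℂ → ℝ,
        (∀ x, x ∉ (N n).G.inner ((N n).pts (box s.1 s.2)) → v x = lin p x) ∧
        (∀ x, |v x - lin p x| ≤ 4 * (s.2 / 2 ^ k)) ∧
        (N n).G.en ((N n).pts (box s.1 s.2)) (v - (N n).corr (box s.1 s.2) p)
          (v - (N n).corr (box s.1 s.2) p) ≤ η) ∧
      ∀ q ∈ ({1, Complex.I} : Set ℂ), ∀ i < 2 ^ k, ∀ j < 2 ^ k,
        Tendsto (fun n => (N n).G.en ((N n).pts (box (sub s.1 s.2 k i j) (s.2 / 2 ^ k))) (lin q)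
          ((N n).corr (box s.1 s.2) p)) atTop (𝓝 (a * lin p q * (s.2 / 2 ^ k) ^ 2))

/-- H3b: the correctors are uniformly close to the linear functions. -/
def H3b : Prop :=
  ∀ K μ a N ρ FF (s : ℂ × ℝ) (p : ℂ), Good K μ a N ρ FF → s ∈ FF →
    p ∈ ({1, Complex.I} : Set ℂ) → ∀ K', IsCompact K' → K' ⊆ interior (box s.1 s.2) →
      UnifOn K' N (fun n => (N n).corr (box s.1 s.2) p) (lin p)

/-- H4: the flux of the corrector against a continuous weight. -/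
def H4 : Prop :=
  ∀ K μ a N ρ FF (s : ℂ × ℝ) (p q : ℂ) (ψ : ℂ → ℝ), Good K μ a N ρ FF → s ∈ FF →
    p ∈ ({1, Complex.I} : Set ℂ) → q ∈ ({1, Complex.I} : Set ℂ) → Continuous ψ →
      Tendsto (fun n => (N n).enw ((N n).pts (box s.1 s.2)) ψ (lin q) ((N n).corr (box s.1 s.2) p))
        atTop (𝓝 (a * lin p q * ∫ y in box s.1 s.2, ψ y))

/-- A sequence with bounded source and energy that converges uniformly to `v`. -/
structure Lim (K U : Set ℂ) (N : ℕ → FC) (ρ : ℕ → ℂ → ℝ) (u : ℕ → ℂ → ℝ) (v : ℂ → ℝ) : Prop where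
  src : ∃ L : ℝ, ∀ᶠ n in atTop, ∀ x ∈ (N n).inside U, |(N n).G.lap (u n) x| ≤ L * ρ n x
  en : EnBdd K N u
  cont : Continuous v
  unif : UnifOn univ N u v

/-- H5: the Tartar identity inside one square of the family. -/
def H5 : Prop :=
  ∀ K μ a N ρ FF U (s : ℂ × ℝ) (p : ℂ) u v (χ : ℂ → ℝ), Good K μ a N ρ FF → s ∈ FF → IsOpen U →
    p ∈ ({1, Complex.I} : Set ℂ) → Lim K U N ρ u v → Test (U ∩ interior (box s.1 s.2)) χ →
      Tendsto (fun n => (N n).enw (N n).V χ (u n) (lin p)) atTop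
        (𝓝 (-a * ∫ y, v y * dir p χ y))

/-- H5b: the limit has a square integrable gradient. -/
def H5b : Prop :=
  ∀ K μ a N ρ FF U u v, Good K μ a N ρ FF → Lim K U N ρ u v →
    ∀ K', IsCompact K' → K' ⊆ interior K → ∃ C : ℝ, ∀ (T : Finset (ℂ × ℝ)) (χ : ℂ → ℝ) (c : ℝ)
      (p : ℂ), (∀ s ∈ T, 0 < s.2 ∧ sqC s.1 (2 * s.2) ⊆ K') → Test (⋃ s ∈ T, sqO s.1 s.2) χ →
      (∀ y, |χ y| ≤ c) → p ∈ ({1, Complex.I} : Set ℂ) →
        |∫ y, v y * dir p χ y| ≤ C * c * Real.sqrt (∑ s ∈ T, s.2 ^ 2)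

/-- H5c: the Tartar identity for all test functions. -/
def H5c : Prop :=
  ∀ K μ a N ρ FF U (p : ℂ) u v (χ : ℂ → ℝ), Good K μ a N ρ FF → IsOpen U → U ⊆ interior K →
    p ∈ ({1, Complex.I} : Set ℂ) → Lim K U N ρ u v → Test U χ →
      Tendsto (fun n => (N n).enw (N n).V χ (u n) (lin p)) atTop
        (𝓝 (-a * ∫ y, v y * dir p χ y))

/-- H6: the limit of the Dirichlet form against a test function. -/
def H6 : Prop :=
  ∀ K μ a N ρ FF U u v (χ : ℂ → ℝ), Good K μ a N ρ FF → IsOpen U → U ⊆ interior K →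
    Lim K U N ρ u v → Test U χ →
      Tendsto (fun n => ∑ x ∈ (N n).V, χ x * (N n).G.lap (u n) x) atTop
        (𝓝 (-a * ∫ y, v y * lapl χ y))

/-- L2: limits of the discrete resolvent problems. -/
def L2 : Prop :=
  ∀ K μ a N ρ FF U (α L : ℝ) (f g : ℂ → ℝ) (u : ℕ → ℂ → ℝ), Good K μ a N ρ FF → Adm K U → 0 < α →
    Continuous f → (∀ x y, |g x - g y| ≤ L * ‖x - y‖) →
    (∀ᶠ n in atTop, (N n).G.Sol ((N n).inside U) (fun x => α * ρ n x) (fun x => ρ n x * f x) g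
      (u n)) →
      ∃ (φ : ℕ → ℕ) (v : ℂ → ℝ), StrictMono φ ∧ Continuous v ∧ (∀ w, w ∉ U → v w = g w) ∧
        WeakSol U μ v (fun w => f w - α * v w) ∧
        UnifOn univ (fun n => N (φ n)) (fun n => u (φ n)) v

/-- The time scale, the start and the negligible bad time. -/
structure WalkData (U : Set ℂ) (N : ℕ → FC) (ρ : ℕ → ℂ → ℝ) (m : ℕ → ℝ) (x : ℕ → ℂ) (z : ℂ) :
    Prop where
  m_top : Tendsto m atTop atTop
  rho_le : ∀ᶠ n in atTop, ∀ y, ρ n y ≤ (N n).G.deg y / m n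
  start : ∀ᶠ n in atTop, x n ∈ (N n).V
  lim : Tendsto x atTop (𝓝 z)
  bad : ∀ ε > 0, ∀ᶠ n in atTop, ∀ u,
    (N n).G.Sol ((N n).inside U) 0 (fun y => (N n).G.deg y / m n - ρ n y) 0 u → u (x n) ≤ ε

/-- The limit motion exists from every point of every open set in the window. -/
def LBMAll (K : Set ℂ) (μ : Measure ℂ) : Prop :=
  ∀ U, IsOpen U → U ⊆ K → ∀ y ∈ U, ∃ (P : Measure Path) (Y : ℝ → Path → ℂ) (σ : Path → ℝ),
    IsProbabilityMeasure P ∧ PathPack P U y Y σ ∧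
    ∀ u φ, Continuous u → Continuous φ → WeakSol U μ u φ → MartPair P Y σ u φ

/-- B10: the stopped time-changed motion solves the martingale problem. -/
def B10 : Prop :=
  ∀ (W : Measure Path) (μ : Measure ℂ) (O K U : Set ℂ) (x : ℂ)
    (A : Path → StieltjesFunction ℝ≥0), IsWiener W → IsClock W μ O x A → IsCompact K → K ⊆ O →
    Frost μ K → IsOpen U → U ⊆ K → x ∈ U →
      IsProbabilityMeasure (Px W x) ∧
      PathPack (Px W x) U x (fun t ω => lbmPath ω (A ω) U t) (fun ω => exitClock ω (A ω) U) ∧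
      ∀ u φ, Continuous u → Continuous φ → WeakSol U μ u φ →
        MartPair (Px W x) (fun t ω => lbmPath ω (A ω) U t) (fun ω => exitClock ω (A ω) U) u φ

/-- Polar: points are polar. -/
def Polar : Prop :=
  ∀ (W : Measure Path) (z p : ℂ), IsWiener W → z ≠ p → ∀ᵐ ω ∂Px W z, ∀ t, ω t ≠ p

/-- W1: the stopped walks are well defined on the centres in `K'`. -/
def W1 : Prop :=
  ∀ K μ a N ρ FF U m x z K', Good K μ a N ρ FF → Adm K U → WalkData U N ρ m x z → z ∈ U →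
    IsCompact K' → closure U ⊆ interior K' → K' ⊆ interior K →
      WalkOK K' (fun n => (N n).step U) (fun n => ((N n).pts K' : Set ℂ)) x

/-- T1: fast exits from a square are unlikely, uniformly in the start. -/
def T1 : Prop :=
  ∀ K μ a N ρ FF (c : ℂ) (η θ : ℝ), Good K μ a N ρ FF → LBMAll K μ → 0 < η →
    sqC c η ⊆ interior K → 0 < θ →
      ∃ α > 0, ∀ᶠ n in atTop, ∀ W : ℂ → ℝ,
        (N n).G.Sol ((N n).inside (sqO c η)) (fun x => α * ρ n x) 0 1 W →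
          ∀ x ∈ (N n).pts (sqC c (η / 2)), W x ≤ θ

/-- T2: modulus of continuity of one walk from supermartingale bounds. -/
def T2 : Prop :=
  ∀ (St : ℂ → Set ℂ) (R : Set ℂ) (In : ℂ → Set ℂ) (W₀ W₁ : ℂ → ℂ → ℝ) (β₀ β₁ p η ε : ℝ) (d : ℕ),
    Closed St R → (∀ y ∈ R, ∀ y' ∈ St y, ‖y - y'‖ ≤ ε) → 1 ≤ β₀ → 1 ≤ β₁ →
    (∀ a ∈ R, a ∈ In a ∧ (∀ y ∈ In a, ‖y - a‖ ≤ η) ∧ W₀ a a ≤ 1 / 2 ∧ β₁ ^ d * W₁ a a ≤ p) →
    (∀ a ∈ R, ∀ y ∈ R, 0 ≤ W₀ a y ∧ 0 ≤ W₁ a y ∧ (y ∉ In a → W₀ a y = 1 ∧ W₁ a y = 1) ∧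
      (y ∈ In a → walkExp St 1 y (fun w => W₀ a (w 1)) ≤ β₀ * W₀ a y ∧
        walkExp St 1 y (fun w => W₁ a (w 1)) ≤ β₁ * W₁ a y)) →
      ∀ x ∈ R, ∀ L : ℕ, walkExp St L x (fun w =>
        if ∃ i j : ℕ, i ≤ j ∧ j ≤ L ∧ j - i ≤ d ∧ 3 * η + ε < ‖w i - w j‖ then 1 else 0) ≤
          2 * p * β₀ ^ L

/-- T3: tightness. -/
def T3 : Prop :=
  ∀ K μ a N ρ FF U m x z K',
    Good K μ a N ρ FF → Adm K U → WalkData U N ρ m x z → LBMAll K μ →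
    WalkOK K' (fun n => (N n).step U) (fun n => ((N n).pts K' : Set ℂ)) x →
      Tight (fun n => (N n).step U) (fun n => ((N n).pts K' : Set ℂ)) m

/-- F3: the Laplace transform on the Brownian side. -/
def F3 : Prop :=
  ∀ {Ω : Type} [MeasurableSpace Ω] (P : Measure Ω) [IsProbabilityMeasure P] (U : Set ℂ) (z : ℂ)
    (Y : ℝ → Ω → ℂ) (σ : Ω → ℝ) (k : ℕ) (τ : Fin k → ℝ) (fs : Fin k → ℂ → ℝ) (s α : ℝ)
    (f v : ℂ → ℝ), Bornology.IsBounded U → PathPack P U z Y σ → (∀ i, Continuous (fs i)) →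
    (∀ i, τ i ≤ s) → 0 ≤ s → 0 < α → Continuous f → Continuous v →
      (Continuous fun t => ∫ ω, (∏ i, fs i (Y (τ i) ω)) * f (Y (s + t) ω) ∂P) ∧
      (∃ c, ∀ t, |∫ ω, (∏ i, fs i (Y (τ i) ω)) * f (Y (s + t) ω) ∂P| ≤ c) ∧
      ((∀ w ∈ frontier U, f w = α * v w) → MartPair P Y σ v (fun w => f w - α * v w) →
        ∫ ω, (∏ i, fs i (Y (τ i) ω)) * v (Y s ω) ∂P = ∫ t in Ioi (0 : ℝ),
          Real.exp (-(α * t)) * ∫ ω, (∏ i, fs i (Y (τ i) ω)) * f (Y (s + t) ω) ∂P)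

/-- F4: the Laplace transform on the walk side, for one net. -/
def F4 : Prop :=
  ∀ (N : FC) (U R : Set ℂ) (ρ f u ub : ℂ → ℝ) (m α c : ℝ) (x : ℂ) (k : ℕ) (G : (ℕ → ℂ) → ℝ),
    Closed (N.step U) R → x ∈ R → 0 < m → 0 < α → N.G.Esc (N.inside U) →
    (∀ y, 0 ≤ ρ y ∧ ρ y ≤ N.G.deg y / m) → (∀ y, |f y| ≤ c) →
    N.G.Sol (N.inside U) (fun y => α * ρ y) (fun y => ρ y * f y) (fun y => f y / α) u →
    N.G.Sol (N.inside U) 0 (fun y => N.G.deg y / m - ρ y) 0 ub →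
    (∀ w, |G w| ≤ 1) → (∀ w w', (∀ i ≤ k, w i = w' i) → G w = G w') →
      |walkExp (N.step U) k x (fun w => G w * u (w k)) -
        ∑' j : ℕ, (1 + α / m)⁻¹ ^ (j + 1) *
          (walkExp (N.step U) (k + j) x (fun w => G w * f (w (k + j))) / m)| ≤ 2 * c * ub x

/-- F5: convergence of the finite-dimensional laws. -/
def F5 : Prop :=
  ∀ {Ω : Type} [MeasurableSpace Ω] (P : Measure Ω) [IsProbabilityMeasure P] K μ a N ρ FF U m x z K'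
    (Y : ℝ → Ω → ℂ) (σ : Ω → ℝ), Good K μ a N ρ FF → Adm K U → WalkData U N ρ m x z →
    IsCompact K' → closure U ⊆ K' →
    WalkOK K' (fun n => (N n).step U) (fun n => ((N n).pts K' : Set ℂ)) x →
    Tight (fun n => (N n).step U) (fun n => ((N n).pts K' : Set ℂ)) m → PathPack P U z Y σ →
    (∀ u φ, Continuous u → Continuous φ → WeakSol U μ u φ → MartPair P Y σ u φ) →
      Fdd P Y (fun n => (N n).step U) x m

/-- P1: from products to continuous functions of finitely many positions. -/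
def P1 : Prop :=
  ∀ {Ω : Type} [MeasurableSpace Ω] (P : Measure Ω) [IsProbabilityMeasure P] (K' : Set ℂ) St R x m
    (Y : ℝ → Ω → ℂ), IsCompact K' → WalkOK K' St R x → (∀ t, AEMeasurable (Y t) P) →
    (∀ᵐ ω ∂P, ∀ t, Y t ω ∈ K') → Fdd P Y St x m →
    ∀ (k : ℕ) (τ : Fin k → ℝ) (Ψ : (Fin k → ℂ) → ℝ) (j : ℕ → Fin k → ℕ) (L : ℕ → ℕ),
      Continuous Ψ → (∀ n, Monotone (j n)) → (∀ n i, j n i ≤ L n) →
      (∀ i, Tendsto (fun n => (j n i : ℝ) / m n) atTop (𝓝 (τ i))) →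
        Tendsto (fun n => walkExp (St n) (L n) (x n) fun w => Ψ fun i => w (j n i)) atTop
          (𝓝 (∫ ω, Ψ (fun i => Y (τ i) ω) ∂P))

/-- Convergence for bounded Lipschitz functionals, with measurability of the limit. -/
def PathConvLip {Ω : Type} [MeasurableSpace Ω] (P : Measure Ω) (Y : ℝ → Ω → ℂ)
    (St : ℕ → ℂ → Set ℂ) (x : ℕ → ℂ) (m : ℕ → ℝ) : Prop :=
  ∀ (T : ℝ), 0 < T → ∀ (F : C(Icc (0 : ℝ) T, ℂ) → ℝ) (L : ℝ≥0) (c : ℝ), LipschitzWith L F →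
    (∀ y, |F y| ≤ c) → AEStronglyMeasurable (fun ω => F (toC T fun t => Y t ω)) P ∧
    Tendsto (fun n => walkExp (St n) (⌈m n * T⌉₊ + 1) (x n) fun w => F (toC T (interp (m n) w)))
      atTop (𝓝 (∫ ω, F (toC T fun t => Y t ω) ∂P))

/-- P2: Lipschitz path functionals. -/
def P2 : Prop :=
  ∀ {Ω : Type} [MeasurableSpace Ω] (P : Measure Ω) [IsProbabilityMeasure P] (K' : Set ℂ) St R x m
    (Y : ℝ → Ω → ℂ), IsCompact K' → WalkOK K' St R x → Tendsto m atTop atTop → Tight St R m →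
    (∀ t, AEMeasurable (Y t) P) → (∀ᵐ ω ∂P, Continuous (fun t => Y t ω) ∧ ∀ t, Y t ω ∈ K') →
    Fdd P Y St x m → PathConvLip P Y St x m

/-- P3: from Lipschitz to continuous functionals. -/
def P3 : Prop :=
  ∀ {Ω : Type} [MeasurableSpace Ω] (P : Measure Ω) [IsProbabilityMeasure P] St (R : ℕ → Set ℂ) x m
    (Y : ℝ → Ω → ℂ), (∀ᶠ n in atTop, x n ∈ R n ∧ Closed (St n) (R n)) → PathConvLip P Y St x m →
      PathConv P Y St x m ∧ ∀ (T : ℝ), 0 < T →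
        ∀ F : BoundedContinuousFunction C(Icc (0 : ℝ) T, ℂ) ℝ,
          AEStronglyMeasurable (fun ω => F (toC T fun t => Y t ω)) P

/-- Ip: the interpolated path. -/
def Ip : Prop :=
  ∀ (m : ℝ) (w : ℕ → ℂ), 0 < m → Continuous (fun t : Ici (0 : ℝ) => interp m w t) ∧
    (∀ k : ℕ, interp m w (k / m) = w k) ∧
    ∀ t, 0 ≤ t → ‖interp m w t - w ⌊m * t⌋₊‖ ≤ ‖w (⌊m * t⌋₊ + 1) - w ⌊m * t⌋₊‖

/-- NuLow: lower bound of the minimal energy. -/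
def NuLow : Prop :=
  ∀ (N : FC) (K : Set ℂ) (ε : ℝ) (a : ℂ) (l : ℝ), N.Nice K ε → 0 < l → ε ≤ l / 20 →
    sqC (ctr a l) l ⊆ K →
      l ^ 4 / 2000 ≤ N.nu (box a l) 1 * N.Y (box a l) ∧ N.nu (box a l) 1 ≤ N.X (box a l)

/-- LT: the local theorem for nets. -/
def LT : Prop :=
  ∀ (W : Measure Path) K μ a N ρ FF U m x z O (A : ℂ → Path → StieltjesFunction ℝ≥0),
    IsWiener W → (∀ y ∈ K, IsClock W μ O y (A y)) → K ⊆ O → Good K μ a N ρ FF → Adm K U →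
    WalkData U N ρ m x z → z ∈ U →
      PathConvLip (Px W z) (fun t ω => lbmPath ω (A z ω) U t) (fun n => (N n).step U) x m

/-- Local: the local theorem for cell structures. -/
def Local : Prop :=
  ∀ (W : Measure Path) (O O₂ U : Set ℂ) μ C Γ a M x z (A : ℂ → Path → StieltjesFunction ℝ≥0),
    IsWiener W → (∀ y ∈ O, IsClock W μ O₂ y (A y)) → O ⊆ O₂ → IsOpen O → Env O μ C Γ a M →
    BadNegl O C Γ M x → (∀ᶠ n in atTop, x n ∈ (C n).V) → Tendsto x atTop (𝓝 z) → IsOpen U →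
    Bornology.IsBounded U → closure U ⊆ O → Frames U → z ∈ U →
      (∃ R : ℕ → Set ℂ, ∀ᶠ n in atTop, x n ∈ R n ∧ Closed ((C n).step U) (R n)) ∧
      Tendsto (fun n => M n / (2 * a n)) atTop atTop ∧
      PathConvLip (Px W z) (fun t ω => lbmPath ω (A z ω) U t)
        (fun n => (C n).step U) x (fun n => M n / (2 * a n))

/-- Glob: exhaustion. -/
def Glob : Prop :=
  ∀ (W : Measure Path) (O O₂ : Set ℂ) (Us : ℕ → Set ℂ) μ C Γ a M x z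
    (A : ℂ → Path → StieltjesFunction ℝ≥0),
    IsWiener W → (∀ y ∈ O, IsClock W μ O₂ y (A y)) → O ⊆ O₂ → IsOpen O → Env O μ C Γ a M →
    BadNegl O C Γ M x → (∀ᶠ n in atTop, x n ∈ (C n).V) → Tendsto x atTop (𝓝 z) →
    (∀ k, IsOpen (Us k) ∧ Bornology.IsBounded (Us k) ∧ closure (Us k) ⊆ Us (k + 1) ∧
      closure (Us k) ⊆ O ∧ Frames (Us k)) → z ∈ Us 0 →
    (∀ᵐ (ω : Path) ∂Px W z, ∀ T : ℝ, ∃ k, T < exitClock ω (A z ω) (Us k)) →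
      PathConv (Px W z) (fun t ω => lbmPath ω (A z ω) O₂ t)
        (fun n => (C n).step O₂) x (fun n => M n / (2 * a n))

/-- Plane: the theorem in the whole plane, with a finite exceptional set. -/
def Plane : Prop :=
  ∀ (W : Measure Path) (Z : Set ℂ) μ C Γ a M x z (A : ℂ → Path → StieltjesFunction ℝ≥0),
    IsWiener W → Z.Finite → (∀ y, y ∉ Z → IsClock W μ univ y (A y)) → Env Zᶜ μ C Γ a M →
    BadNegl Zᶜ C Γ M x → (∀ᶠ n in atTop, x n ∈ (C n).V) → Tendsto x atTop (𝓝 z) → z ∉ Z →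
      PathConv (Px W z) (fun t ω => lbmPath ω (A z ω) univ t)
        (fun n => (C n).step univ) x (fun n => M n / (2 * a n))

/-- Micro: the uniform bound of the potentials from multi-scale bounds. -/
def Micro : Prop :=
  ∀ (K : Set ℂ) (N : ℕ → FC) (f : ℕ → ℂ → ℝ) (A α β : ℝ) (j₀ : ℕ) (J : ℕ → ℕ) (η : ℕ → ℝ),
    0 < β → β < α → (∀ ε > 0, ∀ᶠ n in atTop, (N n).Nice K ε) →
    Tendsto (fun n => (2 : ℝ) ^ (β * J n) * η n) atTop (𝓝 0) →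
    (∀ᶠ n in atTop, 0 ≤ η n ∧ (∀ y, 0 ≤ f n y) ∧
      (∀ y ∈ (N n).pts K, f n y ≠ 0 → (∀ j, j₀ ≤ j → j ≤ J n → sqC y (2 / 2 ^ j) ⊆ K →
        ∑ x ∈ mt (N n).H (N n).V (sqC y (2 / 2 ^ j)),
          min 1 (Metric.diam ((N n).H x) * 2 ^ j) ^ 2 ≤ A * (2 : ℝ) ^ (β * j)) ∧
        ∀ x ∈ (N n).V, x ≠ y → 1 / 2 ^ J n ≤ sn y x) ∧
      ∀ c j, j₀ ≤ j → j ≤ J n → sqC c (2 / 2 ^ j) ⊆ K →
        ∑ y ∈ (N n).pts (sqC c (2 / 2 ^ j)), f n y ≤ A * (2 : ℝ) ^ (-(α * j)) + η n) →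
    Tendsto J atTop atTop →
      ∀ ε > 0, ∃ δ > 0, ∀ r, 0 < r → r ≤ δ → ∀ᶠ n in atTop, ∀ c u, sqC c (8 * r) ⊆ K →
        (N n).G.Sol ((N n).inside (sqO c r)) 0 (f n) 0 u → ∀ x, u x ≤ ε

end Pool.Agent.Lib.MP_0d9445_pr.Walk
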