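import Pool.Agent.Lib.MP_0d9445_pr.BM.Clock

/-!
# Statement-level objects of the walk layer (problem 0d9445)

Cell structures, the simple random walk as a finite recursion, its polygonal interpolation,
planar Brownian motion, the clock with a given Revuz measure and the time-changed path.
-/

noncomputable section

open MeasureTheory ProbabilityTheory Set Filter Topology
open scoped NNReal ENNReal

namespace Pool.Agent.Lib.MP_0d9445_pr.Walk

open BM

/-- A set `V` of centres in the plane and a cell `H x` for each centre `x`. -/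
structure Cells where
  V : Set ℂ
  H : ℂ → Set ℂ

/-- Two distinct centres are adjacent when their cells intersect. -/
def Cells.Adj (C : Cells) (x y : ℂ) : Prop :=
  x ∈ C.V ∧ y ∈ C.V ∧ x ≠ y ∧ (C.H x ∩ C.H y).Nonempty

/-- The possible next positions of the walk stopped on leaving `O`: the neighbours of `x` when the
cell of `x` lies in `O`, and `x` itself otherwise. -/
def Cells.step (C : Cells) (O : Set ℂ) (x : ℂ) : Set ℂ :=
  {y | (C.H x ⊆ O ∧ C.Adj x y) ∨ (¬ C.H x ⊆ O ∧ y = x)}

/-- The path that starts at `x` and then follows `w`. -/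
def consPath (x : ℂ) (w : ℕ → ℂ) : ℕ → ℂ
  | 0 => x
  | k + 1 => w k

/-- Expectation of `F` for the walk started at `x` that makes `n` steps, each time to a uniformly
chosen point of `N` (current position), and stays constant afterwards. -/
def walkExp (N : ℂ → Set ℂ) : ℕ → ℂ → ((ℕ → ℂ) → ℝ) → ℝ
  | 0, x, F => F fun _ => x
  | n + 1, x, F => ((N x).ncard : ℝ)⁻¹ * ∑ᶠ y ∈ N x, walkExp N n y fun w => F (consPath x w)

/-- The polygonal path through `w 0, w 1, ...` that runs along one segment per time `1 / m`. -/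
def interp (m : ℝ) (w : ℕ → ℂ) (t : ℝ) : ℂ :=
  w ⌊m * t⌋₊ + ((m * t - ⌊m * t⌋₊ : ℝ) : ℂ) * (w (⌊m * t⌋₊ + 1) - w ⌊m * t⌋₊)

open Classical in
/-- The restriction of `y` to `[0, T]` as a continuous map (zero if it is not continuous). -/
def toC (T : ℝ) (y : ℝ → ℂ) : C(Icc (0 : ℝ) T, ℂ) :=
  if h : Continuous fun t : Icc (0 : ℝ) T => y t then ⟨_, h⟩ else 0

/-- `A` is a positive continuous additive functional with Revuz measure `μ`; for the motion from
`x` it is strictly increasing as long as the motion stays in `O`, and it is unbounded unless the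
motion leaves `O`. -/
structure IsClock (W : Measure Path) (μ : Measure ℂ) (O : Set ℂ) (x : ℂ)
    (A : Path → StieltjesFunction ℝ≥0) : Prop where
  pcaf : IsPCAF W μ A
  cont : ∀ᵐ ω ∂Px W x, Continuous (A ω) ∧ A ω 0 = 0
  strict : ∀ᵐ ω ∂Px W x, ∀ s t : ℝ≥0, s < t → (∀ r ≤ t, ω r ∈ O) → A ω s < A ω t
  exhaust : ∀ᵐ ω ∂Px W x, ∀ t : ℝ, ∃ s : ℝ≥0, t < A ω s ∨ ω s ∉ O

/-- The path `b`, stopped on leaving `O` and time-changed by the inverse of `A`. -/
def lbmPath (b : ℝ≥0 → ℂ) (A : ℝ≥0 → ℝ) (O : Set ℂ) (t : ℝ) : ℂ :=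
  b (sInf {s : ℝ≥0 | t < A s ∨ b s ∉ O})

end Pool.Agent.Lib.MP_0d9445_pr.Walk
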