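import Pool.Agent.Lib.MP_0d9445_pr.Walk.Iface
import Pool.Agent.Lib.MP_0d9445_pr.BM.Run

noncomputable section

open MeasureTheory ProbabilityTheory Set Filter Topology
open scoped NNReal ENNReal Classical

namespace Pool.Agent.Lib.MP_0d9445_pr.Walk

open BM Cell

namespace PfB10

/-- the Brownian time at clock time `s`, stopped at `T` -/
def tc (a : ℝ≥0 → ℝ) (T : ℝ≥0∞) (s : ℝ) : ℝ≥0 := (min (ginv a s) T).toNNReal

theorem lbm_eq (a : ℝ≥0 → ℝ) (U : Set ℂ) (ω : Path) (s : ℝ) :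
    lbmPath ω a U s = ω (tc a (exitT U ω) s) := by
  have h1 : min (ginv a s) (exitT U ω) =
      ⨅ (r : ℝ≥0) (_ : r ∈ {r | s < a r ∨ ω r ∉ U}), (r : ℝ≥0∞) := by
    simp only [ginv, exitT, mem_ofPred_eq, iInf_or, iInf_inf_eq]
  rw [tc, h1, lbmPath]
  congr 1
  rcases ({r | s < a r ∨ ω r ∉ U} : Set ℝ≥0).eq_empty_or_nonempty with h | h
  · rw [h]; simp
  · rw [← ENNReal.coe_sInf h, ENNReal.toNNReal_coe]

theorem clock_eq (a : ℝ≥0 → ℝ) (U : Set ℂ) (ω : Path) :
    exitClock ω a U = a (exitT U ω).toNNReal := by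
  have h1 : exitT U ω = ⨅ (r : ℝ≥0) (_ : r ∈ {r | ω r ∉ U}), (r : ℝ≥0∞) := rfl
  rw [h1, exitClock]
  congr 1
  rcases ({r | ω r ∉ U} : Set ℝ≥0).eq_empty_or_nonempty with h | h
  · rw [h]; simp
  · rw [← ENNReal.coe_sInf h, ENNReal.toNNReal_coe]

section det

variable {a : StieltjesFunction ℝ≥0} {T : ℝ≥0}

theorem coe_tc (a : ℝ≥0 → ℝ) (T : ℝ≥0) (s : ℝ) : (tc a T s : ℝ≥0∞) = min (ginv a s) T :=
  ENNReal.coe_toNNReal (ne_top_of_le_ne_top ENNReal.coe_ne_top (min_le_right _ _))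

theorem tc_le (a : ℝ≥0 → ℝ) (T : ℝ≥0) (s : ℝ) : tc a T s ≤ T := by
  rw [← ENNReal.coe_le_coe, coe_tc]
  exact min_le_right _ _

theorem tc_mono (a : ℝ≥0 → ℝ) (T : ℝ≥0) : Monotone (tc a T) := fun s s' h => by
  rw [← ENNReal.coe_le_coe, coe_tc, coe_tc]
  exact min_le_min_right _ (ginv_mono a h)

theorem lt_of_ginv_lt {s : ℝ} (h : ginv a s < T) : s < a T := by
  obtain ⟨r, h1, h2⟩ := ginv_lt_iff.mp h
  exact h2.trans_le (a.mono (ENNReal.coe_lt_coe.mp h1).le)

theorem tc_of_le {s : ℝ} (h : a T ≤ s) : tc a T s = T := by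
  rw [← ENNReal.coe_inj, coe_tc]
  exact min_eq_right (not_lt.mp fun h' => (lt_of_ginv_lt h').not_ge h)

theorem tc_lt (hc : Continuous a) (hT : 0 < T) {s : ℝ} (h : s < a T) : tc a T s < T := by
  rw [← ENNReal.coe_lt_coe, coe_tc]
  refine min_lt_of_left_lt ?_
  rcases le_or_gt (a 0) s with h0 | h0
  · exact ginv_lt_of_lt hc h0 h
  · exact (ginv_le h0).trans_lt (ENNReal.coe_lt_coe.mpr hT)

theorem tc_apply (hs : ∀ r r' : ℝ≥0, r < r' → r' ≤ T → a r < a r') {r : ℝ≥0} (hr : r ≤ T) :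
    tc a T (a r) = r := by
  rw [← ENNReal.coe_inj, coe_tc]
  refine le_antisymm (not_lt.mp fun h => ?_)
    (le_min (not_lt.mp fun h => lt_irrefl _ (lt_of_ginv_lt h)) (ENNReal.coe_le_coe.mpr hr))
  obtain ⟨r', h1, h2⟩ := ENNReal.lt_iff_exists_nnreal_btwn.mp h
  rw [lt_min_iff] at h2
  exact (hs r r' (ENNReal.coe_lt_coe.mp h1) (ENNReal.coe_lt_coe.mp h2.2).le).not_ge
    (le_of_lt_ginv h2.1)

theorem continuous_tc (hs : ∀ r r' : ℝ≥0, r < r' → r' ≤ T → a r < a r') :
    Continuous (tc a T) := by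
  have h : Continuous fun s => (⟨tc a T s, tc_le a T s⟩ : Iic T) :=
    Monotone.continuous_of_surjective (fun s s' h => tc_mono a T h)
      fun r => ⟨a r, Subtype.ext (tc_apply hs r.2)⟩
  exact continuous_subtype_val.comp h

theorem change (hc : Continuous a) {g : ℝ≥0 → ℝ} (hg : Measurable g) {s : ℝ} (hs : a 0 ≤ s) :
    ∫ t in Ioi (tc a T s), (if t < T then g t else 0) ∂a.measure =
      ∫ r in Ioi s, if r < a T then g (tc a T r) else 0 := by
  rw [← integral_indicator measurableSet_Ioi, integral_stieltjes a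
    ((Measurable.ite measurableSet_Iio hg measurable_const).indicator measurableSet_Ioi),
    ← integral_indicator (measurableSet_rng a), ← integral_indicator measurableSet_Ioi]
  refine integral_congr_ae (Eventually.of_forall fun r => ?_)
  by_cases h : s < r ∧ r < a T
  · have h1 : ginv a r < T := ginv_lt_of_lt hc (hs.trans h.1.le) h.2
    have h2 : ginv a r < ∞ := h1.trans ENNReal.coe_lt_top
    have h3 : ginv a s < ginv a r := ginv_strict hc hs h.1 ((ginv_mono a h.1.le).trans_lt h2)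
    have h4 : tc a T r = (ginv a r).toNNReal := by rw [tc, min_eq_left h1.le]
    have h5 : tc a T s < (ginv a r).toNNReal := by
      rw [← ENNReal.coe_lt_coe, coe_tc, ENNReal.coe_toNNReal h2.ne]
      exact min_lt_of_left_lt h3
    have h6 : (ginv a r).toNNReal < T := by
      rwa [← ENNReal.coe_lt_coe, ENNReal.coe_toNNReal h2.ne]
    rw [indicator_of_mem (show r ∈ rng a from ⟨hs.trans_lt h.1, h2⟩),
      indicator_of_mem (mem_Ioi.mpr h5), indicator_of_mem (mem_Ioi.mpr h.1), if_pos h6,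
      if_pos h.2, h4]
  · have h7 : (Ioi s).indicator (fun r => if r < a T then g (tc a T r) else 0) r = 0 := by
      by_cases h' : s < r
      · rw [indicator_of_mem (mem_Ioi.mpr h'), if_neg fun h'' => h ⟨h', h''⟩]
      · rw [indicator_of_notMem (by simpa using h')]
    rw [h7]
    by_cases h8 : r ∈ rng a
    · rw [indicator_of_mem h8]
      by_cases h9 : (ginv a r).toNNReal ∈ Ioi (tc a T s)
      · rw [indicator_of_mem h9, if_neg]
        intro h10
        rw [mem_Ioi, ← ENNReal.coe_lt_coe, coe_tc, ENNReal.coe_toNNReal h8.2.ne] at h9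
        rw [← ENNReal.coe_lt_coe, ENNReal.coe_toNNReal h8.2.ne] at h10
        refine h ⟨not_le.mp fun h11 => ?_, lt_of_ginv_lt h10⟩
        exact h9.not_ge (le_min (ginv_mono a h11) h10.le)
      · rw [indicator_of_notMem h9]
    · rw [indicator_of_notMem h8]

theorem change_sub (hc : Continuous a) (hs' : ∀ r r' : ℝ≥0, r < r' → r' ≤ T → a r < a r')
    {g : ℝ≥0 → ℝ} (hg : Continuous g) {s t : ℝ} (hs : a 0 ≤ s) (hst : s ≤ t) :
    ∫ r in s..t, (if r < a T then g (tc a T r) else 0) =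
      ∫ r in Ioi (tc a T s), (if r < T then g r else 0) ∂a.measure -
        ∫ r in Ioi (tc a T t), (if r < T then g r else 0) ∂a.measure := by
  rw [change hc hg.measurable hs, change hc hg.measurable (hs.trans hst),
    intervalIntegral.integral_Ioi_sub_Ioi _ hst]
  change IntegrableOn ((Iio (a T)).indicator fun r => g (tc a T r)) (Ioi s)
  rw [integrableOn_indicator_iff measurableSet_Iio]
  exact ((hg.comp (continuous_tc hs')).integrableOn_Icc (a := s) (b := a T)).mono_set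
    fun r hr => ⟨hr.2.le, hr.1.le⟩

end det

variable {W : Measure Path} {μ : Measure ℂ} {A : Path → StieltjesFunction ℝ≥0} {U K : Set ℂ}

/-- an optional version of the inverse clock -/
theorem exists_opt (hA : IsPCAF W μ A) (x : ℂ) : ∃ ρ : ℝ → Path → ℝ≥0∞, (∀ s, Opt filt (ρ s)) ∧
    (∀ ω, Monotone fun s => ρ s ω) ∧ ∀ᵐ ω ∂Px W x, ∀ s, ρ s ω = ginv (A ω) s := by
  choose G hG hGe using fun t => hA.adapted x t
  have key : ∀ (s : ℝ) (ω : Path) (c : ℝ≥0∞),
      ⨅ (q : ℚ) (_ : s < G (Real.toNNReal q) ω), (Real.toNNReal q : ℝ≥0∞) < c ↔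
        ∃ q : ℚ, (Real.toNNReal q : ℝ≥0∞) < c ∧ s < G (Real.toNNReal q) ω := by
    intro s ω c
    simp only [iInf_lt_iff]
    exact ⟨fun ⟨s, h1, h2⟩ => ⟨s, h2, h1⟩, fun ⟨s, h1, h2⟩ => ⟨s, h2, h1⟩⟩
  refine ⟨fun s ω => ⨅ (q : ℚ) (_ : s < G (Real.toNNReal q) ω), (Real.toNNReal q : ℝ≥0∞),
    fun s t => ?_, fun ω s s' h => ?_, ?_⟩
  · simp only [key, ofPred_exists]
    refine MeasurableSet.iUnion fun q => ?_
    by_cases h : Real.toNNReal q < t
    · simp only [ENNReal.coe_lt_coe, h, true_and]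
      exact past_mono h.le _ ((hG _).measurable measurableSet_Ioi)
    · simp [h]
  · exact iInf_mono fun q => iInf_mono' fun h' => ⟨h.trans_lt h', le_rfl⟩
  · filter_upwards [ae_all_iff.mpr fun q : ℚ => hGe (Real.toNNReal q)] with ω hω s
    refine eq_of_forall_gt_iff fun c => ?_
    rw [key, ginv_lt_iff_rat]
    simp only [hω]

theorem step (hA : IsPCAF W μ A) (hW : IsWiener W) (hF : Fro μ K) (hK : IsCompact K)
    (hU : IsOpen U) (hUK : U ⊆ K) {u φ : ℂ → ℝ} (hu : Continuous u) (hφ : Continuous φ)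
    (hw : WeakSol U μ u φ) {x : ℂ} (hx : x ∈ U) {ρ : Path → ℝ≥0∞} (hρ : Opt filt ρ)
    (hle : ∀ ω, ρ ω ≤ exitT U ω) {G : Path → ℝ} (hG : Measurable[hρ.ms] G) {c : ℝ}
    (hc : ∀ᵐ ω ∂Px W x, ‖G ω‖ ≤ c) :
    Integrable (fun ω : Path => G ω * (u (ω (ρ ω).toNNReal) - (u (ω (exitT U ω).toNNReal) +
      ∫ t in Ioi (ρ ω).toNNReal, cut U φ ω t ∂(A ω).measure))) (Px W x) ∧
    ∫ ω, G ω * (u (ω (ρ ω).toNNReal) - (u (ω (exitT U ω).toNNReal) +
      ∫ t in Ioi (ρ ω).toNNReal, cut U φ ω t ∂(A ω).measure)) ∂Px W x = 0 := by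
  have := hW.prob_Px x
  have hb := hK.isBounded.subset hUK
  have hfin := hW.ae_exitT_lt_top hb x
  have hfin' : ∀ᵐ ω ∂Px W x, ω ∈ {ω | ρ ω < ∞} := hfin.mono fun ω h => (hle ω).trans_lt h
  have mG : Measurable G := hG.mono hρ.ms_le le_rfl
  have mρ := hρ.measurable.ennreal_toNNReal
  obtain ⟨L, -, hL, hadd⟩ := hA.additive
  have mH : Measurable fun η : Path => u (η (exitT U η).toNNReal) + run A U φ η :=
    (hu.measurable.comp (measurable_id.path_ev (measurable_exitT hU).ennreal_toNNReal)).add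
      (hA.measurable_run hU hφ.measurable)
  have hcl : ∀ᵐ ω ∂Px W x, ω (ρ ω).toNNReal ∈ closure U := by
    filter_upwards [hW.ae_Px_zero x] with ω hω
    exact mem_closure_of_le_exitT (hω ▸ subset_closure hx)
      (ENNReal.coe_toNNReal_le_self.trans (hle ω))
  have e1 : ∀ᵐ ω ∂Px W x, u (shift (ρ ω).toNNReal ω (exitT U (shift (ρ ω).toNNReal ω)).toNNReal) +
      run A U φ (shift (ρ ω).toNNReal ω) = u (ω (exitT U ω).toNNReal) +
        ∫ t in Ioi (ρ ω).toNNReal, cut U φ ω t ∂(A ω).measure := by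
    filter_upwards [hL x, hfin] with ω h1 h2
    have h3 := exitT_shift (ENNReal.coe_toNNReal_le_self.trans (hle ω))
    generalize (ρ ω).toNNReal = r at h3 ⊢
    rw [integral_Ioi_shift ((hadd ω h1).2.2 r) (measurable_cut_right hU hφ.measurable ω)]
    have h4 : exitT U (shift r ω) ≠ ∞ := fun h => by simp [h3, h] at h2
    congr 1
    · rw [h3, ENNReal.toNNReal_add ENNReal.coe_ne_top h4, ENNReal.toNNReal_coe]
      rfl
    · refine integral_congr_ae (Eventually.of_forall fun t => ?_)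
      simp only [cut, h3, ENNReal.coe_add, ENNReal.add_lt_add_iff_left ENNReal.coe_ne_top]
      rfl
  have mN : Measurable fun ω => ∫⁻ t, ‖cut U φ ω t‖ₑ ∂(A ω).measure :=
    meas_lintegral_stj hA.meas (F := fun p => ‖cut U φ p.1 p.2‖ₑ)
      (measurable_cut hU hφ.measurable).enorm
  have mS : Measurable fun ω : Path =>
      u (shift (ρ ω).toNNReal ω (exitT U (shift (ρ ω).toNNReal ω)).toNNReal) +
        run A U φ (shift (ρ ω).toNNReal ω) := mH.comp (mρ.path_shift measurable_id)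
  have i1 : Integrable (fun ω : Path => u (ω (exitT U ω).toNNReal) +
      ∫ t in Ioi (ρ ω).toNNReal, cut U φ ω t ∂(A ω).measure) (Px W x) := by
    have i0 := integrable_end hW hU hb hu (subset_closure hx)
    have hm := hA.mass hW hF hK hU hUK hφ x
    refine (i0.norm.add (integrable_toReal_of_lintegral_ne_top mN.aemeasurable hm)).mono'
      (mS.aestronglyMeasurable.congr e1) ?_
    filter_upwards [ae_lt_top mN hm] with ω hω
    refine (norm_add_le _ _).trans (add_le_add le_rfl ?_)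
    refine (norm_integral_le_lintegral_norm _).trans (ENNReal.toReal_mono hω.ne ?_)
    simp only [ofReal_norm]
    exact setLIntegral_le_lintegral _ _
  have i2 : Integrable (fun ω : Path => u (ω (ρ ω).toNNReal)) (Px W x) := by
    obtain ⟨M, hM⟩ := hb.isCompact_closure.exists_bound_of_continuousOn hu.continuousOn
    exact Integrable.of_bound (hu.measurable.comp (measurable_id.path_ev mρ)).aestronglyMeasurable
      M (hcl.mono fun ω h => hM _ h)
  have j1 := i1.bdd_mul mG.aestronglyMeasurable hc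
  have j2 := i2.bdd_mul mG.aestronglyMeasurable hc
  simp only [mul_sub]
  refine ⟨j2.sub j1, ?_⟩
  have e2 : (fun ω : Path => G ω *
      (u (shift (ρ ω).toNNReal ω (exitT U (shift (ρ ω).toNNReal ω)).toNNReal) +
        run A U φ (shift (ρ ω).toNNReal ω))) =ᵐ[Px W x] fun ω => G ω * (u (ω (exitT U ω).toNNReal) +
        ∫ t in Ioi (ρ ω).toNNReal, cut U φ ω t ∂(A ω).measure) := e1.mono fun ω h => by
    simp only [h]
  have h5 := (hW.isFBM_Px x).strong_integral hρ hG
    (Ψ := fun p => p.1 * (u (p.2 (exitT U p.2).toNNReal) + run A U φ p.2))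
    (measurable_fst.mul (mH.comp measurable_snd)) (j1.congr e2.symm).integrableOn
  rw [Measure.restrict_eq_self_of_ae_mem hfin'] at h5
  simp only [id] at h5
  rw [integral_sub j2 j1, ← integral_congr_ae e2, h5, sub_eq_zero]
  refine integral_congr_ae (hcl.mono fun ω h => ?_)
  simp only
  rw [integral_const_mul, hA.rep hW hF hK hU hUK hu hφ (fun η h1 h2 h3 => ?_) h]
  simp only [WeakAux.lap_eq h1]
  exact hw η ⟨h1, h2, h3⟩

end PfB10

open PfB10 in
theorem B10_of : B10 := by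
  intro W μ O K U x A hW hC hK hKO hF hU hUK hx
  have := hW.prob_Px x
  have hA := hC.pcaf
  have hb := hK.isBounded.subset hUK
  have hF' : Fro μ K := ⟨hF.1.ne, hF.2⟩
  have mτ := measurable_exitT hU
  have good : ∀ᵐ ω ∂Px W x, ∃ T : ℝ≥0, exitT U ω = T ∧ 0 < T ∧ ω 0 = x ∧ Continuous (A ω) ∧
      A ω 0 = 0 ∧ ∀ r r' : ℝ≥0, r < r' → r' ≤ T → A ω r < A ω r' := by
    filter_upwards [hW.ae_exitT_lt_top hb x, hW.ae_Px_zero x, hC.cont, hC.strict] with ω h1 h2 h3 h4
    have h5 := exitT_pos hU (h2 ▸ hx : ω 0 ∈ U)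
    have h6 : ∀ t : ℝ≥0, (t : ℝ≥0∞) ≤ exitT U ω → ω t ∈ O := fun t ht =>
      hKO (closure_minimal hUK hK.isClosed (mem_closure_of_le_exitT (h2 ▸ subset_closure hx) ht))
    lift exitT U ω to ℝ≥0 using h1.ne with T
    exact ⟨T, rfl, ENNReal.coe_pos.mp h5, h2, h3.1, h3.2, fun r r' h h' =>
      h4 r r' h fun q hq => h6 q (ENNReal.coe_le_coe.mpr (hq.trans h'))⟩
  simp only [lbm_eq, clock_eq]
  refine ⟨this, ⟨fun s => ?_, ?_, ?_⟩, fun u φ hu hφ hw k τ f s t hf hτ hs hst => ?_⟩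
  · have h1 : Measurable fun ω => ginv (A ω) s :=
      Measurable.of_uncurry_right (f := fun ω r => ginv (A ω) r) (measurable_ginv_pair hA.meas)
    exact (measurable_id.path_ev (h1.min mτ).ennreal_toNNReal).aemeasurable
  · exact (StrongAux.measurable_value (Z := fun t ω => A ω t) hA.meas
      (fun ω t => (A ω).right_continuous t) mτ.ennreal_toNNReal).aemeasurable
  · filter_upwards [good] with ω ⟨T, h1, h2, h3, h4, h5, h6⟩
    have h7 := notMem_exitT hU (h1 ▸ ENNReal.coe_lt_top : exitT U ω < ∞)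
    have h8 := mem_closure_of_le_exitT (h3 ▸ subset_closure hx : ω 0 ∈ closure U) h1.ge
    rw [h1, ENNReal.toNNReal_coe] at h7 ⊢
    refine ⟨ω.continuous.comp (continuous_tc h6), ?_, h5 ▸ h6 0 T h2 le_rfl, fun s hs => ?_,
      fun s hs => ?_⟩
    · rw [← h5, tc_apply h6 h2.le, h3]
    · exact mem_of_lt_exitT (h1 ▸ ENNReal.coe_lt_coe.mpr (tc_lt h4 h2 hs))
    · rw [tc_of_le hs, hU.frontier_eq]
      exact ⟨h8, h7⟩
  · obtain ⟨ρ, h1, h2, h3⟩ := exists_opt hA x
    have hτU : Opt filt (exitT U) := opt_exitT (B := id) (hW.isFBM_Px x).adapted hU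
    have o : ∀ r, Opt filt fun ω => min (ρ r ω) (exitT U ω) := fun r => (h1 r).min hτU
    have mG : ∀ r, s ≤ r → Measurable[(o r).ms] fun ω : Path =>
        ∏ i, f i (ω (min (ρ (τ i) ω) (exitT U ω)).toNNReal) := fun r hr =>
      Finset.measurable_prod _ fun i _ => (hf i).measurable.comp
        (((hW.isFBM_Px x).measurable_ms_eval (o (τ i))).mono ((o (τ i)).ms_mono (o r)
          fun ω => min_le_min_right _ (h2 ω ((hτ i).trans hr))) le_rfl)
    choose M hM using fun i => hb.isCompact_closure.exists_bound_of_continuousOn (hf i).continuousOn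
    have hc : ∀ᵐ ω ∂Px W x, ‖∏ i, f i (ω (min (ρ (τ i) ω) (exitT U ω)).toNNReal)‖ ≤ ∏ i, M i := by
      filter_upwards [hW.ae_Px_zero x] with ω hω
      rw [norm_prod]
      exact Finset.prod_le_prod (fun i _ => norm_nonneg _) fun i _ => hM i _
        (mem_closure_of_le_exitT (hω ▸ subset_closure hx)
          (ENNReal.coe_toNNReal_le_self.trans (min_le_right _ _)))
    obtain ⟨i1, e1⟩ := step hA hW hF' hK hU hUK hu hφ hw hx (o s) (fun ω => min_le_right _ _)
      (mG s le_rfl) hc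
    obtain ⟨i2, e2⟩ := step hA hW hF' hK hU hUK hu hφ hw hx (o t) (fun ω => min_le_right _ _)
      (mG t hst) hc
    have e3 := integral_sub i2 i1
    rw [e1, e2, sub_zero] at e3
    refine Eq.trans (integral_congr_ae ?_) e3
    filter_upwards [good, h3] with ω ⟨T, g1, g2, g3, g4, g5, g6⟩ g7
    have g8 := change_sub g4 g6 (hφ.comp ω.continuous) (g5.le.trans hs) hst
    simp only [Function.comp_apply] at g8
    simp only [g7, cut, g1, ENNReal.toNNReal_coe, ENNReal.coe_lt_coe, g8]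
    simp only [tc]
    ring

end Pool.Agent.Lib.MP_0d9445_pr.Walk
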