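import Pool.Agent.Lib.MP_0d9445_pr.Walk.PfCell

noncomputable section

open MeasureTheory ProbabilityTheory Set Filter Topology
open scoped NNReal ENNReal Classical

namespace Pool.Agent.Lib.MP_0d9445_pr.Walk

open BM Cell PfCell

namespace PfC6

theorem exists_levels (B : ℝ) {η : ℝ} (hη : 0 < η) : ∃ m : ℕ, 0 < m ∧ √(B / m) ≤ η := by
  obtain ⟨m, hm⟩ := exists_nat_gt (max (B / η ^ 2) 0)
  have h0 : (0 : ℝ) < m := (le_max_right _ _).trans_lt hm
  refine ⟨m, Nat.cast_pos.1 h0, Real.sqrt_le_iff.2 ⟨hη.le, ?_⟩⟩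
  have h1 := (le_max_left _ _).trans_lt hm
  rw [div_lt_iff₀ (by positivity)] at h1
  rw [div_le_iff₀ h0]
  linarith

theorem loc {K μ a N ρ FF U} {g : ℂ → ℝ} {L : ℝ} {u} (hG : Good K μ a N ρ FF) (hU : Adm K U)
    (hg : ∀ x y, |g x - g y| ≤ L * ‖x - y‖) (hu : Sol U N ρ g L u) (hE : EnBdd K N u) {c : ℂ}
    (hc : c ∈ interior K) {η : ℝ} (hη : 0 < η) : ∃ r > 0, ∀ᶠ n in atTop, ∀ x ∈ sqC c r,
      ∀ y ∈ sqC c r, x ∈ (N n).V → y ∈ (N n).V → |u n x - u n y| ≤ η := by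
  have hL : 0 ≤ L := by simpa using (abs_nonneg _).trans (hg 1 0)
  obtain ⟨R₀, hR₀, hK₀⟩ := exists_sqC (isOpen_interior.mem_nhds hc)
  obtain ⟨E, hE⟩ := hE _ (isCompact_sqC c R₀) hK₀
  obtain ⟨C, hC⟩ := hG.xy
  obtain ⟨r₀, hr₀, hfr⟩ := hU.frames
  obtain ⟨m, hm, hmE⟩ := exists_levels (8 * E * (4 * C)) (show 0 < η / 3 by positivity)
  obtain ⟨δ, hδ, hgr⟩ := hG.green (η / 6 / (L + 1)) (by positivity)
  obtain ⟨R, hR, hR1, hR2, hR3, hR4⟩ : ∃ R > 0, R ≤ R₀ / 8 ∧ R ≤ r₀ ∧ R ≤ δ ∧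
      R ≤ η / 48 / (L + 1) :=
    ⟨min (min (R₀ / 8) r₀) (min δ (η / 48 / (L + 1))), by positivity,
      (min_le_left _ _).trans (min_le_left _ _), (min_le_left _ _).trans (min_le_right _ _),
      (min_le_right _ _).trans (min_le_left _ _), (min_le_right _ _).trans (min_le_right _ _)⟩
  have hK : ∀ {r : ℝ}, r ≤ 8 * R → sqC c r ⊆ K := fun hr =>
    ((sqC_mono c (by linarith)).trans hK₀).trans interior_subset
  have hle : ∀ {j k : ℕ}, j ≤ k → R / 4 ^ k ≤ R / 4 ^ j := fun hjk => by gcongr; norm_num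
  have hle0 : ∀ j : ℕ, R / 4 ^ j ≤ R := fun j => by simpa using hle (Nat.zero_le j)
  have hY : ∀ᶠ n in atTop, ∀ j ∈ Finset.range m,
      (N n).Y (sqC c (2 * (R / 4 ^ j))) ≤ C * (2 * (R / 4 ^ j)) ^ 2 :=
    (Finset.range m).eventually_all.2 fun j _ =>
      (hC c _ (by positivity) (hK (by linarith [hle0 j]))).mono fun _ hh => hh.2
  refine ⟨R / 4 ^ m, by positivity, ?_⟩
  filter_upwards [hG.nice (R / 4 ^ m) (by positivity), hE, hY, hgr R hR hR3, hu.bdry, hu.src]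
    with n hn hE hY hgr hb hs
  have hesc := hn.cw.esc_sqO hR.le (hK (by linarith))
  have hsol := (N n).G.solve_sol (k := 0) hesc (fun _ _ => le_rfl) (ρ n) 0
  have key := hn.cw.equi hR (hK (by linarith)) hm (d := fun x => Metric.diam ((N n).H x))
    (fun _ _ => Metric.diam_nonneg) (dist_le_diam hn) (fun x hx => hn.diam x (mt_subset _ hx))
    (Y := 4 * C) (E := E) (fun j hj => ((sum_mt_le hn (by
      linarith [hle hj.le])).trans (hY j (Finset.mem_range.2 hj))).trans_eq (by ring)) (u := u n)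
    (((N n).G.en_mono (mt_subset_pts hn (by linarith [hle0 m])) _).trans hE) (U := U)
    (fun r h1 h2 => hfr c r h1 (by linarith))
    (p := L • (N n).G.solve ((N n).inside (sqO c R)) 0 (ρ n) 0) (ω := 8 * L * R)
    (P := L * (η / 6 / (L + 1))) (by positivity) (fun x hx => ?_) (fun x _ => ⟨?_, ?_⟩)
    fun x hx y hy hxU hyU => ?_
  · have e1 : L * (η / 6 / (L + 1)) ≤ η / 6 := by
      rw [← mul_div_assoc, div_le_iff₀ (by positivity)]
      nlinarith
    have e2 : L * R ≤ η / 48 := by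
      rw [le_div_iff₀ (by positivity)] at hR4
      nlinarith
    have k2 : ∀ x ∈ sqC c (R / 4 ^ m), ∀ y ∈ sqC c (R / 4 ^ m), x ∈ (N n).V → y ∈ (N n).V →
        u n x - u n y ≤ η := fun x hx y hy hxV hyV => by
      have := key x (pts_subset_mt hn _ ((N n).mem_pts.2 ⟨hxV, hx⟩)) y
        (pts_subset_mt hn _ ((N n).mem_pts.2 ⟨hyV, hy⟩))
      linarith
    exact fun x hx y hy hxV hyV => abs_sub_le_iff.2 ⟨k2 x hx y hy hxV hyV, k2 y hy x hx hyV hxV⟩
  · rw [(N n).G.lap_smul, lap_pot hesc (ins_mono inter_subset_right hx)]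
    exact hs x (ins_mono inter_subset_left hx)
  · exact mul_nonneg hL (pot_nonneg hesc (fun y _ => hG.rho_nonneg n y) x)
  · exact mul_le_mul_of_nonneg_left (hgr c _ (hK le_rfl) hsol x) hL
  · rw [hb x fun hh => hxU (mem_ins.1 hh).2, hb y fun hh => hyU (mem_ins.1 hh).2]
    have h1 : sn c x ≤ 2 * R :=
      ((N n).mem_pts.1 (mt_subset_pts hn (R := 2 * R) (by linarith [hle0 m]) hx)).2
    have h2 : sn c y ≤ 2 * R :=
      ((N n).mem_pts.1 (mt_subset_pts hn (R := 2 * R) (by linarith [hle0 m]) hy)).2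
    have h3 := sn_triangle y c x
    have h4 := dist_le_sn y x
    rw [sn_comm y c] at h3
    rw [dist_eq_norm] at h4
    refine (le_abs_self _).trans ((hg x y).trans ?_)
    nlinarith

end PfC6

theorem C6_of (hGeo : Geo) (hCS : CS) (hBnd : Bnd) : C6 := by
  intro K μ a N ρ FF U g L u hG hU hg hu hE η hη
  have hL : 0 ≤ L := by simpa using (abs_nonneg _).trans (hg 1 0)
  have hc : IsCompact (closure U) :=
    hG.cpt.of_isClosed_subset isClosed_closure (hU.sub.trans interior_subset)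
  obtain ⟨δ, hδ, h⟩ := unif hc
    (P := fun n x y => x ∈ (N n).V → y ∈ (N n).V → |u n x - u n y| ≤ η)
    fun c hc => PfC6.loc hG hU hg hu hE (hU.sub hc) hη
  refine ⟨min δ (η / (L + 1)), by positivity, ?_⟩
  filter_upwards [h, hG.nice 1 one_pos, hu.bdry] with n h hn hb x hx y hy hxy
  have hxy1 := hxy.trans (min_le_left _ _)
  have hxy2 := hxy.trans (min_le_right _ _)
  by_cases h1 : x ∈ (N n).inside U
  · refine h x (subset_closure ((N n).mem_pts.1 (inside_subset_pts hn U h1)).2) y ?_ hx hy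
    refine (sn_le_dist x y).trans ?_
    rwa [dist_comm, dist_eq_norm]
  by_cases h2 : y ∈ (N n).inside U
  · rw [abs_sub_comm]
    refine h y (subset_closure ((N n).mem_pts.1 (inside_subset_pts hn U h2)).2) x ?_ hy hx
    refine (sn_le_dist y x).trans ?_
    rwa [dist_eq_norm]
  rw [hb x h1, hb y h2]
  rw [le_div_iff₀ (by positivity)] at hxy2
  nlinarith [hg x y, norm_nonneg (x - y)]

end Pool.Agent.Lib.MP_0d9445_pr.Walk
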