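import Pool.Agent.Lib.MP_0d9445_pr.Walk.Iface
import Pool.Agent.Lib.MP_0d9445_pr.Net.Weight

noncomputable section

open MeasureTheory ProbabilityTheory Set Filter Topology
open scoped NNReal ENNReal Classical

namespace Pool.Agent.Lib.MP_0d9445_pr.Walk

open BM Cell

namespace PfCS

theorem key (G : Net ℂ) (A : Finset ℂ) (β r : ℂ → ℂ → ℝ) (v : ℂ → ℝ) (c : ℝ)
    (h : ∀ x ∈ A, ∀ y ∈ G.N x, |β x y| ≤ c * |r x y|) :
    |1 / 2 * ∑ x ∈ A, ∑ y ∈ G.N x, β x y * (v x - v y)| ≤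
      c * √(1 / 2 * ∑ x ∈ A, ∑ y ∈ G.N x, r x y * r x y) * √(G.en A v v) := by
  rcases le_or_gt 0 c with hc | hc
  · refine (G.edge_cs A β fun x y => v x - v y).trans
      (mul_le_mul_of_nonneg_right ?_ (Real.sqrt_nonneg _))
    rw [← Real.sqrt_sq hc, ← Real.sqrt_mul (sq_nonneg c), mul_left_comm]
    refine Real.sqrt_le_sqrt (mul_le_mul_of_nonneg_left ?_ (by norm_num))
    rw [Finset.mul_sum]
    refine Finset.sum_le_sum fun x hx => ?_
    rw [Finset.mul_sum]
    refine Finset.sum_le_sum fun y hy => ?_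
    have h1 := mul_self_le_mul_self (abs_nonneg _) (h x hx y hy)
    rw [abs_mul_abs_self] at h1
    refine h1.trans (le_of_eq ?_)
    rw [← abs_mul_abs_self (r x y)]; ring
  · have h0 : ∀ x ∈ A, ∀ y ∈ G.N x, r x y = 0 ∧ β x y = 0 := fun x hx y hy => by
      have h1 := h x hx y hy
      have h2 : |r x y| = 0 := by nlinarith [abs_nonneg (β x y), abs_nonneg (r x y)]
      rw [h2, mul_zero] at h1
      exact ⟨abs_eq_zero.1 h2, abs_nonpos_iff.1 h1⟩
    rw [Finset.sum_eq_zero fun x hx => Finset.sum_eq_zero fun y hy => by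
      rw [(h0 x hx y hy).2, zero_mul], Finset.sum_eq_zero fun x hx =>
      Finset.sum_eq_zero fun y hy => by rw [(h0 x hx y hy).1, zero_mul]]
    simp

theorem X_eq (N : FC) (S : Set ℂ) : N.X S = N.G.len2 (N.pts S) := rfl

theorem pts_mono (N : FC) {S S' : Set ℂ} (h : S ⊆ S') : N.pts S ⊆ N.pts S' :=
  fun _ hx => N.mem_pts.2 ⟨(N.mem_pts.1 hx).1, h (N.mem_pts.1 hx).2⟩

end PfCS

theorem CS_of : CS := by
  refine ⟨fun N A β u v c h => PfCS.key N.G A β (fun x y => u x - u y) v c h,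
    fun N S β v c h => ?_, fun N S g L h => ?_, fun N S S' h => ⟨?_, ?_, ?_, ?_⟩⟩
  · rw [PfCS.X_eq, Net.len2_eq]
    exact PfCS.key N.G _ β (fun x y => ‖x - y‖) v c fun x hx y hy => by
      rw [abs_norm]; exact h x hx y hy
  · rw [PfCS.X_eq, Net.len2_eq, mul_left_comm, Net.en]
    refine mul_le_mul_of_nonneg_left ?_ (by norm_num)
    rw [Finset.mul_sum]
    refine Finset.sum_le_sum fun x _ => ?_
    rw [Finset.mul_sum]
    refine Finset.sum_le_sum fun y _ => ?_
    have h1 := mul_self_le_mul_self (abs_nonneg _) (h x y)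
    rw [abs_mul_abs_self] at h1
    exact h1.trans (le_of_eq (by ring))
  · exact add_nonneg (N.G.en_nonneg _ _) (N.G.en_nonneg _ _)
  · exact Finset.sum_nonneg fun _ _ => sq_nonneg _
  · exact add_le_add (N.G.en_mono (PfCS.pts_mono N h) _) (N.G.en_mono (PfCS.pts_mono N h) _)
  · exact Finset.sum_le_sum_of_subset_of_nonneg (PfCS.pts_mono N h) fun _ _ _ => sq_nonneg _

end Pool.Agent.Lib.MP_0d9445_pr.Walk
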