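import Pool.Agent.Lib.MP_0d9445_pr.Walk.Iface
import Pool.Agent.Lib.MP_0d9445_pr.Lim.Laplace

noncomputable section

open MeasureTheory ProbabilityTheory Set Filter Topology
open scoped NNReal ENNReal Classical

namespace Pool.Agent.Lib.MP_0d9445_pr.Walk

open BM Cell

namespace PfF1

end PfF1

theorem F1_of : F1 := by
  intro a m b c hm ha hb hbc hL heq j t hj
  have hpos := hm.eventually (eventually_gt_atTop 0)
  have ht : 0 ≤ t := ge_of_tendsto hj (hpos.mono fun n hn => by positivity)
  refine Lim.laplace_point hm ha hb.aestronglyMeasurable (fun s _ => hbc s) (fun i => ?_) ht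
    hb.continuousWithinAt ?_
  · have := hL (i + 1) (Nat.le_add_left 1 i)
    push_cast at this
    refine this.congr fun n => tsum_congr fun l => ?_
    ring
  · intro ε hε
    obtain ⟨δ, hδ, h⟩ := heq ε hε
    refine ⟨δ / 2, by positivity, ?_⟩
    filter_upwards [h, hpos, Metric.tendsto_nhds.1 hj (δ / 2) (by positivity)] with n h1 h2 h3 l hl
    rw [Real.dist_eq, abs_lt] at h3
    rw [abs_le] at hl
    rcases le_total l (j n) with h4 | h4
    · refine h1 _ _ h4 ?_
      rw [← div_le_iff₀ h2, sub_div]
      linarith [hl.1, h3.2]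
    · rw [abs_sub_comm]
      refine h1 _ _ h4 ?_
      rw [← div_le_iff₀ h2, sub_div]
      linarith [hl.2, h3.1]

end Pool.Agent.Lib.MP_0d9445_pr.Walk
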