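import Pool.Agent.Lib.MP_0d9445_pr.Walk.Iface
import Pool.Agent.Lib.MP_0d9445_pr.Lim.Laplace

noncomputable section

open MeasureTheory ProbabilityTheory Set Filter Topology
open scoped NNReal ENNReal Classical

namespace Pool.Agent.Lib.MP_0d9445_pr.Walk

open BM Cell

namespace PfF2

open Real

lemma disc (v a e : ℕ → ℝ) (m α c b : ℝ) (hm : 0 < m) (hα : 0 < α) (hv : ∀ j, |v j| ≤ c)
    (ha : ∀ j, |a j| ≤ c) (h : ∀ j, v j - v (j + 1) = (a j - α * v j) / m - e j)
    (he : ∀ J, ∑ j ∈ Finset.range J, |e j| ≤ b) :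
    |v 0 - ∑' j : ℕ, (1 + α / m)⁻¹ ^ (j + 1) * (a j / m)| ≤ b := by
  have hx : 0 < α / m := div_pos hα hm
  have hr : (1 + α / m)⁻¹ < 1 := inv_lt_one_of_one_lt₀ (by linarith)
  have hs : Summable fun j : ℕ => (1 + α / m)⁻¹ ^ (j + 1) * (a j / m) :=
    (Lim.LapAux.wsum (fun j => by positivity) (Lim.LapAux.hasSum_res hm hα) ha).1.congr
      fun j => by ring
  have hp : ∀ N, v 0 - ∑ j ∈ Finset.range N, (1 + α / m)⁻¹ ^ (j + 1) * (a j / m) -
      ((1 + α / m)⁻¹) ^ N * v N = -∑ j ∈ Finset.range N, (1 + α / m)⁻¹ ^ (j + 1) * e j := by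
    intro N
    induction N with
    | zero => simp
    | succ N ih =>
      rw [Finset.sum_range_succ, Finset.sum_range_succ]
      have h1 : v N = (1 + α / m)⁻¹ * (v (N + 1) + a N / m - e N) := by
        rw [eq_inv_mul_iff_mul_eq₀ (by positivity)]
        linear_combination h N
      linear_combination ih + (1 + α / m)⁻¹ ^ N * h1
  have h0 : Tendsto (fun N : ℕ => ((1 + α / m)⁻¹) ^ N * v N) atTop (𝓝 0) := by
    have h1 : Tendsto (fun N : ℕ => ((1 + α / m)⁻¹) ^ N * c) atTop (𝓝 0) := by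
      simpa using (tendsto_pow_atTop_nhds_zero_of_lt_one (by positivity) hr).mul_const c
    refine squeeze_zero_norm (fun N => ?_) h1
    rw [Real.norm_eq_abs, abs_mul, abs_of_nonneg (by positivity)]
    exact mul_le_mul_of_nonneg_left (hv N) (by positivity)
  have h2 := (((tendsto_const_nhds (x := v 0)).sub hs.hasSum.tendsto_sum_nat).sub h0).abs
  rw [sub_zero] at h2
  refine le_of_tendsto' h2 fun N => ?_
  rw [hp, abs_neg]
  refine (Finset.abs_sum_le_sum_abs _ _).trans ((Finset.sum_le_sum fun j _ => ?_).trans (he N))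
  rw [abs_mul, abs_of_nonneg (by positivity)]
  exact mul_le_of_le_one_left (abs_nonneg _) (pow_le_one₀ (by positivity) hr.le)

lemma ii {a : ℝ → ℝ} {c : ℝ} (hm : Measurable a) (ha : ∀ t, |a t| ≤ c) (s t : ℝ) :
    IntervalIntegrable a volume s t :=
  (intervalIntegrable_const (c := c)).mono_fun' hm.aestronglyMeasurable
    (Eventually.of_forall fun r => ha r)

lemma parts {a : ℝ → ℝ} {α c : ℝ} (hα : 0 < α) (hm : Measurable a) (ha : ∀ t, |a t| ≤ c) :
    IntegrableOn (fun t => α * exp (-(α * t)) * ∫ r in (0 : ℝ)..t, a r) (Ioi 0) ∧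
    ∫ t in Ioi (0 : ℝ), α * exp (-(α * t)) * ∫ r in (0 : ℝ)..t, a r =
      ∫ r in Ioi (0 : ℝ), exp (-(α * r)) * a r := by
  have hc : 0 ≤ c := (abs_nonneg _).trans (ha 0)
  let f : ℝ → ℝ → ℝ := fun t r => if r ≤ t then α * exp (-(α * t)) * a r else 0
  have hfm : Measurable (Function.uncurry f) :=
    Measurable.ite (measurableSet_le measurable_snd measurable_fst) (by fun_prop) measurable_const
  have he : IntegrableOn (fun t : ℝ => exp (-(α / 2) * t)) (Ioi 0) :=
    integrableOn_exp_mul_Ioi (by linarith) 0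
  have hi : Integrable (Function.uncurry f)
      ((volume.restrict (Ioi (0 : ℝ))).prod (volume.restrict (Ioi (0 : ℝ)))) := by
    refine Integrable.mono' ((he.mul_prod he).const_mul (α * c)) hfm.aestronglyMeasurable
      (Eventually.of_forall fun p => ?_)
    simp only [Function.uncurry, f]
    split_ifs with h
    · rw [Real.norm_eq_abs, abs_mul, abs_of_pos (by positivity), ← exp_add]
      have h1 : exp (-(α * p.1)) ≤ exp (-(α / 2) * p.1 + -(α / 2) * p.2) :=
        exp_le_exp.2 (by nlinarith)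
      have h2 := mul_le_mul h1 (ha p.2) (abs_nonneg _) (exp_pos _).le
      nlinarith
    · rw [norm_zero]
      positivity
  have e1 : ∀ t ∈ Ioi (0 : ℝ), ∫ r in Ioi (0 : ℝ), f t r =
      α * exp (-(α * t)) * ∫ r in (0 : ℝ)..t, a r := by
    intro t ht
    rw [intervalIntegral.integral_of_le (le_of_lt ht), ← integral_const_mul, ← Ioi_inter_Iic,
      ← setIntegral_indicator measurableSet_Iic]
    rfl
  have e2 : ∀ r ∈ Ioi (0 : ℝ), ∫ t in Ioi (0 : ℝ), f t r = exp (-(α * r)) * a r := by
    intro r hr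
    have h1 : ∫ t in Ioi (0 : ℝ), f t r =
        ∫ t in Ioi (0 : ℝ) ∩ Ici r, α * exp (-(α * t)) * a r := by
      rw [← setIntegral_indicator measurableSet_Ici]
      rfl
    have h2 : Ioi (0 : ℝ) ∩ Ici r = Ici r := 
      inter_eq_right.2 fun t ht => mem_Ioi.2 ((mem_Ioi.1 hr).trans_le (mem_Ici.1 ht))
    rw [h1, h2, integral_Ici_eq_integral_Ioi, integral_mul_const, integral_const_mul]
    have := integral_exp_mul_Ioi (a := -α) (by linarith) r
    simp only [neg_mul] at this
    rw [this]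
    field_simp
  refine ⟨hi.integral_prod_left.congr ?_, ?_⟩
  · filter_upwards [ae_restrict_mem measurableSet_Ioi] with t ht
    exact e1 t ht
  · rw [← setIntegral_congr_fun measurableSet_Ioi e1, integral_integral_swap hi,
      setIntegral_congr_fun measurableSet_Ioi e2]

lemma cont (v a : ℝ → ℝ) (α c : ℝ) (hα : 0 < α) (hv : Measurable v) (ha : Measurable a)
    (hvc : ∀ t, |v t| ≤ c) (hac : ∀ t, |a t| ≤ c)
    (h : ∀ t, 0 ≤ t → v t - v 0 = -∫ r in (0 : ℝ)..t, (a r - α * v r)) :
    v 0 = ∫ t in Ioi (0 : ℝ), Real.exp (-(α * t)) * a t := by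
  obtain ⟨i1, e1⟩ := parts hα ha hac
  obtain ⟨i2, e2⟩ := parts hα hv hvc
  have i3 : IntegrableOn (fun t => exp (-(α * t)) * v t) (Ioi 0) := by
    refine Integrable.mono' ((integrableOn_exp_mul_Ioi (a := -α) (by linarith) 0).mul_const c)
      (by fun_prop : Measurable fun t => exp (-(α * t)) * v t).aestronglyMeasurable
      (Eventually.of_forall fun t => ?_)
    rw [Real.norm_eq_abs, abs_mul, abs_of_pos (exp_pos _), neg_mul]
    exact mul_le_mul_of_nonneg_left (hvc t) (exp_pos _).le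
  have i4 : IntegrableOn (fun t => exp (-(α * t))) (Ioi 0) := by
    simpa only [neg_mul] using integrableOn_exp_mul_Ioi (a := -α) (by linarith) 0
  have e4 : ∫ t in Ioi (0 : ℝ), exp (-(α * t)) = 1 / α := by
    have := integral_exp_mul_Ioi (a := -α) (by linarith) 0
    simp only [neg_mul, mul_zero, exp_zero, neg_div_neg_eq] at this
    exact this
  have e3 : ∀ t ∈ Ioi (0 : ℝ), α * exp (-(α * t)) * ∫ r in (0 : ℝ)..t, a r =
      (α * v 0 * exp (-(α * t)) - α * (exp (-(α * t)) * v t)) +
        α * (α * exp (-(α * t)) * ∫ r in (0 : ℝ)..t, v r) := by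
    intro t ht
    have h1 := h t (le_of_lt ht)
    rw [intervalIntegral.integral_sub (ii ha hac 0 t) ((ii hv hvc 0 t).const_mul α),
      intervalIntegral.integral_const_mul] at h1
    linear_combination α * exp (-(α * t)) * h1
  have i5 : IntegrableOn (fun t => α * v 0 * exp (-(α * t)) - α * (exp (-(α * t)) * v t))
      (Ioi 0) := (i4.const_mul _).sub (i3.const_mul _)
  rw [← e1, setIntegral_congr_fun measurableSet_Ioi e3, integral_add i5 (i2.const_mul α),
    integral_sub (i4.const_mul _) (i3.const_mul _), integral_const_mul, integral_const_mul,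
    integral_const_mul, e2, e4]
  field_simp
  ring

end PfF2

theorem F2_of : F2 := by
  exact ⟨PfF2.disc, PfF2.cont⟩

end Pool.Agent.Lib.MP_0d9445_pr.Walk
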