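import Pool.Agent.Lib.MP_0d9445_pr.Walk.Iface
import Pool.Agent.Lib.MP_0d9445_pr.Lim.Scalar

noncomputable section

open MeasureTheory ProbabilityTheory Set Filter Topology
open scoped NNReal ENNReal Classical

namespace Pool.Agent.Lib.MP_0d9445_pr.Walk

open BM Cell

namespace PfF3

lemma exists_clamp {X : Type} [TopologicalSpace X] {K : Set X} (hK : IsCompact K) {f : X → ℝ}
    (hf : Continuous f) :
    ∃ (g : X → ℝ) (B : ℝ), Continuous g ∧ (∀ x, |g x| ≤ B) ∧ ∀ x ∈ K, g x = f x := by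
  obtain ⟨B, hB⟩ := hK.exists_bound_of_continuousOn hf.continuousOn
  refine ⟨fun x => max (-|B|) (min |B| (f x)), |B|, by fun_prop, fun x => ?_, fun x hx => ?_⟩
  · exact abs_le.2 ⟨le_max_left _ _, max_le (neg_le_self (abs_nonneg _)) (min_le_left _ _)⟩
  · have h := abs_le.1 ((hB x hx).trans (le_abs_self B))
    show max (-|B|) (min |B| (f x)) = f x
    rw [min_eq_right h.2, max_eq_right h.1]

end PfF3

theorem F3_of (hF2 : F2) : F3 := by
  intro Ω _ P _ U z Y σ k τ fs s α f v hU hP hfs hτ hs hα hf hv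
  have hK : IsCompact (closure U) := hU.isCompact_closure
  let Z : Ω → C(ℝ, ℂ) := fun ω =>
    if h : Continuous fun t => Y t ω then ⟨fun t => Y t ω, h⟩ else 0
  have hZY : ∀ᵐ ω ∂P, ∀ t, Z ω t = Y t ω := by
    filter_upwards [hP.path] with ω h t
    simp only [Z, dif_pos h.1, ContinuousMap.coe_mk]
  have hZ : ∀ t, AEMeasurable (fun ω => Z ω t) P := fun t =>
    (hP.measY t).congr (hZY.mono fun ω h => (h t).symm)
  have hYK : ∀ᵐ ω ∂P, ∀ t, Y t ω ∈ closure U := by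
    filter_upwards [hP.path] with ω h t
    rcases lt_or_ge t (σ ω) with h1 | h1
    · exact subset_closure (h.2.2.2.1 t h1)
    · exact frontier_subset_closure (h.2.2.2.2 t h1)
  choose gs Bs hg1 hg2 hg3 using fun i => PfF3.exists_clamp hK (hfs i)
  obtain ⟨f', Bf, hf1, hf2, hf3⟩ := PfF3.exists_clamp hK hf
  obtain ⟨v', Bv, hv1, hv2, hv3⟩ := PfF3.exists_clamp hK hv
  let G : Ω → ℝ := fun ω => ∏ i, gs i (Z ω (τ i))
  have hG : AEMeasurable G P := Finset.aemeasurable_fun_prod _ fun i _ =>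
    (hg1 i).measurable.comp_aemeasurable (hZ _)
  have hGC : ∀ ω, |G ω| ≤ ∏ i, Bs i := fun ω => by
    rw [Finset.abs_prod]
    exact Finset.prod_le_prod (fun i _ => abs_nonneg _) fun i _ => hg2 i _
  have hGe : ∀ᵐ ω ∂P, G ω = ∏ i, fs i (Y (τ i) ω) := by
    filter_upwards [hZY, hYK] with ω h1 h2
    exact Finset.prod_congr rfl fun i _ => by rw [h1, hg3 i _ (h2 _)]
  have e : ∀ g g' : ℂ → ℝ, (∀ x ∈ closure U, g' x = g x) → ∀ t,
      ∫ ω, (∏ i, fs i (Y (τ i) ω)) * g (Y t ω) ∂P = ∫ ω, G ω * g' (Z ω t) ∂P := by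
    intro g g' h t
    refine integral_congr_ae ?_
    filter_upwards [hZY, hYK, hGe] with ω h1 h2 h3
    rw [h3, h1, h _ (h2 _)]
  simp only [e f f' hf3, e v v' hv3]
  refine ⟨(Lim.continuous_time hZ hG hGC hf1 hf2).comp (continuous_const_add s),
    ⟨_, fun t => (Lim.integrable_time hZ hG hGC hf1 hf2 _).2⟩, fun hfr hmp => ?_⟩
  refine Lim.mp_laplace hZ hG hGC hv1 hf1 (B := max Bv Bf)
    (fun x => (hv2 x).trans (le_max_left _ _)) (fun x => (hf2 x).trans (le_max_right _ _)) hα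
    fun t ht => ?_
  rw [← hmp k τ fs s t hfs hτ hs ht]
  refine integral_congr_ae ?_
  filter_upwards [hZY, hYK, hGe, hP.path] with ω h1 h2 h3 h4
  rw [h3, h1, h1, hv3 _ (h2 _), hv3 _ (h2 _)]
  congr 2
  refine intervalIntegral.integral_congr fun r _ => ?_
  simp only [h1, hf3 _ (h2 _), hv3 _ (h2 _)]
  split_ifs with h5
  · rfl
  · rw [hfr _ (h4.2.2.2.2 r (not_lt.1 h5)), sub_self]

end Pool.Agent.Lib.MP_0d9445_pr.Walk
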