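import Pool.Agent.Lib.MP_0d9445_pr.Walk.Iface

noncomputable section

open MeasureTheory ProbabilityTheory Set Filter Topology
open scoped NNReal ENNReal Classical

namespace Pool.Agent.Lib.MP_0d9445_pr.Walk

open BM Cell

namespace PfF4

theorem lin (hW : WalkBasics) {St : ℂ → Set ℂ} {R : Set ℂ} (hC : Closed St R) {x : ℂ}
    (hx : x ∈ R) (L : ℕ) (a b : ℝ) (F F' : (ℕ → ℂ) → ℝ) :
    walkExp St L x (fun w => a * F w + b * F' w) =
      a * walkExp St L x F + b * walkExp St L x F' := by
  rw [hW.add St R L x (fun w => a * F w) (fun w => b * F' w) hC hx, hW.smul St R L x a F hC hx,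
    hW.smul St R L x b F' hC hx]

/-- One more step of the walk. -/
theorem step (hW : WalkBasics) {St : ℂ → Set ℂ} {R : Set ℂ} (hC : Closed St R) {x : ℂ}
    (hx : x ∈ R) (K : ℕ) {G : (ℕ → ℂ) → ℝ} (hG : ∀ w w', (∀ i ≤ K, w i = w' i) → G w = G w')
    (φ : ℂ → ℝ) :
    walkExp St (K + 1) x (fun w => G w * φ (w (K + 1))) =
      walkExp St K x fun w => G w * walkExp St 1 (w K) fun w' => φ (w' 1) := by
  rw [hW.markov St R K 1 x _ hC hx]
  have key : ∀ w, IsTraj St K x w →
      (walkExp St 1 (w K) fun w' => G (glue K w w') * φ (glue K w w' (K + 1))) =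
        G w * walkExp St 1 (w K) fun w' => φ (w' 1) := by
    intro w hw
    rw [← hW.smul St R 1 (w K) (G w) _ hC (hW.traj_mem St R K x w hC hx hw K)]
    congr 1
    funext w'
    have h1 : G (glue K w w') = G w := hG _ _ fun i hi => if_pos hi
    have h2 : glue K w w' (K + 1) = w' 1 := by
      unfold glue
      rw [if_neg (by omega), Nat.add_sub_cancel_left]
    rw [h1, h2]
  exact le_antisymm (hW.mono St R K x _ _ hC hx fun w hw => (key w hw).le)
    (hW.mono St R K x _ _ hC hx fun w hw => (key w hw).ge)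

theorem abs_le_exp (hW : WalkBasics) {St : ℂ → Set ℂ} {R : Set ℂ} (hC : Closed St R) {x : ℂ}
    (hx : x ∈ R) (L : ℕ) {F F' : (ℕ → ℂ) → ℝ} (h : ∀ w, |F w| ≤ F' w) :
    |walkExp St L x F| ≤ walkExp St L x F' := by
  refine abs_le.2 ⟨?_, hW.mono St R L x _ _ hC hx fun w _ => (abs_le.1 (h w)).2⟩
  have h1 := hW.mono St R L x (fun w => (-1) * F' w) F hC hx fun w _ => by
    have := (abs_le.1 (h w)).1
    linarith
  rw [hW.smul St R L x (-1) F' hC hx] at h1
  linarith

theorem u_bound {N : FC} {I : Finset ℂ} {ρ f u : ℂ → ℝ} {α c : ℝ} (hα : 0 < α)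
    (hE : N.G.Esc I) (hρ : ∀ y, 0 ≤ ρ y) (hf : ∀ y, |f y| ≤ c)
    (hu : N.G.Sol I (fun y => α * ρ y) (fun y => ρ y * f y) (fun y => f y / α) u) (y : ℂ) :
    |u y| ≤ c / α := by
  have hout : ∀ y, y ∉ I → |u y| ≤ c / α := fun y hy => by
    rw [hu.1 y hy, abs_div, abs_of_pos hα]
    exact div_le_div_of_nonneg_right (hf y) hα.le
  by_cases hy : y ∈ I
  · have e : ∀ z, α * ρ z * (c / α) = ρ z * c := fun z => by field_simp
    refine abs_le.2 ⟨N.G.comparison hE (k := fun y => α * ρ y) (u := fun _ => -(c / α))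
      (fun z _ => mul_nonneg hα.le (hρ z)) (fun z hz => ?_)
      (fun z _ y _ hy => (abs_le.1 (hout y hy)).1) y hy,
      N.G.comparison hE (k := fun y => α * ρ y) (v := fun _ => c / α)
      (fun z _ => mul_nonneg hα.le (hρ z)) (fun z hz => ?_)
      (fun z _ y _ hy => (abs_le.1 (hout y hy)).2) y hy⟩
    · rw [hu.2 z hz, Net.lap_const, mul_neg, e z]
      have := mul_le_mul_of_nonneg_left (abs_le.1 (hf z)).1 (hρ z)
      linarith
    · rw [hu.2 z hz, Net.lap_const, e z]
      have := mul_le_mul_of_nonneg_left (abs_le.1 (hf z)).2 (hρ z)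
      linarith
  · exact hout y hy

end PfF4

theorem F4_of (hWalkBasics : WalkBasics) (hF2 : F2) : F4 := by
  intro N U R ρ f u ub m α c x k G hC hx hm hα hE hρ hf hu hub hG hGk
  have hW := hWalkBasics
  have hc : 0 ≤ c := (abs_nonneg _).trans (hf x)
  have hub0 : ∀ y, 0 ≤ ub y := fun y => by
    by_cases hy : y ∈ N.inside U
    · refine N.G.max_principle hE (k := 0) (fun _ _ => le_rfl) (fun z hz => ?_)
        (fun z _ y _ hy => (hub.1 y hy).ge) y hy
      rw [hub.2 z hz]
      exact sub_nonneg.2 (hρ z).2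
    · exact (hub.1 y hy).ge
  have hubd := PfF4.u_bound hα hE (fun y => (hρ y).1) hf hu
  obtain ⟨d, hd⟩ : ∃ d : ℂ → ℝ, d = fun y =>
    if y ∈ N.inside U then (N.G.deg y / m - ρ y) / N.G.deg y else 0 := ⟨_, rfl⟩
  have hd0 : ∀ y, 0 ≤ d y := fun y => by
    rw [hd]
    dsimp only
    split_ifs with hy
    · exact div_nonneg (sub_nonneg.2 (hρ y).2) (hE.deg_pos hy).le
    · exact le_rfl
  have hPu : ∀ y, walkExp (N.step U) 1 y (fun w => u (w 1)) =
      u y - ((f y - α * u y) / m - d y * (f y - α * u y)) := fun y => by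
    rw [hd]
    dsimp only
    split_ifs with hy
    · rw [hW.one N U y u hy (hE.nonempty hy)]
      have h1 : N.G.lap u y = ρ y * (f y - α * u y) := by
        have := hu.2 y hy
        dsimp only at this
        linarith
      have h2 := (hE.deg_pos hy).ne'
      rw [h1]
      field_simp
      ring
    · rw [hW.one' N U y u hy]
      have h1 : f y - α * u y = 0 := by
        rw [hu.1 y hy]
        field_simp
        ring
      rw [h1]
      simp
  have hPb : ∀ y, walkExp (N.step U) 1 y (fun w => ub (w 1)) = ub y - d y := fun y => by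
    rw [hd]
    dsimp only
    split_ifs with hy
    · rw [hW.one N U y ub hy (hE.nonempty hy)]
      have h1 := hub.2 y hy
      simp only [Pi.zero_apply, zero_mul, add_zero] at h1
      rw [h1]
    · rw [hW.one' N U y ub hy, sub_zero]
  have hGK : ∀ j w w', (∀ i ≤ k + j, w i = w' i) → G w = G w' :=
    fun j w w' h => hGk w w' fun i hi => h i (by omega)
  have hB : ∀ K, walkExp (N.step U) (K + 1) x (fun w => ub (w (K + 1))) =
      walkExp (N.step U) K x (fun w => ub (w K)) - walkExp (N.step U) K x fun w => d (w K) := by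
    intro K
    have h1 := PfF4.step hW hC hx K (G := fun _ => 1) (fun _ _ _ => rfl) ub
    have h2 := PfF4.lin hW hC hx K 1 (-1) (fun w => ub (w K)) fun w => d (w K)
    simp only [one_mul, hPb] at h1
    simp only [one_mul, neg_mul, ← sub_eq_add_neg] at h2
    rw [h1, h2]
  have hD0 : ∀ K, 0 ≤ walkExp (N.step U) K x fun w => d (w K) := fun K =>
    (hW.const _ R K x 0 hC hx).ge.trans (hW.mono _ R K x _ _ hC hx fun w _ => hd0 _)
  have hB0 : ∀ K, 0 ≤ walkExp (N.step U) K x fun w => ub (w K) := fun K =>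
    (hW.const _ R K x 0 hC hx).ge.trans (hW.mono _ R K x _ _ hC hx fun w _ => hub0 _)
  have hB1 : ∀ K, (walkExp (N.step U) K x fun w => ub (w K)) ≤ ub x := by
    intro K
    induction K with
    | zero => exact le_rfl
    | succ K ih =>
      rw [hB K]
      linarith [hD0 K]
  have hsum : ∀ J, ∑ j ∈ Finset.range J, (walkExp (N.step U) (k + j) x fun w => d (w (k + j))) =
      walkExp (N.step U) k x (fun w => ub (w k)) -
        walkExp (N.step U) (k + J) x fun w => ub (w (k + J)) := by
    intro J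
    induction J with
    | zero => simp
    | succ J ih =>
      rw [Finset.sum_range_succ, ih, ← add_assoc, hB (k + J)]
      ring
  have hbd : ∀ (φ : ℂ → ℝ) (b : ℝ), (∀ y, |φ y| ≤ b) → ∀ w y, |G w * φ y| ≤ b := by
    intro φ b h w y
    rw [abs_mul]
    exact (mul_le_of_le_one_left (abs_nonneg _) (hG w)).trans (h y)
  refine hF2.1 (fun j => walkExp (N.step U) (k + j) x fun w => G w * u (w (k + j)))
    (fun j => walkExp (N.step U) (k + j) x fun w => G w * f (w (k + j)))
    (fun j => walkExp (N.step U) (k + j) x fun w =>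
      G w * (d (w (k + j)) * (f (w (k + j)) - α * u (w (k + j))))) m α (max c (c / α)) _ hm hα
    (fun j => hW.abs_le _ _ _ _ _ fun w => (hbd u _ hubd w _).trans (le_max_right _ _))
    (fun j => hW.abs_le _ _ _ _ _ fun w => (hbd f _ hf w _).trans (le_max_left _ _))
    (fun j => ?_) fun J => ?_
  · have h1 := PfF4.step hW hC hx (k + j) (hGK j) u
    have h2 := PfF4.lin hW hC hx (k + j) (1 + α / m) (-(1 / m)) (fun w => G w * u (w (k + j)))
      fun w => G w * f (w (k + j))
    have h3 := hW.add _ R (k + j) x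
      (fun w => (1 + α / m) * (G w * u (w (k + j))) + -(1 / m) * (G w * f (w (k + j))))
      (fun w => G w * (d (w (k + j)) * (f (w (k + j)) - α * u (w (k + j))))) hC hx
    have h4 : (fun w : ℕ → ℂ => G w * walkExp (N.step U) 1 (w (k + j)) fun w' => u (w' 1)) =
        fun w => (1 + α / m) * (G w * u (w (k + j))) + -(1 / m) * (G w * f (w (k + j))) +
          G w * (d (w (k + j)) * (f (w (k + j)) - α * u (w (k + j)))) := by
      funext w
      rw [hPu]
      ring
    rw [h4, h3, h2] at h1
    rw [← add_assoc, h1]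
    ring
  · have h1 : ∀ j, |walkExp (N.step U) (k + j) x fun w =>
        G w * (d (w (k + j)) * (f (w (k + j)) - α * u (w (k + j))))| ≤
        2 * c * walkExp (N.step U) (k + j) x fun w => d (w (k + j)) := by
      intro j
      rw [← hW.smul _ R (k + j) x (2 * c) _ hC hx]
      refine PfF4.abs_le_exp hW hC hx _ fun w => ?_
      have h2 : |f (w (k + j)) - α * u (w (k + j))| ≤ 2 * c := by
        refine (abs_sub _ _).trans ?_
        have h3 := hubd (w (k + j))
        rw [le_div_iff₀ hα] at h3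
        rw [abs_mul, abs_of_pos hα]
        linarith [hf (w (k + j))]
      rw [abs_mul, abs_mul, abs_of_nonneg (hd0 _), mul_comm (2 * c)]
      exact (mul_le_of_le_one_left (mul_nonneg (hd0 _) (abs_nonneg _)) (hG w)).trans
        (mul_le_mul_of_nonneg_left h2 (hd0 _))
    refine (Finset.sum_le_sum fun j _ => h1 j).trans ?_
    rw [← Finset.mul_sum, hsum J]
    refine mul_le_mul_of_nonneg_left ?_ (by linarith)
    linarith [hB0 (k + J), hB1 k]

end Pool.Agent.Lib.MP_0d9445_pr.Walk
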