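import Pool.Agent.Lib.MP_0d9445_pr.Walk.Iface
import Pool.Agent.Lib.MP_0d9445_pr.Walk.EqFixWalk

noncomputable section

open MeasureTheory ProbabilityTheory Set Filter Topology
open scoped NNReal ENNReal Classical

namespace Pool.Agent.Lib.MP_0d9445_pr.Walk

open BM Cell

namespace PfF5

section one

variable {St : ℂ → Set ℂ} {R : Set ℂ} {x : ℂ} {L : ℕ}

theorem congr_traj (hW : WalkBasics) (hc : Closed St R) (hx : x ∈ R) {F F' : (ℕ → ℂ) → ℝ}
    (h : ∀ w, IsTraj St L x w → F w = F' w) : walkExp St L x F = walkExp St L x F' :=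
  le_antisymm (hW.mono St R L x F F' hc hx fun w hw => (h w hw).le)
    (hW.mono St R L x F' F hc hx fun w hw => (h w hw).ge)

theorem abs_le_traj (hW : WalkBasics) (hc : Closed St R) (hx : x ∈ R) {F H : (ℕ → ℂ) → ℝ}
    (h : ∀ w, IsTraj St L x w → |F w| ≤ H w) : |walkExp St L x F| ≤ walkExp St L x H := by
  have h1 := hW.mono St R L x F H hc hx fun w hw => (abs_le.1 (h w hw)).2
  have h2 := hW.mono St R L x (fun w => -1 * F w) H hc hx fun w hw => by
    have := (abs_le.1 (h w hw)).1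
    linarith
  rw [hW.smul St R L x (-1) F hc hx] at h2
  rw [abs_le]
  constructor <;> linarith

theorem sub_eq (hW : WalkBasics) (hc : Closed St R) (hx : x ∈ R) (F F' : (ℕ → ℂ) → ℝ) :
    walkExp St L x F - walkExp St L x F' = walkExp St L x fun w => F w - F' w := by
  have h1 := hW.add St R L x F (fun w => -1 * F' w) hc hx
  rw [hW.smul St R L x (-1) F' hc hx] at h1
  have h2 : (fun w => F w - F' w) = fun w => F w + -1 * F' w := by
    funext w; ring
  rw [h2, h1]; ring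

theorem abs_le_c (hW : WalkBasics) (hc : Closed St R) (hx : x ∈ R) {F : (ℕ → ℂ) → ℝ} {c : ℝ}
    (h : ∀ w, IsTraj St L x w → |F w| ≤ c) : |walkExp St L x F| ≤ c := by
  have := abs_le_traj hW hc hx (H := fun _ => c) h
  rwa [hW.const St R L x c hc hx] at this

theorem abs_sub_le_c (hW : WalkBasics) (hc : Closed St R) (hx : x ∈ R) {F F' : (ℕ → ℂ) → ℝ}
    {c : ℝ} (h : ∀ w, IsTraj St L x w → |F w - F' w| ≤ c) :
    |walkExp St L x F - walkExp St L x F'| ≤ c := by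
  rw [sub_eq hW hc hx]
  exact abs_le_c hW hc hx h

/-- Equicontinuity in the last time for one net. -/
theorem equi (hW : WalkBasics) (hc : Closed St R) (hx : x ∈ R) {G : (ℕ → ℂ) → ℝ} {f : ℂ → ℝ}
    {κ i j : ℕ} {C c η D : ℝ} (hG : ∀ w, |G w| ≤ 1)
    (hGd : ∀ w w', (∀ l ≤ κ, w l = w' l) → G w = G w') (hf : ∀ y, |f y| ≤ c) (hC : 0 ≤ C)
    (hL : ∀ y y', |f y - f y'| ≤ C * ‖y - y'‖) (hij : i ≤ j) (hη : 0 ≤ η)
    (hd : (j : ℝ) - i ≤ D)
    (ht : ∀ y ∈ R, walkExp St (j - i) y (fun w =>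
      if ∃ i' j' : ℕ, i' ≤ j' ∧ j' ≤ j - i ∧ (j' : ℝ) - i' ≤ D ∧ η < ‖w i' - w j'‖ then 1 else 0)
        ≤ η) :
    |walkExp St (κ + i) x (fun w => G w * f (w (κ + i))) -
      walkExp St (κ + j) x (fun w => G w * f (w (κ + j)))| ≤ (C + 2 * c) * η := by
  have hc0 : 0 ≤ c := (abs_nonneg _).trans (hf 0)
  have e1 : walkExp St (κ + j) x (fun w => G w * f (w (κ + i))) =
      walkExp St (κ + i) x (fun w => G w * f (w (κ + i))) :=
    hW.trunc St R (κ + i) (κ + j) x _ hc hx (by omega) fun w w' h => by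
      rw [hGd w w' fun l hl => h l (by omega), h (κ + i) le_rfl]
  rw [← e1, sub_eq hW hc hx]
  have e2 : κ + j = (κ + i) + (j - i) := by omega
  have e3 := hW.markov St R (κ + i) (j - i) x
    (fun w => G w * f (w (κ + i)) - G w * f (w (κ + j))) hc hx
  rw [← e2] at e3
  rw [e3]
  refine abs_le_c hW hc hx fun w hw => ?_
  have hy : w (κ + i) ∈ R := hW.traj_mem St R _ x w hc hx hw _
  have h4 := abs_le_traj hW hc hy (L := j - i)
    (F := fun w' => G (glue (κ + i) w w') * f (glue (κ + i) w w' (κ + i)) -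
      G (glue (κ + i) w w') * f (glue (κ + i) w w' (κ + j)))
    (H := fun w' => C * η + 2 * c *
      if ∃ i' j' : ℕ, i' ≤ j' ∧ j' ≤ j - i ∧ (j' : ℝ) - i' ≤ D ∧ η < ‖w' i' - w' j'‖ then 1 else 0)
    (fun w' hw' => by
      have g1 : glue (κ + i) w w' (κ + i) = w' 0 := by
        rw [glue, if_pos le_rfl, hw'.1]
      have g2 : glue (κ + i) w w' (κ + j) = w' (j - i) := by
        rw [glue]
        split_ifs with h
        · have : j = i := by omega
          subst this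
          rw [Nat.sub_self, hw'.1]
        · congr 1; omega
      rw [g1, g2, ← mul_sub, abs_mul]
      have g3 : |G (glue (κ + i) w w')| * |f (w' 0) - f (w' (j - i))| ≤
          |f (w' 0) - f (w' (j - i))| := mul_le_of_le_one_left (abs_nonneg _) (hG _)
      refine g3.trans ?_
      split_ifs with h
      · have a1 := abs_le.1 (hf (w' 0))
        have a2 := abs_le.1 (hf (w' (j - i)))
        have a3 := mul_nonneg hC hη
        rw [abs_le]
        constructor <;> linarith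
      · have a1 : ‖w' 0 - w' (j - i)‖ ≤ η := by
          by_contra hn
          refine h ⟨0, j - i, Nat.zero_le _, le_rfl, ?_, not_le.1 hn⟩
          rw [Nat.cast_sub hij]
          simpa using hd
        have a2 := hL (w' 0) (w' (j - i))
        have a3 := mul_le_mul_of_nonneg_left a1 hC
        linarith)
  refine h4.trans ?_
  rw [hW.add St R _ _ _ _ hc hy, hW.const St R _ _ _ hc hy, hW.smul St R _ _ _ _ hc hy]
  have h5 := mul_le_mul_of_nonneg_left (ht _ hy) (by linarith : 0 ≤ 2 * c)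
  linarith

end one

/-- A continuous function is close on a compact set to a bounded Lipschitz function. -/
theorem approx {K : Set ℂ} (hK : IsCompact K) {f : ℂ → ℝ} (hf : Continuous f) {ε : ℝ}
    (hε : 0 < ε) : ∃ (g : ℂ → ℝ) (C c : ℝ), Continuous g ∧ 0 ≤ C ∧ (∀ y, |g y| ≤ c) ∧
      (∀ y y', |g y - g y'| ≤ C * ‖y - y'‖) ∧ ∀ y ∈ K, |f y - g y| ≤ ε := by
  obtain ⟨χ, h1, -, hs, -⟩ :=
    exists_continuous_one_zero_of_isCompact hK isClosed_empty (disjoint_empty K)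
  have hc : Continuous fun y => χ y * f y := χ.continuous.mul hf
  have hs' : HasCompactSupport fun y => χ y * f y := hs.mul_right
  obtain ⟨g, hg, hd, hsup⟩ := hc.exists_contDiff_approx 1 (ε := fun _ => ε) continuous_const
    fun _ => hε
  have hgs : HasCompactSupport g := hs'.mono hsup
  obtain ⟨C, hC⟩ := ContDiff.lipschitzWith_of_hasCompactSupport hgs hg (by simp)
  obtain ⟨c, hb⟩ := hg.continuous.bounded_above_of_compact_support hgs
  refine ⟨g, C, c, hg.continuous, C.2, hb, fun y y' => ?_, fun y hy => ?_⟩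
  · have := hC.dist_le_mul y y'
    rwa [Real.dist_eq, dist_eq_norm] at this
  · have := hd y
    rw [h1 hy, Pi.one_apply, one_mul, Real.dist_eq, abs_sub_comm] at this
    exact this.le

theorem prod_bound {K : Set ℂ} (hK : IsCompact K) {k : ℕ} {fs : Fin k → ℂ → ℝ}
    (hfs : ∀ i, Continuous (fs i)) :
    ∃ B : ℝ, 0 < B ∧ ∀ y : Fin k → ℂ, (∀ i, y i ∈ K) → |∏ i, fs i (y i)| ≤ B := by
  choose b hb using fun i => hK.exists_bound_of_continuousOn (hfs i).continuousOn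
  refine ⟨∏ i, (|b i| + 1), Finset.prod_pos fun i _ => by positivity, fun y hy => ?_⟩
  rw [Finset.abs_prod]
  refine Finset.prod_le_prod (fun i _ => abs_nonneg _) fun i _ => ?_
  have h1 := hb i (y i) (hy i)
  rw [Real.norm_eq_abs] at h1
  have h2 := le_abs_self (b i)
  linarith

/-- Clamp to `[-1, 1]`. -/
def clamp (t : ℝ) : ℝ := max (-1) (min 1 t)

theorem abs_clamp (t : ℝ) : |clamp t| ≤ 1 := by
  rw [abs_le]
  exact ⟨le_max_left _ _, max_le (by norm_num) (min_le_left _ _)⟩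

theorem clamp_div {t B : ℝ} (hB : 0 < B) (h : |t| ≤ B) : clamp (t / B) = B⁻¹ * t := by
  have h1 : |t / B| ≤ 1 := by
    rw [abs_div, abs_of_pos hB, div_le_one hB]; exact h
  obtain ⟨h2, h3⟩ := abs_le.1 h1
  rw [clamp, min_eq_right h3, max_eq_right h2, div_eq_inv_mul]

variable {Ω : Type} [MeasurableSpace Ω] {P : Measure Ω} [IsProbabilityMeasure P]

/-- Convergence with a free last function. -/
def Hst (P : Measure Ω) (Y : ℝ → Ω → ℂ) (St : ℕ → ℂ → Set ℂ) (x : ℕ → ℂ) {k : ℕ}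
    (τ : Fin k → ℝ) (fs : Fin k → ℂ → ℝ) (j : ℕ → Fin k → ℕ) (κ : ℕ → ℕ) (s : ℝ)
    (g : ℂ → ℝ) : Prop :=
  Tendsto (fun n => walkExp (St n) (κ n) (x n) fun w => (∏ i, fs i (w (j n i))) * g (w (κ n)))
    atTop (𝓝 (∫ ω, (∏ i, fs i (Y (τ i) ω)) * g (Y s ω) ∂P))

/-- All hypotheses of the theorem. -/
structure Ctx (P : Measure Ω) (K : Set ℂ) (μ : Measure ℂ) (a : ℝ) (N : ℕ → FC) (ρ : ℕ → ℂ → ℝ)
    (FF : Set (ℂ × ℝ)) (U : Set ℂ) (m : ℕ → ℝ) (x : ℕ → ℂ) (z : ℂ) (K' : Set ℂ)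
    (Y : ℝ → Ω → ℂ) (σ : Ω → ℝ) : Prop where
  hW : WalkBasics
  hBnd : Bnd
  hL2 : L2
  hF1 : F1
  hF3 : F3
  hF4 : F4
  good : Good K μ a N ρ FF
  adm : Adm K U
  data : WalkData U N ρ m x z
  cpt : IsCompact K'
  sub : closure U ⊆ K'
  ok : WalkOK K' (fun n => (N n).step U) (fun n => ((N n).pts K' : Set ℂ)) x
  tight : Tight (fun n => (N n).step U) (fun n => ((N n).pts K' : Set ℂ)) m
  pack : PathPack P U z Y σ
  mart : ∀ u φ, Continuous u → Continuous φ → WeakSol U μ u φ → MartPair P Y σ u φ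

variable {K : Set ℂ} {μ : Measure ℂ} {a : ℝ} {N : ℕ → FC} {ρ : ℕ → ℂ → ℝ}
  {FF : Set (ℂ × ℝ)} {U : Set ℂ} {m : ℕ → ℝ} {x : ℕ → ℂ} {z : ℂ} {K' : Set ℂ}
  {Y : ℝ → Ω → ℂ} {σ : Ω → ℝ}

theorem Ctx.memK (h : Ctx P K μ a N ρ FF U m x z K' Y σ) : ∀ᵐ ω ∂P, ∀ t, Y t ω ∈ K' := by
  filter_upwards [h.pack.path] with ω hω t
  refine h.sub ?_
  rcases lt_or_ge t (σ ω) with ht | ht
  · exact subset_closure (hω.2.2.2.1 t ht)
  · exact frontier_subset_closure (hω.2.2.2.2 t ht)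

theorem Ctx.bddU (h : Ctx P K μ a N ρ FF U m x z K' Y σ) : Bornology.IsBounded U :=
  h.cpt.isBounded.subset (subset_closure.trans h.sub)

theorem Ctx.ev (h : Ctx P K μ a N ρ FF U m x z K' Y σ) : ∀ᶠ n in atTop,
    x n ∈ ((N n).pts K' : Set ℂ) ∧ Closed ((N n).step U) ((N n).pts K' : Set ℂ) ∧
      ((N n).pts K' : Set ℂ) ⊆ K' ∧ 0 < m n := by
  filter_upwards [h.ok.ok, h.data.m_top.eventually_gt_atTop 0] with n h1 h2
  exact ⟨h1.1, h1.2.2, h1.2.1, h2⟩

theorem Ctx.integrable (h : Ctx P K μ a N ρ FF U m x z K' Y σ) {k : ℕ} (τ : Fin k → ℝ)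
    {fs : Fin k → ℂ → ℝ} (hfs : ∀ i, Continuous (fs i)) (s : ℝ) {g : ℂ → ℝ} (hg : Continuous g) :
    Integrable (fun ω => (∏ i, fs i (Y (τ i) ω)) * g (Y s ω)) P := by
  obtain ⟨B, hB, hb⟩ := prod_bound h.cpt hfs
  obtain ⟨c, hc⟩ := h.cpt.exists_bound_of_continuousOn hg.continuousOn
  refine Integrable.of_bound (C := B * c) ?_ ?_
  · refine AEMeasurable.aestronglyMeasurable (AEMeasurable.mul ?_ ?_)
    · exact Finset.aemeasurable_fun_prod _ fun i _ =>
        (hfs i).measurable.comp_aemeasurable (h.pack.measY _)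
    · exact hg.measurable.comp_aemeasurable (h.pack.measY _)
  · filter_upwards [h.memK] with ω hω
    rw [norm_mul, Real.norm_eq_abs]
    exact mul_le_mul (hb _ fun i => hω _) (hc _ (hω s)) (norm_nonneg _) hB.le

/-- The Laplace transforms converge. -/
theorem Ctx.laplace (h : Ctx P K μ a N ρ FF U m x z K' Y σ) {k : ℕ} {τ : Fin k → ℝ}
    {fs : Fin k → ℂ → ℝ} {j : ℕ → Fin k → ℕ} {κ : ℕ → ℕ} {s : ℝ} (hfs : ∀ i, Continuous (fs i))
    (hj : ∀ n i, j n i ≤ κ n) (hτ : ∀ i, τ i ≤ s) (hs : 0 ≤ s)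
    (H : ∀ g, Continuous g → Hst P Y (fun n => (N n).step U) x τ fs j κ s g)
    {B : ℝ} (hB : 0 < B) (hb : ∀ y : Fin k → ℂ, (∀ i, y i ∈ K') → |∏ i, fs i (y i)| ≤ B)
    {f : ℂ → ℝ} {C c : ℝ} (hf : Continuous f) (hfc : ∀ y, |f y| ≤ c)
    (hL : ∀ y y', |f y - f y'| ≤ C * ‖y - y'‖) {α : ℝ} (hα : 0 < α) :
    Tendsto (fun n => ∑' l : ℕ, (1 + α / m n)⁻¹ ^ (l + 1) *
      (walkExp ((N n).step U) (κ n + l) (x n)
        (fun w => clamp ((∏ i, fs i (w (j n i))) / B) * f (w (κ n + l))) / m n)) atTop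
      (𝓝 (∫ t in Ioi (0 : ℝ), Real.exp (-(α * t)) *
        (B⁻¹ * ∫ ω, (∏ i, fs i (Y (τ i) ω)) * f (Y (s + t) ω) ∂P))) := by
  have hc0 : 0 ≤ c := (abs_nonneg _).trans (hfc 0)
  obtain ⟨-, -, hsub, -, hesc⟩ := h.hBnd K μ a N ρ FF h.good
  have hesc' := hesc U h.adm.isOpen (h.adm.sub.trans interior_subset)
  set u : ℕ → ℂ → ℝ := fun n => (N n).G.solve ((N n).inside U) (fun y => α * ρ n y)
    (fun y => ρ n y * f y) (fun y => f y / α) with hu
  have hsol : ∀ᶠ n in atTop, (N n).G.Sol ((N n).inside U) (fun y => α * ρ n y)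
      (fun y => ρ n y * f y) (fun y => f y / α) (u n) := by
    filter_upwards [hesc'] with n hn
    exact (N n).G.solve_sol hn (fun y _ => mul_nonneg hα.le (h.good.rho_nonneg n y)) _ _
  refine tendsto_of_subseq_tendsto fun ns hns => ?_
  obtain ⟨φ, v, hφ, hv, hvU, hweak, hunif⟩ := h.hL2 K μ a (fun n => N (ns n)) (fun n => ρ (ns n))
    FF U α (C / α) f (fun y => f y / α) (fun n => u (ns n)) (hsub ns hns) h.adm hα hf
    (fun y y' => by
      rw [← sub_div, abs_div, abs_of_pos hα, div_mul_eq_mul_div]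
      exact div_le_div_of_nonneg_right (hL y y') hα.le)
    (hns.eventually hsol)
  refine ⟨φ, ?_⟩
  have hψ : Tendsto (fun n => ns (φ n)) atTop atTop := hns.comp hφ.tendsto_atTop
  have hm := h.mart v (fun w => f w - α * v w) hv (hf.sub (continuous_const.mul hv)) hweak
  have h3 := (h.hF3 P U z Y σ k τ fs s α f v h.bddU h.pack hfs hτ hs hα hf hv).2.2
    (fun w hw => by
      have hw' : w ∉ U := by
        rw [h.adm.isOpen.frontier_eq] at hw
        exact hw.2
      rw [hvU w hw']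
      field_simp) hm
  have e : (∫ t in Ioi (0 : ℝ), Real.exp (-(α * t)) *
      (B⁻¹ * ∫ ω, (∏ i, fs i (Y (τ i) ω)) * f (Y (s + t) ω) ∂P)) =
      B⁻¹ * ∫ ω, (∏ i, fs i (Y (τ i) ω)) * v (Y s ω) ∂P := by
    rw [h3, ← integral_const_mul]
    congr 1
    funext t
    ring
  rw [e]
  have h4 := ((H v hv).comp hψ).const_mul B⁻¹
  refine h4.congr_dist ?_
  rw [Metric.tendsto_nhds]
  intro ε hε
  have hε' : 0 < ε / (2 * (2 * c + 1)) := by positivity
  filter_upwards [hψ.eventually h.ev, hψ.eventually hesc', hψ.eventually hsol,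
    hψ.eventually h.data.rho_le, hψ.eventually (h.data.bad _ hε'), hunif _ hε'] with
    n hev he hso hr hbad hun
  obtain ⟨hx, hcl, hK, hm0⟩ := hev
  set q := ns (φ n) with hq
  obtain ⟨ub, hub⟩ := (N q).G.exists_sol he (k := 0) (fun _ _ => le_rfl)
    (fun y => (N q).G.deg y / m q - ρ q y) 0
  have h5 := h.hF4 (N q) U _ (ρ q) f (u q) ub (m q) α c (x q) (κ q)
    (fun w => clamp ((∏ i, fs i (w (j q i))) / B)) hcl hx hm0 hα he
    (fun y => ⟨h.good.rho_nonneg q y, hr y⟩) hfc hso hub (fun w => abs_clamp _)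
    (fun w w' hw => by
      have : ∀ i, w (j q i) = w' (j q i) := fun i => hw _ (hj q i)
      simp only [this])
  have h6 := mul_le_mul_of_nonneg_left (hbad ub hub) (by linarith : 0 ≤ 2 * c)
  have h7 : |walkExp ((N q).step U) (κ q) (x q)
      (fun w => B⁻¹ * ((∏ i, fs i (w (j q i))) * v (w (κ q)))) -
      walkExp ((N q).step U) (κ q) (x q)
      (fun w => clamp ((∏ i, fs i (w (j q i))) / B) * u q (w (κ q)))| ≤ ε / (2 * (2 * c + 1)) := by
    refine abs_sub_le_c h.hW hcl hx fun w hw => ?_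
    have hmem := h.hW.traj_mem _ _ _ _ w hcl hx hw
    rw [← mul_assoc, ← clamp_div hB (hb _ fun i => hK (hmem _)), ← mul_sub, abs_mul]
    refine (mul_le_of_le_one_left (abs_nonneg _) (abs_clamp _)).trans ?_
    rw [abs_sub_comm]
    refine hun _ ((N q).mem_pts.2 ⟨((N q).mem_pts.1 (hmem _)).1, mem_univ _⟩)
  rw [h.hW.smul _ _ _ _ _ _ hcl hx] at h7
  rw [Real.dist_eq, sub_zero, abs_of_nonneg dist_nonneg, Real.dist_eq]
  have h8 := abs_sub_le (B⁻¹ * walkExp ((N q).step U) (κ q) (x q)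
      (fun w => (∏ i, fs i (w (j q i))) * v (w (κ q))))
    (walkExp ((N q).step U) (κ q) (x q)
      (fun w => clamp ((∏ i, fs i (w (j q i))) / B) * u q (w (κ q))))
    (∑' l : ℕ, (1 + α / m q)⁻¹ ^ (l + 1) * (walkExp ((N q).step U) (κ q + l) (x q)
        (fun w => clamp ((∏ i, fs i (w (j q i))) / B) * f (w (κ q + l))) / m q))
  have h9 : (2 * c + 1) * (ε / (2 * (2 * c + 1))) = ε / 2 := by
    field_simp
  have h10 : |B⁻¹ * walkExp ((N q).step U) (κ q) (x q)
      (fun w => (∏ i, fs i (w (j q i))) * v (w (κ q))) -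
      ∑' l : ℕ, (1 + α / m q)⁻¹ ^ (l + 1) * (walkExp ((N q).step U) (κ q + l) (x q)
        (fun w => clamp ((∏ i, fs i (w (j q i))) / B) * f (w (κ q + l))) / m q)| < ε := by
    linarith
  exact h10

/-- One more time, bounded Lipschitz last function. -/
theorem Ctx.step_lip (h : Ctx P K μ a N ρ FF U m x z K' Y σ) {k : ℕ} {τ : Fin k → ℝ}
    {fs : Fin k → ℂ → ℝ} {j : ℕ → Fin k → ℕ} {κ : ℕ → ℕ} {s : ℝ} (hfs : ∀ i, Continuous (fs i))
    (hj : ∀ n i, j n i ≤ κ n) (hτ : ∀ i, τ i ≤ s) (hs : 0 ≤ s)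
    (H : ∀ g, Continuous g → Hst P Y (fun n => (N n).step U) x τ fs j κ s g)
    {d : ℕ → ℕ} {t : ℝ} (hd : Tendsto (fun n => (d n : ℝ) / m n) atTop (𝓝 t))
    {f : ℂ → ℝ} {C c : ℝ} (hf : Continuous f) (hC : 0 ≤ C) (hfc : ∀ y, |f y| ≤ c)
    (hL : ∀ y y', |f y - f y'| ≤ C * ‖y - y'‖) :
    Hst P Y (fun n => (N n).step U) x τ fs j (fun n => κ n + d n) (s + t) f := by
  have hc0 : 0 ≤ c := (abs_nonneg _).trans (hfc 0)
  obtain ⟨B, hB, hb⟩ := prod_bound h.cpt hfs
  obtain ⟨hcont, ⟨c', hc'⟩, -⟩ := h.hF3 P U z Y σ k τ fs s 1 f f h.bddU h.pack hfs hτ hs one_pos hf hf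
  have h1 := h.hF1 (fun n l => walkExp ((N n).step U) (κ n + l) (x n)
      (fun w => clamp ((∏ i, fs i (w (j n i))) / B) * f (w (κ n + l)))) m
    (fun t => B⁻¹ * ∫ ω, (∏ i, fs i (Y (τ i) ω)) * f (Y (s + t) ω) ∂P) (max c (B⁻¹ * c'))
    h.data.m_top
    (Eventually.of_forall fun n l => (h.hW.abs_le _ _ _ _ c fun w => by
      rw [abs_mul]
      exact (mul_le_of_le_one_left (abs_nonneg _) (abs_clamp _)).trans (hfc _)).trans
        (le_max_left _ _))
    (continuous_const.mul hcont)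
    (fun t => by
      rw [abs_mul, abs_of_pos (inv_pos.2 hB)]
      exact (mul_le_mul_of_nonneg_left (hc' t) (inv_pos.2 hB).le).trans (le_max_right _ _))
    (fun α hα => h.laplace hfs hj hτ hs H hB hb hf hfc hL (by exact_mod_cast hα))
    (fun η hη => by
      have hη' : 0 < η / (C + 2 * c + 1) := by positivity
      obtain ⟨δ, hδ, ht⟩ := h.tight 1 _ hη'
      refine ⟨min δ 1, lt_min hδ one_pos, ?_⟩
      filter_upwards [h.ev, ht] with n hev htn i l hil hlen
      obtain ⟨hx, hcl, -, hm0⟩ := hev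
      have a1 : min δ 1 * m n ≤ δ * m n := mul_le_mul_of_nonneg_right (min_le_left _ _) hm0.le
      have a2 : min δ 1 * m n ≤ 1 * m n := mul_le_mul_of_nonneg_right (min_le_right _ _) hm0.le
      have a3 := equi h.hW hcl hx (G := fun w => clamp ((∏ i, fs i (w (j n i))) / B)) (f := f)
        (κ := κ n) (D := δ * m n) (fun w => abs_clamp _)
        (fun w w' hw => by
          have : ∀ i, w (j n i) = w' (j n i) := fun i => hw _ (hj n i)
          simp only [this]) hfc hC hL hil hη'.le (by linarith)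
        (fun y hy => htn y hy (l - i) (by rw [Nat.cast_sub hil]; linarith))
      refine a3.trans ?_
      rw [← mul_div_assoc, div_le_iff₀ (by positivity)]
      nlinarith)
    d t hd
  have h2 := h1.const_mul B
  rw [← mul_assoc, mul_inv_cancel₀ hB.ne', one_mul] at h2
  refine h2.congr' ?_
  filter_upwards [h.ev] with n hev
  obtain ⟨hx, hcl, hK, -⟩ := hev
  rw [← h.hW.smul _ _ _ _ _ _ hcl hx]
  refine congr_traj h.hW hcl hx fun w hw => ?_
  have hmem := h.hW.traj_mem _ _ _ _ w hcl hx hw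
  rw [clamp_div hB (hb _ fun i => hK (hmem _))]
  field_simp

/-- From bounded Lipschitz to continuous last functions. -/
theorem Ctx.of_lip (h : Ctx P K μ a N ρ FF U m x z K' Y σ) {k : ℕ} {τ : Fin k → ℝ}
    {fs : Fin k → ℂ → ℝ} {j : ℕ → Fin k → ℕ} {κ : ℕ → ℕ} {s : ℝ} (hfs : ∀ i, Continuous (fs i))
    (H : ∀ (g : ℂ → ℝ) (C c : ℝ), Continuous g → 0 ≤ C → (∀ y, |g y| ≤ c) →
      (∀ y y', |g y - g y'| ≤ C * ‖y - y'‖) → Hst P Y (fun n => (N n).step U) x τ fs j κ s g)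
    {f : ℂ → ℝ} (hf : Continuous f) : Hst P Y (fun n => (N n).step U) x τ fs j κ s f := by
  obtain ⟨B, hB, hb⟩ := prod_bound h.cpt hfs
  rw [Hst, Metric.tendsto_nhds]
  intro ε hε
  have hε' : 0 < ε / (3 * B) := by positivity
  have hBε : B * (ε / (3 * B)) = ε / 3 := by field_simp
  obtain ⟨g, C, c, hg, hC, hgc, hL, hfg⟩ := approx h.cpt hf hε'
  have h1 := Metric.tendsto_nhds.1 (H g C c hg hC hgc hL) (ε / 3) (by positivity)
  have h2 : |∫ ω, (∏ i, fs i (Y (τ i) ω)) * g (Y s ω) ∂P -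
      ∫ ω, (∏ i, fs i (Y (τ i) ω)) * f (Y s ω) ∂P| ≤ ε / 3 := by
    rw [← integral_sub (h.integrable τ hfs s hg) (h.integrable τ hfs s hf), ← Real.norm_eq_abs]
    have := norm_integral_le_of_norm_le_const (μ := P) (C := ε / 3)
      (f := fun ω => (∏ i, fs i (Y (τ i) ω)) * g (Y s ω) - (∏ i, fs i (Y (τ i) ω)) * f (Y s ω))
      (by
        filter_upwards [h.memK] with ω hω
        rw [← mul_sub, Real.norm_eq_abs, abs_mul, abs_sub_comm, ← hBε]
        exact mul_le_mul (hb _ fun i => hω _) (hfg _ (hω s)) (abs_nonneg _) hB.le)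
    simpa using this
  filter_upwards [h.ev, h1] with n hev hn
  obtain ⟨hx, hcl, hK, -⟩ := hev
  have h3 : |walkExp ((N n).step U) (κ n) (x n)
      (fun w => (∏ i, fs i (w (j n i))) * f (w (κ n))) -
      walkExp ((N n).step U) (κ n) (x n)
      (fun w => (∏ i, fs i (w (j n i))) * g (w (κ n)))| ≤ ε / 3 := by
    refine abs_sub_le_c h.hW hcl hx fun w hw => ?_
    have hmem := h.hW.traj_mem _ _ _ _ w hcl hx hw
    rw [← mul_sub, abs_mul, ← hBε]
    exact mul_le_mul (hb _ fun i => hK (hmem _)) (hfg _ (hK (hmem _))) (abs_nonneg _) hB.le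
  rw [Real.dist_eq] at hn ⊢
  rw [abs_lt] at hn ⊢
  rw [abs_le] at h2 h3
  constructor <;> linarith [hn.1, hn.2, h2.1, h2.2, h3.1, h3.2]

/-- Moving the last time forward. -/
theorem Ctx.step (h : Ctx P K μ a N ρ FF U m x z K' Y σ) {k : ℕ} {τ : Fin k → ℝ}
    {fs : Fin k → ℂ → ℝ} {j : ℕ → Fin k → ℕ} {κ κ' : ℕ → ℕ} {s s' : ℝ}
    (hfs : ∀ i, Continuous (fs i)) (hj : ∀ n i, j n i ≤ κ n)
    (hτ : ∀ i, Tendsto (fun n => (j n i : ℝ) / m n) atTop (𝓝 (τ i)))
    (hs : Tendsto (fun n => (κ n : ℝ) / m n) atTop (𝓝 s))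
    (hs' : Tendsto (fun n => (κ' n : ℝ) / m n) atTop (𝓝 s')) (hκ : ∀ n, κ n ≤ κ' n)
    (H : ∀ g, Continuous g → Hst P Y (fun n => (N n).step U) x τ fs j κ s g)
    (f : ℂ → ℝ) (hf : Continuous f) : Hst P Y (fun n => (N n).step U) x τ fs j κ' s' f := by
  have hm := h.data.m_top.eventually_gt_atTop 0
  have h1 : ∀ i, τ i ≤ s := fun i => le_of_tendsto_of_tendsto (hτ i) hs (by
    filter_upwards [hm] with n hn
    exact div_le_div_of_nonneg_right (by exact_mod_cast hj n i) hn.le)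
  have h2 : 0 ≤ s := ge_of_tendsto hs (by
    filter_upwards [hm] with n hn
    positivity)
  have h3 : Tendsto (fun n => ((κ' n - κ n : ℕ) : ℝ) / m n) atTop (𝓝 (s' - s)) := by
    refine (hs'.sub hs).congr fun n => ?_
    rw [Nat.cast_sub (hκ n), sub_div]
  have e1 : κ' = fun n => κ n + (κ' n - κ n) := by
    funext n
    have := hκ n
    omega
  have e2 : s' = s + (s' - s) := by ring
  refine h.of_lip hfs (fun g C c hg hC hgc hL => ?_) hf
  rw [e1, e2]
  exact h.step_lip hfs hj h1 h2 H h3 hg hC hgc hL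

theorem Ctx.main (h : Ctx P K μ a N ρ FF U m x z K' Y σ) (k : ℕ) :
    ∀ (τ : Fin k → ℝ) (fs : Fin k → ℂ → ℝ) (j : ℕ → Fin k → ℕ) (κ : ℕ → ℕ) (s : ℝ),
      (∀ i, Continuous (fs i)) → (∀ n, Monotone (j n)) → (∀ n i, j n i ≤ κ n) →
      (∀ i, Tendsto (fun n => (j n i : ℝ) / m n) atTop (𝓝 (τ i))) →
      Tendsto (fun n => (κ n : ℝ) / m n) atTop (𝓝 s) →
      ∀ g, Continuous g → Hst P Y (fun n => (N n).step U) x τ fs j κ s g := by
  induction k with
  | zero =>
    intro τ fs j κ s hfs _ _ hτ hs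
    refine h.step (κ := fun _ => 0) (s := 0) hfs (fun _ i => i.elim0) hτ (by simp) hs
      (fun _ => Nat.zero_le _) fun g hg => ?_
    have e : ∫ ω, (∏ i, fs i (Y (τ i) ω)) * g (Y 0 ω) ∂P = g z := by
      have : ∀ᵐ ω ∂P, (∏ i, fs i (Y (τ i) ω)) * g (Y 0 ω) = g z := by
        filter_upwards [h.pack.path] with ω hω
        simp [hω.2.1]
      rw [integral_congr_ae this]
      simp
    rw [Hst, e]
    refine ((hg.tendsto z).comp h.data.lim).congr fun n => ?_
    simp [walkExp]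
  | succ k ih =>
    intro τ fs j κ s hfs hmono hj hτ hs
    refine h.step (κ := fun n => j n (Fin.last k)) (s := τ (Fin.last k)) hfs
      (fun n i => hmono n (Fin.le_last i)) hτ (hτ _) hs (fun n => hj n _) fun g hg => ?_
    have h1 := ih (fun i => τ i.castSucc) (fun i => fs i.castSucc) (fun n i => j n i.castSucc)
      (fun n => j n (Fin.last k)) (τ (Fin.last k)) (fun i => hfs _)
      (fun n i i' hi => hmono n (Fin.castSucc_le_castSucc_iff.2 hi))
      (fun n i => hmono n (Fin.le_last _)) (fun i => hτ _) (hτ _)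
      (fun y => fs (Fin.last k) y * g y) ((hfs _).mul hg)
    rw [Hst] at h1 ⊢
    simpa only [Fin.prod_univ_castSucc, mul_assoc] using h1

theorem Ctx.fdd (h : Ctx P K μ a N ρ FF U m x z K' Y σ) :
    Fdd P Y (fun n => (N n).step U) x m := by
  intro k τ fs j L hfs hmono hj hτ
  cases k with
  | zero =>
    simp only [Finset.univ_eq_empty, Finset.prod_empty, integral_const, probReal_univ, smul_eq_mul,
      mul_one]
    refine tendsto_const_nhds.congr' ?_
    filter_upwards [h.ev] with n hev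
    exact (h.hW.const _ _ _ _ 1 hev.2.1 hev.1).symm
  | succ k =>
    have h1 := h.main (k + 1) τ fs j (fun n => j n (Fin.last k)) (τ (Fin.last k)) hfs hmono
      (fun n i => hmono n (Fin.le_last i)) hτ (hτ _) (fun _ => 1) continuous_const
    rw [Hst] at h1
    simp only [mul_one] at h1
    refine h1.congr' ?_
    filter_upwards [h.ev] with n hev
    refine (h.hW.trunc _ _ _ _ _ _ hev.2.1 hev.1 (hj n _) fun w w' hw => ?_).symm
    have : ∀ i, w (j n i) = w' (j n i) := fun i => hw _ (hmono n (Fin.le_last i))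
    simp only [this]

end PfF5

theorem F5_of (hGeo : Geo) (hWalkBasics : WalkBasics) (hBnd : Bnd) (hL2 : L2) (hF1 : F1) (hF3 : F3) (hF4 : F4) : F5 := by
  intro Ω _ P _ K μ a N ρ FF U m x z K' Y σ h1 h2 h3 h4 h5 h6 h7 h8 h9
  exact PfF5.Ctx.fdd ⟨hWalkBasics, hBnd, hL2, hF1, hF3, hF4, h1, h2, h3, h4, h5, h6, h7, h8, h9⟩

end Pool.Agent.Lib.MP_0d9445_pr.Walk
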