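import Pool.Agent.Lib.MP_0d9445_pr.Walk.Iface

noncomputable section

open MeasureTheory ProbabilityTheory Set Filter Topology
open scoped NNReal ENNReal Classical

namespace Pool.Agent.Lib.MP_0d9445_pr.Walk

open BM Cell

namespace PfGlob

/-- A sequence squeezed between approximating sequences. -/
theorem squeeze (a : ℕ → ℝ) (b g : ℕ → ℕ → ℝ) (B G : ℕ → ℝ) (l c : ℝ)
    (hb : ∀ k, Tendsto (b k) atTop (𝓝 (B k))) (hg : ∀ k, Tendsto (g k) atTop (𝓝 (G k)))
    (hB : Tendsto B atTop (𝓝 l)) (hG : Tendsto G atTop (𝓝 0))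
    (h : ∀ k, ∀ᶠ n in atTop, |b k n - a n| ≤ c * g k n) : Tendsto a atTop (𝓝 l) := by
  rw [Metric.tendsto_atTop]
  intro ε hε
  have h1 : Tendsto (fun k => |B k - l| + c * G k) atTop (𝓝 (|l - l| + c * 0)) :=
    ((hB.sub_const l).abs).add (hG.const_mul c)
  simp only [sub_self, abs_zero, mul_zero, add_zero] at h1
  obtain ⟨k, hk⟩ := (h1.eventually (gt_mem_nhds hε)).exists
  have h2 : Tendsto (fun n => |b k n - l| + c * g k n) atTop (𝓝 (|B k - l| + c * G k)) :=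
    (((hb k).sub_const l).abs).add ((hg k).const_mul c)
  have h3 := (h2.eventually (gt_mem_nhds hk)).and (h k)
  obtain ⟨N, hN⟩ := eventually_atTop.1 h3
  refine ⟨N, fun n hn => ?_⟩
  obtain ⟨e1, e2⟩ := hN n hn
  rw [Real.dist_eq]
  have e3 : |a n - l| ≤ |b k n - l| + |b k n - a n| := by
    have : a n - l = (b k n - l) - (b k n - a n) := by ring
    rw [this]
    exact abs_sub _ _
  linarith

/-- Before the exit clock of `U₀` the time-changed path does not see the larger set. -/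
theorem lbm_eq (b : ℝ≥0 → ℂ) (A : ℝ≥0 → ℝ) (U₀ : Set ℂ) (t : ℝ) (hA : Continuous A)
    (h0 : A 0 = 0) (ht : 0 ≤ t) (h : t < exitClock b A U₀) :
    b (sInf {s | t < A s}) ∈ U₀ ∧
      ∀ U, U₀ ⊆ U → lbmPath b A U t = b (sInf {s | t < A s}) := by
  set τ : ℝ≥0 := sInf {s : ℝ≥0 | b s ∉ U₀} with hτ
  have hAτ : t < A τ := h
  have hpos : (0 : ℝ≥0) < τ := by
    rcases eq_or_lt_of_le (show (0 : ℝ≥0) ≤ τ from bot_le) with h1 | h1
    · rw [← h1, h0] at hAτ
      linarith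
    · exact h1
  have hopen : {s : ℝ≥0 | t < A s} ∈ 𝓝 τ := (isOpen_lt continuous_const hA).mem_nhds hAτ
  obtain ⟨s₁, hs₁, hs₁τ⟩ : ∃ s₁, t < A s₁ ∧ s₁ < τ := by
    have hne : (𝓝[<] τ).NeBot := nhdsLT_neBot_of_exists_lt ⟨0, hpos⟩
    have := (mem_nhdsWithin_of_mem_nhds (t := Iio τ) hopen)
    obtain ⟨s, hs, hs'⟩ := (Filter.Eventually.and this self_mem_nhdsWithin).exists
    exact ⟨s, hs, hs'⟩
  have hin : ∀ s, s < τ → b s ∈ U₀ := by
    intro s hs
    by_contra hc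
    exact absurd (csInf_le (OrderBot.bddBelow _) (show s ∈ {s : ℝ≥0 | b s ∉ U₀} from hc))
      (not_le.2 hs)
  have hle : sInf {s | t < A s} ≤ s₁ := csInf_le (OrderBot.bddBelow _) hs₁
  refine ⟨hin _ (hle.trans_lt hs₁τ), fun U hU => ?_⟩
  unfold lbmPath
  congr 1
  apply le_antisymm
  · exact csInf_le_csInf (OrderBot.bddBelow _) ⟨s₁, hs₁⟩ fun s hs => Or.inl hs
  · refine le_csInf ⟨s₁, Or.inl hs₁⟩ fun s hs => ?_
    rcases hs with hs | hs
    · exact csInf_le (OrderBot.bddBelow _) hs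
    · have : τ ≤ s := by
        by_contra hc
        exact hs (hU (hin s (not_le.1 hc)))
      exact (hle.trans hs₁τ.le).trans this

theorem toC_congr (T : ℝ) (y y' : ℝ → ℂ) (h : ∀ t ∈ Icc (0 : ℝ) T, y t = y' t) :
    toC T y = toC T y' := by
  have : (fun t : Icc (0 : ℝ) T => y t) = fun t : Icc (0 : ℝ) T => y' t :=
    funext fun t => h t t.2
  unfold toC
  simp only [this]

/-- The supremum of `φ` along a path. -/
def theta (T : ℝ) (φ : C(ℂ, ℝ)) (hφ : ∀ w, φ w ∈ Icc (0 : ℝ) 1) :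
    BoundedContinuousFunction C(Icc (0 : ℝ) T, ℂ) ℝ :=
  BoundedContinuousFunction.ofNormedAddCommGroup (fun y => ‖φ.comp y‖)
    (ContinuousMap.continuous_postcomp φ).norm 1 fun y => by
      rw [norm_norm]
      refine (ContinuousMap.norm_le _ zero_le_one).2 fun t => ?_
      have := hφ (y t)
      simp only [ContinuousMap.comp_apply, Real.norm_eq_abs]
      exact abs_le.2 ⟨by linarith [this.1], this.2⟩

theorem theta_apply (T : ℝ) (φ : C(ℂ, ℝ)) (hφ : ∀ w, φ w ∈ Icc (0 : ℝ) 1)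
    (y : C(Icc (0 : ℝ) T, ℂ)) : theta T φ hφ y = ‖φ.comp y‖ := rfl

theorem theta_abs (T : ℝ) (φ : C(ℂ, ℝ)) (hφ : ∀ w, φ w ∈ Icc (0 : ℝ) 1)
    (y : C(Icc (0 : ℝ) T, ℂ)) : ‖theta T φ hφ y‖ ≤ 1 := by
  rw [theta_apply, norm_norm]
  refine (ContinuousMap.norm_le _ zero_le_one).2 fun t => ?_
  have := hφ (y t)
  simp only [ContinuousMap.comp_apply, Real.norm_eq_abs]
  exact abs_le.2 ⟨by linarith [this.1], this.2⟩

theorem theta_zero (T : ℝ) (φ : C(ℂ, ℝ)) (hφ : ∀ w, φ w ∈ Icc (0 : ℝ) 1) (y : ℝ → ℂ)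
    (hc : Continuous fun t : Icc (0 : ℝ) T => y t) (h : ∀ t ∈ Icc (0 : ℝ) T, φ (y t) = 0) :
    theta T φ hφ (toC T y) = 0 := by
  rw [theta_apply, norm_eq_zero]
  ext t
  unfold toC
  rw [dif_pos hc]
  exact h t t.2

theorem theta_ge (T : ℝ) (φ : C(ℂ, ℝ)) (hφ : ∀ w, φ w ∈ Icc (0 : ℝ) 1) (y : ℝ → ℂ)
    (hc : Continuous fun t : Icc (0 : ℝ) T => y t) (t : ℝ) (ht : t ∈ Icc (0 : ℝ) T) :
    φ (y t) ≤ theta T φ hφ (toC T y) := by
  rw [theta_apply]
  have := (φ.comp (toC T y)).norm_coe_le_norm ⟨t, ht⟩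
  refine le_trans ?_ this
  unfold toC
  rw [dif_pos hc]
  exact le_abs_self _

theorem traj_V (C : Cells) (U : Set ℂ) (L : ℕ) (x : ℂ) (w : ℕ → ℂ) (hx : x ∈ C.V)
    (hw : IsTraj (C.step U) L x w) : ∀ i ≤ L, w i ∈ C.V := by
  intro i
  induction i with
  | zero => intro _; rw [hw.1]; exact hx
  | succ i ih =>
    intro hi
    rcases hw.2.1 i (by omega) with h | h
    · exact h.2.2.1
    · rw [h.2]; exact ih (by omega)

/-- The comparison of the walks stopped on leaving `U` and on leaving `O₂`. -/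
theorem compare (hW : WalkBasics) (hIp : Ip) (C : Cells) (U O₂ R : Set ℂ) (x : ℂ) (m T : ℝ)
    (G : (ℕ → ℂ) → ℝ) (c : ℝ) (φ : C(ℂ, ℝ)) (hφ : ∀ w, φ w ∈ Icc (0 : ℝ) 1)
    (hU : U ⊆ O₂) (hR : Closed (C.step U) R) (hxR : x ∈ R) (hx : x ∈ C.V) (hm : 1 ≤ m)
    (hT : 0 < T) (hG : ∀ w, |G w| ≤ c) (hfar : ∀ y ∈ C.V, ¬ C.H y ⊆ U → φ y = 1) :
    |walkExp (C.step U) (⌈m * T⌉₊ + 1) x G - walkExp (C.step O₂) (⌈m * T⌉₊ + 1) x G| ≤
      2 * c * walkExp (C.step U) (⌈m * (T + 1)⌉₊ + 1) x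
        fun w => theta (T + 1) φ hφ (toC (T + 1) (interp m w)) := by
  have hc : 0 ≤ c := (abs_nonneg _).trans (hG fun _ => 0)
  have hm0 : 0 < m := by linarith
  have h1 := hW.stop (C.step U) (C.step O₂) R {y | C.H y ⊆ U} (⌈m * T⌉₊ + 1) x G c hR hxR
    (fun y hy => by
      have hy' : C.H y ⊆ U := hy
      have hy2 : C.H y ⊆ O₂ := hy'.trans hU
      ext v
      simp only [Cells.step, mem_ofPred_eq, hy', hy2]) hG
  refine h1.trans (mul_le_mul_of_nonneg_left ?_ (by positivity))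
  have hL : ⌈m * T⌉₊ + 1 ≤ ⌈m * (T + 1)⌉₊ + 1 :=
    Nat.succ_le_succ (Nat.ceil_mono (by nlinarith))
  rw [← hW.trunc (C.step U) R (⌈m * T⌉₊ + 1) (⌈m * (T + 1)⌉₊ + 1) x _ hR hxR hL
    (fun w w' hww => by
      have : (∃ i < ⌈m * T⌉₊ + 1, w i ∉ {y | C.H y ⊆ U}) ↔
          ∃ i < ⌈m * T⌉₊ + 1, w' i ∉ {y | C.H y ⊆ U} := by
        refine exists_congr fun i => and_congr_right fun hi => ?_
        rw [hww i hi.le]
      simp only [this])]
  refine hW.mono _ R _ x _ _ hR hxR fun w hw => ?_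
  split_ifs with hex
  · obtain ⟨i, hi, hni⟩ := hex
    have hV := traj_V C U _ x w hx hw i (by omega)
    have h1 : φ (w i) = 1 := hfar _ hV hni
    obtain ⟨hcont, hk, -⟩ := hIp m w hm0
    have hcont' : Continuous fun t : Icc (0 : ℝ) (T + 1) => interp m w t :=
      hcont.comp (f := fun t : Icc (0 : ℝ) (T + 1) => (⟨t.1, t.2.1⟩ : Ici (0 : ℝ)))
        (continuous_subtype_val.subtype_mk _)
    have hti : (i : ℝ) / m ∈ Icc (0 : ℝ) (T + 1) := by
      refine ⟨by positivity, ?_⟩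
      rw [div_le_iff₀ hm0]
      have h2 : (i : ℝ) ≤ (⌈m * T⌉₊ : ℝ) := by exact_mod_cast Nat.lt_succ_iff.1 hi
      have h3 : (⌈m * T⌉₊ : ℝ) < m * T + 1 := Nat.ceil_lt_add_one (by positivity)
      nlinarith
    have := theta_ge (T + 1) φ hφ (interp m w) hcont' _ hti
    rw [hk i, h1] at this
    exact this
  · rw [theta_apply]
    exact norm_nonneg _

/-- A cut-off that vanishes on `closure U₀` and equals one at the vertices whose cell leaves `U`. -/
theorem cutoff (O U₀ U : Set ℂ) μ C Γ a M (hE : Env O μ C Γ a M) (hb : Bornology.IsBounded U₀)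
    (hU : IsOpen U) (h0 : closure U₀ ⊆ U) (hO : U ⊆ O) :
    ∃ φ : C(ℂ, ℝ), (∀ w, φ w ∈ Icc (0 : ℝ) 1) ∧ (∀ w ∈ closure U₀, φ w = 0) ∧
      ∀ᶠ n in atTop, ∀ y ∈ (C n).V, ¬ (C n).H y ⊆ U → φ y = 1 := by
  have hK : IsCompact (closure U₀) := hb.isCompact_closure
  obtain ⟨δ, hδ, hsub⟩ := hK.exists_cthickening_subset_open hU h0
  have hδ2 : 0 < δ / 2 := by linarith
  obtain ⟨φ, hφ0, hφ1, hφ⟩ := exists_continuous_zero_one_of_isClosed (s := closure U₀)
    (t := (Metric.thickening (δ / 2) (closure U₀))ᶜ) isClosed_closure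
    Metric.isOpen_thickening.isClosed_compl
    (disjoint_compl_right_iff_subset.2 (Metric.self_subset_thickening hδ2 _))
  refine ⟨φ, hφ, fun w hw => hφ0 hw, ?_⟩
  have hK' : IsCompact (Metric.cthickening (δ / 2) (closure U₀)) := hK.cthickening
  have hK'O : Metric.cthickening (δ / 2) (closure U₀) ⊆ O :=
    ((Metric.cthickening_mono (by linarith) _).trans hsub).trans hO
  filter_upwards [hE.nice _ hK' hK'O (δ / 2) hδ2] with n hn y hy hH
  apply hφ1
  intro hth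
  apply hH
  have hyK : y ∈ Metric.cthickening (δ / 2) (closure U₀) :=
    Metric.thickening_subset_cthickening _ _ hth
  have hyV : y ∈ ((C n).toFC (Metric.cthickening (δ / 2) (closure U₀))).V := by
    unfold Cells.toFC
    simp only [dif_pos hn.1, Set.Finite.mem_toFinset, mem_ofPred_eq]
    exact ⟨hy, y, hE.mem n y hy, hyK⟩
  intro v hv
  have hd : dist v y ≤ δ / 2 := hn.2.dist_le hyV hv (hE.mem n y hy)
  obtain ⟨p, hp, hyp⟩ := Metric.mem_thickening_iff.1 hth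
  apply hsub
  refine Metric.mem_cthickening_of_dist_le v p δ _ hp ?_
  have := dist_triangle v y p
  linarith

end PfGlob

open PfGlob in
theorem Glob_of (hGeo : Geo) (hWalkBasics : WalkBasics) (hIp : Ip) (hB10 : B10) (hLocal : Local) (hP3 : P3) : Glob := by
  intro W O O₂ Us μ C Γ a M x z A hW hA hO2 hO hE hBad hxV hx hUs hz hex T hT F
  have hmono : Monotone Us := monotone_nat_of_le_succ fun k =>
    subset_closure.trans (hUs k).2.2.1
  have hzk : ∀ k, z ∈ Us k := fun k => hmono (Nat.zero_le k) hz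
  have hUO : ∀ k, Us k ⊆ O := fun k => subset_closure.trans (hUs k).2.2.2.1
  have hzO : z ∈ O := hUO 0 hz
  have hpack := fun k => hB10 W μ O₂ (closure (Us k)) (Us k) z (A z) hW (hA z hzO)
    (hUs k).2.1.isCompact_closure ((hUs k).2.2.2.1.trans hO2)
    (hE.frost _ (hUs k).2.1.isCompact_closure (hUs k).2.2.2.1) (hUs k).1 subset_closure (hzk k)
  haveI : IsProbabilityMeasure (Px W z) := (hpack 0).1
  have hloc := fun k => hLocal W O O₂ (Us k) μ C Γ a M x z A hW hA hO2 hO hE hBad hxV hx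
    (hUs k).1 (hUs k).2.1 (hUs k).2.2.2.1 (hUs k).2.2.2.2 (hzk k)
  choose R hR using fun k => (hloc k).1
  have hm := (hloc 0).2.1
  have hconv := fun k => hP3 (Px W z) (fun n => (C n).step (Us k)) (R k) x
    (fun n => M n / (2 * a n)) (fun t ω => lbmPath ω (A z ω) (Us k) t) (hR k) (hloc k).2.2
  choose φ hφ hφ0 hφ1 using fun k => cutoff O (Us k) (Us (k + 1)) μ C Γ a M hE (hUs k).2.1
    (hUs (k + 1)).1 (hUs k).2.2.1 (hUO (k + 1))
  have hT1 : 0 < T + 1 := by linarith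
  -- the almost sure stabilisation
  have hae : ∀ᵐ (ω : Path) ∂Px W z, ∀ᶠ k in atTop,
      F (toC T fun t => lbmPath ω (A z ω) (Us (k + 1)) t) =
        F (toC T fun t => lbmPath ω (A z ω) O₂ t) ∧
      theta (T + 1) (φ k) (hφ k) (toC (T + 1) fun t => lbmPath ω (A z ω) (Us (k + 1)) t) = 0 := by
    have hc : ∀ᵐ (ω : Path) ∂Px W z, ∀ k,
        Continuous fun t => lbmPath ω (A z ω) (Us k) t :=
      ae_all_iff.2 fun k => (hpack k).2.1.path.mono fun ω h => h.1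
    filter_upwards [hex, (hA z hzO).cont, hc] with ω h1 h2 h3
    obtain ⟨k₀, hk₀⟩ := h1 (T + 1)
    filter_upwards [eventually_ge_atTop k₀] with k hk
    have key := fun t (ht : t ∈ Icc (0 : ℝ) (T + 1)) =>
      lbm_eq ω (A z ω) (Us k₀) t h2.1 h2.2 ht.1 (ht.2.trans_lt hk₀)
    have hk1 : Us k₀ ⊆ Us (k + 1) := hmono (by omega)
    constructor
    · congr 1
      refine toC_congr T _ _ fun t ht => ?_
      have ht' : t ∈ Icc (0 : ℝ) (T + 1) := ⟨ht.1, by linarith [ht.2]⟩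
      rw [(key t ht').2 _ hk1, (key t ht').2 _ ((hUO k₀).trans hO2)]
    · refine theta_zero _ _ _ _ ((h3 (k + 1)).comp continuous_subtype_val) fun t ht => ?_
      rw [(key t ht).2 _ hk1]
      exact hφ0 k _ (subset_closure (hmono hk (key t ht).1))
  refine squeeze _
    (fun k n => walkExp ((C n).step (Us (k + 1))) (⌈M n / (2 * a n) * T⌉₊ + 1) (x n)
      fun w => F (toC T (interp (M n / (2 * a n)) w)))
    (fun k n => walkExp ((C n).step (Us (k + 1))) (⌈M n / (2 * a n) * (T + 1)⌉₊ + 1) (x n)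
      fun w => theta (T + 1) (φ k) (hφ k) (toC (T + 1) (interp (M n / (2 * a n)) w)))
    (fun k => ∫ ω, F (toC T fun t => lbmPath ω (A z ω) (Us (k + 1)) t) ∂Px W z)
    (fun k => ∫ ω, theta (T + 1) (φ k) (hφ k)
      (toC (T + 1) fun t => lbmPath ω (A z ω) (Us (k + 1)) t) ∂Px W z)
    _ (2 * ‖F‖) (fun k => (hconv (k + 1)).1 T hT F)
    (fun k => (hconv (k + 1)).1 (T + 1) hT1 (theta (T + 1) (φ k) (hφ k))) ?_ ?_ ?_
  · refine tendsto_integral_of_dominated_convergence (fun _ => ‖F‖)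
      (fun k => (hconv (k + 1)).2 T hT F) (integrable_const _)
      (fun k => Eventually.of_forall fun ω => F.norm_coe_le_norm _) ?_
    filter_upwards [hae] with ω h
    exact tendsto_const_nhds.congr' (h.mono fun k hk => hk.1.symm)
  · have := tendsto_integral_of_dominated_convergence (μ := Px W z) (f := fun _ => (0 : ℝ))
      (F := fun k ω => theta (T + 1) (φ k) (hφ k)
        (toC (T + 1) fun t => lbmPath ω (A z ω) (Us (k + 1)) t)) (fun _ => (1 : ℝ))
      (fun k => (hconv (k + 1)).2 (T + 1) hT1 (theta (T + 1) (φ k) (hφ k))) (integrable_const _)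
      (fun k => Eventually.of_forall fun ω => theta_abs _ _ _ _) (by
        filter_upwards [hae] with ω h
        exact tendsto_const_nhds.congr' (h.mono fun k hk => hk.2.symm))
    simpa using this
  · intro k
    filter_upwards [hR (k + 1), hxV, hm.eventually_ge_atTop 1, hφ1 k] with n h1 h2 h3 h4
    exact compare hWalkBasics hIp (C n) (Us (k + 1)) O₂ (R (k + 1) n) (x n) _ T _ ‖F‖ (φ k) (hφ k)
      ((hUO (k + 1)).trans hO2) h1.2 h1.1 h2 h3 hT
      (fun w => by simpa using F.norm_coe_le_norm _) h4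

end Pool.Agent.Lib.MP_0d9445_pr.Walk
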