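import Pool.Agent.Lib.MP_0d9445_pr.Walk.Iface
import Pool.Agent.Lib.MP_0d9445_pr.Hom.Corr

noncomputable section

open MeasureTheory ProbabilityTheory Set Filter Topology
open scoped NNReal ENNReal Classical

namespace Pool.Agent.Lib.MP_0d9445_pr.Walk

open BM Cell

namespace PfH5

theorem lin_one : lin 1 = Complex.re := by
  funext w
  simp [lin]

theorem lin_I : lin Complex.I = Complex.im := by
  funext w
  simp [lin]

theorem lin_add : lin (1 + Complex.I) = Complex.re + Complex.im := by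
  funext w
  simp [lin]

theorem exists_margin (hGeo : Geo) {O : Set ℂ} (hO : IsOpen O) {c : ℂ} {r : ℝ} (h : sqC c r ⊆ O) :
    ∃ ρ > 0, sqC c (r + ρ) ⊆ O := by
  rcases (sqC c (r + 1) \ O).eq_empty_or_nonempty with he | hne
  · exact ⟨1, one_pos, Set.sdiff_eq_empty.1 he⟩
  · obtain ⟨w, hw, hmin⟩ := ((hGeo.sq_cpt c (r + 1)).diff hO).exists_isMinOn hne
      (continuous_sn c).continuousOn
    have h1 : r < sn c w := not_le.1 fun hh => hw.2 (h hh)
    have h2 : sn c w ≤ r + 1 := hw.1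
    refine ⟨(sn c w - r) / 2, by linarith, fun z hz => ?_⟩
    by_contra hzO
    have h3 : sn c z ≤ r + (sn c w - r) / 2 := hz
    have h4 : sn c w ≤ sn c z := hmin ⟨show sn c z ≤ r + 1 by linarith, hzO⟩
    linarith

theorem box_sub (hGeo : Geo) (a : ℂ) {l : ℝ} (hl : 0 < l) : box a l ⊆ sqC (ctr a l) (l / 2) :=
  (hGeo.box_sq a l hl).1 ▸ subset_closure

theorem part (hGeo : Geo) (a : ℂ) {l : ℝ} (hl : 0 < l) :
    Hom.Part (box a l) (fun k => Finset.range (2 ^ k) ×ˢ Finset.range (2 ^ k))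
      fun k q => box (sub a l k q.1 q.2) (l / 2 ^ k) := by
  refine ⟨fun k i _ j _ hij => Set.disjoint_left.2 fun z hi hj => hij ?_, fun k => ?_,
    fun k i _ => (hGeo.box_vol _ _ (by positivity)).1, fun δ hδ => ?_,
    (hGeo.sq_cpt _ _).isBounded.subset (box_sub hGeo a hl)⟩
  · obtain ⟨h1, h2⟩ := hGeo.sub_disj a l k _ _ _ _ z hl hi hj
    exact Prod.ext h1 h2
  · ext z
    rw [hGeo.sub_part a l k z hl]
    simp only [mem_iUnion, Finset.mem_product, Finset.mem_range]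
    exact ⟨fun ⟨i, ⟨h1, h2⟩, hz⟩ => ⟨i.1, h1, i.2, h2, hz⟩,
      fun ⟨i, h1, j, h2, hz⟩ => ⟨(i, j), ⟨h1, h2⟩, hz⟩⟩
  · obtain ⟨k, hk⟩ := pow_unbounded_of_one_lt (2 * l / δ) (one_lt_two (α := ℝ))
    refine ⟨k, fun i _ x hx y hy => (dist_le_sn y x).trans ?_⟩
    have h1 : sn y x ≤ l / 2 ^ k :=
      sn_le_iff.2 ⟨abs_le.2 ⟨by linarith [hx.1, hy.2.1], by linarith [hy.1, hx.2.1]⟩,
        abs_le.2 ⟨by linarith [hx.2.2.1, hy.2.2.2], by linarith [hy.2.2.1, hx.2.2.2]⟩⟩
    have h2 : l / 2 ^ k ≤ δ / 2 := by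
      rw [div_le_iff₀ (by positivity)]
      rw [div_lt_iff₀ hδ] at hk
      linarith
    linarith

variable {K : Set ℂ} {μ : Measure ℂ} {a : ℝ} {N : ℕ → FC} {ρ : ℕ → ℂ → ℝ} {FF : Set (ℂ × ℝ)}

theorem lim (hGeo : Geo) (h : Good K μ a N ρ FF) {s : ℂ × ℝ} (hs : s ∈ FF) :
    Hom.Lim (fun n => (N n).G) (fun n => (N n).V) (fun _ => a) (box s.1 s.2) := by
  have hl := (h.child s hs).1
  have hv : volume.real (box s.1 s.2) = s.2 ^ 2 := by
    rw [Measure.real, (hGeo.box_vol _ _ hl).2.1, ENNReal.toReal_ofReal (sq_nonneg _)]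
  have h1 := tendsto_sub_nhds_zero_iff.2 (h.nu s hs 1 (by simp))
  have h2 := tendsto_sub_nhds_zero_iff.2 (h.nu s hs Complex.I (by simp))
  have h3 := tendsto_sub_nhds_zero_iff.2 (h.nu s hs (1 + Complex.I) (by simp))
  have e : ‖1 + Complex.I‖ ^ 2 = 2 := by
    rw [Complex.sq_norm, Complex.normSq_apply]
    simp
    norm_num
  simp only [FC.nu, lin_one, lin_I, lin_add, norm_one, Complex.norm_I, one_pow, mul_one, e]
    at h1 h2 h3
  refine Hom.lim_of_nu (hv ▸ h1) (hv ▸ h2) ?_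
  rw [hv]
  refine h3.congr fun n => ?_
  rw [show a * 2 * s.2 ^ 2 = 2 * (a * s.2 ^ 2) by ring]
  rfl

theorem homog (hGeo : Geo) (h : Good K μ a N ρ FF) {s : ℂ × ℝ} (hs : s ∈ FF) :
    ∃ C, Hom.Homog (fun n => (N n).G) (fun n => (N n).V) (fun _ => a) (box s.1 s.2) C := by
  have hl := (h.child s hs).1
  obtain ⟨r, hr, hsub⟩ := exists_margin hGeo isOpen_interior
    ((hGeo.box_sq _ _ hl).1 ▸ h.sub_int s hs)
  have hsub' := hsub.trans interior_subset
  obtain ⟨C, hC⟩ := h.xy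
  have hxy := hC _ _ (by positivity) hsub'
  have hb := box_sub hGeo s.1 hl
  have hb' : box s.1 s.2 ⊆ sqC (ctr s.1 s.2) (s.2 / 2 + r) := hb.trans (sqC_mono _ (by linarith))
  refine ⟨max (C * (s.2 / 2 + r) ^ 2) |a|, Hom.homog_of (part hGeo s.1 hl) (H := fun n => (N n).H)
    (d := fun n x => Metric.diam ((N n).H x)) hr hb (fun ε hε => ?_) ?_ ?_
    (Eventually.of_forall fun _ => le_max_right _ _) (lim hGeo h hs) fun k i hi => ?_⟩
  · filter_upwards [h.nice ε hε] with n hn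
    exact ⟨hn.cw.mono hsub', hn.mem,
      fun x hx v hv w hw => Metric.dist_le_diam_of_mem (hn.cpt x hx).isBounded hv hw, hn.diam⟩
  · filter_upwards [hxy] with n hn
    refine le_trans ?_ (hn.1.trans (le_max_left _ _))
    exact add_le_add ((N n).G.en_mono (Hom.pts_mono _ hb') _)
      ((N n).G.en_mono (Hom.pts_mono _ hb') _)
  · filter_upwards [hxy] with n hn
    exact hn.2.trans (le_max_left _ _)
  · rw [Finset.mem_product, Finset.mem_range, Finset.mem_range] at hi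
    have h1 := lim hGeo h (hGeo.desc FF h.child s hs k i.1 i.2 hi.1 hi.2)
    dsimp only at h1 ⊢
    exact h1

end PfH5

theorem H5_of (hGeo : Geo) (hBnd : Bnd) : H5 := by
  intro K μ a N ρ FF U s p u v χ h hs hU hp hL hχ
  obtain ⟨q, hq1, hq2⟩ : ∃ q : Fin 2, lin p = Hom.co q ∧ dir p = Hom.pd q := by
    rcases hp with rfl | rfl
    · exact ⟨0, PfH5.lin_one, rfl⟩
    · exact ⟨1, PfH5.lin_I, rfl⟩
  have hl := (h.child s hs).1
  obtain ⟨C, hH⟩ := PfH5.homog hGeo h hs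
  have hcl : IsCompact (closure (box s.1 s.2)) := (hGeo.box_sq _ _ hl).1 ▸ hGeo.sq_cpt _ _
  obtain ⟨E, hE⟩ := hL.en _ hcl (h.sub_int s hs)
  obtain ⟨D, -, hD⟩ := (hBnd K μ a N ρ FF h).1 _ hcl (h.sub_int s hs)
  obtain ⟨L, hsrc⟩ := hL.src
  have h1 : ContDiff ℝ 1 χ := hχ.smooth.of_le (by exact_mod_cast le_top)
  obtain ⟨B, hB0, hB⟩ := Hom.exists_bound h1.continuous hχ.cpt
  obtain ⟨δ, hδ, hth⟩ := hχ.cpt.isCompact.exists_cthickening_subset_open hU
    (hχ.supp.trans inter_subset_left)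
  have hS : tsupport χ ⊆ interior (box s.1 s.2) := hχ.supp.trans inter_subset_right
  have hS' : tsupport χ ⊆ box s.1 s.2 := hS.trans interior_subset
  have key := hH.flux_lim (hcl.isBounded.subset subset_closure) (u := u) (U := v) (C' := E)
    ⟨hL.cont, fun ε hε => (hL.unif ε hε).mono fun n hn x hx =>
      hn x (Hom.pts_mono _ (subset_univ _) hx),
      hE.mono fun n hn => ((N n).G.en_mono (Hom.pts_mono _ subset_closure) _).trans hn⟩
    q h1 hχ.cpt hS (B := B * |L| * D) (by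
      filter_upwards [hsrc, hD, h.nice δ hδ] with n k1 k2 k3
      refine le_trans ?_ (mul_le_mul_of_nonneg_left k2.2.2 (mul_nonneg hB0 (abs_nonneg L)))
      rw [Finset.mul_sum]
      refine le_trans (Finset.sum_le_sum fun x hx => ?_)
        (Finset.sum_le_sum_of_subset_of_nonneg (((N n).G.inner_subset _).trans
          (Hom.pts_mono _ subset_closure)) fun x _ _ =>
            mul_nonneg (mul_nonneg hB0 (abs_nonneg L)) (h.rho_nonneg n x))
      have hxV := (Hom.mem_pts.1 ((N n).G.inner_subset _ hx)).1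
      by_cases h0 : χ x = 0
      · rw [h0, abs_zero, zero_mul]
        exact mul_nonneg (mul_nonneg hB0 (abs_nonneg L)) (h.rho_nonneg n x)
      · have hin : x ∈ (N n).inside U := mem_ins.2 ⟨hxV, fun w hw => hth
          (Metric.mem_cthickening_of_dist_le w x δ _ (subset_tsupport χ h0)
            (k3.dist_le hxV hw (k3.mem x hxV)))⟩
        rw [mul_assoc]
        exact mul_le_mul (hB x) ((k1 x hin).trans (mul_le_mul_of_nonneg_right (le_abs_self L)
          (h.rho_nonneg n x))) (abs_nonneg _) hB0)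
  rw [setIntegral_eq_integral_of_forall_compl_eq_zero fun z hz => by
    rw [image_eq_zero_of_notMem_tsupport fun hh => hz (hS' (Hom.pd_tsupport q χ hh)),
      mul_zero]] at key
  rw [hq1, hq2, ← tendsto_sub_nhds_zero_iff]
  refine key.congr fun n => ?_
  have e : (N n).G.enw (Hom.pts (N n).V (box s.1 s.2)) χ (u n) (Hom.co q) =
      (N n).enw (N n).V χ (u n) (Hom.co q) :=
    (N n).G.enw_subset (fun x hx => (Hom.mem_pts.1 hx).1) (fun x hx hx' =>
      image_eq_zero_of_notMem_tsupport fun hh => hx' (Hom.mem_pts.2 ⟨hx, hS' hh⟩)) _ _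
  rw [e, neg_mul, sub_neg_eq_add]

end Pool.Agent.Lib.MP_0d9445_pr.Walk
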