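import Pool.Agent.Lib.MP_0d9445_pr.Walk.Iface

noncomputable section

open MeasureTheory ProbabilityTheory Set Filter Topology
open scoped NNReal ENNReal Classical

namespace Pool.Agent.Lib.MP_0d9445_pr.Walk

open BM Cell

namespace PfH5b

/-- A closed rectangle. -/
def rect (a b c d : ℝ) : Set ℂ := {w | w.re ∈ Icc a b ∧ w.im ∈ Icc c d}

theorem rect_eq (a b c d : ℝ) :
    rect a b c d = Complex.measurableEquivRealProd ⁻¹' (Icc a b ×ˢ Icc c d) := by
  ext w
  exact Iff.rfl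

theorem meas_rect (a b c d : ℝ) : MeasurableSet (rect a b c d) := by
  rw [rect_eq]
  exact Complex.measurableEquivRealProd.measurable (measurableSet_Icc.prod measurableSet_Icc)

theorem vol_rect (a b c d : ℝ) :
    volume (rect a b c d) = ENNReal.ofReal (b - a) * ENNReal.ofReal (d - c) := by
  rw [rect_eq, Complex.volume_preserving_equiv_real_prod.measure_preimage_equiv,
    Measure.volume_eq_prod, Measure.prod_prod, Real.volume_Icc, Real.volume_Icc]

theorem volr_rect {a b c d : ℝ} (h1 : a ≤ b) (h2 : c ≤ d) :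
    volume.real (rect a b c d) = (b - a) * (d - c) := by
  rw [Measure.real, vol_rect, ENNReal.toReal_mul, ENNReal.toReal_ofReal (sub_nonneg.2 h1),
    ENNReal.toReal_ofReal (sub_nonneg.2 h2)]

theorem norm_p {p : ℂ} (hp : p ∈ ({1, Complex.I} : Set ℂ)) : ‖p‖ = 1 := by
  rcases hp with rfl | rfl
  · exact norm_one
  · exact Complex.norm_I

/-- The starting points of the segments that come close to `z` lie in a thin rectangle. -/
theorem shadow {p : ℂ} (hp : p ∈ ({1, Complex.I} : Set ℂ)) (z : ℂ) {d h : ℝ} (hd : 0 ≤ d)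
    (hdh : 2 * d ≤ h) : ∃ R : Set ℂ, MeasurableSet R ∧ volume R ≠ ⊤ ∧ volume.real R ≤ 4 * h * d ∧
      ∀ y : ℂ, ∀ t ∈ Icc (0 : ℝ) h, dist (y + t * p) z ≤ d → y ∈ R := by
  rcases hp with rfl | rfl
  · refine ⟨rect (z.re - d - h) (z.re + d) (z.im - d) (z.im + d), meas_rect _ _ _ _, ?_, ?_, ?_⟩
    · rw [vol_rect]
      finiteness
    · rw [volr_rect (by linarith) (by linarith)]
      nlinarith
    · intro y t ht hy
      obtain ⟨h1, h2⟩ := sn_le_iff.1 ((sn_le_dist z _).trans hy)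
      rw [abs_le] at h1 h2
      simp only [mul_one, Complex.add_re, Complex.ofReal_re, Complex.add_im, Complex.ofReal_im,
        add_zero] at h1 h2
      exact ⟨⟨by linarith [ht.2], by linarith [ht.1]⟩, by linarith, by linarith⟩
  · refine ⟨rect (z.re - d) (z.re + d) (z.im - d - h) (z.im + d), meas_rect _ _ _ _, ?_, ?_, ?_⟩
    · rw [vol_rect]
      finiteness
    · rw [volr_rect (by linarith) (by linarith)]
      nlinarith
    · intro y t ht hy
      obtain ⟨h1, h2⟩ := sn_le_iff.1 ((sn_le_dist z _).trans hy)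
      rw [abs_le] at h1 h2
      simp only [Complex.add_re, Complex.mul_re, Complex.ofReal_re, Complex.I_re, mul_zero,
        Complex.ofReal_im, Complex.I_im, mul_one, sub_self, add_zero, Complex.add_im,
        Complex.mul_im] at h1 h2
      exact ⟨⟨by linarith, by linarith⟩, by linarith [ht.2], by linarith [ht.1]⟩

/-- The increment of `v` along one segment. -/
theorem line_bound {N : FC} {K B : Set ℂ} {ε η h : ℝ} (hN : N.Nice K ε) (hε : 0 ≤ ε) (hh : 0 ≤ h)
    {p y : ℂ} {u v : ℂ → ℝ} (hBK : B ⊆ K)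
    (hB : ∀ t ∈ Icc (0 : ℝ) h, ∀ w, dist (y + t * p) w ≤ ε → w ∈ B)
    (huv : ∀ x ∈ N.V, |u x - v x| ≤ η)
    (hv : ∀ x ∈ B, ∀ x' ∈ B, dist x x' ≤ ε → |v x - v x'| ≤ η) {R : ℂ → Set ℂ}
    (hR : ∀ z ∈ N.V, ∀ t ∈ Icc (0 : ℝ) h, dist (y + t * p) z ≤ Metric.diam (N.H z) → y ∈ R z) :
    |v (y + h * p) - v y| ≤ 4 * η + ∑ z ∈ N.pts B, N.G.gr u z * (R z).indicator 1 y := by
  set L : Set ℂ := (fun t : ℝ => y + t * p) '' Icc 0 h with hL
  have hc : IsPreconnected L := isPreconnected_Icc.image _ (by fun_prop)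
  have hLB : L ⊆ B := by
    rintro _ ⟨t, ht, rfl⟩
    exact hB t ht _ (by simpa using hε)
  have h0 : y ∈ L := ⟨0, left_mem_Icc.2 hh, by simp⟩
  have h1 : y + h * p ∈ L := ⟨h, right_mem_Icc.2 hh, rfl⟩
  have key : ∀ z ∈ mt N.H N.V L, z ∈ N.pts B ∧ y ∈ R z := by
    intro z hz
    obtain ⟨hzV, w, hw, t, ht, rfl⟩ := mem_mt.1 hz
    exact ⟨N.mem_pts.2 ⟨hzV, hB t ht z (hN.dist_le hzV hw (hN.mem z hzV))⟩,
      hR z hzV t ht (Metric.dist_le_diam_of_mem (hN.cpt z hzV).isBounded hw (hN.mem z hzV))⟩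
  have hsum : ∑ z ∈ mt N.H N.V L, N.G.gr u z ≤
      ∑ z ∈ N.pts B, N.G.gr u z * (R z).indicator 1 y := by
    calc ∑ z ∈ mt N.H N.V L, N.G.gr u z
        = ∑ z ∈ mt N.H N.V L, N.G.gr u z * (R z).indicator 1 y :=
          Finset.sum_congr rfl fun z hz => by
            rw [indicator_of_mem (key z hz).2, Pi.one_apply, mul_one]
      _ ≤ _ := Finset.sum_le_sum_of_subset_of_nonneg (fun z hz => (key z hz).1) fun z _ _ =>
          mul_nonneg (N.G.gr_nonneg u z) (indicator_nonneg (fun _ _ => zero_le_one) y)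
  obtain ⟨x0, hx0, hy0⟩ := hN.cover y (hBK (hLB h0))
  obtain ⟨x1, hx1, hy1⟩ := hN.cover _ (hBK (hLB h1))
  have m0 : x0 ∈ mt N.H N.V L := mem_mt.2 ⟨hx0, y, hy0, h0⟩
  have m1 : x1 ∈ mt N.H N.V L := mem_mt.2 ⟨hx1, _, hy1, h1⟩
  have o1 := hN.cw.osc hc (hLB.trans hBK) u m0 m1
  have o2 := hN.cw.osc hc (hLB.trans hBK) u m1 m0
  have a0 := abs_le.1 (huv x0 hx0)
  have a1 := abs_le.1 (huv x1 hx1)
  have b0 := abs_le.1 (hv y (hLB h0) x0 (N.mem_pts.1 (key x0 m0).1).2
    (hN.dist_le hx0 hy0 (hN.mem x0 hx0)))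
  have b1 := abs_le.1 (hv _ (hLB h1) x1 (N.mem_pts.1 (key x1 m1).1).2
    (hN.dist_le hx1 hy1 (hN.mem x1 hx1)))
  rw [abs_le]
  constructor <;> linarith [a0.1, a0.2, a1.1, a1.2, b0.1, b0.2, b1.1, b1.2]

/-- The integrated increment, for one net. -/
theorem int_bound {N : FC} {K B : Set ℂ} {ε η h c : ℝ} (hN : N.Nice K ε) (hε : 0 ≤ ε)
    (hh : 2 * ε ≤ h) {p : ℂ} (hp : p ∈ ({1, Complex.I} : Set ℂ)) {u v χ : ℂ → ℝ} (hBK : B ⊆ K)
    (hχ : Integrable χ) (hc : ∀ y, |χ y| ≤ c)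
    (hB : ∀ y, χ y ≠ 0 → ∀ t ∈ Icc (0 : ℝ) h, ∀ w, dist (y + t * p) w ≤ ε → w ∈ B)
    (huv : ∀ x ∈ N.V, |u x - v x| ≤ η)
    (hv : ∀ x ∈ B, ∀ x' ∈ B, dist x x' ≤ ε → |v x - v x'| ≤ η) :
    |∫ y, (v (y + h * p) - v y) * χ y| ≤ 4 * η * (∫ y, |χ y|) +
      4 * h * c * (√(2 * N.G.en (N.pts B) u u) * √(N.Y B)) := by
  have hc0 : 0 ≤ c := (abs_nonneg _).trans (hc 0)
  have hh0 : 0 ≤ h := by linarith
  have ex : ∀ z : ℂ, ∃ R : Set ℂ, z ∈ N.V → MeasurableSet R ∧ volume R ≠ ⊤ ∧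
      volume.real R ≤ 4 * h * Metric.diam (N.H z) ∧
      ∀ y : ℂ, ∀ t ∈ Icc (0 : ℝ) h, dist (y + t * p) z ≤ Metric.diam (N.H z) → y ∈ R := by
    intro z
    by_cases hz : z ∈ N.V
    · obtain ⟨R, hR⟩ := shadow hp z (Metric.diam_nonneg (s := N.H z)) (h := h)
        (by linarith [hN.diam z hz])
      exact ⟨R, fun _ => hR⟩
    · exact ⟨∅, fun h => absurd h hz⟩
  choose R hR using ex
  have hV : ∀ z ∈ N.pts B, z ∈ N.V := fun z hz => (N.mem_pts.1 hz).1
  have hi : ∀ z ∈ N.pts B,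
      Integrable fun y => N.G.gr u z * (R z).indicator (1 : ℂ → ℝ) y := fun z hz =>
    ((integrableOn_const (C := (1 : ℝ)) (hR z (hV z hz)).2.1).integrable_indicator
      (hR z (hV z hz)).1).const_mul _
  have hi1 : Integrable fun y => 4 * η * |χ y| := hχ.abs.const_mul _
  have hi2 : Integrable fun y => c * ∑ z ∈ N.pts B, N.G.gr u z * (R z).indicator (1 : ℂ → ℝ) y :=
    (integrable_finsetSum _ hi).const_mul _
  have h1 : ‖∫ y, (v (y + h * p) - v y) * χ y‖ ≤ ∫ y, (4 * η * |χ y| +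
      c * ∑ z ∈ N.pts B, N.G.gr u z * (R z).indicator (1 : ℂ → ℝ) y) := by
    refine norm_integral_le_of_norm_le (hi1.add hi2) (Eventually.of_forall fun y => ?_)
    have hs : 0 ≤ ∑ z ∈ N.pts B, N.G.gr u z * (R z).indicator (1 : ℂ → ℝ) y :=
      Finset.sum_nonneg fun z _ =>
        mul_nonneg (N.G.gr_nonneg u z) (indicator_nonneg (fun _ _ => zero_le_one) y)
    rw [Real.norm_eq_abs, abs_mul]
    by_cases hy : χ y = 0
    · rw [hy, abs_zero, mul_zero, mul_zero, zero_add]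
      exact mul_nonneg hc0 hs
    · have hl := line_bound hN hε hh0 hBK (hB y hy) huv hv (R := R)
        fun z hz t ht hd => (hR z hz).2.2.2 y t ht hd
      have e1 := mul_le_mul_of_nonneg_right hl (abs_nonneg (χ y))
      have e2 := mul_le_mul_of_nonneg_left (hc y) hs
      linarith
  rw [integral_add hi1 hi2, integral_const_mul, integral_const_mul, integral_finsetSum _ hi,
    Real.norm_eq_abs] at h1
  refine h1.trans (add_le_add le_rfl ?_)
  have h2 : ∑ z ∈ N.pts B, ∫ y, N.G.gr u z * (R z).indicator (1 : ℂ → ℝ) y ≤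
      4 * h * ∑ z ∈ N.pts B, N.G.gr u z * Metric.diam (N.H z) := by
    rw [Finset.mul_sum]
    refine Finset.sum_le_sum fun z hz => ?_
    rw [integral_const_mul, integral_indicator_one (hR z (hV z hz)).1]
    have := mul_le_mul_of_nonneg_left (hR z (hV z hz)).2.2.1 (N.G.gr_nonneg u z)
    linarith
  have h3 := Real.sum_mul_le_sqrt_mul_sqrt (N.pts B) (N.G.gr u) fun z => Metric.diam (N.H z)
  rw [N.G.sum_gr_sq] at h3
  have h4 := mul_le_mul_of_nonneg_left h3 (by positivity : 0 ≤ 4 * h)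
  have h5 := mul_le_mul_of_nonneg_left (h2.trans h4) hc0
  unfold FC.Y
  linarith

/-- Translation and the Taylor bound. -/
theorem shift_bound {B : Set ℂ} (hB : IsCompact B) {v χ χ' : ℂ → ℝ} {q : ℂ} {h C : ℝ}
    (hv : Continuous v) (hχ : Continuous χ) (hχc : HasCompactSupport χ) (hχ' : Continuous χ')
    (hχc' : HasCompactSupport χ') (hC : ∀ y, |χ y - χ (y - q) - h * χ' y| ≤ C)
    (hout : ∀ y, y ∉ B → χ y = 0 ∧ χ (y - q) = 0 ∧ χ' y = 0) :
    |h * ∫ y, v y * χ' y| ≤ |∫ y, (v (y + q) - v y) * χ y| + C * ∫ y in B, |v y| := by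
  have i1 : Integrable fun y => v y * χ y :=
    (hv.mul hχ).integrable_of_hasCompactSupport hχc.mul_left
  have i2 : Integrable fun y => v (y + q) * χ y :=
    ((hv.comp (continuous_id.add continuous_const)).mul hχ).integrable_of_hasCompactSupport
      hχc.mul_left
  have i3 : Integrable fun y => v y * χ' y :=
    (hv.mul hχ').integrable_of_hasCompactSupport hχc'.mul_left
  have i4 : Integrable fun y => v y * χ (y - q) := by
    simpa using i2.comp_sub_right q
  have e1 : ∫ y, v y * χ (y - q) = ∫ y, v (y + q) * χ y := by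
    simpa using (integral_add_right_eq_self (μ := volume) (fun y => v y * χ (y - q)) q).symm
  have e2 : ∫ y, (v (y + q) - v y) * χ y = (∫ y, v y * χ (y - q)) - ∫ y, v y * χ y := by
    rw [e1, ← integral_sub i2 i1]
    exact integral_congr_ae (Eventually.of_forall fun y => by ring)
  have e3 : ∫ y, v y * (χ y - χ (y - q) - h * χ' y) =
      (∫ y, v y * χ y) - (∫ y, v y * χ (y - q)) - h * ∫ y, v y * χ' y := by
    have i6 : Integrable fun y => v y * χ y - v y * χ (y - q) := i1.sub i4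
    rw [← integral_sub i1 i4, ← integral_const_mul, ← integral_sub i6 (i3.const_mul h)]
    exact integral_congr_ae (Eventually.of_forall fun y => by ring)
  have i5 : IntegrableOn (fun y => C * |v y|) B :=
    (continuous_const.mul hv.abs).continuousOn.integrableOn_compact hB
  have h1 : ‖∫ y, v y * (χ y - χ (y - q) - h * χ' y)‖ ≤
      ∫ y, B.indicator (fun y => C * |v y|) y := by
    refine norm_integral_le_of_norm_le (i5.integrable_indicator hB.measurableSet)
      (Eventually.of_forall fun y => ?_)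
    by_cases hy : y ∈ B
    · rw [indicator_of_mem hy, Real.norm_eq_abs, abs_mul, mul_comm]
      exact mul_le_mul_of_nonneg_right (hC y) (abs_nonneg _)
    · obtain ⟨k1, k2, k3⟩ := hout y hy
      rw [indicator_of_notMem hy, k1, k2, k3]
      simp
  rw [integral_indicator hB.measurableSet, integral_const_mul, e3, Real.norm_eq_abs] at h1
  rw [e2]
  have t1 := abs_le.1 h1
  have t2 := le_abs_self ((∫ y, v y * χ (y - q)) - ∫ y, v y * χ y)
  have t3 := neg_abs_le ((∫ y, v y * χ (y - q)) - ∫ y, v y * χ y)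
  rw [abs_le]
  constructor <;> linarith [t1.1, t1.2]

theorem le_of_small {x M C δ : ℝ} (hδ : 0 < δ) (h : ∀ t, 0 < t → t ≤ δ → x ≤ M + t * C) :
    x ≤ M := by
  have h1 : Tendsto (fun t : ℝ => M + t * C) (𝓝[>] 0) (𝓝 (M + 0 * C)) :=
    tendsto_nhdsWithin_of_tendsto_nhds
      ((continuous_const.add (continuous_id.mul continuous_const)).tendsto 0)
  rw [zero_mul, add_zero] at h1
  refine ge_of_tendsto h1 ?_
  filter_upwards [Ioc_mem_nhdsGT hδ] with t ht using h t ht.1 ht.2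

end PfH5b

open PfH5b in
theorem H5b_of (hGeo : Geo) (_hCS : CS) (hBnd : Bnd) (hTay : Tay) : H5b := by
  intro K μ a N ρ FF U u v hG hL K' hK' hKK
  obtain ⟨E, hE⟩ := hL.en K' hK' hKK
  obtain ⟨-, ⟨CY, hCY, hY⟩, -⟩ := hBnd K μ a N ρ FF hG
  refine ⟨4 * (√(2 * E) * √(CY * 4)), fun T χ c p hT hχ hc hp => ?_⟩
  have hc0 : 0 ≤ c := (abs_nonneg _).trans (hc 0)
  have hp1 := norm_p hp
  set S : ℝ := ∑ s ∈ T, s.2 ^ 2 with hS
  set B : Set ℂ := ⋃ s ∈ T, sqC s.1 (2 * s.2) with hBdef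
  have hBc : IsCompact B := T.isCompact_biUnion fun s _ => hGeo.sq_cpt _ _
  have hBK' : B ⊆ K' := iUnion₂_subset fun s hs => (hT s hs).2
  have hBK : B ⊆ K := hBK'.trans (hKK.trans interior_subset)
  obtain ⟨δ, hδ, hδT⟩ : ∃ δ > 0, ∀ s ∈ T, 2 * δ ≤ s.2 := by
    have : ∀ᶠ δ : ℝ in 𝓝[>] 0, ∀ s ∈ T, 2 * δ ≤ s.2 := by
      rw [eventually_all_finset]
      intro s hs
      filter_upwards [Ioc_mem_nhdsGT (half_pos (hT s hs).1)] with t ht
      linarith [ht.2]
    obtain ⟨δ, h1, h2⟩ := (this.and self_mem_nhdsWithin).exists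
    exact ⟨δ, h2, h1⟩
  have hnear : ∀ y ∈ tsupport χ, ∀ w, dist y w ≤ 2 * δ → w ∈ B := by
    intro y hy w hw
    obtain ⟨s, hs, hys⟩ := mem_iUnion₂.1 (hχ.supp hy)
    refine mem_iUnion₂.2 ⟨s, hs, ?_⟩
    have h1 : sn s.1 y < s.2 := hys
    have h2 := sn_sub_le s.1 w y
    have h3 := hδT s hs
    rw [dist_comm] at h2
    change sn s.1 w ≤ 2 * s.2
    linarith
  have hYB : ∀ᶠ n in atTop, (N n).Y B ≤ CY * 4 * S := by
    have hinj : Function.Injective fun s : ℂ × ℝ => (s.1, 2 * s.2) := by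
      intro s t hst
      simp only [Prod.mk.injEq] at hst
      exact Prod.ext hst.1 (by linarith [hst.2])
    have h1 := hY (T.image fun s => (s.1, 2 * s.2)) (by
      intro s hs
      obtain ⟨t, ht, rfl⟩ := Finset.mem_image.1 hs
      exact ⟨by linarith [(hT t ht).1], (hT t ht).2.trans (hKK.trans interior_subset)⟩)
    rw [Finset.sum_image hinj.injOn, Finset.set_biUnion_finset_image] at h1
    filter_upwards [h1] with n hn
    refine hn.2.trans (le_of_eq ?_)
    rw [hS, mul_assoc, Finset.mul_sum T _ 4]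
    congr 1
    exact Finset.sum_congr rfl fun s _ => by ring
  have hχi : Integrable χ := hχ.smooth.continuous.integrable_of_hasCompactSupport hχ.cpt
  have huc := hBc.uniformContinuousOn_of_continuous hL.cont.continuousOn
  rw [Metric.uniformContinuousOn_iff_le] at huc
  have step1 : ∀ h : ℝ, 0 < h → h ≤ δ → |∫ y, (v (y + h * p) - v y) * χ y| ≤
      h * (4 * (√(2 * E) * √(CY * 4)) * c * √S) := by
    intro h hh hhδ
    refine le_of_small (C := 4 * ∫ y, |χ y|) one_pos fun η hη _ => ?_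
    obtain ⟨ε₀, hε₀, hv⟩ := huc η hη
    have hε : 0 < min ε₀ (h / 2) := lt_min hε₀ (half_pos hh)
    obtain ⟨n, ⟨hn1, hn2⟩, hn3, hn4⟩ :=
      (((hG.nice _ hε).and hE).and (hYB.and (hL.unif η hη))).exists
    have hb := int_bound (B := B) (η := η) (h := h) (u := u n) (v := v) hn1 hε.le
      (by linarith [min_le_right ε₀ (h / 2)]) hp hBK hχi hc
      (fun y hy t ht w hw => hnear y (subset_tsupport χ hy) w (by
        have h1 := dist_triangle y (y + t * p) w
        have h2 : dist y (y + t * p) = t := by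
          rw [dist_self_add_right, norm_mul, hp1, mul_one, Complex.norm_real,
            Real.norm_of_nonneg ht.1]
        linarith [min_le_right ε₀ (h / 2), ht.2]))
      (fun x hx => hn4 x ((N n).mem_pts.2 ⟨hx, mem_univ x⟩))
      (fun x hx x' hx' hd => by
        simpa [Real.dist_eq] using hv x hx x' hx' (hd.trans (min_le_left _ _)))
    have e1 : (N n).G.en ((N n).pts B) (u n) (u n) ≤ E :=
      ((N n).G.en_mono (fun x hx => (N n).mem_pts.2
        ⟨((N n).mem_pts.1 hx).1, hBK' ((N n).mem_pts.1 hx).2⟩) _).trans hn2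
    have e2 : √(2 * (N n).G.en ((N n).pts B) (u n) (u n)) ≤ √(2 * E) :=
      Real.sqrt_le_sqrt (by linarith)
    have e3 : √((N n).Y B) ≤ √(CY * 4) * √S := by
      rw [← Real.sqrt_mul (by positivity)]
      exact Real.sqrt_le_sqrt hn3
    have e4 := mul_le_mul e2 e3 (Real.sqrt_nonneg _) (Real.sqrt_nonneg _)
    have e5 := mul_le_mul_of_nonneg_left e4 (by positivity : 0 ≤ 4 * h * c)
    linarith
  obtain ⟨hd, -, C, -, hC⟩ := hTay _ χ hχ
  refine le_of_small (C := C * ∫ y in B, |v y|) hδ fun h hh hhδ => ?_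
  have hq : ‖(h : ℂ) * p‖ = h := by
    rw [norm_mul, hp1, mul_one, Complex.norm_real, Real.norm_of_nonneg hh.le]
  have step2 := shift_bound (q := h * p) (h := h) (C := C * h ^ 2) hBc hL.cont hχ.smooth.continuous
    hχ.cpt (hd p).smooth.continuous (hd p).cpt (fun y => by
      have h1 := (hC y (y - h * p)).2
      rw [sub_sub_cancel, hq] at h1
      rcases hp with rfl | rfl
      · simpa [mul_comm] using h1
      · simpa [mul_comm] using h1) (fun y hy => by
      have h1 : y ∉ tsupport χ := fun h1 => hy (hnear y h1 y (by rw [dist_self]; linarith))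
      refine ⟨image_eq_zero_of_notMem_tsupport h1, image_eq_zero_of_notMem_tsupport fun h2 =>
        hy (hnear _ h2 y ?_), ?_⟩
      · rw [dist_comm, dist_eq_norm, sub_sub_cancel, hq]
        linarith
      · by_contra h3
        obtain ⟨s, hs, hys⟩ := mem_iUnion₂.1 ((hd p).supp (subset_tsupport _ h3))
        exact hy (mem_iUnion₂.2 ⟨s, hs, sqC_mono _ (by linarith [(hT s hs).1])
          (sqO_subset _ _ hys)⟩))
  rw [abs_mul, abs_of_pos hh] at step2
  refine le_of_mul_le_mul_left ?_ hh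
  have := step1 h hh hhδ
  linarith

end Pool.Agent.Lib.MP_0d9445_pr.Walk
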