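import Pool.Agent.Lib.MP_0d9445_pr.Walk.Iface

noncomputable section

open MeasureTheory ProbabilityTheory Set Filter Topology
open scoped NNReal ENNReal Classical

namespace Pool.Agent.Lib.MP_0d9445_pr.Walk

open BM Cell

namespace PfH5c

theorem enw_sum {ι : Type} (N : FC) (A : Finset ℂ) (T : Finset ι) (vs : ι → ℂ → ℝ)
    (χ u v : ℂ → ℝ) (h : ∀ w, χ w = ∑ i ∈ T, vs i w) :
    N.enw A χ u v = ∑ i ∈ T, N.enw A (vs i) u v := by
  unfold FC.enw
  rw [← Finset.mul_sum]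
  congr 1
  simp only [h, Finset.sum_mul]
  rw [Finset.sum_comm (s := T)]
  refine Finset.sum_congr rfl fun x _ => ?_
  rw [Finset.sum_comm (s := T)]

theorem dir_sum {ι : Type} (T : Finset ι) (vs : ι → ℂ → ℝ) (χ : ℂ → ℝ) (p : ℂ)
    (hs : ∀ i ∈ T, ContDiff ℝ (⊤ : ℕ∞) (vs i)) (h : ∀ w, χ w = ∑ i ∈ T, vs i w) (y : ℂ) :
    dir p χ y = ∑ i ∈ T, dir p (vs i) y := by
  have e : χ = fun w => ∑ i ∈ T, vs i w := funext h
  unfold dir
  rw [e, fderiv_fun_sum fun i hi => ((hs i hi).differentiable (by simp)).differentiableAt]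
  simp

theorem integrable_mul {U : Set ℂ} {v ψ : ℂ → ℝ} (hv : Continuous v) (hψ : Test U ψ) :
    Integrable (fun y => v y * ψ y) :=
  (hv.mul hψ.smooth.continuous).integrable_of_hasCompactSupport hψ.cpt.mul_left

theorem integral_sum {ι : Type} (hTay : Tay) (T : Finset ι) (O : ι → Set ℂ) (vs : ι → ℂ → ℝ)
    (χ v : ℂ → ℝ) (p : ℂ) (hv : Continuous v) (hs : ∀ i ∈ T, Test (O i) (vs i))
    (h : ∀ w, χ w = ∑ i ∈ T, vs i w) :
    ∫ y, v y * dir p χ y = ∑ i ∈ T, ∫ y, v y * dir p (vs i) y := by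
  rw [← integral_finsetSum T fun i hi => integrable_mul hv ((hTay _ _ (hs i hi)).1 p)]
  refine integral_congr_ae (Eventually.of_forall fun y => ?_)
  simp only [dir_sum T vs χ p (fun i hi => (hs i hi).smooth) h y, Finset.mul_sum]

theorem lin_sub_le {p : ℂ} (hp : p ∈ ({1, Complex.I} : Set ℂ)) (x y : ℂ) :
    |lin p x - lin p y| ≤ ‖x - y‖ := by
  rcases hp with rfl | rfl
  · have := Complex.abs_re_le_norm (x - y)
    simpa [lin] using this
  · have := Complex.abs_im_le_norm (x - y)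
    simpa [lin] using this

/-- The weighted form with a bounded weight that vanishes off `S`. -/
theorem enw_le (hCS : CS) (N : FC) (S : Set ℂ) {p : ℂ} (hp : p ∈ ({1, Complex.I} : Set ℂ))
    (ψ u : ℂ → ℝ) (c : ℝ) (hc : ∀ y, |ψ y| ≤ c) (h0 : ∀ y, y ∉ S → ψ y = 0) :
    |N.enw N.V ψ u (lin p)| ≤ c * Real.sqrt (N.X S) * Real.sqrt (N.G.en (N.pts S) u u) := by
  have e : N.enw N.V ψ u (lin p) = 1 / 2 * ∑ x ∈ N.pts S, ∑ y ∈ N.G.N x,
      (ψ x * (lin p x - lin p y)) * (u x - u y) := by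
    unfold FC.enw
    congr 1
    symm
    have hsub : N.pts S ⊆ N.V := fun x hx => (N.mem_pts.1 hx).1
    rw [← Finset.sum_subset hsub (f := fun x => ∑ y ∈ N.G.N x,
      ψ x * ((u x - u y) * (lin p x - lin p y)))]
    · exact Finset.sum_congr rfl fun x _ => Finset.sum_congr rfl fun y _ => by ring
    · intro x hx hx'
      have : ψ x = 0 := h0 x fun h => hx' (N.mem_pts.2 ⟨hx, h⟩)
      simp [this]
  rw [e]
  refine hCS.2.1 N S (fun x y => ψ x * (lin p x - lin p y)) u c fun x _ y _ => ?_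
  rw [abs_mul]
  exact mul_le_mul (hc x) (lin_sub_le hp x y) (abs_nonneg _) ((abs_nonneg _).trans (hc x))

theorem isOpen_cov (FF : Set (ℂ × ℝ)) : IsOpen (cov FF) :=
  isOpen_biUnion fun _ _ => isOpen_interior

theorem exists_eps (A δ : ℝ) (hδ : 0 < δ) : ∃ ε > 0, ∀ t, 0 ≤ t → t ≤ ε → A * Real.sqrt t ≤ δ := by
  have h : Continuous fun t : ℝ => A * Real.sqrt t := by fun_prop
  have h0 : (fun t : ℝ => A * Real.sqrt t) 0 < δ := by simpa using hδ
  have := (h.tendsto 0).eventually (gt_mem_nhds h0)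
  obtain ⟨r, hr, H⟩ := Metric.eventually_nhds_iff.1 this
  refine ⟨r / 2, by linarith, fun t ht htr => (H ?_).le⟩
  rw [Real.dist_eq, sub_zero, abs_of_nonneg ht]
  linarith

end PfH5c

open PfH5c in
theorem H5c_of (hGeo : Geo) (hCS : CS) (hBnd : Bnd) (hTay : Tay) (hPart : Part) (hH5 : H5) (hH5b : H5b) : H5c := by
  intro K μ a N ρ FF U p u v χ hG hU hUK hp hL hχ
  obtain ⟨K', hK', h1, h2⟩ := exists_compact_between hχ.cpt.isCompact hU hχ.supp
  have hK'K : K' ⊆ interior K := h2.trans hUK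
  obtain ⟨c, hc⟩ : ∃ c, ∀ y, |χ y| ≤ c := by
    obtain ⟨c, hc⟩ := hχ.smooth.continuous.bounded_above_of_compact_support hχ.cpt
    exact ⟨c, fun y => by simpa using hc y⟩
  have hc0 : 0 ≤ c := (abs_nonneg _).trans (hc 0)
  obtain ⟨C₁, hC₁⟩ := hH5b K μ a N ρ FF U u v hG hL K' hK' hK'K
  obtain ⟨C₂, hC₂0, hC₂⟩ := (hBnd K μ a N ρ FF hG).2.1
  obtain ⟨E, hE⟩ := hL.en K' hK' hK'K
  have hZc : IsCompact (tsupport χ \ cov FF) := hχ.cpt.isCompact.diff (isOpen_cov FF)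
  have hZ0 : volume (tsupport χ \ cov FF) = 0 :=
    measure_mono_null (sdiff_subset_sdiff_left (hχ.supp.trans hUK)) hG.null
  rw [Metric.tendsto_nhds]
  intro δ hδ
  obtain ⟨ε, hε, hεδ⟩ := exists_eps (c * Real.sqrt C₂ * Real.sqrt E + a * (C₁ * c)) (δ / 2)
    (by linarith)
  obtain ⟨T, hT, hZT, hTε⟩ := hGeo.null_cover _ (interior K') hZc hZ0 isOpen_interior
    (sdiff_subset.trans h1) ε hε
  let O : Option FF → Set ℂ := fun i =>
    match i with
    | none => ⋃ s ∈ T, sqO s.1 s.2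
    | some s => U ∩ interior (box s.1.1 s.1.2)
  have hO : ∀ i, IsOpen (O i) := by
    rintro (_ | s)
    · exact isOpen_biUnion fun s _ => hGeo.osq_open _ _
    · exact hU.inter isOpen_interior
  have hχO : Test (⋃ i, O i) χ := by
    refine ⟨hχ.smooth, hχ.cpt, fun w hw => ?_⟩
    by_cases hw' : w ∈ cov FF
    · obtain ⟨s, hs, hws⟩ := mem_iUnion₂.1 hw'
      exact mem_iUnion.2 ⟨some ⟨s, hs⟩, hχ.supp hw, hws⟩
    · exact mem_iUnion.2 ⟨none, hZT ⟨hw, hw'⟩⟩
  obtain ⟨T', vs, hvs, hsum⟩ := hPart O χ hO hχO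
  let D : Option FF → ℕ → ℝ := fun i n =>
    (N n).enw (N n).V (vs i) (u n) (lin p) - -a * ∫ y, v y * dir p (vs i) y
  have hD : ∀ n, (N n).enw (N n).V χ (u n) (lin p) - -a * ∫ y, v y * dir p χ y =
      ∑ i ∈ T', D i n := by
    intro n
    rw [enw_sum (N n) _ T' vs χ _ _ hsum,
      integral_sum hTay T' O vs χ v p hL.cont (fun i hi => (hvs i hi).1) hsum, Finset.mul_sum,
      ← Finset.sum_sub_distrib]
  have hsome : Tendsto (fun n => ∑ i ∈ T'.erase none, D i n) atTop (𝓝 0) := by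
    have : Tendsto (fun n => ∑ i ∈ T'.erase none, D i n) atTop
        (𝓝 (∑ i ∈ T'.erase none, (0 : ℝ))) := by
      refine tendsto_finsetSum _ fun i hi => ?_
      obtain ⟨hne, hi⟩ := Finset.mem_erase.1 hi
      rcases i with _ | s
      · exact absurd rfl hne
      · exact tendsto_sub_nhds_zero_iff.2
          (hH5 K μ a N ρ FF U s.1 p u v _ hG s.2 hU hp hL (hvs _ hi).1)
    simpa using this
  have hsq : ∀ s ∈ T, sqC s.1 s.2 ⊆ K' := fun s hs w hw =>
    interior_subset ((hT s hs).2 (by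
      have h0 := (hT s hs).1
      have : sn s.1 w ≤ s.2 := hw
      show sn s.1 w ≤ 2 * s.2
      linarith))
  have hnone : ∀ᶠ n in atTop, none ∈ T' → |D none n| ≤ δ / 2 := by
    filter_upwards [hE, hC₂ T fun s hs => ⟨(hT s hs).1, (hsq s hs).trans
      (hK'K.trans interior_subset)⟩] with n hEn hXn hn
    obtain ⟨ht, -, hb⟩ := hvs none hn
    have hb' : ∀ y, |vs none y| ≤ c := fun y => (hb y).trans (hc y)
    have hS : (⋃ s ∈ T, sqC s.1 s.2) ⊆ K' := iUnion₂_subset hsq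
    have h0 : ∀ y, y ∉ (⋃ s ∈ T, sqC s.1 s.2) → vs none y = 0 := by
      intro y hy
      by_contra hne
      obtain ⟨s, hs, hys⟩ := mem_iUnion₂.1 (ht.supp (subset_tsupport _ hne))
      exact hy (mem_iUnion₂.2 ⟨s, hs, show sn s.1 y ≤ s.2 from le_of_lt hys⟩)
    have b1 := enw_le hCS (N n) _ hp (vs none) (u n) c hb' h0
    have b2 := hC₁ T (vs none) c p (fun s hs => ⟨(hT s hs).1, (hT s hs).2.trans interior_subset⟩)
      ht hb' hp
    have ht0 : 0 ≤ ∑ s ∈ T, s.2 ^ 2 := Finset.sum_nonneg fun s _ => sq_nonneg _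
    have b3 := hεδ _ ht0 hTε
    have b4 : Real.sqrt ((N n).X (⋃ s ∈ T, sqC s.1 s.2)) ≤
        Real.sqrt C₂ * Real.sqrt (∑ s ∈ T, s.2 ^ 2) := by
      rw [← Real.sqrt_mul hC₂0]
      exact Real.sqrt_le_sqrt hXn.1
    have b5 : Real.sqrt ((N n).G.en ((N n).pts (⋃ s ∈ T, sqC s.1 s.2)) (u n) (u n)) ≤
        Real.sqrt E := by
      refine Real.sqrt_le_sqrt (le_trans ((N n).G.en_mono (fun x hx => ?_) _) hEn)
      exact (N n).mem_pts.2 ⟨((N n).mem_pts.1 hx).1, hS ((N n).mem_pts.1 hx).2⟩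
    have b6 : |(N n).enw (N n).V (vs none) (u n) (lin p)| ≤
        c * (Real.sqrt C₂ * Real.sqrt (∑ s ∈ T, s.2 ^ 2)) * Real.sqrt E :=
      b1.trans (by gcongr)
    have ha := hG.a_pos
    have b7 : |-a * ∫ y, v y * dir p (vs none) y| ≤ a * (C₁ * c * Real.sqrt (∑ s ∈ T, s.2 ^ 2)) := by
      rw [abs_mul, abs_neg, abs_of_pos ha]
      exact mul_le_mul_of_nonneg_left b2 ha.le
    refine (abs_sub _ _).trans ?_
    nlinarith [b3, b6, b7]
  filter_upwards [hnone, (Metric.tendsto_nhds.1 hsome) (δ / 2) (by linarith)] with n hn1 hn2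
  rw [Real.dist_eq, hD n]
  rw [Real.dist_eq, sub_zero] at hn2
  by_cases hn : none ∈ T'
  · rw [← Finset.add_sum_erase _ _ hn]
    have := abs_add_le (D none n) (∑ i ∈ T'.erase none, D i n)
    linarith [hn1 hn]
  · rw [Finset.erase_eq_of_notMem hn] at hn2
    linarith

end Pool.Agent.Lib.MP_0d9445_pr.Walk
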