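import Pool.Agent.Lib.MP_0d9445_pr.Walk.Iface

noncomputable section

open MeasureTheory ProbabilityTheory Set Filter Topology
open scoped NNReal ENNReal Classical

namespace Pool.Agent.Lib.MP_0d9445_pr.Walk

open BM Cell

namespace PfH6

/-- Taylor remainder. -/
def rem (χ : ℂ → ℝ) (x y : ℂ) : ℝ :=
  χ x - χ y - (dir 1 χ x * (x - y).re + dir Complex.I χ x * (x - y).im)

theorem green (N : FC) (χ u : ℂ → ℝ) : ∑ x ∈ N.V, χ x * N.G.lap u x = N.G.en N.V u χ := by
  have hV : N.V ⊆ N.G.inner N.V := fun x hx =>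
    N.G.mem_inner.2 ⟨hx, fun y hy => (N.mem_N.1 hy).1⟩
  have h1 := N.G.en_eq_sum hV u (v := fun x => if x ∈ N.V then χ x else 0)
    (fun x hx => if_neg hx)
  have h2 : N.G.en N.V u (fun x => if x ∈ N.V then χ x else 0) = N.G.en N.V u χ := by
    refine N.G.en_congr (fun _ _ => rfl) fun x hx => if_pos ?_
    rcases N.G.mem_clo.1 hx with h | ⟨z, -, h⟩
    · exact h
    · exact (N.mem_N.1 h).1
  rw [← h2, h1]
  exact Finset.sum_congr rfl fun x hx => by rw [if_pos hx, mul_comm]

theorem split (N : FC) (χ u : ℂ → ℝ) : N.G.en N.V u χ =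
    N.enw N.V (dir 1 χ) u (lin 1) + N.enw N.V (dir Complex.I χ) u (lin Complex.I) +
      1 / 2 * ∑ x ∈ N.V, ∑ y ∈ N.G.N x, rem χ x y * (u x - u y) := by
  simp only [Net.en, FC.enw, ← mul_add, ← Finset.sum_add_distrib]
  congr 1
  refine Finset.sum_congr rfl fun x _ => Finset.sum_congr rfl fun y _ => ?_
  simp only [rem, lin, Complex.one_re, Complex.one_im, Complex.I_re, Complex.I_im, Complex.sub_re,
    Complex.sub_im]
  ring

theorem rem_zero {χ : ℂ → ℝ} {x y : ℂ} (hx : x ∉ tsupport χ) (hy : y ∉ tsupport χ) :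
    rem χ x y = 0 := by
  have h1 : fderiv ℝ χ x = 0 := by
    by_contra h
    exact hx (support_fderiv_subset ℝ h)
  simp [rem, dir, h1, image_eq_zero_of_notMem_tsupport hx, image_eq_zero_of_notMem_tsupport hy]

theorem integ {U : Set ℂ} {v χ : ℂ → ℝ} (hv : Continuous v) (h : Test U χ) :
    Integrable fun y => v y * χ y :=
  (hv.mul h.smooth.continuous).integrable_of_hasCompactSupport h.cpt.mul_left

end PfH6

open PfH6 in
theorem H6_of (hGeo : Geo) (hCS : CS) (hBnd : Bnd) (hTay : Tay) (hH5c : H5c) : H6 := by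
  intro K μ a N ρ FF U u v χ hG hU hUK hL hχ
  obtain ⟨hd, -, C, hC0, hC⟩ := hTay U χ hχ
  have t1 := hH5c K μ a N ρ FF U 1 u v _ hG hU hUK (by simp) hL (hd 1)
  have t2 := hH5c K μ a N ρ FF U Complex.I u v _ hG hU hUK (by simp) hL (hd Complex.I)
  have hcpt : IsCompact (tsupport χ) := hχ.cpt
  obtain ⟨δ, hδ, hsub⟩ := hcpt.exists_cthickening_subset_open isOpen_interior (hχ.supp.trans hUK)
  have hK' : IsCompact (Metric.cthickening δ (tsupport χ)) := hcpt.cthickening
  obtain ⟨B, hB0, hB⟩ := (hBnd K μ a N ρ FF hG).1 _ hK' hsub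
  obtain ⟨E, hE⟩ := hL.en _ hK' hsub
  have t3 : Tendsto (fun n => 1 / 2 * ∑ x ∈ (N n).V, ∑ y ∈ (N n).G.N x,
      rem χ x y * (u n x - u n y)) atTop (𝓝 0) := by
    rw [Metric.tendsto_nhds]
    intro η hη
    have hD : 0 < 2 * C * (√B * √E) + 1 := by positivity
    have hε : 0 < min (δ / 2) (η / (2 * C * (√B * √E) + 1)) := lt_min (by positivity) (by positivity)
    filter_upwards [hG.nice _ hε, hB, hE] with n hn hBn hEn
    set ε := min (δ / 2) (η / (2 * C * (√B * √E) + 1)) with hεd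
    have e1 : ε ≤ δ / 2 := min_le_left _ _
    have e2 : ε * (2 * C * (√B * √E) + 1) ≤ η := (le_div_iff₀ hD).1 (min_le_right _ _)
    have h1 : ∑ x ∈ (N n).V, ∑ y ∈ (N n).G.N x, rem χ x y * (u n x - u n y) =
        ∑ x ∈ (N n).pts (Metric.cthickening δ (tsupport χ)), ∑ y ∈ (N n).G.N x,
          rem χ x y * (u n x - u n y) := by
      refine (Finset.sum_subset (Finset.filter_subset _ _) fun x hx hx' => ?_).symm
      have hx2 : x ∉ Metric.cthickening δ (tsupport χ) := fun h => hx' ((N n).mem_pts.2 ⟨hx, h⟩)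
      refine Finset.sum_eq_zero fun y hy => ?_
      rw [rem_zero (fun h => hx2 (Metric.self_subset_cthickening _ h)) (fun h => hx2 ?_), zero_mul]
      refine Metric.mem_cthickening_of_dist_le x y δ _ h ?_
      rw [dist_eq_norm]
      linarith [hn.nbr_le hy]
    have h2 := hCS.2.1 (N n) (Metric.cthickening δ (tsupport χ)) (rem χ) (u n) (C * (2 * ε))
      fun x _ y hy => by
        refine (hC x y).2.trans ?_
        rw [sq, mul_assoc]
        exact mul_le_mul_of_nonneg_left
          (mul_le_mul_of_nonneg_right (hn.nbr_le hy) (norm_nonneg _)) hC0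
    have h3 : C * (2 * ε) * √((N n).X (Metric.cthickening δ (tsupport χ))) *
        √((N n).G.en ((N n).pts (Metric.cthickening δ (tsupport χ))) (u n) (u n)) ≤
          C * (2 * ε) * √B * √E := by
      have := hε.le
      gcongr
      exact hBn.1
    rw [Real.dist_eq, sub_zero, h1]
    refine lt_of_le_of_lt (h2.trans h3) ?_
    nlinarith
  have t4 := (t1.add t2).add t3
  have e : -a * ∫ y, v y * lapl χ y =
      (-a * ∫ y, v y * dir 1 (dir 1 χ) y) + (-a * ∫ y, v y * dir Complex.I (dir Complex.I χ) y) +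
        0 := by
    rw [add_zero, ← mul_add, ← integral_add (integ hL.cont ((hTay U _ (hd 1)).1 1))
      (integ hL.cont ((hTay U _ (hd Complex.I)).1 Complex.I))]
    simp only [lapl, mul_add]
  rw [e]
  refine t4.congr fun n => ?_
  rw [green, split]

end Pool.Agent.Lib.MP_0d9445_pr.Walk
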