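import Pool.Agent.Lib.MP_0d9445_pr.Walk.Iface

noncomputable section

open MeasureTheory ProbabilityTheory Set Filter Topology
open scoped NNReal ENNReal Classical

namespace Pool.Agent.Lib.MP_0d9445_pr.Walk

open BM Cell

namespace PfIp

/-- the polygon as a finite sum of clamped pieces -/
def pl (w : ℕ → ℂ) (N : ℕ) (s : ℝ) : ℂ :=
  w 0 + ∑ j ∈ Finset.range N, ((max 0 (min 1 (s - j)) : ℝ) : ℂ) * (w (j + 1) - w j)

theorem continuous_pl (w : ℕ → ℂ) (N : ℕ) : Continuous (pl w N) := by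
  unfold pl
  fun_prop

theorem pl_eq (w : ℕ → ℂ) {s : ℝ} (hs : 0 ≤ s) {N : ℕ} (hN : s < N) :
    pl w N s = w ⌊s⌋₊ + ((s - ⌊s⌋₊ : ℝ) : ℂ) * (w (⌊s⌋₊ + 1) - w ⌊s⌋₊) := by
  have h1 : ⌊s⌋₊ + 1 ≤ N := (Nat.floor_lt hs).2 hN
  obtain ⟨r, rfl⟩ := Nat.exists_eq_add_of_le h1
  have h2 : (⌊s⌋₊ : ℝ) ≤ s := Nat.floor_le hs
  have h3 : s < ⌊s⌋₊ + 1 := Nat.lt_floor_add_one s
  have a1 : ∑ j ∈ Finset.range ⌊s⌋₊, ((max 0 (min 1 (s - j)) : ℝ) : ℂ) * (w (j + 1) - w j) =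
      w ⌊s⌋₊ - w 0 := by
    rw [← Finset.sum_range_sub w]
    refine Finset.sum_congr rfl fun j hj => ?_
    have : ((j : ℝ) + 1) ≤ ⌊s⌋₊ := by exact_mod_cast Finset.mem_range.1 hj
    rw [min_eq_left (by linarith), max_eq_right zero_le_one]
    simp
  have a2 : ∑ j ∈ Finset.range r, ((max 0 (min 1 (s - (⌊s⌋₊ + 1 + j : ℕ))) : ℝ) : ℂ) *
      (w (⌊s⌋₊ + 1 + j + 1) - w (⌊s⌋₊ + 1 + j)) = 0 := by
    refine Finset.sum_eq_zero fun j _ => ?_
    have : (0 : ℝ) ≤ j := Nat.cast_nonneg j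
    rw [max_eq_left (min_le_of_right_le (by push_cast; linarith))]
    simp
  rw [pl, Finset.sum_range_add, Finset.sum_range_succ, a1, a2, min_eq_right (by linarith),
    max_eq_right (by linarith)]
  ring

end PfIp

theorem Ip_of : Ip := by
  intro m w hm
  refine ⟨continuous_iff_continuousAt.2 fun t₀ => ?_, fun k => ?_, fun t ht => ?_⟩
  · obtain ⟨N, hN⟩ := exists_nat_gt (m * (t₀ : ℝ))
    have hc : Continuous fun t : Ici (0 : ℝ) => m * (t : ℝ) := by fun_prop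
    have h1 : ∀ᶠ t : Ici (0 : ℝ) in 𝓝 t₀, m * (t : ℝ) < N :=
      hc.continuousAt.eventually (gt_mem_nhds hN)
    refine ((PfIp.continuous_pl w N).comp hc).continuousAt.congr ?_
    filter_upwards [h1] with t ht
    exact PfIp.pl_eq w (mul_nonneg hm.le t.2) ht
  · have : m * (k / m) = k := by field_simp
    simp [interp, this]
  · have h0 : 0 ≤ m * t := mul_nonneg hm.le ht
    have h2 : (⌊m * t⌋₊ : ℝ) ≤ m * t := Nat.floor_le h0
    have h3 : m * t < ⌊m * t⌋₊ + 1 := Nat.lt_floor_add_one _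
    rw [interp, add_sub_cancel_left, norm_mul, Complex.norm_real, Real.norm_eq_abs,
      abs_of_nonneg (by linarith)]
    exact mul_le_of_le_one_left (norm_nonneg _) (by linarith)

end Pool.Agent.Lib.MP_0d9445_pr.Walk
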