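import Pool.Agent.Lib.MP_0d9445_pr.Walk.Iface

noncomputable section

open MeasureTheory ProbabilityTheory Set Filter Topology
open scoped NNReal ENNReal Classical

namespace Pool.Agent.Lib.MP_0d9445_pr.Walk

open BM Cell

namespace PfL1

theorem core {K : Set ℂ} (hK : IsCompact K) (f : ℕ → ℂ → ℝ) (M : ℝ)
    (hb : ∀ᶠ n in atTop, ∀ w ∈ K, |f n w| ≤ M)
    (he : ∀ η > 0, ∃ δ > 0, ∀ᶠ n in atTop, ∀ w ∈ K, ∀ w' ∈ K, dist w w' ≤ δ →
      |f n w - f n w'| ≤ η) :
    ∃ (φ : ℕ → ℕ) (v : ℂ → ℝ), StrictMono φ ∧ ContinuousOn v K ∧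
      ∀ η > 0, ∀ᶠ n in atTop, ∀ w ∈ K, |f (φ n) w - v w| ≤ η := by
  have hU : (hyperfilter ℕ : Filter ℕ) ≤ atTop := Nat.hyperfilter_le_atTop
  have hlim : ∀ w ∈ K, ∃ a : ℝ, Tendsto (fun n => f n w) (hyperfilter ℕ : Filter ℕ) (𝓝 a) := by
    intro w hw
    obtain ⟨a, -, ha⟩ := (isCompact_Icc (a := -M) (b := M)).ultrafilter_le_nhds
      ((hyperfilter ℕ).map fun n => f n w) (le_principal_iff.2
        (mem_map.2 ((hb.filter_mono hU).mono fun n hn => abs_le.1 (hn w hw))))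
    exact ⟨a, ha⟩
  choose! v hv using hlim
  have hev : ∀ η > 0, ∃ δ > 0, (∀ᶠ n in atTop, ∀ w ∈ K, ∀ w' ∈ K, dist w w' ≤ δ →
      |f n w - f n w'| ≤ η) ∧ ∀ w ∈ K, ∀ w' ∈ K, dist w w' ≤ δ → |v w - v w'| ≤ η := by
    intro η hη
    obtain ⟨δ, hδ, h⟩ := he η hη
    refine ⟨δ, hδ, h, fun w hw w' hw' hd => ?_⟩
    exact le_of_tendsto ((hv w hw).sub (hv w' hw')).abs
      ((h.filter_mono hU).mono fun n hn => hn w hw w' hw' hd)
  have hun : ∀ η > 0, ∃ᶠ n in atTop, ∀ w ∈ K, |f n w - v w| ≤ η := by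
    intro η hη
    obtain ⟨δ, hδ, h1, h2⟩ := hev (η / 3) (by positivity)
    obtain ⟨t, htK, htf, hcov⟩ := hK.finite_cover_balls hδ
    have h3 : ∀ᶠ n in (hyperfilter ℕ : Filter ℕ), ∀ y ∈ t, |f n y - v y| ≤ η / 3 :=
      (eventually_all_finite htf).2 fun y hy =>
        ((Metric.tendsto_nhds.1 (hv y (htK hy))) (η / 3) (by positivity)).mono fun n hn => by
          rw [Real.dist_eq] at hn
          exact hn.le
    refine (((h1.filter_mono hU).and h3).frequently.filter_mono hU).mono fun n hn w hw => ?_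
    obtain ⟨y, hy, hwy⟩ := mem_iUnion₂.1 (hcov hw)
    have hd : dist w y ≤ δ := (Metric.mem_ball.1 hwy).le
    have a1 := abs_le.1 (hn.1 w hw y (htK hy) hd)
    have a2 := abs_le.1 (hn.2 y hy)
    have a3 := abs_le.1 (h2 w hw y (htK hy) hd)
    rw [abs_le]
    constructor <;> linarith [a1.1, a1.2, a2.1, a2.2, a3.1, a3.2]
  obtain ⟨φ, hφ, hP⟩ := extraction_forall_of_frequently
    (P := fun k n => ∀ w ∈ K, |f n w - v w| ≤ 1 / ((k : ℝ) + 1))
    fun k => hun _ (by positivity)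
  refine ⟨φ, v, hφ, Metric.continuousOn_iff.2 fun w hw η hη => ?_, fun η hη => ?_⟩
  · obtain ⟨δ, hδ, -, h2⟩ := hev (η / 2) (by positivity)
    refine ⟨δ, hδ, fun w' hw' hd => ?_⟩
    rw [Real.dist_eq]
    exact (h2 w' hw' w hw hd.le).trans_lt (by linarith)
  · filter_upwards [(tendsto_one_div_add_atTop_nhds_zero_nat (𝕜 := ℝ)).eventually
      (ge_mem_nhds hη)] with k hk w hw
    exact (hP k w hw).trans hk

/-- A centre whose cell covers `w`. -/
def cen (N : FC) (w : ℂ) : ℂ := if h : ∃ x ∈ N.V, w ∈ N.H x then h.choose else w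

theorem cen_spec {N : FC} {K : Set ℂ} {ε : ℝ} (h : N.Nice K ε) {w : ℂ} (hw : w ∈ K) :
    cen N w ∈ N.V ∧ w ∈ N.H (cen N w) ∧ dist (cen N w) w ≤ ε := by
  have h1 := h.cover w hw
  have h2 : cen N w = h1.choose := dif_pos h1
  have h3 : cen N w ∈ N.V ∧ w ∈ N.H (cen N w) := h2 ▸ h1.choose_spec
  exact ⟨h3.1, h3.2, h.dist_le h3.1 (h.mem _ h3.1) h3.2⟩

end PfL1

open PfL1 in
theorem L1_of : L1 := by
  intro K U N g L u hK hU hUK hN hg hbd hL hE
  have hUK' : U ⊆ K := subset_closure.trans (hUK.trans interior_subset)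
  obtain ⟨B, hB⟩ := (hK.cthickening (r := 1)).exists_bound_of_continuousOn hg.continuousOn
  obtain ⟨φ, v₀, hφ, hv₀, hlim⟩ := core hK (fun n w => u n (cen (N n) w)) (max L B) (by
      filter_upwards [hN 1 one_pos, hbd, hL] with n h1 h2 h3 w hw
      obtain ⟨-, -, c3⟩ := cen_spec h1 hw
      by_cases hx : cen (N n) w ∈ (N n).inside U
      · exact (h3 _ hx).trans (le_max_left _ _)
      · rw [h2 _ hx]
        exact (hB _ (Metric.mem_cthickening_of_dist_le _ w 1 K hw c3)).trans (le_max_right _ _))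
    (fun η hη => by
      obtain ⟨δ, hδ, h⟩ := hE η hη
      refine ⟨δ / 3, by positivity, ?_⟩
      filter_upwards [hN (δ / 3) (by positivity), h] with n h1 h2 w hw w' hw' hd
      obtain ⟨c1, -, c3⟩ := cen_spec h1 hw
      obtain ⟨d1, -, d3⟩ := cen_spec h1 hw'
      refine h2 _ c1 _ d1 ?_
      rw [← dist_eq_norm]
      have := dist_triangle4 (cen (N n) w) w w' (cen (N n) w')
      rw [dist_comm w'] at this
      linarith)
  have ht : Tendsto φ atTop atTop := hφ.tendsto_atTop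
  have hg₀ : ∀ w ∈ K, w ∉ U → v₀ w = g w := by
    intro w hw hwU
    refine eq_of_forall_dist_le fun η hη => ?_
    obtain ⟨δ, hδ, hd⟩ := Metric.continuous_iff.1 hg w (η / 2) (by positivity)
    obtain ⟨n, h1, h2, h3⟩ := ((hlim (η / 2) (by positivity)).and
      ((ht.eventually (hN (δ / 2) (by positivity))).and (ht.eventually hbd))).exists
    obtain ⟨-, c2, c3⟩ := cen_spec h2 hw
    have e1 := h1 w hw
    rw [h3 _ fun hx => hwU ((mem_ins.1 hx).2 c2)] at e1
    have e2 := hd _ (c3.trans_lt (by linarith))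
    rw [Real.dist_eq] at e2 ⊢
    have a1 := abs_le.1 e1
    have a2 := abs_lt.1 e2
    rw [abs_le]
    constructor <;> linarith [a1.1, a1.2, a2.1, a2.2]
  refine ⟨φ, fun w => if w ∈ U then v₀ w else g w, hφ, continuous_iff_continuousAt.2 fun w => ?_,
    fun w hw => if_neg hw, fun η hη => ?_⟩
  · by_cases hw : w ∈ closure U
    · have hn : K ∈ 𝓝 w := mem_interior_iff_mem_nhds.1 (hUK hw)
      refine (hv₀.continuousAt hn).congr ?_
      filter_upwards [hn] with y hy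
      by_cases hyU : y ∈ U
      · rw [if_pos hyU]
      · rw [if_neg hyU, hg₀ y hy hyU]
    · refine hg.continuousAt.congr ?_
      filter_upwards [isClosed_closure.isOpen_compl.mem_nhds hw] with y hy
      rw [if_neg fun h => hy (subset_closure h)]
  · obtain ⟨δ, hδ, h⟩ := hE (η / 2) (by positivity)
    filter_upwards [hlim (η / 2) (by positivity), ht.eventually (hN δ hδ), ht.eventually hbd,
      ht.eventually h] with n h1 h2 h3 h4 x hx
    have hxV : x ∈ (N (φ n)).V := ((N (φ n)).mem_pts.1 hx).1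
    by_cases hxU : x ∈ U
    · obtain ⟨c1, -, c3⟩ := cen_spec h2 (hUK' hxU)
      have a1 := abs_le.1 (h1 x (hUK' hxU))
      have a2 := abs_le.1 (h4 _ c1 x hxV (by rwa [← dist_eq_norm]))
      simp only [if_pos hxU]
      rw [abs_le]
      constructor <;> linarith [a1.1, a1.2, a2.1, a2.2]
    · simp only [if_neg hxU]
      rw [h3 x fun h5 => hxU ((mem_ins.1 h5).2 (h2.mem x hxV)), sub_self, abs_zero]
      exact hη.le

end Pool.Agent.Lib.MP_0d9445_pr.Walk
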