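import Pool.Agent.Lib.MP_0d9445_pr.Walk.Iface

noncomputable section

open MeasureTheory ProbabilityTheory Set Filter Topology
open scoped NNReal ENNReal Classical

namespace Pool.Agent.Lib.MP_0d9445_pr.Walk

open BM Cell

namespace PfL2

/-- The maximum principle for one net. -/
theorem sup_bound {N : FC} {K U : Set ℂ} {ρ f g u : ℂ → ℝ} {α M R : ℝ} (hN : N.Nice K 1)
    (hE : N.G.Esc (N.inside U)) (hρ : ∀ x, 0 ≤ ρ x) (hα : 0 < α)
    (hU : U ⊆ Metric.closedBall 0 R) (hf : ∀ w ∈ Metric.closedBall (0 : ℂ) (R + 2), |f w| ≤ α * M)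
    (hg : ∀ w ∈ Metric.closedBall (0 : ℂ) (R + 2), |g w| ≤ M)
    (hu : N.G.Sol (N.inside U) (fun x => α * ρ x) (fun x => ρ x * f x) g u) :
    ∀ x ∈ N.inside U, |u x| ≤ M ∧ |N.G.lap u x| ≤ 2 * α * M * ρ x := by
  have hin : ∀ x ∈ N.inside U, ‖x‖ ≤ R := fun x hx => by
    have h := mem_ins.1 hx
    simpa using hU (h.2 (hN.mem x h.1))
  have hf' : ∀ x ∈ N.inside U, |f x| ≤ α * M := fun x hx => hf x (by
    have := hin x hx
    simp only [Metric.mem_closedBall, dist_zero_right]; linarith)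
  have hg' : ∀ x ∈ N.inside U, ∀ y ∈ N.G.N x, y ∉ N.inside U → |u y| ≤ M := fun x hx y hy hyF => by
    rw [hu.1 y hyF]
    refine hg y ?_
    have h1 := hin x hx
    have h2 := hN.nbr_le hy
    have h3 : ‖y‖ ≤ ‖x‖ + ‖x - y‖ := by
      have := norm_sub_le x (x - y)
      simpa using this
    simp only [Metric.mem_closedBall, dist_zero_right]; linarith
  have hk : ∀ x ∈ N.inside U, 0 ≤ α * ρ x := fun x _ => mul_nonneg hα.le (hρ x)
  have hup : ∀ x ∈ N.inside U, u x ≤ M :=
    N.G.comparison hE (k := fun x => α * ρ x) (v := fun _ => M) hk (fun x hx => by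
      have h1 := hu.2 x hx
      have h2 := mul_le_mul_of_nonneg_left (abs_le.1 (hf' x hx)).2 (hρ x)
      simp only [Net.lap_const] at h1 ⊢
      nlinarith) (fun x hx y hy hyF => (abs_le.1 (hg' x hx y hy hyF)).2)
  have hlo : ∀ x ∈ N.inside U, -M ≤ u x :=
    N.G.comparison hE (k := fun x => α * ρ x) (u := fun _ => -M) hk (fun x hx => by
      have h1 := hu.2 x hx
      have h2 := mul_le_mul_of_nonneg_left (abs_le.1 (hf' x hx)).1 (hρ x)
      simp only [Net.lap_const] at h1 ⊢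
      nlinarith) (fun x hx y hy hyF => (abs_le.1 (hg' x hx y hy hyF)).1)
  intro x hx
  refine ⟨abs_le.2 ⟨hlo x hx, hup x hx⟩, ?_⟩
  have h1 := hu.2 x hx
  have h2 := mul_le_mul_of_nonneg_left (abs_le.1 (hf' x hx)).2 (hρ x)
  have h3 := mul_le_mul_of_nonneg_left (abs_le.1 (hf' x hx)).1 (hρ x)
  have h4 := mul_le_mul_of_nonneg_left (hup x hx) (hk x hx)
  have h5 := mul_le_mul_of_nonneg_left (hlo x hx) (hk x hx)
  simp only at h1
  rw [abs_le]
  constructor <;> nlinarith

/-- Vertices in a compact subset of `U` have their cells inside `U`. -/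
theorem inside_of {K U S : Set ℂ} {N : ℕ → FC} (hN : ∀ ε > 0, ∀ᶠ n in atTop, (N n).Nice K ε)
    (hS : IsCompact S) (hU : IsOpen U) (hSU : S ⊆ U) :
    ∀ᶠ n in atTop, ∀ x ∈ (N n).V, x ∈ S → x ∈ (N n).inside U := by
  obtain ⟨δ, hδ, hsub⟩ := hS.exists_cthickening_subset_open hU hSU
  filter_upwards [hN δ hδ] with n hn x hx hxS
  refine mem_ins.2 ⟨hx, fun w hw => hsub ?_⟩
  exact Metric.mem_cthickening_of_dist_le w x δ S hxS (hn.dist_le hx hw (hn.mem x hx))

/-- The weak equation of the limit. -/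
theorem weak {K : Set ℂ} {μ : Measure ℂ} {a : ℝ} {N : ℕ → FC} {ρ : ℕ → ℂ → ℝ}
    {FF : Set (ℂ × ℝ)} {U : Set ℂ} {α : ℝ} {f g v : ℂ → ℝ} {u : ℕ → ℂ → ℝ} (hH6 : H6)
    (hG : Good K μ a N ρ FF) (hU : IsOpen U) (hUK : U ⊆ interior K) (hα : 0 < α)
    (hf : Continuous f) (hL : Lim K U N ρ u v)
    (hu : ∀ᶠ n in atTop, (N n).G.Sol ((N n).inside U) (fun x => α * ρ n x)
      (fun x => ρ n x * f x) g (u n)) :
    WeakSol U μ v fun w => f w - α * v w := by
  intro χ hχ
  have hχc : Continuous χ := hχ.smooth.continuous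
  have h1 := hH6 K μ a N ρ FF U u v χ hG hU hUK hL hχ
  have h2 := hG.mass (fun w => χ w * (f w - α * v w))
    (hχc.mul (hf.sub (continuous_const.mul hL.cont)))
    ((tsupport_mul_subset_left (f := χ) (g := fun w => f w - α * v w)).trans (hχ.supp.trans hUK))
  have h3 := hG.mass (fun w => |χ w|) hχc.abs (by
    have : tsupport (fun w => |χ w|) = tsupport χ := by
      unfold tsupport
      congr 1
      ext w
      simp
    rw [this]
    exact hχ.supp.trans hUK)
  have h4 : Tendsto (fun n => ∑ x ∈ (N n).V, χ x * (N n).G.lap (u n) x -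
      ∑ x ∈ (N n).V, ρ n x * (χ x * (f x - α * v x))) atTop (𝓝 0) := by
    set c := 2 * a * ∫ w, |χ w| ∂μ with hc
    rw [Metric.tendsto_nhds]
    intro ε hε
    have hpos : 0 < α * (|c| + 1) := by positivity
    have hη : 0 < ε / 2 / (α * (|c| + 1)) := by positivity
    filter_upwards [hu, inside_of hG.nice hχ.cpt hU hχ.supp, hL.unif _ hη,
      h3.eventually (gt_mem_nhds (show c < |c| + 1 by linarith [le_abs_self c]))]
      with n hn hin hun hm
    rw [Real.dist_eq, sub_zero, ← Finset.sum_sub_distrib]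
    have hb : ∀ x ∈ (N n).V, |χ x * (N n).G.lap (u n) x - ρ n x * (χ x * (f x - α * v x))| ≤
        α * (ε / 2 / (α * (|c| + 1))) * (ρ n x * |χ x|) := by
      intro x hx
      by_cases h0 : χ x = 0
      · simp [h0]
      · have hx' := hn.2 x (hin x hx (subset_tsupport χ h0))
        have hd := hun x ((N n).mem_pts.2 ⟨hx, mem_univ x⟩)
        have e : χ x * (N n).G.lap (u n) x - ρ n x * (χ x * (f x - α * v x)) =
            -(α * (u n x - v x) * (ρ n x * χ x)) := by
          have : (N n).G.lap (u n) x = ρ n x * f x - α * ρ n x * u n x := by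
            simp only at hx'; linarith
          rw [this]; ring
        rw [e, abs_neg, abs_mul, abs_mul, abs_mul, abs_of_pos hα,
          abs_of_nonneg (hG.rho_nonneg n x)]
        exact mul_le_mul_of_nonneg_right (mul_le_mul_of_nonneg_left hd hα.le)
          (mul_nonneg (hG.rho_nonneg n x) (abs_nonneg _))
    calc |∑ x ∈ (N n).V, (χ x * (N n).G.lap (u n) x - ρ n x * (χ x * (f x - α * v x)))|
        ≤ ∑ x ∈ (N n).V, α * (ε / 2 / (α * (|c| + 1))) * (ρ n x * |χ x|) :=
          (Finset.abs_sum_le_sum_abs _ _).trans (Finset.sum_le_sum hb)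
      _ = α * (ε / 2 / (α * (|c| + 1))) * ∑ x ∈ (N n).V, ρ n x * |χ x| := by
          rw [Finset.mul_sum]
      _ ≤ α * (ε / 2 / (α * (|c| + 1))) * (|c| + 1) :=
          mul_le_mul_of_nonneg_left hm.le (by positivity)
      _ = ε / 2 := by field_simp
      _ < ε := by linarith
  have h5 := tendsto_nhds_unique (h1.sub h2) h4
  have ha := hG.a_pos
  have h6 : a * ((∫ w, v w * lapl χ w) + 2 * ∫ w, χ w * (f w - α * v w) ∂μ) = 0 := by linarith
  rcases mul_eq_zero.1 h6 with h | h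
  · exact absurd h ha.ne'
  · linarith

end PfL2

theorem L2_of (hGeo : Geo) (hCS : CS) (hBnd : Bnd) (hC5 : C5) (hC6 : C6) (hL1 : L1) (hH6 : H6) : L2 := by
  intro K μ a N ρ FF U α L f g u hG hU hα hf hg hu
  have hgc : Continuous g :=
    (LipschitzWith.of_dist_le' (K := L) fun x y => by
      rw [Real.dist_eq, dist_eq_norm]; exact hg x y).continuous
  have hUK : U ⊆ interior K := subset_closure.trans hU.sub
  obtain ⟨R, hR⟩ := (hG.cpt.isBounded.subset (hUK.trans interior_subset)).subset_closedBall (0 : ℂ)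
  obtain ⟨Mf, hMf⟩ := (isCompact_closedBall (0 : ℂ) (R + 2)).exists_bound_of_continuousOn
    hf.continuousOn
  obtain ⟨Mg, hMg⟩ := (isCompact_closedBall (0 : ℂ) (R + 2)).exists_bound_of_continuousOn
    hgc.continuousOn
  set M := |Mg| + |Mf| / α with hM
  have hM0 : 0 ≤ M := by positivity
  have hf' : ∀ w ∈ Metric.closedBall (0 : ℂ) (R + 2), |f w| ≤ α * M := fun w hw => by
    have h1 := hMf w hw
    have h2 : α * M = α * |Mg| + |Mf| := by rw [hM]; field_simp
    have h3 : 0 ≤ α * |Mg| := by positivity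
    rw [Real.norm_eq_abs] at h1
    linarith [le_abs_self Mf]
  have hg' : ∀ w ∈ Metric.closedBall (0 : ℂ) (R + 2), |g w| ≤ M := fun w hw => by
    have h1 := hMg w hw
    have h3 : 0 ≤ |Mf| / α := by positivity
    rw [Real.norm_eq_abs] at h1
    linarith [le_abs_self Mg]
  obtain ⟨-, -, hsub, -, hesc⟩ := hBnd K μ a N ρ FF hG
  have hb : ∀ᶠ n in atTop, ∀ x ∈ (N n).inside U,
      |u n x| ≤ M ∧ |(N n).G.lap (u n) x| ≤ 2 * α * M * ρ n x := by
    filter_upwards [hu, hG.nice 1 one_pos, hesc U hU.isOpen (hU.sub.trans interior_subset)]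
      with n h1 h2 h3
    exact PfL2.sup_bound h2 h3 (hG.rho_nonneg n) hα hR hf' hg' h1
  set L' := |L| + M + 2 * α * M with hL'
  have hαM : 0 ≤ 2 * α * M := by positivity
  have hgL : ∀ x y, |g x - g y| ≤ L' * ‖x - y‖ := fun x y =>
    (hg x y).trans (mul_le_mul_of_nonneg_right (by linarith [le_abs_self L]) (norm_nonneg _))
  have hS : Sol U N ρ g L' u :=
    ⟨hu.mono fun n h => h.1,
      hb.mono fun n h x hx => (h x hx).2.trans (mul_le_mul_of_nonneg_right
        (by linarith [abs_nonneg L]) (hG.rho_nonneg n x)),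
      hb.mono fun n h x hx => (h x hx).1.trans (by linarith [abs_nonneg L])⟩
  have hE := hC5 K μ a N ρ FF U g L' u hG hU.isOpen hU.sub hgL hS
  have hQ := hC6 K μ a N ρ FF U g L' u hG hU hgL hS hE
  obtain ⟨φ, v, hφ, hv, hvg, hun⟩ :=
    hL1 K U N g L' u hG.cpt hU.isOpen hU.sub hG.nice hgc hS.bdry hS.bdd hQ
  have hφt := hφ.tendsto_atTop
  refine ⟨φ, v, hφ, hv, hvg, ?_, hun⟩
  refine PfL2.weak (u := fun n => u (φ n)) (g := g) hH6 (hsub φ hφt) hU.isOpen hUK hα hf
    ⟨⟨L', hφt.eventually hS.src⟩, fun K' h1 h2 => ?_, hv, hun⟩ (hφt.eventually hu)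
  obtain ⟨E, hE'⟩ := hE K' h1 h2
  exact ⟨E, hφt.eventually hE'⟩

end Pool.Agent.Lib.MP_0d9445_pr.Walk
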