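import Pool.Agent.Lib.MP_0d9445_pr.Walk.Iface

noncomputable section

open MeasureTheory ProbabilityTheory Set Filter Topology
open scoped NNReal ENNReal Classical

namespace Pool.Agent.Lib.MP_0d9445_pr.Walk

open BM Cell

namespace PfLT

end PfLT

theorem LT_of (hB10 : B10) (hW1 : W1) (hT3 : T3) (hF5 : F5) (hP2 : P2) : LT := by
  intro W K μ a N ρ FF U m x z O A hW hA hKO hG hU hD hz
  have hUK : U ⊆ K := subset_closure.trans (hU.sub.trans interior_subset)
  have hcU : IsCompact (closure U) :=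
    hG.cpt.of_isClosed_subset isClosed_closure (hU.sub.trans interior_subset)
  obtain ⟨K', hK', h1, h2⟩ := exists_compact_between hcU isOpen_interior hU.sub
  have hall : LBMAll K μ := fun U' hU' hU'K y hy => by
    obtain ⟨p1, p2, p3⟩ := hB10 W μ O K U' y (A y) hW (hA y (hU'K hy)) hG.cpt hKO hG.frost hU' hU'K hy
    exact ⟨_, _, _, p1, p2, p3⟩
  obtain ⟨p1, p2, p3⟩ := hB10 W μ O K U z (A z) hW (hA z (hUK hz)) hG.cpt hKO hG.frost hU.isOpen hUK hz
  have hw := hW1 K μ a N ρ FF U m x z K' hG hU hD hz hK' h1 h2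
  have ht := hT3 K μ a N ρ FF U m x z K' hG hU hD hall hw
  have hf := hF5 (Px W z) K μ a N ρ FF U m x z K' _ _ hG hU hD hK' (h1.trans interior_subset) hw ht
    p2 p3
  refine hP2 (Px W z) K' _ _ x m _ hK' hw hD.m_top ht p2.measY ?_ hf
  filter_upwards [p2.path] with ω hω
  refine ⟨hω.1, fun t => (h1.trans interior_subset) ?_⟩
  rcases lt_or_ge t (exitClock ω (A z ω) U) with h | h
  · exact subset_closure (hω.2.2.2.1 t h)
  · exact frontier_subset_closure (hω.2.2.2.2 t h)

end Pool.Agent.Lib.MP_0d9445_pr.Walk
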