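import Pool.Agent.Lib.MP_0d9445_pr.Walk.PfCell
import Pool.Agent.Lib.MP_0d9445_pr.Cell.MicroNum

noncomputable section

open MeasureTheory ProbabilityTheory Set Filter Topology
open scoped NNReal ENNReal Classical

namespace Pool.Agent.Lib.MP_0d9445_pr.Walk

open BM Cell PfCell

namespace PfMicro

theorem exists_scale (k₁ : ℕ) {r : ℝ} (hr : 0 < r) (h : r ≤ 1 / 2 ^ k₁) :
    ∃ k, k₁ ≤ k ∧ r ≤ 1 / 2 ^ k ∧ 1 / 2 ^ k < 2 * r := by
  have h1 : r * 2 ^ k₁ ≤ 1 := by rwa [le_div_iff₀ (by positivity)] at h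
  obtain ⟨n, h2, h3⟩ := exists_nat_pow_near_of_lt_one (x := r * 2 ^ k₁) (y := 1 / 2)
    (by positivity) h1 (by norm_num) (by norm_num)
  rw [one_div_pow, div_lt_iff₀ (by positivity), pow_succ] at h2
  rw [one_div_pow, le_div_iff₀ (by positivity)] at h3
  refine ⟨k₁ + n, Nat.le_add_right _ _, ?_, ?_⟩
  · rw [le_div_iff₀ (by positivity), pow_add]
    linarith
  · rw [div_lt_iff₀ (by positivity), pow_add]
    linarith

end PfMicro

theorem Micro_of (hGeo : Geo) : Micro := by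
  intro K N f A α β j₀ J η hβ hβα hn hη hf hJ ε hε
  have hq : (1 : ℝ) < 2 ^ β := Real.one_lt_rpow one_lt_two hβ
  have hqt : (2 : ℝ) ^ β * 2 ^ (-α) < 1 := by
    rw [← Real.rpow_add two_pos]
    exact Real.rpow_lt_one_of_one_lt_of_neg one_lt_two (by linarith)
  have eq : ∀ j : ℕ, (2 : ℝ) ^ (β * j) = (2 ^ β) ^ j := fun j =>
    Real.rpow_mul_natCast zero_le_two β j
  have et : ∀ j : ℕ, (2 : ℝ) ^ (-(α * j)) = (2 ^ (-α)) ^ j := fun j => by
    rw [← neg_mul]
    exact Real.rpow_mul_natCast zero_le_two (-α) j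
  obtain ⟨θ, hθ, hk⟩ := pot_small.{0} (le_max_right A 0) hq (by positivity) hqt hε
  obtain ⟨k₀, hk⟩ := eventually_atTop.1 hk
  refine ⟨1 / 2 ^ max k₀ j₀, by positivity, fun r hr hrδ => ?_⟩
  obtain ⟨k, hk1, hk2, hk3⟩ := PfMicro.exists_scale _ hr hrδ
  have hk0 := (le_max_left _ _).trans hk1
  have hj0 := (le_max_right _ _).trans hk1
  have e2 : ∀ j : ℕ, (2 / 2 ^ j : ℝ) = 2 * (1 / 2 ^ j) := fun j => by ring
  have hle : ∀ j, k ≤ j → (2 / 2 ^ j : ℝ) ≤ 2 / 2 ^ k := fun j hj => by gcongr; norm_num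
  filter_upwards [hn 1 one_pos, hη.eventually (gt_mem_nhds hθ), hf, hJ.eventually_ge_atTop k]
    with n hn hη ⟨hη0, hf0, hf1, hf2⟩ hJ c u hK hu x
  have hK' : ∀ y ∈ sqO c r, ∀ j, k ≤ j → sqC y (2 / 2 ^ j) ⊆ K := fun y hy j hj w hw => hK (by
    have k1 : sn c y < r := hy
    have k2 : sn y w ≤ 2 / 2 ^ j := hw
    have k3 := sn_triangle c y w
    have k4 := hle j hj
    have k5 := e2 k
    exact show sn c w ≤ 8 * r by linarith)
  have hKr : sqC c r ⊆ K := (sqC_mono c (by linarith)).trans hK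
  have hin : ∀ y ∈ (N n).inside (sqO c r), y ∈ sqO c r := fun y hy =>
    ((N n).mem_pts.1 (inside_subset_pts hn _ hy)).2
  have hpts : ∀ y ∈ (N n).inside (sqO c r), y ∈ (N n).pts K := fun y hy =>
    pts_mono ((sqO_subset c r).trans hKr) (inside_subset_pts hn _ hy)
  rw [hu.eq_solve (k := 0) (hn.cw.esc_sqO hr.le hKr) fun _ _ => le_rfl]
  refine hk k hk0 (pos := id) (d := fun x => Metric.diam ((N n).H x)) (J := J n) (η := η n) hn.cw
    (fun y hy => hK' y hy k le_rfl) (fun y hy w hw => ?_) (fun _ _ => Metric.diam_nonneg)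
    (dist_le_diam hn) hn.mem (fun y _ => hf0 y) hJ hη0 (by rw [← eq]; exact hη.le)
    (fun y hy hfy j h1 h2 => ?_) (fun y hy hfy => (hf1 y (hpts y hy) hfy).2)
    (fun y hy j h1 h2 => ?_) x
  · have k1 : sn c y < r := hy
    have k2 : sn c w < r := hw
    have k3 := sn_triangle y c w
    have k5 := e2 k
    rw [sn_comm y c] at k3
    exact show sn y w < _ by linarith
  · have := (hf1 y (hpts y hy) hfy).1 j (hj0.trans h1) h2 (hK' y (hin y hy) j h1)
    rw [eq] at this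
    simp only [kap, id, ← e2, div_div_eq_mul_div, div_one]
    exact this.trans (mul_le_mul_of_nonneg_right (le_max_left _ _) (by positivity))
  · have := hf2 y j (hj0.trans h1) h2 (hK' y (hin y hy) j h1)
    rw [et] at this
    refine (Finset.sum_le_sum_of_subset_of_nonneg (fun z hz => ?_) fun z _ _ => hf0 z).trans
      (this.trans (add_le_add_left
        (mul_le_mul_of_nonneg_right (le_max_left _ _) (by positivity)) _))
    obtain ⟨k1, k2⟩ := Finset.mem_filter.1 hz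
    exact (N n).mem_pts.2 ⟨ins_subset _ k1, k2.le⟩

end Pool.Agent.Lib.MP_0d9445_pr.Walk
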