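import Pool.Agent.Lib.MP_0d9445_pr.Walk.PfCell

noncomputable section

open MeasureTheory ProbabilityTheory Set Filter Topology
open scoped NNReal ENNReal Classical

namespace Pool.Agent.Lib.MP_0d9445_pr.Walk

open BM Cell PfCell

namespace PfNuLow

theorem lin_one : lin 1 = Complex.re := by
  funext w
  simp [lin]

/-- Clamp to `[lo, hi]`. -/
def clamp (lo hi t : ℝ) : ℝ := max lo (min hi t)

theorem clamp_lip (lo hi s t : ℝ) : |clamp lo hi s - clamp lo hi t| ≤ 1 * |s - t| := by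
  rw [one_mul]
  refine (abs_max_sub_max_le_max _ _ _ _).trans (max_le (by simp) ?_)
  exact (abs_min_sub_min_le_max _ _ _ _).trans (max_le (by simp) le_rfl)

theorem clamp_lo {lo hi t : ℝ} (h : t ≤ lo) : clamp lo hi t = lo :=
  max_eq_left ((min_le_right _ _).trans h)

theorem clamp_hi {lo hi t : ℝ} (h0 : lo ≤ hi) (h : hi ≤ t) : clamp lo hi t = hi := by
  rw [clamp, min_eq_left h, max_eq_right h0]

end PfNuLow

open PfNuLow in
theorem NuLow_of (hGeo : Geo) (hCS : CS) : NuLow := by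
  intro N K ε a l hn hl hε hK
  refine ⟨?_, ?_⟩
  swap
  · rw [FC.nu, lin_one]
    exact (N.G.nu_le_en _ _).trans (le_add_of_nonneg_right (N.G.en_nonneg _ _))
  have cre : (ctr a l).re = a.re + l / 2 := by simp [ctr]
  have cim : (ctr a l).im = a.im + l / 2 := by simp [ctr]
  set S := N.pts (box a l) with hS
  set u : ℂ → ℝ := fun x => clamp (a.re + l / 10) (a.re + 9 * l / 10) (N.G.hx S (lin 1) x) with hu
  have hE : N.G.en S u u ≤ N.nu (box a l) 1 :=
    (N.G.en_comp_le S (N.G.hx S (lin 1)) _ 1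
      (clamp_lip (a.re + l / 10) (a.re + 9 * l / 10))).trans_eq (by rw [one_pow, one_mul]; rfl)
  have hout : ∀ x, x ∉ N.G.inner S → u x = clamp (a.re + l / 10) (a.re + 9 * l / 10) x.re :=
    fun x hx => by simp only [hu, N.G.hx_out _ _ hx, lin_one]
  set L : ℝ → Set ℂ := fun t => {w | w.im = t ∧ w.re ∈ Icc (a.re - l / 2) (a.re + 3 * l / 2)}
    with hL
  obtain ⟨t, ht, -, hle⟩ := exists_contour (H := N.H) (s := S) N.G (κ := Unit)
    (f := fun _ w => w.im) (fun _ x y => (le_abs_self _).trans (sn_le_iff.1 (sn_le_dist y x)).2)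
    (L := L) (fun _ _ hw => ⟨(), hw.1⟩) (a := a.im + l / 4) (b := a.im + 3 * l / 4) (by linarith)
    (t := S) (fun _ _ => mt_subset _) (d := fun x => Metric.diam (N.H x))
    (fun _ _ => Metric.diam_nonneg) (fun x hx => dist_le_diam hn x (N.mem_pts.1 hx).1) u
    measure_empty
  have hLK : L t ⊆ K := fun w hw => hK (sn_le_iff.2 ⟨by
    rw [cre]
    exact abs_le.2 ⟨by linarith [hw.2.1], by linarith [hw.2.2]⟩, by
    rw [cim, hw.1]
    exact abs_le.2 ⟨by linarith [ht.1], by linarith [ht.2]⟩⟩)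
  have hw1 : (⟨a.re - l / 2, t⟩ : ℂ) ∈ L t := ⟨rfl, le_rfl, by simp only; linarith⟩
  have hw2 : (⟨a.re + 3 * l / 2, t⟩ : ℂ) ∈ L t := ⟨rfl, by simp only; linarith, le_rfl⟩
  obtain ⟨x₁, hx₁, h₁⟩ := hn.cover _ (hLK hw1)
  obtain ⟨x₂, hx₂, h₂⟩ := hn.cover _ (hLK hw2)
  have r₁ := abs_le.1 (sn_le_iff.1 (sn_le_of_mem hn hx₁ h₁)).1
  have r₂ := abs_le.1 (sn_le_iff.1 (sn_le_of_mem hn hx₂ h₂)).1
  simp only at r₁ r₂
  have hosc := hn.cw.osc (convex_hor _ _ _).isPreconnected hLK u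
    (mem_mt.2 ⟨hx₂, _, h₂, hw2⟩) (mem_mt.2 ⟨hx₁, _, h₁, hw1⟩)
  rw [hout x₁ fun hh => by linarith [(N.mem_pts.1 (N.G.inner_subset _ hh)).2.1],
    hout x₂ fun hh => by linarith [(N.mem_pts.1 (N.G.inner_subset _ hh)).2.2.1],
    clamp_lo (t := x₁.re) (by linarith), clamp_hi (t := x₂.re) (by linarith) (by linarith)] at hosc
  have hsum : ∑ x ∈ mt N.H S (L t), N.G.gr u x = ∑ x ∈ mt N.H N.V (L t), N.G.gr u x := by
    refine Finset.sum_subset (fun x hx => mem_mt.2
      ⟨(N.mem_pts.1 (mem_mt.1 hx).1).1, (mem_mt.1 hx).2⟩) fun x hx hx' => ?_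
    obtain ⟨hxV, w, hw, hwL⟩ := mem_mt.1 hx
    have hxS : x ∉ S := fun hh => hx' (mem_mt.2 ⟨hh, w, hw, hwL⟩)
    have k1 := abs_le.1 (sn_le_iff.1 (sn_le_of_mem hn hxV hw)).2
    rw [hwL.1] at k1
    have k0 : 0 ≤ ε := by linarith
    have k2 : x.re < a.re ∨ a.re + l ≤ x.re := by
      by_contra hh
      rw [not_or, not_lt, not_le] at hh
      exact hxS (N.mem_pts.2 ⟨hxV, hh.1, hh.2, by linarith [ht.1], by linarith [ht.2]⟩)
    rw [Net.gr, Finset.sum_eq_zero fun y hy => ?_, Real.sqrt_zero]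
    have k3 := abs_le.1 ((Complex.abs_re_le_norm _).trans (hn.nbr_le hy))
    rw [Complex.sub_re] at k3
    rw [hout x fun hh => hxS (N.G.inner_subset _ hh),
      hout y fun hh => hxS ((N.G.mem_inner.1 hh).2 (N.G.symm _ _ hy))]
    rcases k2 with k2 | k2
    · rw [clamp_lo (by linarith), clamp_lo (by linarith), sub_self, zero_pow two_ne_zero]
    · rw [clamp_hi (by linarith) (by linarith), clamp_hi (by linarith) (by linarith), sub_self,
        zero_pow two_ne_zero]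
  have hY : ∑ x ∈ S, min (Metric.diam (N.H x)) (a.im + 3 * l / 4 - (a.im + l / 4)) ^ 2 ≤
      N.Y (box a l) := Finset.sum_le_sum fun x _ =>
    pow_le_pow_left₀ (le_min Metric.diam_nonneg (by linarith)) (min_le_left _ _) 2
  have hn0 : 0 ≤ N.nu (box a l) 1 := N.G.nu_nonneg _ _
  have hY0 : 0 ≤ N.Y (box a l) := Finset.sum_nonneg fun _ _ => sq_nonneg _
  have hB : √(2 * N.G.en S u u) *
      √(∑ x ∈ S, min (Metric.diam (N.H x)) (a.im + 3 * l / 4 - (a.im + l / 4)) ^ 2) ≤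
      √(2 * N.nu (box a l) 1 * N.Y (box a l)) := by
    rw [Real.sqrt_mul (x := 2 * N.nu (box a l) 1) (by positivity)]
    gcongr
  rw [hsum, Fintype.card_unit, Nat.cast_one, one_mul, le_div_iff₀ (by linarith)] at hle
  have h3 : 2 / 5 * l ^ 2 ≤ √(2 * N.nu (box a l) 1 * N.Y (box a l)) := by
    refine le_trans ?_ (hle.trans hB)
    refine le_trans (le_of_eq (by ring)) (mul_le_mul_of_nonneg_right hosc (by linarith))
  have h4 := (Real.le_sqrt (by positivity) (by positivity)).1 h3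
  nlinarith [pow_pos hl 4]

end Pool.Agent.Lib.MP_0d9445_pr.Walk
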