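import Pool.Agent.Lib.MP_0d9445_pr.Walk.Iface
import Pool.Agent.Lib.MP_0d9445_pr.Lim.Weak

noncomputable section

open MeasureTheory ProbabilityTheory Set Filter Topology
open scoped NNReal ENNReal Classical

namespace Pool.Agent.Lib.MP_0d9445_pr.Walk

open BM Cell

namespace PfP1

lemma isAvg (hW : WalkBasics) {St : ℂ → Set ℂ} {R : Set ℂ} {x : ℂ} (L : ℕ) (hc : Closed St R)
    (hx : x ∈ R) : Lim.IsAvg (walkExp St L x) :=
  ⟨fun F G => hW.add St R L x F G hc hx, fun c F => hW.smul St R L x c F hc hx,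
    fun F G h => hW.mono St R L x F G hc hx fun w _ => h w, hW.const St R L x 1 hc hx⟩

lemma exists_clamp {X : Type} [TopologicalSpace X] {K : Set X} (hK : IsCompact K) {f : X → ℝ}
    (hf : Continuous f) :
    ∃ (g : X → ℝ) (B : ℝ), Continuous g ∧ (∀ x, |g x| ≤ B) ∧ ∀ x ∈ K, g x = f x := by
  obtain ⟨B, hB⟩ := hK.exists_bound_of_continuousOn hf.continuousOn
  refine ⟨fun x => max (-|B|) (min |B| (f x)), |B|, by fun_prop, fun x => ?_, fun x hx => ?_⟩
  · exact abs_le.2 ⟨le_max_left _ _, max_le (neg_le_self (abs_nonneg _)) (min_le_left _ _)⟩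
  · have h := abs_le.1 ((hB x hx).trans (le_abs_self B))
    show max (-|B|) (min |B| (f x)) = f x
    rw [min_eq_right h.2, max_eq_right h.1]

end PfP1

theorem P1_of (hWalkBasics : WalkBasics) : P1 := by
  intro Ω _ P _ K' St R x m Y hK hW hY hYK hF k τ Ψ j L hΨ hj hjL hτ
  obtain ⟨g, B, hg1, hg2, hg3⟩ := PfP1.exists_clamp (K := Set.pi univ fun _ : Fin k => K')
    (isCompact_univ_pi fun _ => hK) hΨ
  have key := Lim.fdd_cont P (X := Fin k → ℂ)
    (En := fun n F => walkExp (St n) (L n) (x n) fun w => F fun i => w (j n i))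
    (hW.ok.mono fun n hn => (PfP1.isAvg hWalkBasics (L n) hn.2.2 hn.1).comp _) id
    (Z := fun ω i => Y (τ i) ω) (aemeasurable_pi_lambda _ fun i => hY _)
    (fun f hf => hF k τ f j L (fun i => (hf i).1.choose_spec.continuous) hj hjL hτ) hg1 hg2
  have e : ∫ ω, g (fun i => Y (τ i) ω) ∂P = ∫ ω, Ψ (fun i => Y (τ i) ω) ∂P :=
    integral_congr_ae (hYK.mono fun ω h => hg3 _ fun i _ => h _)
  rw [e] at key
  refine key.congr' ?_
  filter_upwards [hW.ok] with n hn
  have h1 : ∀ w, IsTraj (St n) (L n) (x n) w →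
      g (fun i => w (j n i)) = Ψ fun i => w (j n i) := fun w hw =>
    hg3 _ fun i _ => hn.2.1 (hWalkBasics.traj_mem _ _ _ _ w hn.2.2 hn.1 hw _)
  exact le_antisymm (hWalkBasics.mono _ _ _ _ _ _ hn.2.2 hn.1 fun w hw => (h1 w hw).le)
    (hWalkBasics.mono _ _ _ _ _ _ hn.2.2 hn.1 fun w hw => (h1 w hw).ge)

end Pool.Agent.Lib.MP_0d9445_pr.Walk
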