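import Pool.Agent.Lib.MP_0d9445_pr.Walk.Iface
import Pool.Agent.Lib.MP_0d9445_pr.Lim.Disc

noncomputable section

open MeasureTheory ProbabilityTheory Set Filter Topology
open scoped NNReal ENNReal Classical

namespace Pool.Agent.Lib.MP_0d9445_pr.Walk

open BM Cell

namespace PfP2

lemma isAvg (hW : WalkBasics) {St : ℂ → Set ℂ} {R : Set ℂ} {x : ℂ} (L : ℕ) (hc : Closed St R)
    (hx : x ∈ R) : Lim.IsAvg (walkExp St L x) :=
  ⟨fun F G => hW.add St R L x F G hc hx, fun c F => hW.smul St R L x c F hc hx,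
    fun F G h => hW.mono St R L x F G hc hx fun w _ => h w, hW.const St R L x 1 hc hx⟩

lemma toC_apply {T : ℝ} {y : ℝ → ℂ} (h : Continuous fun t : Icc (0 : ℝ) T => y t)
    (t : Icc (0 : ℝ) T) : toC T y t = y t := by
  simp only [toC, dif_pos h, ContinuousMap.coe_mk]

end PfP2

theorem P2_of (hWalkBasics : WalkBasics) (hIp : Ip) (hP1 : P1) : P2 := by
  intro Ω _ P _ K' St R x m Y hK hW hm hT hY hYc hF T hT0 F L c hL hc
  let _ : MeasurableSpace C(Icc (0 : ℝ) T, ℂ) := borel _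
  have : BorelSpace C(Icc (0 : ℝ) T, ℂ) := ⟨rfl⟩
  have : Nonempty (Icc (0 : ℝ) T) := ⟨⟨0, le_rfl, hT0.le⟩⟩
  have hY' : ∀ᵐ ω ∂P, ∀ t : Icc (0 : ℝ) T, toC T (fun t => Y t ω) t = Y t ω :=
    hYc.mono fun ω h t => PfP2.toC_apply (h.1.comp continuous_subtype_val) t
  have hm' : AEMeasurable (fun ω => toC T fun t => Y t ω) P :=
    Lim.aemeasurable_path fun t => (hY t).congr (hY'.mono fun ω h => (h t).symm)
  refine ⟨(hL.continuous.measurable.comp_aemeasurable hm').aestronglyMeasurable, ?_⟩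
  have hA : ∀ᶠ n in atTop, Lim.IsAvg (walkExp (St n) (⌈m n * T⌉₊ + 1) (x n)) :=
    hW.ok.mono fun n hn => PfP2.isAvg hWalkBasics _ hn.2.2 hn.1
  refine Lim.weak_of_discrete P hA hm (fun n w => toC T (interp (m n) w)) ?_ hm' ?_ ?_
    hL.continuous hc
  · filter_upwards [hm.eventually (eventually_gt_atTop 0)] with n hn w t
    obtain ⟨h1, -, h2⟩ := hIp (m n) w hn
    rw [PfP2.toC_apply (h1.comp (f := fun t : Icc (0 : ℝ) T => (⟨t, t.2.1⟩ : Ici (0 : ℝ)))
      (by fun_prop)), dist_eq_norm, dist_eq_norm, mul_comm]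
    exact h2 t t.2.1
  · intro k t ht f hf
    have e : ∫ ω, ∏ i, f i (toC T (fun t => Y t ω) (t i)) ∂P = ∫ ω, ∏ i, f i (Y (t i) ω) ∂P :=
      integral_congr_ae (hY'.mono fun ω h => Finset.prod_congr rfl fun i _ => by rw [h])
    rw [e]
    have h0 : ∀ n i, m n < 0 → ⌊(t i : ℝ) * m n⌋₊ = 0 := fun n i h =>
      Nat.floor_of_nonpos (mul_nonpos_of_nonneg_of_nonpos (t i).2.1 h.le)
    refine hF k (fun i => t i) f (fun n i => ⌊(t i : ℝ) * m n⌋₊) _
      (fun i => (hf i).1.choose_spec.continuous) (fun n i i' hi => ?_) (fun n i => ?_)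
      fun i => (tendsto_nat_floor_mul_div_atTop (t i).2.1).comp hm
    · rcases lt_or_ge (m n) 0 with h | h
      · simp only [h0 n _ h, le_refl]
      · exact Nat.floor_mono (mul_le_mul_of_nonneg_right (ht.monotone hi) h)
    · rcases lt_or_ge (m n) 0 with h | h
      · simp only [h0 n _ h, Nat.zero_le]
      · refine le_trans ?_ (Nat.le_succ _)
        rw [mul_comm (m n)]
        exact (Nat.floor_mono (mul_le_mul_of_nonneg_right (t i).2.2 h)).trans
          (Nat.floor_le_ceil _)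
  · intro η hη ε hε
    obtain ⟨δ, hδ, h⟩ := hT (T + 1) (min η ε) (lt_min hη hε)
    refine ⟨δ, hδ, ?_⟩
    filter_upwards [h, hA, hW.ok, hm.eventually (eventually_ge_atTop 2)] with n h1 h2 h3 h4
    have h5 : 0 ≤ m n * T := by positivity
    have h6 := Nat.ceil_lt_add_one h5
    have h7 := Nat.le_ceil (m n * T)
    refine le_trans (h2.mono _ _ fun w => ?_) ((h1 _ h3.1 _ ?_).trans (min_le_right _ _))
    · by_cases hw : w ∈ Lim.DBad ℂ (T * m n + 1) (δ * m n) η
      · rw [indicator_of_mem hw, if_pos]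
        obtain ⟨i, j, a1, a2, a3, a4⟩ := hw
        have b : ∀ l : ℕ, (l : ℝ) ≤ T * m n + 1 → l ≤ ⌈m n * T⌉₊ + 1 := fun l hl => by
          have : (l : ℝ) ≤ ((⌈m n * T⌉₊ + 1 : ℕ) : ℝ) := by
            push_cast
            linarith
          exact_mod_cast this
        rw [abs_le] at a3
        rcases le_total i j with h8 | h8
        · exact ⟨i, j, h8, b j a2, by linarith [a3.1],
            (min_le_left _ _).trans_lt (by rwa [← dist_eq_norm])⟩
        · exact ⟨j, i, h8, b i a1, a3.2,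
            (min_le_left _ _).trans_lt (by rwa [← dist_eq_norm, dist_comm])⟩
      · rw [indicator_of_notMem hw]
        split_ifs <;> norm_num
    · push_cast
      linarith

end Pool.Agent.Lib.MP_0d9445_pr.Walk
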