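import Pool.Agent.Lib.MP_0d9445_pr.Walk.Iface
import Pool.Agent.Lib.MP_0d9445_pr.Lim.Weak

noncomputable section

open MeasureTheory ProbabilityTheory Set Filter Topology
open scoped NNReal ENNReal Classical

namespace Pool.Agent.Lib.MP_0d9445_pr.Walk

open BM Cell

namespace PfP3

open Lim.WeakAux

lemma isAvg (hW : WalkBasics) {St : ℂ → Set ℂ} {R : Set ℂ} {x : ℂ} (L : ℕ) (hc : Closed St R)
    (hx : x ∈ R) : Lim.IsAvg (walkExp St L x) :=
  ⟨fun F G => hW.add St R L x F G hc hx, fun c F => hW.smul St R L x c F hc hx,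
    fun F G h => hW.mono St R L x F G hc hx fun w _ => h w, hW.const St R L x 1 hc hx⟩

lemma ic_lip {X : Type} [PseudoMetricSpace X] [Nonempty X] {F : X → ℝ} {B : ℝ}
    (hB : ∀ w, |F w| ≤ B) (L : ℕ) : LipschitzWith (Real.toNNReal L) (ic univ id F L) := by
  refine LipschitzWith.of_le_add_mul' (L : ℝ) fun x y => ?_
  have : ic univ id F L x - L * dist x y ≤ ic univ id F L y := le_ic univ_nonempty fun w hw => by
    have h1 := ic_le (φ := id) (Nat.cast_nonneg L) hB x hw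
    have h2 := mul_le_mul_of_nonneg_left (dist_triangle x y (id w)) (Nat.cast_nonneg (α := ℝ) L)
    linarith
  linarith

lemma lower {X Ω : Type} [PseudoMetricSpace X] [Nonempty X] [MeasurableSpace Ω] (P : Measure Ω)
    [IsProbabilityMeasure P] {En : ℕ → (X → ℝ) → ℝ} (hE : ∀ᶠ n in atTop, Lim.IsAvg (En n)) {Y : Ω → X}
    (h : ∀ (F : X → ℝ) (L : ℝ≥0) (c : ℝ), LipschitzWith L F → (∀ y, |F y| ≤ c) →
      AEStronglyMeasurable (fun ω => F (Y ω)) P ∧
        Tendsto (fun n => En n F) atTop (𝓝 (∫ ω, F (Y ω) ∂P)))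
    {F : X → ℝ} (hF : Continuous F) {B : ℝ} (hB : ∀ w, |F w| ≤ B) :
    AEStronglyMeasurable (fun ω => F (Y ω)) P ∧
      ∀ ε > 0, ∀ᶠ n in atTop, ∫ ω, F (Y ω) ∂P - ε < En n F := by
  have hle : ∀ (L : ℕ) w, ic univ id F L w ≤ F w := fun L w => by
    simpa using ic_le (S := univ) (φ := id) (Nat.cast_nonneg L) hB w (mem_univ w)
  have habs : ∀ (L : ℕ) w, |ic univ id F L w| ≤ B := fun L w =>
    abs_le.2 ⟨ic_lower univ_nonempty (Nat.cast_nonneg L) hB w,
      (hle L w).trans (abs_le.1 (hB w)).2⟩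
  have h1 := fun L : ℕ => h _ _ B (ic_lip hB L) (habs L)
  refine ⟨aestronglyMeasurable_of_tendsto_ae atTop (fun L => (h1 L).1)
    (Eventually.of_forall fun ω => ic_tendsto hF hB _), fun ε hε => ?_⟩
  have l1 := tendsto_integral_of_dominated_convergence (μ := P)
    (F := fun (L : ℕ) ω => ic univ id F L (Y ω)) (f := fun ω => F (Y ω)) (fun _ => B)
    (fun L => (h1 L).1) (integrable_const _)
    (fun L => Eventually.of_forall fun ω => habs L _)
    (Eventually.of_forall fun ω => ic_tendsto hF hB _)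
  obtain ⟨L, hL⟩ := (Metric.tendsto_nhds.1 l1 (ε / 2) (by positivity)).exists
  filter_upwards [hE, Metric.tendsto_nhds.1 (h1 L).2 (ε / 2) (by positivity)] with n hn h2
  have h3 := hn.mono _ _ (hle L)
  rw [Real.dist_eq, abs_lt] at hL h2
  linarith [hL.1, h2.1]

end PfP3

theorem P3_of (hWalkBasics : WalkBasics) : P3 := by
  intro Ω _ P _ St R x m Y hR hL
  let En : ∀ T : ℝ, ℕ → (C(Icc (0 : ℝ) T, ℂ) → ℝ) → ℝ := fun T n F =>
    walkExp (St n) (⌈m n * T⌉₊ + 1) (x n) fun w => F (toC T (interp (m n) w))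
  have hA : ∀ T : ℝ, ∀ᶠ n in atTop, Lim.IsAvg (En T n) := fun T =>
    hR.mono fun n hn => (PfP3.isAvg hWalkBasics _ hn.2 hn.1).comp _
  refine ⟨fun T hT F => ?_, fun T hT F =>
    (PfP3.lower P (hA T) (hL T hT) F.continuous (B := ‖F‖) F.norm_coe_le_norm).1⟩
  rw [Metric.tendsto_nhds]
  intro ε hε
  filter_upwards [hA T, (PfP3.lower P (hA T) (hL T hT) F.continuous (B := ‖F‖)
    F.norm_coe_le_norm).2 ε hε, (PfP3.lower P (hA T) (hL T hT) (F := fun w => -F w)
    F.continuous.neg (B := ‖F‖) fun w => by simpa using F.norm_coe_le_norm w).2 ε hε]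
    with n hn h1 h2
  rw [hn.neg, integral_neg] at h2
  show dist (En T n F) _ < ε
  rw [Real.dist_eq, abs_lt]
  constructor <;> linarith

end Pool.Agent.Lib.MP_0d9445_pr.Walk
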