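import Pool.Agent.Lib.MP_0d9445_pr.Walk.Iface

noncomputable section

open MeasureTheory ProbabilityTheory Set Filter Topology
open scoped NNReal ENNReal Classical

namespace Pool.Agent.Lib.MP_0d9445_pr.Walk

open BM Cell

namespace PfPart

end PfPart

theorem Part_of : Part := by
  intro ι O v hO hv
  obtain ⟨f, hf⟩ := SmoothPartitionOfUnity.exists_isSubordinate (modelWithCornersSelf ℝ ℂ)
    (isClosed_tsupport v) O hO hv.supp
  have hfin : {i | (Function.support (f i) ∩ tsupport v).Nonempty}.Finite :=
    f.locallyFinite.finite_nonempty_inter_compact hv.cpt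
  refine ⟨hfin.toFinset, fun i w => f i w * v w, fun i _ => ⟨⟨?_, ?_, ?_⟩, ?_, ?_⟩, fun w => ?_⟩
  · exact ((f i).contMDiff.contDiff).mul hv.smooth
  · exact hv.cpt.mul_left
  · exact (tsupport_mul_subset_left (f := fun w => f i w) (g := v)).trans (hf i)
  · exact tsupport_mul_subset_right (f := fun w => f i w) (g := v)
  · intro w
    rw [abs_mul, abs_of_nonneg (f.nonneg i w)]
    exact mul_le_of_le_one_left (abs_nonneg _) (f.le_one i w)
  · by_cases hw : w ∈ tsupport v
    · rw [← Finset.sum_mul]
      have h1 : ∑ᶠ i, f i w = 1 := f.sum_eq_one hw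
      rw [finsum_eq_sum_of_support_subset (s := hfin.toFinset)] at h1
      · rw [h1, one_mul]
      · intro i hi
        simp only [Set.Finite.coe_toFinset, Set.mem_ofPred_eq]
        exact ⟨w, hi, hw⟩
    · have h0 : v w = 0 := image_eq_zero_of_notMem_tsupport hw
      simp [h0]

end Pool.Agent.Lib.MP_0d9445_pr.Walk
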