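import Pool.Agent.Lib.MP_0d9445_pr.Walk.Iface

noncomputable section

open MeasureTheory ProbabilityTheory Set Filter Topology
open scoped NNReal ENNReal Classical

namespace Pool.Agent.Lib.MP_0d9445_pr.Walk

open BM Cell

namespace PfPlane

/-- The exhaustion of the complement of `Z`. -/
def Us (z : ℂ) (Z : Set ℂ) (d : ℝ) (k : ℕ) : Set ℂ :=
  sqO z (k + 1) \ ⋃ p ∈ Z, sqC p (d / (k + 2))

theorem mem_Us {z w : ℂ} {Z : Set ℂ} {d : ℝ} {k : ℕ} :
    w ∈ Us z Z d k ↔ sn z w < k + 1 ∧ ∀ p ∈ Z, d / (k + 2) < sn p w := by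
  simp only [Us, sqO, sqC, Set.mem_sdiff, mem_ofPred_eq, mem_iUnion, not_exists, not_le]

theorem sn_pos {p w : ℂ} (h : w ≠ p) : 0 < sn p w := by
  have h1 := dist_le_sn p w
  have h2 : 0 < dist w p := dist_pos.2 h
  linarith

theorem exists_gap {z : ℂ} {Z : Set ℂ} (hZ : Z.Finite) (hz : z ∉ Z) :
    ∃ d > 0, ∀ p ∈ Z, d < sn p z := by
  have h1 : ∀ᶠ d in 𝓝[>] (0 : ℝ), ∀ p ∈ Z, d < sn p z :=
    (eventually_all_finite hZ).2 fun p hp =>
      (eventually_lt_nhds (sn_pos (p := p) (w := z) fun h => hz (h ▸ hp))).filter_mono nhdsWithin_le_nhds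
  obtain ⟨d, hd, hd'⟩ := (h1.and self_mem_nhdsWithin).exists
  exact ⟨d, hd', hd⟩

theorem isOpen_Us (z : ℂ) {Z : Set ℂ} (hZ : Z.Finite) (d : ℝ) (k : ℕ) : IsOpen (Us z Z d k) :=
  (isOpen_lt (continuous_sn z) continuous_const).sdiff
    (hZ.isClosed_biUnion fun p _ => isClosed_le (continuous_sn p) continuous_const)

theorem mem_of_closure {z w : ℂ} {Z : Set ℂ} {d : ℝ} {k : ℕ} (hw : w ∈ closure (Us z Z d k)) :
    sn z w ≤ k + 1 ∧ ∀ p ∈ Z, d / (k + 2) ≤ sn p w := by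
  refine ⟨?_, fun p hp => ?_⟩
  · exact closure_minimal (t := {w | sn z w ≤ k + 1}) (fun y hy => (mem_Us.1 hy).1.le)
      (isClosed_le (continuous_sn z) continuous_const) hw
  · exact closure_minimal (t := {w | d / (k + 2) ≤ sn p w}) (fun y hy => ((mem_Us.1 hy).2 p hp).le)
      (isClosed_le continuous_const (continuous_sn p)) hw

theorem closure_subset_succ (z : ℂ) (Z : Set ℂ) {d : ℝ} (hd : 0 < d) (k : ℕ) :
    closure (Us z Z d k) ⊆ Us z Z d (k + 1) := by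
  intro w hw
  obtain ⟨h1, h2⟩ := mem_of_closure hw
  have hk : (0 : ℝ) ≤ k := Nat.cast_nonneg k
  refine mem_Us.2 ⟨by push_cast; linarith, fun p hp => lt_of_lt_of_le ?_ (h2 p hp)⟩
  exact div_lt_div_of_pos_left hd (by linarith) (by push_cast; linarith)

theorem closure_subset_compl (z : ℂ) (Z : Set ℂ) {d : ℝ} (hd : 0 < d) (k : ℕ) :
    closure (Us z Z d k) ⊆ Zᶜ := by
  intro w hw hwZ
  have h1 := (mem_of_closure hw).2 w hwZ
  rw [sn_self] at h1
  have hk : (0 : ℝ) ≤ k := Nat.cast_nonneg k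
  have h2 : 0 < d / ((k : ℝ) + 2) := div_pos hd (by linarith)
  linarith

theorem mono_Us (z : ℂ) (Z : Set ℂ) {d : ℝ} (hd : 0 < d) : Monotone (Us z Z d) :=
  monotone_nat_of_le_succ fun k => subset_closure.trans (closure_subset_succ z Z hd k)

theorem exists_mem_Us (z : ℂ) {Z : Set ℂ} (hZ : Z.Finite) (d : ℝ) {w : ℂ} (hw : w ∉ Z) :
    ∃ k, w ∈ Us z Z d k := by
  have h0 : Tendsto (fun k : ℕ => (k : ℝ)) atTop atTop := tendsto_natCast_atTop_atTop
  have h1 : ∀ᶠ k : ℕ in atTop, sn z w < (k : ℝ) + 1 :=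
    (h0.eventually_gt_atTop (sn z w)).mono fun k hk => by linarith
  have h2 : Tendsto (fun k : ℕ => d / ((k : ℝ) + 2)) atTop (𝓝 0) :=
    tendsto_const_nhds.div_atTop (tendsto_atTop_add_const_right _ 2 h0)
  have h3 : ∀ᶠ k : ℕ in atTop, ∀ p ∈ Z, d / ((k : ℝ) + 2) < sn p w :=
    (eventually_all_finite hZ).2 fun p hp =>
      h2.eventually_lt_const (sn_pos fun h => hw (h ▸ hp))
  obtain ⟨k, hk⟩ := (h1.and h3).exists
  exact ⟨k, mem_Us.2 hk⟩

theorem exists_stay (z : ℂ) {Z : Set ℂ} (hZ : Z.Finite) {d : ℝ} (hd : 0 < d) (ω : Path)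
    (hω : ∀ t, ω t ∉ Z) (s : ℝ≥0) : ∃ k, ∀ r ≤ s, ω r ∈ Us z Z d k := by
  have hK : IsCompact (ω '' Icc 0 s) := isCompact_Icc.image ω.continuous
  obtain ⟨k, hk⟩ := hK.elim_directed_cover (Us z Z d) (isOpen_Us z hZ d)
    (by
      rintro _ ⟨r, -, rfl⟩
      exact mem_iUnion.2 (exists_mem_Us z hZ d (hω r)))
    (mono_Us z Z hd).directed_le
  exact ⟨k, fun r hr => hk ⟨r, ⟨zero_le, hr⟩, rfl⟩⟩

theorem le_exitClock {b : ℝ≥0 → ℂ} {A : ℝ≥0 → ℝ} (hA : Monotone A) (h0 : A 0 = 0) {U : Set ℂ}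
    (hpos : 0 < exitClock b A U) {s : ℝ≥0} (hs : ∀ r ≤ s, b r ∈ U) : A s ≤ exitClock b A U := by
  unfold exitClock at hpos ⊢
  rcases {s : ℝ≥0 | b s ∉ U}.eq_empty_or_nonempty with he | hne
  · rw [he, NNReal.sInf_empty, h0] at hpos
    exact absurd hpos (lt_irrefl _)
  · refine hA (le_csInf hne fun r hr => ?_)
    by_contra hlt
    exact hr (hs r (not_le.1 hlt).le)

end PfPlane

open PfPlane in
theorem Plane_of (hGeo : Geo) (hB10 : B10) (hPolar : Polar) (hGlob : Glob) : Plane := by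
  intro W Z μ C Γ a M x z A hW hZ hA hEnv hBad hx hxz hz
  obtain ⟨d, hd, hdz⟩ := exists_gap hZ hz
  have hbd : ∀ k, Bornology.IsBounded (Us z Z d k) := fun k =>
    (hGeo.sq_cpt z (k + 1)).isBounded.subset (sdiff_subset.trans (sqO_subset _ _))
  have hz0 : z ∈ Us z Z d 0 := by
    refine mem_Us.2 ⟨by rw [sn_self]; norm_num, fun p hp => lt_trans ?_ (hdz p hp)⟩
    norm_num
    linarith
  refine hGlob W Zᶜ univ (Us z Z d) μ C Γ a M x z A hW hA (subset_univ _)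
    hZ.isClosed.isOpen_compl hEnv hBad hx hxz (fun k => ⟨isOpen_Us z hZ d k, hbd k,
      closure_subset_succ z Z hd k, closure_subset_compl z Z hd k,
      hGeo.frames_holes z (k + 1) _ Z (div_pos hd (by positivity))⟩) hz0 ?_
  have h1 : ∀ᵐ (ω : Path) ∂Px W z, ∀ k, 0 < exitClock ω (A z ω) (Us z Z d k) := by
    refine ae_all_iff.2 fun k => ?_
    have hK : IsCompact (closure (Us z Z d k)) := (hbd k).isCompact_closure
    obtain ⟨-, hP, -⟩ := hB10 W μ univ (closure (Us z Z d k)) (Us z Z d k) z (A z) hW (hA z hz) hK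
      (subset_univ _) (hEnv.frost _ hK (closure_subset_compl z Z hd k)) (isOpen_Us z hZ d k)
      subset_closure (mono_Us z Z hd (Nat.zero_le k) hz0)
    exact hP.path.mono fun ω h => h.2.2.1
  have h2 : ∀ᵐ (ω : Path) ∂Px W z, ∀ p ∈ Z, ∀ t, ω t ≠ p :=
    (ae_ball_iff hZ.countable).2 fun p hp => hPolar W z p hW fun h => hz (h ▸ hp)
  filter_upwards [h1, h2, (hA z hz).cont, (hA z hz).exhaust] with ω hω1 hω2 hω3 hω4 T
  obtain ⟨s, hs⟩ := hω4 T
  have hs' : T < A z ω s := hs.resolve_right fun h => h (mem_univ _)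
  obtain ⟨k, hk⟩ := exists_stay z hZ hd ω (fun t ht => hω2 _ ht t rfl) s
  exact ⟨k, hs'.trans_le (le_exitClock (A z ω).mono hω3.2 (hω1 k) hk)⟩

end Pool.Agent.Lib.MP_0d9445_pr.Walk
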