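import Pool.Agent.Lib.MP_0d9445_pr.Walk.Iface
import Pool.Agent.Lib.MP_0d9445_pr.BM.Polar

noncomputable section

open MeasureTheory ProbabilityTheory Set Filter Topology
open scoped NNReal ENNReal Classical

namespace Pool.Agent.Lib.MP_0d9445_pr.Walk

open BM Cell

theorem Polar_of : Polar := fun _ _ _ h hz => h.polar_ne hz

end Pool.Agent.Lib.MP_0d9445_pr.Walk
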