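import Pool.Agent.Lib.MP_0d9445_pr.Walk.Iface

noncomputable section

open MeasureTheory ProbabilityTheory Set Filter Topology
open scoped NNReal ENNReal Classical

namespace Pool.Agent.Lib.MP_0d9445_pr.Walk

open BM Cell

namespace PfT1

/-- Compactness in place of Dini: pointwise smallness of the limits gives uniform smallness. -/
theorem small_unif {A : Set ℂ} (hA : IsCompact A) {V : ℕ → Set ℂ} {W : ℕ → ℝ → ℂ → ℝ}
    (hmono : ∀ᶠ n in atTop, ∀ α β, 0 < α → α ≤ β → ∀ y ∈ V n, y ∈ A → W n β y ≤ W n α y) {p : ℝ}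
    (hlim : ∀ x ∈ A, ∃ α > 0, ∀ (φ : ℕ → ℕ) (y : ℕ → ℂ), StrictMono φ →
      (∀ k, y k ∈ V (φ k) ∧ y k ∈ A) → Tendsto y atTop (𝓝 x) →
        ∃ᶠ k in atTop, W (φ k) α (y k) ≤ p) :
    ∃ α > 0, ∀ᶠ n in atTop, ∀ y ∈ V n, y ∈ A → W n α y ≤ p := by
  by_contra hcon
  have h1 : ∀ k : ℕ, ∃ᶠ n in atTop, ∃ y, y ∈ V n ∧ y ∈ A ∧ p < W n (k + 1) y := by
    intro k
    by_contra h
    refine hcon ⟨k + 1, by positivity, ?_⟩
    filter_upwards [not_frequently.1 h] with n hn y hy hA'
    exact not_lt.1 fun hlt => hn ⟨y, hy, hA', hlt⟩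
  obtain ⟨φ, hφ, h2⟩ := extraction_forall_of_frequently h1
  choose y hyV hyA hyW using h2
  obtain ⟨x, hx, ψ, hψ, hlim'⟩ := hA.tendsto_subseq hyA
  obtain ⟨α, hα, h3⟩ := hlim x hx
  have h4 := h3 (φ ∘ ψ) (y ∘ ψ) (hφ.comp hψ) (fun k => ⟨hyV _, hyA _⟩) hlim'
  have h5 : ∀ᶠ k in atTop, α ≤ (ψ k : ℝ) + 1 := by
    have := (tendsto_natCast_atTop_atTop (R := ℝ)).comp hψ.tendsto_atTop
    filter_upwards [this.eventually (eventually_ge_atTop α)] with k hk
    exact le_trans hk (by simp)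
  obtain ⟨k, a1, a2, a3⟩ :=
    (h4.and_eventually (h5.and ((hφ.comp hψ).tendsto_atTop.eventually hmono))).exists
  exact absurd ((a3 α _ hα a2 _ (hyV _) (hyA _)).trans a1) (not_le.2 (hyW (ψ k)))

variable {Ω : Type} [MeasurableSpace Ω] {P : Measure Ω} {U : Set ℂ} {x : ℂ} {Y : ℝ → Ω → ℂ}
  {σ : Ω → ℝ}

/-- A jointly measurable modification with values in the closure. -/
theorem exists_mod (hp : PathPack P U x Y σ) (hx : x ∈ U) :
    ∃ Y' : ℝ → Ω → ℂ, Measurable (Function.uncurry Y') ∧ (∀ t ω, Y' t ω ∈ closure U) ∧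
      ∀ᵐ ω ∂P, ∀ t, Y' t ω = Y t ω := by
  have hq : ∀ q : ℚ, AEMeasurable (Y q) P := fun q => hp.measY q
  let p : Ω → (ℚ → ℂ) → Prop := fun ω _ => Continuous (fun t => Y t ω) ∧ ∀ t, Y t ω ∈ closure U
  have hpa : ∀ᵐ ω ∂P, p ω fun q => Y q ω := by
    filter_upwards [hp.path] with ω ⟨h1, _, _, h4, h5⟩
    refine ⟨h1, fun t => ?_⟩
    rcases lt_or_ge t (σ ω) with h | h
    · exact subset_closure (h4 t h)
    · exact frontier_subset_closure (h5 t h)
  set G := aeSeqSet hq p with hG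
  have hGm : MeasurableSet G := aeSeq.aeSeqSet_measurableSet
  have hG0 : P Gᶜ = 0 := aeSeq.measure_compl_aeSeqSet_eq_zero hq hpa
  have hGp : ∀ ω ∈ G, Continuous (fun t => Y t ω) ∧ ∀ t, Y t ω ∈ closure U :=
    fun ω hω => aeSeq.fun_prop_of_mem_aeSeqSet hq hω
  let Y' : ℝ → Ω → ℂ := fun t ω => if ω ∈ G then Y t ω else x
  have hc : ∀ ω, Continuous fun t => Y' t ω := by
    intro ω
    by_cases h : ω ∈ G
    · simp only [Y', if_pos h]; exact (hGp ω h).1
    · simp only [Y', if_neg h]; exact continuous_const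
  have hmq : ∀ q : ℚ, Measurable (Y' q) := by
    intro q
    have : Y' q = fun ω => if ω ∈ G then (hq q).mk _ ω else x := by
      funext ω
      by_cases h : ω ∈ G
      · simp only [Y', if_pos h]; exact (aeSeq.mk_eq_fun_of_mem_aeSeqSet hq h q).symm
      · simp only [Y', if_neg h]
    rw [this]
    exact Measurable.ite hGm (hq q).measurable_mk measurable_const
  refine ⟨Y', measurable_uncurry_of_continuous_of_measurable hc fun t => ?_, fun t ω => ?_, ?_⟩
  · obtain ⟨u, -, -, hu⟩ := Real.exists_seq_rat_strictMono_tendsto t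
    exact measurable_of_tendsto_metrizable (fun n => hmq (u n))
      (tendsto_pi_nhds.2 fun ω => ((hc ω).tendsto t).comp hu)
  · by_cases h : ω ∈ G
    · simp only [Y', if_pos h]; exact (hGp ω h).2 t
    · simp only [Y', if_neg h]; exact subset_closure hx
  · have : ∀ᵐ ω ∂P, ω ∈ G := hG0
    filter_upwards [this] with ω h t
    simp only [Y', if_pos h]

/-- An elementary bound for a Laplace transform. -/
theorem lap_bound {a : ℝ → ℝ} {α t₀ p : ℝ} (hα : 0 < α) (hp : 0 ≤ p) (h0 : ∀ t, 0 ≤ a t)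
    (h1 : ∀ t, a t ≤ α) (h2 : ∀ t, t ≤ t₀ → a t ≤ α * p) :
    ∫ t in Ioi (0 : ℝ), Real.exp (-(α * t)) * a t ≤ p + 2 * Real.exp (-(α * t₀ / 2)) := by
  have i1 := (integrableOn_exp_mul_Ioi (a := -α) (by linarith) 0).const_mul (α * p)
  have i2 := (integrableOn_exp_mul_Ioi (a := -(α / 2)) (by linarith) 0).const_mul
    (α * Real.exp (-(α * t₀ / 2)))
  refine (integral_mono_of_nonneg (ae_of_all _ fun t => mul_nonneg (Real.exp_pos _).le (h0 t))
    (i1.add i2) (ae_of_all _ fun t => ?_)).trans_eq ?_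
  · have e1 := Real.exp_pos (-(α * t))
    have e2 := Real.exp_pos (-(α * t₀ / 2))
    have e3 := Real.exp_pos (-(α / 2) * t)
    simp only [Pi.add_apply]
    rw [show -α * t = -(α * t) by ring]
    rcases le_or_gt t t₀ with h | h
    · have := mul_le_mul_of_nonneg_left (h2 t h) e1.le
      have : 0 ≤ α * Real.exp (-(α * t₀ / 2)) * Real.exp (-(α / 2) * t) := by positivity
      linarith
    · have b1 : Real.exp (-(α * t)) ≤ Real.exp (-(α * t₀ / 2)) * Real.exp (-(α / 2) * t) := by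
        rw [← Real.exp_add]
        exact Real.exp_le_exp.2 (by nlinarith)
      have b2 := mul_le_mul_of_nonneg_left (h1 t) e1.le
      have b3 := mul_le_mul_of_nonneg_left b1 hα.le
      have : 0 ≤ α * p * Real.exp (-(α * t)) := by positivity
      linarith
  · simp only [Pi.add_apply]
    rw [integral_add i1 i2, integral_const_mul, integral_const_mul,
      integral_exp_mul_Ioi (by linarith), integral_exp_mul_Ioi (by linarith)]
    simp only [mul_zero, Real.exp_zero]
    field_simp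

/-- The solution of the killed problem is small if early exits are unlikely. -/
theorem bm_bound (hF2 : F2) [IsProbabilityMeasure P] (hU : IsOpen U) (hb : IsCompact (closure U))
    (hx : x ∈ U) (hp : PathPack P U x Y σ) {α t₀ : ℝ} (hα : 0 < α) {v : ℂ → ℝ}
    (hv : Continuous v) (h1 : ∀ w, w ∉ U → v w = 1)
    (hm : MartPair P Y σ v fun w => 0 - α * v w) :
    v x ≤ P.real {ω | hp.measσ.mk σ ω ≤ t₀} + 2 * Real.exp (-(α * t₀ / 2)) := by
  obtain ⟨Y', hY', hcl, hae⟩ := exists_mod hp hx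
  set σ' := hp.measσ.mk σ with hσ'
  have hσm : Measurable σ' := hp.measσ.measurable_mk
  obtain ⟨c, hc⟩ := hb.exists_bound_of_continuousOn hv.continuousOn
  have hvm : Measurable (Function.uncurry fun t ω => v (Y' t ω)) := hv.measurable.comp hY'
  have hIm : Measurable (Function.uncurry fun (t : ℝ) ω => if σ' ω ≤ t then α else 0) :=
    Measurable.ite (measurableSet_le (hσm.comp measurable_snd) measurable_fst) measurable_const
      measurable_const
  have hIb : ∀ (t : ℝ) ω, ‖(if σ' ω ≤ t then α else 0)‖ ≤ α := fun t ω => by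
    split_ifs
    · exact (Real.norm_of_nonneg hα.le).le
    · simpa using hα.le
  have iv : ∀ t, Integrable (fun ω => v (Y' t ω)) P := fun t =>
    Integrable.of_bound hvm.of_uncurry_left.aestronglyMeasurable c
      (ae_of_all _ fun ω => hc _ (hcl t ω))
  have iI : ∀ t : ℝ, Integrable (fun ω => if σ' ω ≤ t then α else 0) P := fun t =>
    Integrable.of_bound hIm.of_uncurry_left.aestronglyMeasurable α (ae_of_all _ (hIb t))
  let V : ℝ → ℝ := fun t => ∫ ω, v (Y' t ω) ∂P
  let a : ℝ → ℝ := fun t => ∫ ω, (if σ' ω ≤ t then α else 0) ∂P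
  have hab : ∀ t, |a t| ≤ α := fun t => by
    simpa using norm_integral_le_of_norm_le_const (μ := P) (ae_of_all _ (hIb t))
  have hVb : ∀ t, |V t| ≤ c := fun t => by
    simpa using norm_integral_le_of_norm_le_const (μ := P)
      (ae_of_all _ fun ω => hc _ (hcl t ω))
  have hV0 : V 0 = v x := by
    have : (fun ω => v (Y' 0 ω)) =ᵐ[P] fun _ => v x := by
      filter_upwards [hae, hp.path] with ω h h'
      rw [h, h'.2.1]
    simp only [V, integral_congr_ae this]
    simp
  have key : ∀ t, 0 ≤ t → V t - V 0 = -∫ r in (0 : ℝ)..t, (a r - α * V r) := by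
    intro t ht
    have h := hm 0 (fun i => i.elim0) (fun i => i.elim0) 0 t (fun i => i.elim0) (fun i => i.elim0)
      le_rfl ht
    let F : ℝ → Ω → ℝ := fun r ω => (if σ' ω ≤ r then α else 0) - α * v (Y' r ω)
    have hFi : Integrable (Function.uncurry F) ((volume.restrict (uIoc 0 t)).prod P) := by
      have : IsFiniteMeasure (volume.restrict (uIoc 0 t)) := by
        rw [uIoc]; infer_instance
      refine Integrable.of_bound (hIm.sub (hvm.const_mul α)).aestronglyMeasurable (α + α * c)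
        (ae_of_all _ fun z => (norm_sub_le _ _).trans (add_le_add (hIb _ _) ?_))
      rw [norm_mul, Real.norm_of_nonneg hα.le]
      exact mul_le_mul_of_nonneg_left (hc _ (hcl _ _)) hα.le
    have hFo : Integrable (fun ω => ∫ r in (0 : ℝ)..t, F r ω) P := by
      simp only [intervalIntegral.integral_of_le ht]
      rw [uIoc_of_le ht] at hFi
      exact hFi.integral_prod_right
    have e : ∫ ω, (v (Y' t ω) - v (Y' 0 ω) + ∫ r in (0 : ℝ)..t, F r ω) ∂P = 0 := by
      refine (integral_congr_ae ?_).trans h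
      filter_upwards [hae, hp.path, hp.measσ.ae_eq_mk] with ω a1 a2 a3
      simp only [Finset.univ_eq_empty, Finset.prod_empty, one_mul, a1]
      congr 2
      funext r
      simp only [F, hσ', ← a3, a1]
      rcases lt_or_ge r (σ ω) with hr | hr
      · rw [if_pos hr, if_neg (not_le.2 hr)]
      · have : Y r ω ∉ U := fun hh => (hU.frontier_eq ▸ a2.2.2.2.2 r hr).2 hh
        rw [if_pos hr, if_neg (not_lt.2 hr), h1 _ this]
        ring
    have ivs : Integrable (fun ω => v (Y' t ω) - v (Y' 0 ω)) P := (iv t).sub (iv 0)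
    rw [integral_add ivs hFo, integral_sub (iv t) (iv 0),
      ← intervalIntegral_integral_swap hFi] at e
    have e2 : ∀ r, ∫ ω, F r ω ∂P = a r - α * V r := fun r => by
      simp only [F, a, V]
      rw [integral_sub (iI r) ((iv r).const_mul α), integral_const_mul]
    simp only [e2] at e
    simp only [V] at e ⊢
    linarith
  have hmain := hF2.2 V a α (max c α) hα
    hvm.stronglyMeasurable.integral_prod_right.measurable
    hIm.stronglyMeasurable.integral_prod_right.measurable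
    (fun t => (hVb t).trans (le_max_left _ _)) (fun t => (hab t).trans (le_max_right _ _)) key
  rw [← hV0, hmain]
  refine lap_bound hα measureReal_nonneg (fun t => integral_nonneg fun ω => ?_)
    (fun t => (abs_le.1 (hab t)).2) fun t ht => ?_
  · dsimp only
    split_ifs
    · exact hα.le
    · exact le_rfl
  · refine (integral_mono (iI t) (iI t₀) fun ω => ?_).trans_eq ?_
    · dsimp only
      by_cases h : σ' ω ≤ t
      · rw [if_pos h, if_pos (h.trans ht)]
      · rw [if_neg h]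
        split_ifs
        · exact hα.le
        · exact le_rfl
    · have := integral_indicator_const (μ := P) α (measurableSet_le hσm (measurable_const (a := t₀)))
      rw [smul_eq_mul, mul_comm] at this
      exact this

/-- Early exits are unlikely. -/
theorem exists_t0 [IsProbabilityMeasure P] (hp : PathPack P U x Y σ) {θ : ℝ} (hθ : 0 < θ) :
    ∃ t₀ > 0, P.real {ω | hp.measσ.mk σ ω ≤ t₀} ≤ θ := by
  set σ' := hp.measσ.mk σ with hσ'
  have hσm : Measurable σ' := hp.measσ.measurable_mk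
  have h := tendsto_measure_iInter_atTop (μ := P)
    (s := fun n : ℕ => {ω | σ' ω ≤ 1 / ((n : ℝ) + 1)})
    (fun n => (measurableSet_le hσm measurable_const).nullMeasurableSet)
    (fun m n hmn ω (hω : σ' ω ≤ _) => (hω.trans (Nat.one_div_le_one_div hmn) : σ' ω ≤ _))
    ⟨0, measure_ne_top _ _⟩
  have h0 : P (⋂ n : ℕ, {ω | σ' ω ≤ 1 / ((n : ℝ) + 1)}) = 0 := by
    refine measure_eq_zero_iff_ae_notMem.2 ?_
    filter_upwards [hp.path, hp.measσ.ae_eq_mk] with ω a1 a2 hω
    obtain ⟨n, hn⟩ := exists_nat_one_div_lt a1.2.2.1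
    have : σ' ω ≤ 1 / ((n : ℝ) + 1) := mem_iInter.1 hω n
    rw [hσ', ← a2] at this
    linarith
  rw [h0] at h
  obtain ⟨n, hn⟩ := (h.eventually (eventually_le_nhds (ENNReal.ofReal_pos.2 hθ))).exists
  exact ⟨1 / ((n : ℝ) + 1), by positivity, ENNReal.toReal_le_of_le_ofReal hθ.le hn⟩

/-- More killing gives a smaller solution. -/
theorem solve_anti (G : Net ℂ) {F : Finset ℂ} (hF : G.Esc F) {ρ : ℂ → ℝ} (hρ : ∀ x, 0 ≤ ρ x)
    {α β : ℝ} (hα : 0 < α) (hαβ : α ≤ β) (y : ℂ) :
    G.solve F (fun x => β * ρ x) 0 1 y ≤ G.solve F (fun x => α * ρ x) 0 1 y := by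
  have ka : ∀ x ∈ F, 0 ≤ α * ρ x := fun x _ => mul_nonneg hα.le (hρ x)
  have kb : ∀ x ∈ F, 0 ≤ β * ρ x := fun x _ => mul_nonneg (hα.le.trans hαβ) (hρ x)
  by_cases hy : y ∈ F
  · refine G.comparison hF ka (fun x hx => ?_) (fun x _ z _ hz => ?_) y hy
    · have a1 := G.solve_in hF ka 0 1 hx
      have a2 := G.solve_in hF kb 0 1 hx
      have a3 : 0 ≤ G.solve F (fun x => β * ρ x) 0 1 x :=
        G.solve_nonneg hF kb (fun _ _ => le_rfl) (fun _ _ _ _ _ => zero_le_one) hx
      have a4 := mul_le_mul_of_nonneg_right (mul_le_mul_of_nonneg_right hαβ (hρ x)) a3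
      linarith
    · rw [G.solve_out hF ka 0 1 hz, G.solve_out hF kb 0 1 hz]
  · rw [G.solve_out hF ka 0 1 hy, G.solve_out hF kb 0 1 hy]

end PfT1

open PfT1 in
theorem T1_of (hGeo : Geo) (hBnd : Bnd) (hL2 : L2) (hF2 : F2) : T1 := by
  intro K μ a N ρ FF c η θ hG hL hη hK hθ
  have hcl := (hGeo.osq_closure c η hη).1
  have hE : ∀ᶠ n in atTop, (N n).G.Esc ((N n).inside (sqO c η)) :=
    (hBnd K μ a N ρ FF hG).2.2.2.2 _ (hGeo.osq_open c η) (hcl ▸ hK.trans interior_subset)
  have hk : ∀ n {α : ℝ}, 0 < α → ∀ x ∈ (N n).inside (sqO c η), 0 ≤ α * ρ n x :=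
    fun n α hα x _ => mul_nonneg hα.le (hG.rho_nonneg n x)
  refine (small_unif (hGeo.sq_cpt c (η / 2)) (V := fun n => (N n).V)
    (W := fun n α => (N n).G.solve ((N n).inside (sqO c η)) (fun x => α * ρ n x) 0 1) (p := θ)
    (hE.mono fun n hn α β hα hαβ y _ _ => solve_anti _ hn (hG.rho_nonneg n) hα hαβ y) ?_).imp
      fun α ⟨hα, h⟩ => ⟨hα, ?_⟩
  swap
  · filter_upwards [h, hE] with n h1 h2 W hW x hx
    rw [hW.eq_solve h2 (hk n hα)]
    exact h1 x ((N n).mem_pts.1 hx).1 ((N n).mem_pts.1 hx).2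
  intro x hx
  have hxU : x ∈ sqO c η := lt_of_le_of_lt (show sn c x ≤ η / 2 from hx) (by linarith)
  obtain ⟨P, Y, σ, hP, hp, hm⟩ := hL _ (hGeo.osq_open c η)
    ((sqO_subset c η).trans (hK.trans interior_subset)) x hxU
  obtain ⟨t₀, ht₀, h0⟩ := exists_t0 hp (θ := θ / 4) (by linarith)
  have hexp : Tendsto (fun α : ℝ => 2 * Real.exp (-(α * t₀ / 2))) atTop (𝓝 (2 * 0)) :=
    (Real.tendsto_exp_neg_atTop_nhds_zero.comp
      ((tendsto_id.atTop_mul_const ht₀).atTop_div_const two_pos)).const_mul 2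
  obtain ⟨α, h1, hα⟩ := ((hexp.eventually (eventually_le_nhds
    (show 2 * (0 : ℝ) < θ / 4 by linarith))).and (eventually_gt_atTop 0)).exists
  refine ⟨α, hα, fun φ y hφ hy hyx => ?_⟩
  obtain ⟨ψ, v, hψ, hv, hv1, hw, hu⟩ := hL2 K μ a (fun n => N (φ n)) (fun n => ρ (φ n)) FF
    (sqO c η) α 0 (fun _ => 0) 1
    (fun n => (N (φ n)).G.solve ((N (φ n)).inside (sqO c η)) (fun x => α * ρ (φ n) x) 0 1)
    ((hBnd K μ a N ρ FF hG).2.2.1 φ hφ.tendsto_atTop) (hGeo.adm_osq K c η hη hK) hα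
    continuous_const (fun _ _ => by simp) (by
      filter_upwards [hφ.tendsto_atTop.eventually hE] with n hn
      simp only [mul_zero]
      exact (N (φ n)).G.solve_sol hn (hk _ hα) 0 1)
  have hb := bm_bound (t₀ := t₀) hF2 (hGeo.osq_open c η) (hcl ▸ hGeo.sq_cpt c η) hxU hp hα hv hv1
    (hm v _ hv (continuous_const.sub (continuous_const.mul hv)) hw)
  have hvy : ∀ᶠ k in atTop, v (y (ψ k)) ≤ v x + θ / 4 :=
    ((hv.tendsto x).comp (hyx.comp hψ.tendsto_atTop)).eventually
      (eventually_le_nhds (by linarith))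
  refine hψ.tendsto_atTop.frequently (Eventually.frequently ?_)
  filter_upwards [hvy, hu (θ / 4) (by linarith)] with k a1 a2
  have a3 := abs_le.1 (a2 (y (ψ k)) ((N _).mem_pts.2 ⟨(hy _).1, mem_univ _⟩))
  linarith [a3.2]

end Pool.Agent.Lib.MP_0d9445_pr.Walk
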