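import Pool.Agent.Lib.MP_0d9445_pr.Walk.Iface

noncomputable section

open MeasureTheory ProbabilityTheory Set Filter Topology
open scoped NNReal ENNReal Classical

namespace Pool.Agent.Lib.MP_0d9445_pr.Walk

open BM Cell

namespace PfT3

/-- The solution with killing `α ρ` and boundary value one is a supermartingale up to the factor
`1 + A / m`. -/
theorem super (hW : WalkBasics) (N : FC) (U S : Set ℂ) (ρ W : ℂ → ℝ) {m α A : ℝ} (hm : 0 < m)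
    (hα : 0 ≤ α) (hA : α ≤ A) (hE : N.G.Esc (N.inside S)) (h0 : ∀ y, 0 ≤ ρ y)
    (hρ : ∀ y, ρ y ≤ N.G.deg y / m) (hS : N.G.Sol (N.inside S) (fun x => α * ρ x) 0 1 W) (y : ℂ) :
    0 ≤ W y ∧ (y ∉ N.inside S → W y = 1) ∧
      (y ∈ N.inside S → walkExp (N.step U) 1 y (fun w => W (w 1)) ≤ (1 + A / m) * W y) := by
  have hin : ∀ x ∈ N.inside S, 0 ≤ W x :=
    N.G.max_principle hE (k := fun x => α * ρ x) (fun x _ => mul_nonneg hα (h0 x))
      (fun x hx => (hS.2 x hx).ge) (fun x _ y _ hy => by rw [hS.1 y hy]; exact zero_le_one)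
  refine ⟨?_, fun hy => hS.1 y hy, fun hy => ?_⟩
  · by_cases hy : y ∈ N.inside S
    · exact hin y hy
    · rw [hS.1 y hy]
      exact zero_le_one
  · have hy0 := hin y hy
    have hAm : 0 ≤ A / m := div_nonneg (hα.trans hA) hm.le
    by_cases hU : y ∈ N.inside U
    · rw [hW.one N U y W hU (hE.nonempty hy)]
      have hd := hE.deg_pos hy
      have e : N.G.lap W y = -(α * ρ y * W y) := eq_neg_of_add_eq_zero_left (hS.2 y hy)
      have h1 : ρ y / N.G.deg y ≤ 1 / m := by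
        rw [div_le_iff₀ hd, one_div_mul_eq_div]
        exact hρ y
      have h2 : α * (ρ y / N.G.deg y) ≤ A / m := by
        rw [div_eq_mul_one_div A m]
        exact mul_le_mul hA h1 (div_nonneg (h0 y) hd.le) (hα.trans hA)
      have h3 : W y - -(α * ρ y * W y) / N.G.deg y = (1 + α * (ρ y / N.G.deg y)) * W y := by
        ring
      rw [e, h3]
      exact mul_le_mul_of_nonneg_right (by linarith) hy0
    · rw [hW.one' N U y W hU]
      nlinarith [mul_nonneg hAm hy0]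

theorem pow_le_exp {A m T : ℝ} {L : ℕ} (hm : 0 < m) (hA : 0 ≤ A) (hL : (L : ℝ) ≤ m * T) :
    (1 + A / m) ^ L ≤ Real.exp (A * T) := by
  have h1 : 1 + A / m ≤ Real.exp (A / m) := by linarith [Real.add_one_le_exp (A / m)]
  refine (pow_le_pow_left₀ (by positivity) h1 L).trans ?_
  rw [← Real.exp_nat_mul, Real.exp_le_exp, mul_comm, div_mul_eq_mul_div, div_le_iff₀ hm]
  nlinarith [mul_le_mul_of_nonneg_left hL hA]

theorem exists_sq {O : Set ℂ} (hO : IsOpen O) {c : ℂ} (hc : c ∈ O) {η : ℝ} (hη : 0 < η) :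
    ∃ e, 0 < e ∧ e ≤ η ∧ sqC c e ⊆ O := by
  obtain ⟨r, hr, hs⟩ := Metric.isOpen_iff.1 hO c hc
  refine ⟨min η (r / 4), lt_min hη (by linarith), min_le_left _ _, fun w hw => hs ?_⟩
  have h1 : sn c w ≤ r / 4 := le_trans hw (min_le_right _ _)
  have h2 := dist_le_sn c w
  rw [Metric.mem_ball]
  linarith

/-- The data that `T2` asks for at the anchor `a`. -/
def Anchor (St : ℂ → Set ℂ) (β₀ β₁ p η : ℝ) (d : ℕ) (a : ℂ) (In : Set ℂ) (W₀ W₁ : ℂ → ℝ) : Prop :=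
  (a ∈ In ∧ (∀ y ∈ In, ‖y - a‖ ≤ η) ∧ W₀ a ≤ 1 / 2 ∧ β₁ ^ d * W₁ a ≤ p) ∧
    ∀ y, 0 ≤ W₀ y ∧ 0 ≤ W₁ y ∧ (y ∉ In → W₀ y = 1 ∧ W₁ y = 1) ∧
      (y ∈ In → walkExp St 1 y (fun w => W₀ (w 1)) ≤ β₀ * W₀ y ∧
        walkExp St 1 y (fun w => W₁ (w 1)) ≤ β₁ * W₁ y)

theorem anchor_out (hW : WalkBasics) (N : FC) (U : Set ℂ) (β₀ β₁ : ℝ) {p η : ℝ} (hp : 0 ≤ p)
    (hη : 0 ≤ η) (d : ℕ) {a : ℂ} (ha : a ∉ N.inside U) :
    ∃ In W₀ W₁, Anchor (N.step U) β₀ β₁ p η d a In W₀ W₁ := by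
  refine ⟨{a}, fun y => if y = a then 0 else 1, fun y => if y = a then 0 else 1,
    ⟨rfl, fun y hy => ?_, by simp, by simpa using hp⟩, fun y => ⟨?_, ?_, fun hy => ?_, fun hy => ?_⟩⟩
  · rw [mem_singleton_iff.1 hy, sub_self, norm_zero]
    exact hη
  · dsimp only
    split_ifs <;> norm_num
  · dsimp only
    split_ifs <;> norm_num
  · have hy' : y ≠ a := hy
    simp [hy']
  · have e := hW.one' N U a (fun y => if y = a then 0 else 1) ha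
    rw [mem_singleton_iff.1 hy, e]
    simp

theorem anchor_in (hW : WalkBasics) {N : FC} {K : Set ℂ} (U : Set ℂ) {ρ : ℂ → ℝ}
    {m α₀ α₁ A₀ A₁ e p : ℝ} {d : ℕ} {a c : ℂ} (hm : 0 < m) (he : 0 < e) (hN : N.Nice K (e / 2))
    (hK : sqC c e ⊆ K) (h0 : ∀ y, 0 ≤ ρ y) (hρ : ∀ y, ρ y ≤ N.G.deg y / m)
    (hα₀ : 0 < α₀) (hA₀ : α₀ ≤ A₀) (hα₁ : 0 < α₁) (hA₁ : α₁ ≤ A₁) (hd : (1 + A₁ / m) ^ d ≤ 3)
    (H₀ : ∀ W : ℂ → ℝ, N.G.Sol (N.inside (sqO c e)) (fun x => α₀ * ρ x) 0 1 W →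
      ∀ x ∈ N.pts (sqC c (e / 2)), W x ≤ 1 / 2)
    (H₁ : ∀ W : ℂ → ℝ, N.G.Sol (N.inside (sqO c e)) (fun x => α₁ * ρ x) 0 1 W →
      ∀ x ∈ N.pts (sqC c (e / 2)), W x ≤ p / 3)
    (ha : a ∈ N.V) (hac : a ∈ sqO c (e / 2)) {η : ℝ} (hη : 4 * e ≤ η) :
    ∃ In W₀ W₁, Anchor (N.step U) (1 + A₀ / m) (1 + A₁ / m) p η d a In W₀ W₁ := by
  have hE : N.G.Esc (N.inside (sqO c e)) := hN.cw.esc_sqO he.le hK
  obtain ⟨W₀, hW₀⟩ := N.G.exists_sol hE (k := fun x => α₀ * ρ x)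
    (fun x _ => mul_nonneg hα₀.le (h0 x)) 0 1
  obtain ⟨W₁, hW₁⟩ := N.G.exists_sol hE (k := fun x => α₁ * ρ x)
    (fun x _ => mul_nonneg hα₁.le (h0 x)) 0 1
  have s₀ := super hW N U _ ρ W₀ hm hα₀.le hA₀ hE h0 hρ hW₀
  have s₁ := super hW N U _ ρ W₁ hm hα₁.le hA₁ hE h0 hρ hW₁
  have hac' : sn c a < e / 2 := hac
  have hp' : a ∈ N.pts (sqC c (e / 2)) := N.mem_pts.2 ⟨ha, hac'.le⟩
  refine ⟨(N.inside (sqO c e) : Set ℂ), W₀, W₁, ⟨?_, fun y hy => ?_, H₀ W₀ hW₀ a hp', ?_⟩,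
    fun y => ⟨(s₀ y).1, (s₁ y).1, fun hy => ⟨(s₀ y).2.1 hy, (s₁ y).2.1 hy⟩,
      fun hy => ⟨(s₀ y).2.2 hy, (s₁ y).2.2 hy⟩⟩⟩
  · refine Finset.mem_coe.2 (mem_ins.2 ⟨ha, fun w hw => ?_⟩)
    have h1 := hN.dist_le ha hw (hN.mem a ha)
    have h2 := sn_sub_le c w a
    show sn c w < e
    linarith
  · obtain ⟨hyV, hyH⟩ := mem_ins.1 (Finset.mem_coe.1 hy)
    have h1 : sn c y < e := hyH (hN.mem y hyV)
    have h2 := dist_le_sn a y
    have h3 := sn_triangle a c y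
    rw [sn_comm a c] at h3
    rw [← dist_eq_norm]
    linarith
  · have h1 := mul_le_mul hd (H₁ W₁ hW₁ a hp') (s₁ a).1 (by norm_num)
    linarith

end PfT3

open PfT3 in
theorem T3_of (hGeo : Geo) (hWalkBasics : WalkBasics) (_hBnd : Bnd) (hT1 : T1) (hT2 : T2) : T3 := by
  intro K μ a N ρ FF U m x z K' hG hA hD hL hO T η hη
  have hcU : IsCompact (closure U) :=
    hG.cpt.of_isClosed_subset isClosed_closure (hA.sub.trans interior_subset)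
  have h1 : ∀ c ∈ closure U, ∃ e, 0 < e ∧ e ≤ η / 16 ∧ sqC c e ⊆ interior K := fun c hc =>
    exists_sq isOpen_interior (hA.sub hc) (by linarith)
  choose! e he0 heη heK using h1
  obtain ⟨t, htU, hcov⟩ := hcU.elim_nhds_subcover (fun c => sqO c (e c / 2)) fun c hc =>
    (hGeo.osq_open c _).mem_nhds (show sn c c < e c / 2 by rw [sn_self]; linarith [he0 c hc])
  have h2 := fun c (hc : c ∈ t) =>
    hT1 K μ a N ρ FF c (e c) (1 / 2) hG hL (he0 c (htU c hc)) (heK c (htU c hc)) (by norm_num)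
  choose! α₀ hα₀ H₀ using h2
  obtain ⟨A₀, hA₀⟩ : ∃ A₀, A₀ = ∑ c ∈ t, α₀ c := ⟨_, rfl⟩
  have hA0 : 0 ≤ A₀ := hA₀ ▸ Finset.sum_nonneg fun c hc => (hα₀ c hc).le
  have hA0' : ∀ c ∈ t, α₀ c ≤ A₀ := fun c hc =>
    hA₀ ▸ Finset.single_le_sum (fun c hc => (hα₀ c hc).le) hc
  obtain ⟨p, hp⟩ : ∃ p, p = η / (2 * Real.exp (A₀ * T)) := ⟨_, rfl⟩
  have hp0 : 0 < p := by
    rw [hp]
    positivity
  have h3 := fun c (hc : c ∈ t) =>
    hT1 K μ a N ρ FF c (e c) (p / 3) hG hL (he0 c (htU c hc)) (heK c (htU c hc)) (by linarith)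
  choose! α₁ hα₁ H₁ using h3
  obtain ⟨A₁, hA₁⟩ : ∃ A₁, A₁ = ∑ c ∈ t, α₁ c := ⟨_, rfl⟩
  have hA1 : 0 ≤ A₁ := hA₁ ▸ Finset.sum_nonneg fun c hc => (hα₁ c hc).le
  have hA1' : ∀ c ∈ t, α₁ c ≤ A₁ := fun c hc =>
    hA₁ ▸ Finset.single_le_sum (fun c hc => (hα₁ c hc).le) hc
  have hδ : 0 < 1 / (A₁ + 1) := by positivity
  refine ⟨1 / (A₁ + 1), hδ, ?_⟩
  have E0 := (eventually_all_finset t).2 H₀
  have E1 := (eventually_all_finset t).2 H₁
  have E2 := (eventually_all_finset t).2 fun c hc =>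
    hG.nice (e c / 2) (by linarith [he0 c (htU c hc)])
  filter_upwards [E0, E1, E2, hG.nice 1 one_pos, hD.m_top.eventually_gt_atTop 0, hD.rho_le, hO.ok,
    hO.jump (η / 4) (by linarith)] with n e0 e1 e2 hN hm hρ hok hj y hy L hL'
  have hcl : Closed ((N n).step U) ((N n).pts K' : Set ℂ) := hok.2.2
  have hd : (1 + A₁ / m n) ^ ⌊1 / (A₁ + 1) * m n⌋₊ ≤ 3 := by
    refine (pow_le_exp (T := 1 / (A₁ + 1)) hm hA1 ?_).trans ?_
    · rw [mul_comm (m n)]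
      exact Nat.floor_le (by positivity)
    · refine le_trans (Real.exp_le_exp.2 ?_) Real.exp_one_lt_three.le
      rw [mul_one_div, div_le_one (by positivity)]
      linarith
  have h4 : ∀ b ∈ ((N n).pts K' : Set ℂ), ∃ In W₀ W₁, Anchor ((N n).step U) (1 + A₀ / m n)
      (1 + A₁ / m n) p (η / 4) ⌊1 / (A₁ + 1) * m n⌋₊ b In W₀ W₁ := fun b _ => by
    by_cases hb : b ∈ (N n).inside U
    · obtain ⟨hbV, hbH⟩ := mem_ins.1 hb
      obtain ⟨c, hc, hbc⟩ := mem_iUnion₂.1 (hcov (subset_closure (hbH (hN.mem b hbV))))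
      exact anchor_in hWalkBasics U hm (he0 c (htU c hc)) (e2 c hc)
        ((heK c (htU c hc)).trans interior_subset) (hG.rho_nonneg n) hρ (hα₀ c hc) (hA0' c hc)
        (hα₁ c hc) (hA1' c hc) hd (e0 c hc) (e1 c hc) hbV hbc
        (by linarith [heη c (htU c hc)])
    · exact anchor_out hWalkBasics _ U _ _ hp0.le (by linarith) _ hb
  choose! In W₀ W₁ hI using h4
  have h5 := hT2 ((N n).step U) _ In W₀ W₁ (1 + A₀ / m n) (1 + A₁ / m n) p (η / 4) (η / 4)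
    ⌊1 / (A₁ + 1) * m n⌋₊ hcl hj (le_add_of_nonneg_right (by positivity))
    (le_add_of_nonneg_right (by positivity)) (fun b hb => (hI b hb).1)
    (fun b hb y _ => (hI b hb).2 y) y hy L
  refine (hWalkBasics.mono _ _ L y _ _ hcl hy fun w _ => ?_).trans (h5.trans ?_)
  · split_ifs with g1 g2
    · exact le_rfl
    · obtain ⟨i, j, hij, hjL, hδ', hw⟩ := g1
      refine absurd ⟨i, j, hij, hjL, Nat.le_floor ?_, by linarith⟩ g2
      rwa [Nat.cast_sub hij]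
    · exact zero_le_one
    · exact le_rfl
  · have h6 := mul_le_mul_of_nonneg_left (pow_le_exp hm hA0 hL') (by linarith : 0 ≤ 2 * p)
    refine h6.trans (le_of_eq ?_)
    rw [hp]
    field_simp

end Pool.Agent.Lib.MP_0d9445_pr.Walk
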