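import Pool.Agent.Lib.MP_0d9445_pr.Walk.Iface

noncomputable section

open MeasureTheory ProbabilityTheory Set Filter Topology
open scoped NNReal ENNReal Classical

namespace Pool.Agent.Lib.MP_0d9445_pr.Walk

open BM Cell

namespace PfTay

theorem test_dir {U : Set ℂ} {χ : ℂ → ℝ} (h : Test U χ) (p : ℂ) : Test U (dir p χ) := by
  refine ⟨?_, h.cpt.fderiv_apply ℝ p, (tsupport_fderiv_apply_subset ℝ p).trans h.supp⟩
  exact (h.smooth.fderiv_right (m := ((⊤ : ℕ∞) : WithTop ℕ∞)) le_rfl).clm_apply contDiff_const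

theorem test_add {U : Set ℂ} {f g : ℂ → ℝ} (hf : Test U f) (hg : Test U g) :
    Test U fun w => f w + g w :=
  ⟨hf.smooth.add hg.smooth, hf.cpt.add hg.cpt,
    (tsupport_add f g).trans (union_subset hf.supp hg.supp)⟩

theorem fderiv_eq (χ : ℂ → ℝ) (x v : ℂ) :
    fderiv ℝ χ x v = dir 1 χ x * v.re + dir Complex.I χ x * v.im := by
  have e : v = v.re • (1 : ℂ) + v.im • Complex.I := by
    simp [Complex.re_add_im]
  conv_lhs => rw [e]
  rw [map_add, map_smul, map_smul]
  simp only [dir, smul_eq_mul]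
  ring

end PfTay

theorem Tay_of : Tay := by
  intro U χ h
  refine ⟨PfTay.test_dir h, PfTay.test_add (PfTay.test_dir (PfTay.test_dir h 1) 1)
    (PfTay.test_dir (PfTay.test_dir h Complex.I) Complex.I), ?_⟩
  have hd : ContDiff ℝ (⊤ : ℕ∞) (fderiv ℝ χ) :=
    h.smooth.fderiv_right (m := ((⊤ : ℕ∞) : WithTop ℕ∞)) le_rfl
  obtain ⟨K₁, h₁⟩ := h.smooth.lipschitzWith_of_hasCompactSupport h.cpt (by simp)
  obtain ⟨K₂, h₂⟩ := hd.lipschitzWith_of_hasCompactSupport (h.cpt.fderiv ℝ) (by simp)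
  refine ⟨K₁ + K₂, by positivity, fun x y => ⟨?_, ?_⟩⟩
  · have := h₁.dist_le_mul x y
    rw [Real.dist_eq, dist_eq_norm] at this
    refine this.trans (mul_le_mul_of_nonneg_right ?_ (norm_nonneg _))
    linarith [K₂.coe_nonneg]
  · have hdiff : Differentiable ℝ χ := h.smooth.differentiable (by simp)
    have key := Convex.norm_image_sub_le_of_norm_hasFDerivWithin_le'
      (f := χ) (f' := fderiv ℝ χ) (φ := fderiv ℝ χ x) (C := K₂ * ‖x - y‖)
      (s := Metric.closedBall x ‖x - y‖) (x := y) (y := x)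
      (fun z _ => (hdiff z).hasFDerivAt.hasFDerivWithinAt)
      (fun z hz => by
        have := h₂.dist_le_mul z x
        rw [dist_eq_norm] at this
        exact this.trans (mul_le_mul_of_nonneg_left (Metric.mem_closedBall.1 hz) K₂.coe_nonneg))
      (convex_closedBall _ _)
      (by rw [Metric.mem_closedBall, dist_comm, dist_eq_norm])
      (Metric.mem_closedBall_self (norm_nonneg _))
    rw [PfTay.fderiv_eq, Real.norm_eq_abs] at key
    refine key.trans ?_
    have h0 : 0 ≤ (K₁ : ℝ) * ‖x - y‖ ^ 2 := by positivity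
    nlinarith

end Pool.Agent.Lib.MP_0d9445_pr.Walk
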