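import Pool.Agent.Lib.MP_0d9445_pr.Walk.Iface

noncomputable section

open MeasureTheory ProbabilityTheory Set Filter Topology
open scoped NNReal ENNReal Classical

namespace Pool.Agent.Lib.MP_0d9445_pr.Walk

open BM Cell

namespace PfW1

theorem nbr_nonempty {G : Net ℂ} {F : Finset ℂ} (hF : G.Esc F) {x : ℂ} (hx : x ∈ F) :
    (G.N x).Nonempty := by
  obtain ⟨y, hy, hr⟩ := hF x hx
  rcases Relation.ReflTransGen.cases_head hr with rfl | ⟨b, hb, -⟩
  · exact absurd hx hy
  · exact ⟨b, hb⟩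

theorem step_le {N : FC} {K U : Set ℂ} {ε : ℝ} (h : N.Nice K ε) (hε : 0 ≤ ε) {y y' : ℂ}
    (hy : y' ∈ N.step U y) : ‖y - y'‖ ≤ 2 * ε := by
  unfold FC.step at hy
  split_ifs at hy with hU
  · exact h.nbr_le (Finset.mem_coe.1 hy)
  · rw [mem_singleton_iff.1 hy, sub_self, norm_zero]
    linarith

end PfW1

theorem W1_of (hGeo : Geo) (hBnd : Bnd) : W1 := by
  intro K μ a N ρ FF U m x z K' hG hA hW hz hK' hUK hKK
  have hcU : IsCompact (closure U) :=
    hK'.of_isClosed_subset isClosed_closure (hUK.trans interior_subset)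
  obtain ⟨δ, hδ, hth⟩ := hcU.exists_cthickening_subset_open isOpen_interior hUK
  have hEsc := (hBnd K μ a N ρ FF hG).2.2.2.2 U hA.isOpen (hA.sub.trans interior_subset)
  have hx : ∀ᶠ n in atTop, x n ∈ K' :=
    hW.lim.eventually (mem_interior_iff_mem_nhds.1 (hUK (subset_closure hz)))
  refine ⟨?_, fun ε hε => ?_⟩
  · filter_upwards [hx, hW.start, hEsc, hG.nice (δ / 2) (by linarith)] with n h1 h2 h3 h4
    refine ⟨Finset.mem_coe.2 ((N n).mem_pts.2 ⟨h2, h1⟩),
      fun y hy => ((N n).mem_pts.1 (Finset.mem_coe.1 hy)).2, fun y hy => ?_⟩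
    unfold FC.step
    split_ifs with hU
    · refine ⟨Finset.finite_toSet _, Finset.coe_nonempty.2 (PfW1.nbr_nonempty h3 hU),
        fun y' hy' => ?_⟩
      have hy' := Finset.mem_coe.1 hy'
      refine Finset.mem_coe.2 ((N n).mem_pts.2 ⟨((N n).mem_N.1 hy').1, interior_subset (hth ?_)⟩)
      have hyU : y ∈ U := (mem_ins.1 hU).2 (h4.mem y (mem_ins.1 hU).1)
      refine Metric.mem_cthickening_of_dist_le y' y δ _ (subset_closure hyU) ?_
      have := h4.nbr_le hy'
      rw [dist_comm, dist_eq_norm]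
      linarith
    · exact ⟨finite_singleton _, singleton_nonempty _, singleton_subset_iff.2 hy⟩
  · filter_upwards [hG.nice (ε / 2) (by linarith)] with n h y _ y' hy'
    have := PfW1.step_le h (by linarith) hy'
    linarith

end Pool.Agent.Lib.MP_0d9445_pr.Walk
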