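import Pool.Agent.Lib.MP_0d9445_pr.Walk.Iface
import Pool.Agent.Lib.MP_0d9445_pr.Walk.EqFixWalk

noncomputable section

open MeasureTheory ProbabilityTheory Set Filter Topology
open scoped NNReal ENNReal Classical

namespace Pool.Agent.Lib.MP_0d9445_pr.Walk

open BM Cell

namespace PfWalkBasics

/-- The average of `g` over `S`. -/
def avg (S : Set ℂ) (g : ℂ → ℝ) : ℝ := (S.ncard : ℝ)⁻¹ * ∑ᶠ y ∈ S, g y

variable {S : Set ℂ} {g g' h : ℂ → ℝ}

lemma avg_eq (hS : S.Finite) (g : ℂ → ℝ) :
    avg S g = (S.ncard : ℝ)⁻¹ * ∑ y ∈ hS.toFinset, g y := by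
  rw [avg, finsum_mem_eq_finite_toFinset_sum _ hS]

lemma avg_congr (e : ∀ y ∈ S, g y = g' y) : avg S g = avg S g' := by
  rw [avg, avg, finsum_mem_congr rfl e]

lemma avg_mono (hS : S.Finite) (e : ∀ y ∈ S, g y ≤ g' y) : avg S g ≤ avg S g' := by
  rw [avg_eq hS, avg_eq hS]
  exact mul_le_mul_of_nonneg_left (Finset.sum_le_sum fun y hy => e y (hS.mem_toFinset.1 hy))
    (by positivity)

lemma avg_add (hS : S.Finite) : avg S (fun y => g y + g' y) = avg S g + avg S g' := by
  rw [avg_eq hS, avg_eq hS, avg_eq hS, Finset.sum_add_distrib, mul_add]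

lemma avg_smul (hS : S.Finite) (c : ℝ) : avg S (fun y => c * g y) = c * avg S g := by
  rw [avg_eq hS, avg_eq hS, ← Finset.mul_sum, mul_left_comm]

lemma avg_const (hS : S.Finite) (hn : S.Nonempty) (c : ℝ) : avg S (fun _ => c) = c := by
  have h1 : (S.ncard : ℝ) ≠ 0 := by
    exact_mod_cast ((Set.ncard_pos hS).2 hn).ne'
  rw [avg_eq hS, Finset.sum_const, nsmul_eq_mul, ← Set.ncard_eq_toFinset_card S hS,
    ← mul_assoc, inv_mul_cancel₀ h1, one_mul]

lemma avg_abs_sub (hS : S.Finite) (e : ∀ y ∈ S, |g y - g' y| ≤ h y) :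
    |avg S g - avg S g'| ≤ avg S h := by
  have h1 : avg S g ≤ avg S fun y => g' y + h y :=
    avg_mono hS fun y hy => by linarith [(abs_le.1 (e y hy)).2]
  have h2 : avg S g' ≤ avg S fun y => g y + h y :=
    avg_mono hS fun y hy => by linarith [(abs_le.1 (e y hy)).1]
  rw [avg_add hS] at h1 h2
  exact abs_le.2 ⟨by linarith, by linarith⟩

lemma avg_abs_le {c : ℝ} (hc : 0 ≤ c) (e : ∀ y ∈ S, |g y| ≤ c) : |avg S g| ≤ c := by
  by_cases hS : S.Finite
  · rcases S.eq_empty_or_nonempty with rfl | hn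
    · simpa [avg] using hc
    · have h1 : avg S g ≤ avg S fun _ => c := avg_mono hS fun y hy => (abs_le.1 (e y hy)).2
      have h2 : (avg S fun _ => -c) ≤ avg S g := avg_mono hS fun y hy => (abs_le.1 (e y hy)).1
      rw [avg_const hS hn] at h1 h2
      exact abs_le.2 ⟨h2, h1⟩
  · simpa [avg, Set.Infinite.ncard hS] using hc

variable {St St' : ℂ → Set ℂ} {R : Set ℂ}

lemma succ (St : ℂ → Set ℂ) (n : ℕ) (x : ℂ) (F : (ℕ → ℂ) → ℝ) : walkExp St (n + 1) x F =
    avg (St x) fun y => walkExp St n y fun w => F (consPath x w) := rfl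

lemma traj_cons {L : ℕ} {x y : ℂ} {w : ℕ → ℂ} (hy : y ∈ St x) (hw : IsTraj St L y w) :
    IsTraj St (L + 1) x (consPath x w) := by
  refine ⟨rfl, fun i hi => ?_, fun i hi => ?_⟩
  · cases i with
    | zero =>
      show w 0 ∈ St x
      rwa [hw.1]
    | succ j => exact hw.2.1 j (by omega)
  · cases i with
    | zero => omega
    | succ j => exact hw.2.2 j (by omega)

lemma mono (hc : Closed St R) (L : ℕ) : ∀ x F F', x ∈ R →
    (∀ w, IsTraj St L x w → F w ≤ F' w) → walkExp St L x F ≤ walkExp St L x F' := by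
  induction L with
  | zero => exact fun x F F' _ h => h _ ⟨rfl, fun i hi => by omega, fun _ _ => rfl⟩
  | succ L ih =>
    intro x F F' hx h
    rw [succ, succ]
    exact avg_mono (hc x hx).1 fun y hy =>
      ih y _ _ ((hc x hx).2.2 hy) fun w hw => h _ (traj_cons hy hw)

lemma traj_congr (hc : Closed St R) (L : ℕ) {x : ℂ} {F F' : (ℕ → ℂ) → ℝ} (hx : x ∈ R)
    (h : ∀ w, IsTraj St L x w → F w = F' w) : walkExp St L x F = walkExp St L x F' :=
  le_antisymm (mono hc L x F F' hx fun w hw => (h w hw).le)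
    (mono hc L x F' F hx fun w hw => (h w hw).ge)

lemma add (hc : Closed St R) (L : ℕ) : ∀ x (F F' : (ℕ → ℂ) → ℝ), x ∈ R →
    walkExp St L x (fun w => F w + F' w) = walkExp St L x F + walkExp St L x F' := by
  induction L with
  | zero => exact fun _ _ _ _ => rfl
  | succ L ih =>
    intro x F F' hx
    rw [succ, succ, succ, ← avg_add (hc x hx).1]
    exact avg_congr fun y hy => ih y _ _ ((hc x hx).2.2 hy)

lemma smul (hc : Closed St R) (c : ℝ) (L : ℕ) : ∀ x (F : (ℕ → ℂ) → ℝ), x ∈ R →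
    walkExp St L x (fun w => c * F w) = c * walkExp St L x F := by
  induction L with
  | zero => exact fun _ _ _ => rfl
  | succ L ih =>
    intro x F hx
    rw [succ, succ, ← avg_smul (hc x hx).1]
    exact avg_congr fun y hy => ih y _ ((hc x hx).2.2 hy)

lemma const (hc : Closed St R) (c : ℝ) (L : ℕ) : ∀ x, x ∈ R →
    walkExp St L x (fun _ => c) = c := by
  induction L with
  | zero => exact fun _ _ => rfl
  | succ L ih =>
    intro x hx
    rw [succ, avg_congr (g' := fun _ => c) fun y hy => ih y ((hc x hx).2.2 hy)]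
    exact avg_const (hc x hx).1 (hc x hx).2.1 c

lemma traj_mem (hc : Closed St R) {L : ℕ} {x : ℂ} {w : ℕ → ℂ} (hx : x ∈ R)
    (hw : IsTraj St L x w) (i : ℕ) : w i ∈ R := by
  have h1 : ∀ i, i ≤ L → w i ∈ R := by
    intro i
    induction i with
    | zero => exact fun _ => hw.1 ▸ hx
    | succ j ih => exact fun hj => (hc _ (ih (by omega))).2.2 (hw.2.1 j (by omega))
  rcases le_total i L with h | h
  · exact h1 i h
  · rw [hw.2.2 i h]
    exact h1 L le_rfl

lemma glue_cons (k : ℕ) (x : ℂ) (w w' : ℕ → ℂ) :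
    glue (k + 1) (consPath x w) w' = consPath x (glue k w w') := by
  funext i
  cases i with
  | zero => simp [glue, consPath]
  | succ j => simp [glue, consPath]

lemma markov (hc : Closed St R) (L k : ℕ) : ∀ x (F : (ℕ → ℂ) → ℝ), x ∈ R →
    walkExp St (k + L) x F =
      walkExp St k x fun w => walkExp St L (w k) fun w' => F (glue k w w') := by
  induction k with
  | zero =>
    intro x F hx
    rw [Nat.zero_add]
    refine traj_congr hc L hx fun w hw => congrArg F (funext fun i => ?_)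
    cases i with
    | zero => simp [glue, hw.1]
    | succ j => simp [glue]
  | succ k ih =>
    intro x F hx
    rw [Nat.add_right_comm, succ, succ]
    refine avg_congr fun y hy => ?_
    rw [ih y _ ((hc x hx).2.2 hy)]
    simp only [glue_cons]
    rfl

lemma trunc (hc : Closed St R) {k L : ℕ} {x : ℂ} {F : (ℕ → ℂ) → ℝ} (hx : x ∈ R) (hk : k ≤ L)
    (h : ∀ w w', (∀ i ≤ k, w i = w' i) → F w = F w') : walkExp St L x F = walkExp St k x F := by
  obtain ⟨d, rfl⟩ := Nat.exists_eq_add_of_le hk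
  rw [markov hc d k x F hx]
  refine traj_congr hc k hx fun w hw => ?_
  have e : (fun w' => F (glue k w w')) = fun _ => F w :=
    funext fun w' => h _ _ fun i hi => by simp [glue, hi]
  rw [e]
  exact const hc _ d _ (traj_mem hc hx hw k)

lemma congr (hc : Closed St R) (h : ∀ y ∈ R, St y = St' y) (L : ℕ) :
    ∀ x (F : (ℕ → ℂ) → ℝ), x ∈ R → walkExp St L x F = walkExp St' L x F := by
  induction L with
  | zero => exact fun _ _ _ => rfl
  | succ L ih =>
    intro x F hx
    rw [succ, succ, ← h x hx]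
    exact avg_congr fun y hy => ih y _ ((hc x hx).2.2 hy)

lemma abs_le' (St : ℂ → Set ℂ) (c : ℝ) (L : ℕ) : ∀ x (F : (ℕ → ℂ) → ℝ), (∀ w, |F w| ≤ c) →
    |walkExp St L x F| ≤ c := by
  induction L with
  | zero => exact fun _ _ h => h _
  | succ L ih =>
    intro x F h
    rw [succ]
    exact avg_abs_le ((abs_nonneg _).trans (h fun _ => 0)) fun y _ => ih y _ fun w => h _

lemma stop (hc : Closed St R) {I : Set ℂ} (hI : ∀ y ∈ I, St y = St' y) (c : ℝ) (L : ℕ) :
    ∀ x (F : (ℕ → ℂ) → ℝ), x ∈ R → (∀ w, |F w| ≤ c) →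
      |walkExp St L x F - walkExp St' L x F| ≤
        2 * c * walkExp St L x fun w => if ∃ i < L, w i ∉ I then 1 else 0 := by
  induction L with
  | zero =>
    intro x F _ _
    simp [walkExp]
  | succ L ih =>
    intro x F hx h
    by_cases hxI : x ∈ I
    · rw [succ, succ, succ, ← hI x hxI, ← avg_smul (hc x hx).1]
      refine avg_abs_sub (hc x hx).1 fun y hy => ?_
      have e : (fun w : ℕ → ℂ => if ∃ i < L + 1, consPath x w i ∉ I then (1 : ℝ) else 0) =
          fun w => if ∃ i < L, w i ∉ I then 1 else 0 := by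
        funext w
        refine if_congr ⟨?_, ?_⟩ rfl rfl
        · rintro ⟨i, hi, h1⟩
          cases i with
          | zero => exact absurd hxI h1
          | succ j => exact ⟨j, by omega, h1⟩
        · rintro ⟨i, hi, h1⟩
          exact ⟨i + 1, by omega, h1⟩
      rw [e]
      exact ih y _ ((hc x hx).2.2 hy) fun w => h _
    · have e : (walkExp St (L + 1) x fun w => if ∃ i < L + 1, w i ∉ I then 1 else 0) = 1 := by
        rw [traj_congr hc (L + 1) hx (F' := fun _ => 1) fun w hw =>
          if_pos ⟨0, by omega, hw.1 ▸ hxI⟩]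
        exact const hc 1 _ x hx
      have h1 := abs_le.1 (abs_le' St c (L + 1) x F h)
      have h2 := abs_le.1 (abs_le' St' c (L + 1) x F h)
      rw [e]
      exact abs_le.2 ⟨by linarith [h1.1, h2.2], by linarith [h1.2, h2.1]⟩

lemma one (N : FC) (U : Set ℂ) (x : ℂ) (u : ℂ → ℝ) (hx : x ∈ N.inside U)
    (hn : (N.G.N x).Nonempty) :
    walkExp (N.step U) 1 x (fun w => u (w 1)) = u x - N.G.lap u x / N.G.deg x := by
  have e : walkExp (N.step U) 1 x (fun w => u (w 1)) = avg (N.step U x) u := rfl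
  have h1 : ((N.G.N x).card : ℝ) ≠ 0 := by exact_mod_cast (Finset.card_pos.2 hn).ne'
  rw [e, FC.step, if_pos hx, avg, finsum_mem_coe_finset, Set.ncard_coe_finset, Net.lap, Net.deg,
    Finset.sum_sub_distrib, Finset.sum_const, nsmul_eq_mul]
  field_simp
  ring

lemma one' (N : FC) (U : Set ℂ) (x : ℂ) (u : ℂ → ℝ) (hx : x ∉ N.inside U) :
    walkExp (N.step U) 1 x (fun w => u (w 1)) = u x := by
  have e : walkExp (N.step U) 1 x (fun w => u (w 1)) = avg (N.step U x) u := rfl
  rw [e, FC.step, if_neg hx, avg, finsum_mem_singleton, Set.ncard_singleton]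
  simp

end PfWalkBasics

theorem WalkBasics_of : WalkBasics where
  mono _ _ L x F F' hc hx h := PfWalkBasics.mono hc L x F F' hx h
  add _ _ L x F F' hc hx := PfWalkBasics.add hc L x F F' hx
  smul _ _ L x c F hc hx := PfWalkBasics.smul hc c L x F hx
  const _ _ L x c hc hx := PfWalkBasics.const hc c L x hx
  traj_mem _ _ _ _ _ hc hx hw := PfWalkBasics.traj_mem hc hx hw
  markov _ _ k L x F hc hx := PfWalkBasics.markov hc L k x F hx
  trunc _ _ _ _ _ _ hc hx hk h := PfWalkBasics.trunc hc hx hk h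
  congr _ _ _ L x F hc hx h := PfWalkBasics.congr hc h L x F hx
  abs_le St L x F c h := PfWalkBasics.abs_le' St c L x F h
  stop _ _ _ _ L x F c hc hx hI h := PfWalkBasics.stop hc hI c L x F hx h
  one := PfWalkBasics.one
  one' := PfWalkBasics.one'

end Pool.Agent.Lib.MP_0d9445_pr.Walk
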