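import Pool.Agent.Lib.MP_0d9445_pr.Walk.PfGeo
import Pool.Agent.Lib.MP_0d9445_pr.Walk.PfWalkBasics
import Pool.Agent.Lib.MP_0d9445_pr.Walk.PfF1
import Pool.Agent.Lib.MP_0d9445_pr.Walk.PfF2
import Pool.Agent.Lib.MP_0d9445_pr.Walk.PfTay
import Pool.Agent.Lib.MP_0d9445_pr.Walk.PfPart
import Pool.Agent.Lib.MP_0d9445_pr.Walk.PfCS
import Pool.Agent.Lib.MP_0d9445_pr.Walk.PfIp
import Pool.Agent.Lib.MP_0d9445_pr.Walk.PfBnd
import Pool.Agent.Lib.MP_0d9445_pr.Walk.PfC5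
import Pool.Agent.Lib.MP_0d9445_pr.Walk.PfC6
import Pool.Agent.Lib.MP_0d9445_pr.Walk.PfL1
import Pool.Agent.Lib.MP_0d9445_pr.Walk.PfH5
import Pool.Agent.Lib.MP_0d9445_pr.Walk.PfH5b
import Pool.Agent.Lib.MP_0d9445_pr.Walk.PfH5c
import Pool.Agent.Lib.MP_0d9445_pr.Walk.PfH6
import Pool.Agent.Lib.MP_0d9445_pr.Walk.PfL2
import Pool.Agent.Lib.MP_0d9445_pr.Walk.PfW1
import Pool.Agent.Lib.MP_0d9445_pr.Walk.PfT1
import Pool.Agent.Lib.MP_0d9445_pr.Walk.PfT2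
import Pool.Agent.Lib.MP_0d9445_pr.Walk.PfT3
import Pool.Agent.Lib.MP_0d9445_pr.Walk.PfF3
import Pool.Agent.Lib.MP_0d9445_pr.Walk.PfF4
import Pool.Agent.Lib.MP_0d9445_pr.Walk.PfF5
import Pool.Agent.Lib.MP_0d9445_pr.Walk.PfP1
import Pool.Agent.Lib.MP_0d9445_pr.Walk.PfP2
import Pool.Agent.Lib.MP_0d9445_pr.Walk.PfP3
import Pool.Agent.Lib.MP_0d9445_pr.Walk.PfNuLow
import Pool.Agent.Lib.MP_0d9445_pr.Walk.PfLT
import Pool.Agent.Lib.MP_0d9445_pr.Walk.PfLocal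
import Pool.Agent.Lib.MP_0d9445_pr.Walk.PfGlob
import Pool.Agent.Lib.MP_0d9445_pr.Walk.PfPlane
import Pool.Agent.Lib.MP_0d9445_pr.Walk.PfMicro
import Pool.Agent.Lib.MP_0d9445_pr.Walk.PfB10
import Pool.Agent.Lib.MP_0d9445_pr.Walk.PfPolar

namespace Pool.Agent.Lib.MP_0d9445_pr.Walk

theorem geo_ok : Geo := Geo_of
theorem walkbasics_ok : WalkBasics := WalkBasics_of
theorem f1_ok : F1 := F1_of
theorem f2_ok : F2 := F2_of
theorem tay_ok : Tay := Tay_of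
theorem part_ok : Part := Part_of
theorem cs_ok : CS := CS_of
theorem ip_ok : Ip := Ip_of
theorem bnd_ok : Bnd := Bnd_of geo_ok cs_ok
theorem c5_ok : C5 := C5_of geo_ok cs_ok bnd_ok
theorem c6_ok : C6 := C6_of geo_ok cs_ok bnd_ok
theorem l1_ok : L1 := L1_of
theorem h5_ok : H5 := H5_of geo_ok bnd_ok
theorem h5b_ok : H5b := H5b_of geo_ok cs_ok bnd_ok tay_ok
theorem h5c_ok : H5c := H5c_of geo_ok cs_ok bnd_ok tay_ok part_ok h5_ok h5b_ok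
theorem h6_ok : H6 := H6_of geo_ok cs_ok bnd_ok tay_ok h5c_ok
theorem l2_ok : L2 := L2_of geo_ok cs_ok bnd_ok c5_ok c6_ok l1_ok h6_ok
theorem w1_ok : W1 := W1_of geo_ok bnd_ok
theorem t1_ok : T1 := T1_of geo_ok bnd_ok l2_ok f2_ok
theorem t2_ok : T2 := T2_of walkbasics_ok
theorem t3_ok : T3 := T3_of geo_ok walkbasics_ok bnd_ok t1_ok t2_ok
theorem f3_ok : F3 := F3_of f2_ok
theorem f4_ok : F4 := F4_of walkbasics_ok f2_ok
theorem f5_ok : F5 := F5_of geo_ok walkbasics_ok bnd_ok l2_ok f1_ok f3_ok f4_ok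
theorem p1_ok : P1 := P1_of walkbasics_ok
theorem p2_ok : P2 := P2_of walkbasics_ok ip_ok p1_ok
theorem p3_ok : P3 := P3_of walkbasics_ok
theorem nulow_ok : NuLow := NuLow_of geo_ok cs_ok
theorem micro_ok : Micro := Micro_of geo_ok
theorem b10_ok : B10 := B10_of
theorem polar_ok : Polar := Polar_of
theorem lt_ok : LT := LT_of b10_ok w1_ok t3_ok f5_ok p2_ok
theorem local_ok : Local := Local_of geo_ok walkbasics_ok cs_ok nulow_ok lt_ok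
theorem glob_ok : Glob := Glob_of geo_ok walkbasics_ok ip_ok b10_ok local_ok p3_ok
theorem plane_ok : Plane := Plane_of geo_ok b10_ok polar_ok glob_ok

end Pool.Agent.Lib.MP_0d9445_pr.Walk
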