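import Pool.Agent.Lib.MP_0d9445_pr.Walk.Hyp
import Pool.Agent.Lib.MP_0d9445_pr.BM.Strict

noncomputable section

open MeasureTheory ProbabilityTheory Set Filter Topology
open scoped NNReal ENNReal

namespace Pool.Agent.Lib.MP_0d9445_pr.Walk

open BM

variable {W : Measure Path} {μ : Measure ℂ} {A : Path → StieltjesFunction ℝ≥0}

/-- power lower bound for the mass of discs about `y` along a sequence of radii -/
def LowMass (μ : Measure ℂ) (y : ℂ) : Prop :=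
  ∃ c β : ℝ, 0 < c ∧ ∀ ε > 0, ∃ r, 0 < r ∧ r < ε ∧
    ENNReal.ofReal (c * r ^ β) ≤ μ (Metric.ball y r)

theorem pos_ae (hW : IsWiener W) (hA : IsPCAF W μ A) {O : Set ℂ} (hO : IsOpen O)
    (hF : ∀ K, IsCompact K → K ⊆ O → Frost μ K) (hL : ∀ᵐ y : ℂ, y ∈ O → LowMass μ y) :
    ∀ᵐ y : ℂ, y ∈ O → ∀ᵐ ω ∂Px W y, ∀ t, t ≠ 0 → 0 < A ω t := by
  filter_upwards [hL] with y hy hyO
  obtain ⟨K, hK, hyK, hKO⟩ := exists_compact_subset hO hyO
  obtain ⟨hfin, C, α, r₀, hα, hr₀, h⟩ := hF K hK hKO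
  obtain ⟨c, β, hc, hlow⟩ := hy hyO
  exact hA.pos_of_mass hW (mem_interior_iff_mem_nhds.1 hyK) hfin hα hr₀ h hc hlow

/-- the clock in the whole plane, from every starting point -/
theorem isClock_univ (hW : IsWiener W) (hA : IsPCAF W μ A) {O : Set ℂ} (hO : IsOpen O)
    (hO0 : volume Oᶜ = 0) (hF : ∀ K, IsCompact K → K ⊆ O → Frost μ K)
    (hL : ∀ᵐ y : ℂ, y ∈ O → LowMass μ y) (x : ℂ) : IsClock W μ univ x A := by
  have h1 : ∀ᵐ y : ℂ, ∀ᵐ ω ∂Px W y, ∀ t, t ≠ 0 → 0 < A ω t := by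
    filter_upwards [pos_ae hW hA hO hF hL, show ∀ᵐ y : ℂ, y ∈ O from hO0] with y h hy using h hy
  obtain ⟨L, -, hLx, hLa⟩ := hA.additive
  refine ⟨hA, (hLx x).mono fun ω hω => ⟨(hLa ω hω).2.1, (hLa ω hω).1⟩,
    (hA.strict hW isOpen_univ (h1.mono fun _ h _ => h) x).mono fun ω hω s t hst _ =>
      hω s t hst (mem_univ _),
    (hA.unbounded hW (h1.mono fun y h => h.mono fun ω hω => hω 1 one_ne_zero) x).mono
      fun ω hω t => (hω t).imp fun _ => Or.inl⟩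

/-- the clock in a bounded open set -/
theorem isClock_bounded (hW : IsWiener W) (hA : IsPCAF W μ A) {O O' : Set ℂ} (hO : IsOpen O)
    (hb : Bornology.IsBounded O) (hO' : IsOpen O') (hO0 : volume (O \ O') = 0)
    (hF : ∀ K, IsCompact K → K ⊆ O' → Frost μ K) (hL : ∀ᵐ y : ℂ, y ∈ O' → LowMass μ y) (x : ℂ) :
    IsClock W μ O x A := by
  have h1 : ∀ᵐ y : ℂ, y ∈ O → ∀ᵐ ω ∂Px W y, ∀ t, t ≠ 0 → 0 < A ω t := by
    filter_upwards [pos_ae hW hA hO' hF hL, measure_eq_zero_iff_ae_notMem.1 hO0] with y h hy hyO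
    exact h (by_contra fun hn => hy ⟨hyO, hn⟩)
  obtain ⟨L, -, hLx, hLa⟩ := hA.additive
  refine ⟨hA, (hLx x).mono fun ω hω => ⟨(hLa ω hω).2.1, (hLa ω hω).1⟩,
    (hA.strict hW hO h1 x).mono fun ω hω s t hst h => hω s t hst (h s hst.le),
    (hW.ae_exitT_lt_top hb x).mono fun ω hω t => ⟨_, Or.inr (notMem_exitT hO hω)⟩⟩

end Pool.Agent.Lib.MP_0d9445_pr.Walk
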