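import Pool.Agent.Lib.MP_0d9445_pr.Walk.Iface
import Pool.Agent.Lib.MP_0d9445_pr.Cell.Apriori

/-! Small facts on squares and nice nets, shared by the contour arguments. -/

noncomputable section

open MeasureTheory ProbabilityTheory Set Filter Topology
open scoped NNReal ENNReal Classical

namespace Pool.Agent.Lib.MP_0d9445_pr.Walk

open BM Cell

namespace PfCell

theorem isOpen_sqO (c : ℂ) (r : ℝ) : IsOpen (sqO c r) :=
  isOpen_lt (continuous_sn c) continuous_const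

theorem sqO_mem_nhds (c : ℂ) {r : ℝ} (hr : 0 < r) : sqO c r ∈ 𝓝 c :=
  (isOpen_sqO c r).mem_nhds (by simpa [sqO, sn_self] using hr)

theorem exists_sqC {O : Set ℂ} {c : ℂ} (h : O ∈ 𝓝 c) : ∃ r > 0, sqC c r ⊆ O := by
  obtain ⟨e, he, hb⟩ := Metric.mem_nhds_iff.1 h
  refine ⟨e / 4, by positivity, fun w hw => hb ?_⟩
  have h1 := dist_le_sn c w
  have h2 : sn c w ≤ e / 4 := hw
  rw [Metric.mem_ball]
  linarith

theorem isCompact_sqC (c : ℂ) (r : ℝ) : IsCompact (sqC c r) := by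
  refine (isCompact_closedBall c (2 * r)).of_isClosed_subset
    (isClosed_le (continuous_sn c) continuous_const) fun w hw => ?_
  have h1 := dist_le_sn c w
  have h2 : sn c w ≤ r := hw
  rw [Metric.mem_closedBall]
  linarith

/-- A closed square in an open set lies in it with some room. -/
theorem exists_room {O : Set ℂ} (hO : IsOpen O) {c : ℂ} {r : ℝ} (h : sqC c r ⊆ O) :
    ∃ τ > 0, sqC c (r + τ) ⊆ O := by
  rcases (sqC c (r + 1) \ O).eq_empty_or_nonempty with h0 | h0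
  · exact ⟨1, one_pos, sdiff_eq_empty.1 h0⟩
  · obtain ⟨w, hw, hmin⟩ := ((isCompact_sqC c (r + 1)).diff hO).exists_isMinOn h0
      (continuous_sn c).continuousOn
    have h1 : r < sn c w := lt_of_not_ge fun hh => hw.2 (h hh)
    have h2 : sn c w ≤ r + 1 := hw.1
    refine ⟨(sn c w - r) / 2, by linarith, fun v hv => ?_⟩
    have h3 : sn c v ≤ r + (sn c w - r) / 2 := hv
    by_contra hn
    have h4 : sn c w ≤ sn c v := hmin ⟨show sn c v ≤ r + 1 by linarith, hn⟩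
    linarith

/-- From a local eventual property of pairs of points to a uniform one on a compact set. -/
theorem unif {S : Set ℂ} (hS : IsCompact S) {P : ℕ → ℂ → ℂ → Prop}
    (h : ∀ c ∈ S, ∃ r > 0, ∀ᶠ n in atTop, ∀ x ∈ sqC c r, ∀ y ∈ sqC c r, P n x y) :
    ∃ δ > 0, ∀ᶠ n in atTop, ∀ x ∈ S, ∀ y, sn x y ≤ δ → P n x y := by
  refine hS.induction_on (p := fun S => ∃ δ > 0, ∀ᶠ n in atTop, ∀ x ∈ S, ∀ y, sn x y ≤ δ → P n x y)
    ⟨1, one_pos, Eventually.of_forall fun _ _ hx => absurd hx (notMem_empty _)⟩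
    (fun s t hst ⟨δ, hδ, hh⟩ => ⟨δ, hδ, hh.mono fun n hn x hx => hn x (hst hx)⟩)
    (fun s t ⟨δ, hδ, hh⟩ ⟨δ', hδ', hh'⟩ => ⟨min δ δ', lt_min hδ hδ', ?_⟩) fun c hc => ?_
  · filter_upwards [hh, hh'] with n h1 h2 x hx y hy
    exact hx.elim (fun hx => h1 x hx y (hy.trans (min_le_left _ _)))
      fun hx => h2 x hx y (hy.trans (min_le_right _ _))
  · obtain ⟨r, hr, hh⟩ := h c hc
    refine ⟨sqO c (r / 2), mem_nhdsWithin_of_mem_nhds (sqO_mem_nhds c (half_pos hr)), r / 2,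
      half_pos hr, hh.mono fun n hn x hx y hy => ?_⟩
    have h1 : sn c x < r / 2 := hx
    have h2 := sn_triangle c x y
    exact hn x (show sn c x ≤ r by linarith) y (show sn c y ≤ r by linarith)

variable {N : FC} {K : Set ℂ} {ε : ℝ}

theorem pts_subset_mt (h : N.Nice K ε) (S : Set ℂ) : N.pts S ⊆ mt N.H N.V S := fun x hx =>
  mem_mt.2 ⟨(N.mem_pts.1 hx).1, x, h.mem x (N.mem_pts.1 hx).1, (N.mem_pts.1 hx).2⟩

theorem inside_subset_pts (h : N.Nice K ε) (S : Set ℂ) : N.inside S ⊆ N.pts S := fun x hx =>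
  N.mem_pts.2 ⟨(mem_ins.1 hx).1, (mem_ins.1 hx).2 (h.mem x (mem_ins.1 hx).1)⟩

theorem pts_mono {S T : Set ℂ} (h : S ⊆ T) : N.pts S ⊆ N.pts T := fun _ hx =>
  N.mem_pts.2 ⟨(N.mem_pts.1 hx).1, h (N.mem_pts.1 hx).2⟩

theorem sn_le_of_mem (h : N.Nice K ε) {x w : ℂ} (hx : x ∈ N.V) (hw : w ∈ N.H x) : sn w x ≤ ε :=
  (sn_le_dist w x).trans (h.dist_le hx (h.mem x hx) hw)

theorem mt_subset_pts (h : N.Nice K ε) {c : ℂ} {r R : ℝ} (hR : r + ε ≤ R) :
    mt N.H N.V (sqC c r) ⊆ N.pts (sqC c R) := fun x hx => by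
  obtain ⟨h1, w, hw, hwc⟩ := mem_mt.1 hx
  have h2 : sn c w ≤ r := hwc
  have h3 := sn_le_of_mem h h1 hw
  have h4 := sn_triangle c w x
  exact N.mem_pts.2 ⟨h1, show sn c x ≤ R by linarith⟩

theorem dist_le_diam (h : N.Nice K ε) :
    ∀ x ∈ N.V, ∀ v ∈ N.H x, ∀ w ∈ N.H x, dist v w ≤ Metric.diam (N.H x) := fun x hx _ hv _ hw =>
  Metric.dist_le_diam_of_mem (h.cpt x hx).isBounded hv hw

theorem sum_mt_le (h : N.Nice K ε) {c : ℂ} {r R : ℝ} (hR : r + ε ≤ R) :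
    ∑ x ∈ mt N.H N.V (sqC c r), Metric.diam (N.H x) ^ 2 ≤ N.Y (sqC c R) :=
  Finset.sum_le_sum_of_subset_of_nonneg (mt_subset_pts h hR) fun _ _ _ => sq_nonneg _

/-- The energy of a function that vanishes off the inner vertices of `S` sits in `S`. -/
theorem en_le_of_zero {V : Type*} (G : Net V) {S : Finset V} {d : V → ℝ}
    (hd : ∀ x, x ∉ G.inner S → d x = 0) (T : Finset V) : G.en T d d ≤ G.en S d d :=
  (G.en_mono Finset.subset_union_left d).trans_eq
    (G.en_indep (G.inner_mono Finset.subset_union_right) Finset.Subset.rfl d hd)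

theorem abs_lin_le {p : ℂ} (hp : p ∈ ({1, Complex.I} : Set ℂ)) (c x : ℂ) :
    |lin p x - lin p c| ≤ sn c x := by
  rcases hp with rfl | rfl
  · simpa [lin] using (sn_le_iff.1 (le_refl (sn c x))).1
  · simpa [lin] using (sn_le_iff.1 (le_refl (sn c x))).2

end PfCell

end Pool.Agent.Lib.MP_0d9445_pr.Walk
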