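import Pool.Agent.Lib.MP_0d9445_pr.Walk.Iface

noncomputable section

open MeasureTheory ProbabilityTheory Set Filter Topology
open scoped NNReal ENNReal Classical

namespace Pool.Agent.Lib.MP_0d9445_pr.Walk

open BM Cell

namespace PfLocal

theorem mem_toFC {C : Cells} {K : Set ℂ} (h : {x | x ∈ C.V ∧ (C.H x ∩ K).Nonempty}.Finite)
    {x : ℂ} : x ∈ (C.toFC K).V ↔ x ∈ C.V ∧ (C.H x ∩ K).Nonempty := by
  simp only [Cells.toFC, dif_pos h, Finite.mem_toFinset, mem_ofPred_eq]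

/-- On the cells that meet the window the two step rules agree. -/
theorem step_eq {C : Cells} {K U : Set ℂ} (h : {x | x ∈ C.V ∧ (C.H x ∩ K).Nonempty}.Finite)
    (hU : U ⊆ K) {y : ℂ} (hy : y ∈ (C.toFC K).V) : (C.toFC K).step U y = C.step U y := by
  have hH : (C.toFC K).H = C.H := rfl
  ext v
  unfold FC.step Cells.step Cells.Adj
  by_cases hi : C.H y ⊆ U
  · have hin : y ∈ (C.toFC K).inside U := mem_ins.2 ⟨hy, hi⟩
    rw [if_pos hin, Finset.mem_coe, FC.mem_N, hH]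
    simp only [mem_ofPred_eq, hi, true_and, not_true_eq_false, false_and, or_false]
    constructor
    · rintro ⟨h1, h2, h3, h4⟩
      exact ⟨((mem_toFC h).1 h2).1, ((mem_toFC h).1 h1).1, h3, h4⟩
    · rintro ⟨-, h2, h3, w, hw⟩
      exact ⟨(mem_toFC h).2 ⟨h2, w, hw.2, hU (hi hw.1)⟩, hy, h3, w, hw⟩
  · have hin : y ∉ (C.toFC K).inside U := fun hh => hi (mem_ins.1 hh).2
    rw [if_neg hin]
    simp only [mem_singleton_iff, mem_ofPred_eq, hi, false_and, not_false_eq_true, true_and,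
      false_or]

/-- A cell inside an open subset of the window has a neighbour. -/
theorem nbr_nonempty {N : FC} {K U : Set ℂ} {ε : ℝ} (h : N.Nice K ε) (hUo : IsOpen U)
    (hU : U ⊆ K) {y : ℂ} (hy : y ∈ N.inside U) : (N.G.N y).Nonempty := by
  obtain ⟨hyV, hyU⟩ := mem_ins.1 hy
  by_contra hn
  have hcl : IsClosed (⋃ v ∈ N.V.erase y, N.H v) :=
    isClosed_biUnion_finset fun v hv => (h.cpt v (Finset.mem_of_mem_erase hv)).isClosed
  have e : N.H y = U ∩ (⋃ v ∈ N.V.erase y, N.H v)ᶜ := by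
    ext w
    constructor
    · intro hw
      refine ⟨hyU hw, fun hh => hn ?_⟩
      obtain ⟨v, hv, hwv⟩ := mem_iUnion₂.1 hh
      obtain ⟨hv1, hv2⟩ := Finset.mem_erase.1 hv
      exact ⟨v, N.mem_N.2 ⟨hv2, hyV, hv1.symm, w, hw, hwv⟩⟩
    · rintro ⟨hw, hw'⟩
      obtain ⟨v, hv, hwv⟩ := h.cover w (hU hw)
      by_cases hvy : v = y
      · exact hvy ▸ hwv
      · exact absurd (mem_iUnion₂.2 ⟨v, Finset.mem_erase.2 ⟨hvy, hv⟩, hwv⟩) hw'
  have ho : IsOpen (N.H y) := e ▸ hUo.inter hcl.isOpen_compl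
  have hu : N.H y = univ := IsClopen.eq_univ ⟨(h.cpt y hyV).isClosed, ho⟩ ⟨y, h.mem y hyV⟩
  exact noncompact_univ ℂ (hu ▸ h.cpt y hyV)

theorem closed_step {N : FC} {K U : Set ℂ} {ε : ℝ} (h : N.Nice K ε) (hUo : IsOpen U)
    (hU : U ⊆ K) : Closed (N.step U) (N.V : Set ℂ) := by
  intro y hy
  unfold FC.step
  split_ifs with hi
  · exact ⟨Finset.finite_toSet _, Finset.coe_nonempty.2 (nbr_nonempty h hUo hU hi),
      fun v hv => (N.mem_N.1 hv).1⟩
  · exact ⟨finite_singleton _, singleton_nonempty _, singleton_subset_iff.2 hy⟩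

/-- The energy constants are eventually bounded above and below. -/
theorem a_bdd (hGeo : Geo) (hCS : CS) (hNuLow : NuLow) {O K : Set ℂ} {μ : Measure ℂ}
    {C : ℕ → Cells} {Γ : ℕ → Set ℂ} {a M : ℕ → ℝ} (hE : Env O μ C Γ a M) (hK : IsCompact K)
    (hKO : K ⊆ O) (hne : (interior K).Nonempty) :
    ∃ lo hi : ℝ, 0 < lo ∧ ∀ᶠ n in atTop, a n ∈ Icc lo hi := by
  obtain ⟨FF, hc, hch, hnull, hnu⟩ := hE.nu
  obtain ⟨hch', hnull'⟩ := hGeo.null_sub FF O (interior K) hc hch hnull isOpen_interior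
    (interior_subset.trans hKO)
  have hFF : {s | s ∈ FF ∧ closure (box s.1 s.2) ⊆ interior K}.Nonempty := by
    by_contra hn
    rw [not_nonempty_iff_eq_empty] at hn
    rw [hn] at hnull'
    simp only [cov, mem_empty_iff_false, iUnion_of_empty, iUnion_empty, sdiff_empty] at hnull'
    exact (isOpen_interior.measure_pos volume hne).ne' hnull'
  obtain ⟨s, hs⟩ := hFF
  have hl : 0 < s.2 := (hch' s hs).1
  have hs' := hGeo.desc _ hch' s hs 2 1 1 (by norm_num) (by norm_num)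
  set c : ℂ := sub s.1 s.2 2 1 1 with hcdef
  set l : ℝ := s.2 / 2 ^ 2 with hldef
  have hl0 : 0 < l := by positivity
  have hsq : sqC (ctr c l) l ⊆ K := by
    refine Subset.trans ?_ (hs.2.trans interior_subset)
    rw [(hGeo.box_sq s.1 s.2 hl).1]
    intro w hw
    obtain ⟨h1, h2⟩ := sn_le_iff.1 hw
    have e1 : (ctr c l).re = s.1.re + 3 * s.2 / 8 := by
      simp only [ctr, hcdef, hldef, sub, Complex.add_re, Complex.mul_re, Complex.ofReal_re,
        Complex.ofReal_im, Complex.one_re, Complex.I_re, Complex.add_im, Complex.one_im,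
        Complex.I_im, Nat.cast_one, Complex.mul_im]
      ring
    have e2 : (ctr c l).im = s.1.im + 3 * s.2 / 8 := by
      simp only [ctr, hcdef, hldef, sub, Complex.add_re, Complex.mul_re, Complex.ofReal_re,
        Complex.ofReal_im, Complex.one_re, Complex.I_re, Complex.add_im, Complex.one_im,
        Complex.I_im, Nat.cast_one, Complex.mul_im]
      ring
    have e3 : (ctr s.1 s.2).re = s.1.re + s.2 / 2 := by
      simp only [ctr, Complex.add_re, Complex.mul_re, Complex.ofReal_re,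
        Complex.ofReal_im, Complex.one_re, Complex.I_re, Complex.add_im, Complex.one_im,
        Complex.I_im]
      ring
    have e4 : (ctr s.1 s.2).im = s.1.im + s.2 / 2 := by
      simp only [ctr, Complex.add_re, Complex.ofReal_re,
        Complex.ofReal_im, Complex.one_re, Complex.I_re, Complex.add_im, Complex.one_im,
        Complex.I_im, Complex.mul_im]
      ring
    rw [e1, abs_le, hldef] at h1
    rw [e2, abs_le, hldef] at h2
    refine sn_le_iff.2 ⟨?_, ?_⟩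
    · rw [e3, abs_le]; constructor <;> linarith [h1.1, h1.2]
    · rw [e4, abs_le]; constructor <;> linarith [h2.1, h2.2]
  have hbox : box c l ⊆ sqC (ctr c l) l := by
    refine subset_closure.trans ?_
    rw [(hGeo.box_sq c l hl0).1]
    exact sqC_mono _ (by linarith)
  obtain ⟨Cst, hCst⟩ := hE.xy K hK hKO
  have hlim := hnu K hK hKO (c, l) hs'.1 hs'.2 1 (by simp)
  set D : ℝ := max Cst 1 with hD
  have hD0 : 0 < D := lt_of_lt_of_le one_pos (le_max_right _ _)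
  have hCD : Cst * l ^ 2 ≤ D * l ^ 2 := mul_le_mul_of_nonneg_right (le_max_left _ _) (sq_nonneg _)
  have hb : 0 < l ^ 2 / (4000 * D) := by positivity
  refine ⟨1 / (4000 * D), D + 1 / (4000 * D), by positivity, ?_⟩
  filter_upwards [hE.nice K hK hKO (l / 20) (by positivity), hCst _ l hl0 hsq,
    Metric.tendsto_nhds.1 hlim _ hb] with n h1 h2 h3
  obtain ⟨g1, g2⟩ := hNuLow _ K _ c l h1.2 hl0 le_rfl hsq
  obtain ⟨-, -, g3, g4⟩ := hCS.2.2.2 ((C n).toFC K) _ _ hbox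
  have g0 : 0 ≤ ((C n).toFC K).nu (box c l) 1 := Net.nu_nonneg _ _ _
  simp only [norm_one, one_pow, mul_one, Real.dist_eq, sub_zero, abs_lt] at h3
  set v : ℝ := ((C n).toFC K).nu (box c l) 1 with hv
  have hl2 : 0 < l ^ 2 := by positivity
  have k1 : v ≤ D * l ^ 2 := by linarith [h2.1]
  have k2 : l ^ 4 / 2000 ≤ v * (D * l ^ 2) :=
    g1.trans (mul_le_mul_of_nonneg_left (by linarith [h2.2]) g0)
  have k3 : 2 * (l ^ 2 / (4000 * D)) ≤ v := by
    have : l ^ 2 / 2000 ≤ v * D := by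
      refine le_of_mul_le_mul_right ?_ hl2
      nlinarith
    rw [show 2 * (l ^ 2 / (4000 * D)) = l ^ 2 / 2000 / D by field_simp; norm_num, div_le_iff₀ hD0]
    exact this
  have e : l ^ 2 / (4000 * D) = 1 / (4000 * D) * l ^ 2 := by ring
  constructor
  · refine le_of_mul_le_mul_right ?_ hl2
    linarith [h3.1, h3.2]
  · refine le_of_mul_le_mul_right ?_ hl2
    linarith [h3.1, h3.2]

theorem env_sub {O : Set ℂ} {μ : Measure ℂ} {C : ℕ → Cells} {Γ : ℕ → Set ℂ} {a M : ℕ → ℝ}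
    (hE : Env O μ C Γ a M) {ψ : ℕ → ℕ} (hψ : Tendsto ψ atTop atTop) :
    Env O μ (fun n => C (ψ n)) (fun n => Γ (ψ n)) (fun n => a (ψ n)) (fun n => M (ψ n)) where
  mem n := hE.mem (ψ n)
  nice K hK hO ε hε := hψ.eventually (hE.nice K hK hO ε hε)
  xy K hK hO := by
    obtain ⟨Cst, h⟩ := hE.xy K hK hO
    exact ⟨Cst, fun c r hr hs => hψ.eventually (h c r hr hs)⟩
  a_pos n := hE.a_pos (ψ n)
  nu := by
    obtain ⟨FF, h1, h2, h3, h4⟩ := hE.nu
    exact ⟨FF, h1, h2, h3, fun K hK hO s hs hc p hp => (h4 K hK hO s hs hc p hp).comp hψ⟩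
  M_top := hE.M_top.comp hψ
  mass K hK hO φ h1 h2 := (hE.mass K hK hO φ h1 h2).comp hψ
  frost := hE.frost
  green K hK hO ε hε := by
    obtain ⟨δ, hδ, h⟩ := hE.green K hK hO ε hε
    exact ⟨δ, hδ, fun r h1 h2 => hψ.eventually (h r h1 h2)⟩

theorem bad_sub {O : Set ℂ} {C : ℕ → Cells} {Γ : ℕ → Set ℂ} {M : ℕ → ℝ} {x : ℕ → ℂ}
    (hB : BadNegl O C Γ M x) {ψ : ℕ → ℕ} (hψ : Tendsto ψ atTop atTop) :
    BadNegl O (fun n => C (ψ n)) (fun n => Γ (ψ n)) (fun n => M (ψ n)) (fun n => x (ψ n)) :=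
  fun K U h1 h2 h3 h4 ε hε => hψ.eventually (hB K U h1 h2 h3 h4 ε hε)

/-- Rescaling the source of a boundary value problem. -/
theorem sol_scale {G : Net ℂ} {F : Finset ℂ} {f g u : ℂ → ℝ} {c : ℝ} (hc : 0 < c)
    (hfg : ∀ y, f y = c * g y) (h : G.Sol F 0 f 0 u) : G.Sol F 0 g 0 (c⁻¹ • u) := by
  have h' := h.smul c⁻¹
  rw [smul_zero] at h'
  have e : c⁻¹ • f = g := by
    funext y
    rw [Pi.smul_apply, hfg, smul_eq_mul, inv_mul_cancel_left₀ hc.ne']
  exact e ▸ h'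

theorem le_of_scale {c B ε t : ℝ} (hc : 0 < c) (hB : c ≤ B) (hε : 0 < ε)
    (h : c⁻¹ * t ≤ ε / B) : t ≤ ε := by
  have hB0 : 0 < B := hc.trans_le hB
  rw [inv_mul_le_iff₀ hc] at h
  refine h.trans ?_
  rw [← mul_div_assoc, div_le_iff₀ hB0]
  nlinarith

theorem m_top {a M : ℕ → ℝ} {hi : ℝ} (ha : ∀ n, 0 < a n) (hb : ∀ᶠ n in atTop, a n ≤ hi)
    (hM : Tendsto M atTop atTop) : Tendsto (fun n => M n / (2 * a n)) atTop atTop := by
  obtain ⟨n₀, hn₀⟩ := hb.exists
  have hhi : 0 < hi := (ha n₀).trans_le hn₀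
  refine tendsto_atTop_mono' atTop ?_ (hM.atTop_div_const (r := 2 * hi) (by positivity))
  filter_upwards [hb, hM.eventually_ge_atTop 0] with n h1 h2
  have := ha n
  exact div_le_div_of_nonneg_left h2 (by positivity) (by linarith)

/-- The mass function on the time scale `M n / (2 a n)`. -/
def rho (K : Set ℂ) (C : ℕ → Cells) (Γ : ℕ → Set ℂ) (a M : ℕ → ℝ) (n : ℕ) (y : ℂ) : ℝ :=
  (if y ∈ Γ n then ((C n).toFC K).G.deg y else 0) / |M n / (2 * a n)|

theorem rho_eq {K : Set ℂ} {C : ℕ → Cells} {Γ : ℕ → Set ℂ} {a M : ℕ → ℝ} {n : ℕ} (ha : 0 < a n)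
    (hM : 0 < M n) (y : ℂ) : rho K C Γ a M n y =
      2 * a n * ((if y ∈ Γ n then ((C n).toFC K).G.deg y else 0) / M n) := by
  rw [rho, abs_of_pos (by positivity)]
  field_simp

theorem good_of (hGeo : Geo) {O K : Set ℂ} {μ : Measure ℂ} {C : ℕ → Cells} {Γ : ℕ → Set ℂ}
    {a M : ℕ → ℝ} (hE : Env O μ C Γ a M) (hK : IsCompact K) (hKO : K ⊆ O) {a₀ : ℝ} (h0 : 0 < a₀)
    (ha : Tendsto a atTop (𝓝 a₀)) :
    ∃ FF, Good K μ a₀ (fun n => (C n).toFC K) (rho K C Γ a M) FF := by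
  obtain ⟨FF, hc, hch, hnull, hnu⟩ := hE.nu
  obtain ⟨hch', hnull'⟩ := hGeo.null_sub FF O (interior K) hc hch hnull isOpen_interior
    (interior_subset.trans hKO)
  have hM := hE.M_top.eventually_gt_atTop 0
  refine ⟨_, hK, h0, fun ε hε => (hE.nice K hK hKO ε hε).mono fun n h => h.2, hE.xy K hK hKO,
    hch', fun s hs => hs.2, hnull', fun s hs p hp => ?_, fun n y => ?_, fun φ h1 h2 => ?_,
    hE.frost K hK hKO, fun ε hε => ?_⟩
  · have := (hnu K hK hKO s hs.1 hs.2 p hp).add ((ha.mul_const (‖p‖ ^ 2)).mul_const (s.2 ^ 2))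
    simpa only [sub_add_cancel, zero_add] using this
  · refine div_nonneg ?_ (abs_nonneg _)
    split_ifs
    · exact Nat.cast_nonneg _
    · exact le_rfl
  · refine ((ha.const_mul 2).mul (hE.mass K hK hKO φ h1 h2)).congr' ?_
    filter_upwards [hM] with n hn
    rw [Finset.sum_div, Finset.mul_sum]
    refine Finset.sum_congr rfl fun y _ => ?_
    rw [rho_eq (hE.a_pos n) hn]
    ring
  · obtain ⟨δ, hδ, h⟩ := hE.green K hK hKO (ε / (2 * (a₀ + 1))) (by positivity)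
    refine ⟨δ, hδ, fun r h1 h2 => ?_⟩
    filter_upwards [h r h1 h2, hM, ha.eventually_le_const (lt_add_one a₀)] with n g1 g2 g3
    intro c u hs hu y
    have hp : 0 < 2 * a n := by linarith [hE.a_pos n]
    exact le_of_scale hp (by linarith) hε
      (g1 c _ hs (sol_scale hp (rho_eq (hE.a_pos n) g2) hu) y)

theorem start_mem {O K U : Set ℂ} {μ : Measure ℂ} {C : ℕ → Cells} {Γ : ℕ → Set ℂ}
    {a M : ℕ → ℝ} (hE : Env O μ C Γ a M) (hK : IsCompact K) (hKO : K ⊆ O) (hUo : IsOpen U)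
    (hU : U ⊆ K) {x : ℕ → ℂ} {z : ℂ} (hx : ∀ᶠ n in atTop, x n ∈ (C n).V)
    (hz : Tendsto x atTop (𝓝 z)) (hzU : z ∈ U) :
    ∀ᶠ n in atTop, x n ∈ ((C n).toFC K).V ∧
      Closed (((C n).toFC K).step U) (((C n).toFC K).V : Set ℂ) ∧
      ∀ y ∈ (((C n).toFC K).V : Set ℂ), ((C n).toFC K).step U y = (C n).step U y := by
  filter_upwards [hE.nice K hK hKO 1 one_pos, hx, hz.eventually (hUo.mem_nhds hzU)]
    with n h1 h2 h3
  exact ⟨(mem_toFC h1.1).2 ⟨h2, x n, hE.mem n _ h2, hU h3⟩, closed_step h1.2 hUo hU,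
    fun y hy => step_eq h1.1 hU hy⟩

theorem data_of {O K U : Set ℂ} {μ : Measure ℂ} {C : ℕ → Cells} {Γ : ℕ → Set ℂ}
    {a M : ℕ → ℝ} (hE : Env O μ C Γ a M) (hK : IsCompact K) (hKO : K ⊆ O) (hUo : IsOpen U)
    (hU : closure U ⊆ interior K) {x : ℕ → ℂ} {z : ℂ} (hB : BadNegl O C Γ M x)
    (hx : ∀ᶠ n in atTop, x n ∈ (C n).V) (hz : Tendsto x atTop (𝓝 z)) (hzU : z ∈ U) {a₀ : ℝ}
    (h0 : 0 < a₀) (ha : Tendsto a atTop (𝓝 a₀)) :
    WalkData U (fun n => (C n).toFC K) (rho K C Γ a M) (fun n => M n / (2 * a n)) x z := by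
  have hM := hE.M_top.eventually_gt_atTop 0
  have hhi := ha.eventually_le_const (lt_add_one a₀)
  refine ⟨m_top hE.a_pos hhi hE.M_top, ?_, (start_mem hE hK hKO hUo
    (subset_closure.trans (hU.trans interior_subset)) hx hz hzU).mono fun n h => h.1, hz,
    fun ε hε => ?_⟩
  · filter_upwards [hM] with n hn y
    have hp := hE.a_pos n
    rw [rho, abs_of_pos (by positivity)]
    refine div_le_div_of_nonneg_right ?_ (by positivity)
    split_ifs
    · exact le_rfl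
    · exact Nat.cast_nonneg _
  · filter_upwards [hB K U hK hKO hUo hU (ε / (2 * (a₀ + 1))) (by positivity), hM, hhi]
      with n g1 g2 g3 u hu
    have hp : 0 < 2 * a n := by linarith [hE.a_pos n]
    refine le_of_scale hp (by linarith) hε (g1 _ (sol_scale hp (fun y => ?_) hu))
    rw [rho_eq (hE.a_pos n) g2]
    split_ifs <;> field_simp <;> ring

end PfLocal

open PfLocal in
theorem Local_of (hGeo : Geo) (hWalkBasics : WalkBasics) (hCS : CS) (hNuLow : NuLow) (hLT : LT) : Local := by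
  intro W O O₂ U μ C Γ a M x z A hW hA hO₂ hO hE hB hx hz hUo hUb hUO hF hzU
  obtain ⟨K, hK, hUK, hKO⟩ := exists_compact_between hUb.isCompact_closure hO hUO
  have hU : U ⊆ K := subset_closure.trans (hUK.trans interior_subset)
  obtain ⟨lo, hi, hlo, hab⟩ := a_bdd hGeo hCS hNuLow hE hK hKO ⟨z, hUK (subset_closure hzU)⟩
  have key : ∀ ns : ℕ → ℕ, Tendsto ns atTop atTop → ∃ ms : ℕ → ℕ,
      PathConvLip (Px W z) (fun t ω => lbmPath ω (A z ω) U t)
        (fun n => (C (ns (ms n))).step U) (fun n => x (ns (ms n)))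
        (fun n => M (ns (ms n)) / (2 * a (ns (ms n)))) := by
    intro ns hns
    obtain ⟨a₀, ha₀, ms, hms, hlim⟩ :=
      isCompact_Icc.tendsto_subseq' (x := fun n => a (ns n)) (hns.eventually hab).frequently
    have hψ : Tendsto (fun n => ns (ms n)) atTop atTop := hns.comp hms.tendsto_atTop
    have h0 : 0 < a₀ := hlo.trans_le ha₀.1
    have hE' := env_sub hE hψ
    obtain ⟨FF, hG⟩ := good_of hGeo hE' hK hKO h0 hlim
    have hD := data_of hE' hK hKO hUo hUK (bad_sub hB hψ) (hψ.eventually hx) (hz.comp hψ) hzU h0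
      hlim
    have hP := hLT W K μ a₀ _ _ FF U _ _ z O₂ A hW (fun y hy => hA y (hKO hy)) (hKO.trans hO₂) hG
      ⟨hUo, hUK, hF⟩ hD hzU
    refine ⟨ms, fun T hT F L c h1 h2 => ⟨(hP T hT F L c h1 h2).1,
      (hP T hT F L c h1 h2).2.congr' ?_⟩⟩
    filter_upwards [hψ.eventually (start_mem hE hK hKO hUo hU hx hz hzU)] with n hn
    exact hWalkBasics.congr _ _ _ _ _ _ hn.2.1 hn.1 hn.2.2
  refine ⟨⟨fun n => (((C n).toFC K).V : Set ℂ), ?_⟩,
    m_top hE.a_pos (hab.mono fun n h => h.2) hE.M_top, fun T hT F L c h1 h2 => ⟨?_, ?_⟩⟩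
  · filter_upwards [start_mem hE hK hKO hUo hU hx hz hzU] with n hn
    refine ⟨hn.1, fun y hy => ?_⟩
    rw [← hn.2.2 y hy]
    exact hn.2.1 y hy
  · obtain ⟨ms, h⟩ := key id tendsto_id
    exact (h T hT F L c h1 h2).1
  · refine tendsto_of_subseq_tendsto fun ns hns => ?_
    obtain ⟨ms, h⟩ := key ns hns
    exact ⟨ms, (h T hT F L c h1 h2).2⟩

end Pool.Agent.Lib.MP_0d9445_pr.Walk
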