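import Pool.Agent.Lib.MP_0d9445_pr.Walk.ClockOf

noncomputable section

open MeasureTheory ProbabilityTheory Set Filter Topology
open scoped NNReal ENNReal

namespace Pool.Agent.Lib.MP_0d9445_pr.Walk

open BM

/-- the clock in an open set that the motion leaves -/
theorem isClock_exit {W : Measure Path} {μ : Measure ℂ} {A : Path → StieltjesFunction ℝ≥0}
    (hW : IsWiener W) (hA : IsPCAF W μ A) {O O' : Set ℂ} (hO : IsOpen O) (hO' : IsOpen O')
    (hO0 : volume (O \ O') = 0) (hF : ∀ K, IsCompact K → K ⊆ O' → Frost μ K)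
    (hL : ∀ᵐ y : ℂ, y ∈ O' → LowMass μ y) {x : ℂ} (hx : ∀ᵐ ω ∂Px W x, ∃ t, ω t ∉ O) :
    IsClock W μ O x A := by
  have h1 : ∀ᵐ y : ℂ, y ∈ O → ∀ᵐ ω ∂Px W y, ∀ t, t ≠ 0 → 0 < A ω t := by
    filter_upwards [pos_ae hW hA hO' hF hL, measure_eq_zero_iff_ae_notMem.1 hO0] with y h hy hyO
    exact h (by_contra fun hn => hy ⟨hyO, hn⟩)
  obtain ⟨L, -, hLx, hLa⟩ := hA.additive
  exact ⟨hA, (hLx x).mono fun ω hω => ⟨(hLa ω hω).2.1, (hLa ω hω).1⟩,
    (hA.strict hW hO h1 x).mono fun ω hω s t hst h => hω s t hst (h s hst.le),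
    hx.mono fun ω hω t => hω.imp fun _ => Or.inr⟩

end Pool.Agent.Lib.MP_0d9445_pr.Walk
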