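import Pool.Agent.Lib.MP_0d9445_pr.Walk.Iface

noncomputable section

open MeasureTheory ProbabilityTheory Set Filter Topology
open scoped NNReal ENNReal Classical

namespace Pool.Agent.Lib.MP_0d9445_pr.Walk

open BM Cell

namespace PfC5

/-- The energy of `u` is bounded by the energy of the data and the pairing with the source. -/
theorem en_le {V : Type*} (G : Net V) {S F : Finset V} (hF : F ⊆ G.inner S) {u g ρ : V → ℝ}
    {L M : ℝ} (hL : 0 ≤ L) (hM : 0 ≤ M) (hρ : ∀ x, 0 ≤ ρ x) (hb : ∀ x, x ∉ F → u x = g x)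
    (hs : ∀ x ∈ F, |G.lap u x| ≤ L * ρ x) (hd : ∀ x ∈ F, |u x - g x| ≤ M) :
    G.en S u u ≤ G.en S g g + 2 * (L * M * ∑ x ∈ S, ρ x) := by
  have h1 : G.en S u (u - g) = ∑ x ∈ F, G.lap u x * (u - g) x :=
    G.en_eq_sum hF u fun x hx => by simp [hb x hx]
  have h2 : ∑ x ∈ F, G.lap u x * (u - g) x ≤ ∑ x ∈ F, L * M * ρ x := by
    refine Finset.sum_le_sum fun x hx => ?_
    have a := hs x hx
    have b := hd x hx
    calc G.lap u x * (u - g) x ≤ |G.lap u x * (u - g) x| := le_abs_self _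
      _ = |G.lap u x| * |u x - g x| := by rw [abs_mul]; rfl
      _ ≤ L * ρ x * M := mul_le_mul a b (abs_nonneg _) (mul_nonneg hL (hρ x))
      _ = L * M * ρ x := by ring
  have h3 : ∑ x ∈ F, L * M * ρ x ≤ ∑ x ∈ S, L * M * ρ x :=
    Finset.sum_le_sum_of_subset_of_nonneg (hF.trans (G.inner_subset S)) fun x _ _ =>
      mul_nonneg (mul_nonneg hL hM) (hρ x)
  rw [← Finset.mul_sum S] at h3
  have h4 := G.en_nonneg S (u - g)
  rw [G.en_sub_self] at h4
  rw [G.en_sub_right] at h1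
  linarith

end PfC5

theorem C5_of (_hGeo : Geo) (hCS : CS) (hBnd : Bnd) : C5 := by
  intro K μ a N ρ FF U g L u hG _ hUK hg hS K' hK' hK'K
  have hL : 0 ≤ L := by
    have := hg 1 0
    simp only [sub_zero, norm_one, mul_one] at this
    exact (abs_nonneg _).trans this
  have hU : IsCompact (closure U) :=
    hG.cpt.of_isClosed_subset isClosed_closure (hUK.trans interior_subset)
  have h0 : IsCompact (K' ∪ closure U) := hK'.union hU
  obtain ⟨δ, hδ, hsub⟩ := h0.exists_cthickening_subset_open isOpen_interior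
    (union_subset hK'K hUK)
  set K2 := Metric.cthickening δ (K' ∪ closure U) with hK2
  have hc : IsCompact K2 := h0.cthickening
  obtain ⟨R, hR⟩ := hc.isBounded.exists_norm_le
  obtain ⟨C, hC0, hC⟩ := (hBnd K μ a N ρ FF hG).1 K2 hc hsub
  have hgb : ∀ x ∈ K2, |g x| ≤ |g 0| + L * |R| := fun x hx => by
    have h1 := hg x 0
    rw [sub_zero] at h1
    have h2 : L * ‖x‖ ≤ L * |R| := mul_le_mul_of_nonneg_left ((hR x hx).trans (le_abs_self R)) hL
    have h3 : |g x| ≤ |g 0| + |g x - g 0| := by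
      have := abs_add_le (g 0) (g x - g 0)
      simpa using this
    linarith
  have hM : 0 ≤ L + (|g 0| + L * |R|) := by positivity
  refine ⟨L ^ 2 * C + 2 * (L * (L + (|g 0| + L * |R|)) * C), ?_⟩
  filter_upwards [hC, hG.nice (δ / 2) (by positivity), hS.bdry, hS.src, hS.bdd] with n hn hN hb hs hd
  have hin : ∀ x ∈ (N n).inside U, x ∈ K' ∪ closure U := fun x hx =>
    Or.inr (subset_closure ((mem_ins.1 hx).2 (hN.mem x (mem_ins.1 hx).1)))
  have hF : (N n).inside U ⊆ (N n).G.inner ((N n).pts K2) := fun x hx => by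
    refine (N n).G.mem_inner.2 ⟨(N n).mem_pts.2 ⟨(mem_ins.1 hx).1,
      Metric.self_subset_cthickening _ (hin x hx)⟩, fun y hy => ?_⟩
    refine (N n).mem_pts.2 ⟨((N n).mem_N.1 hy).1, ?_⟩
    refine Metric.mem_cthickening_of_dist_le y x δ _ (hin x hx) ?_
    have := hN.nbr_le hy
    rw [dist_comm, dist_eq_norm]
    linarith
  have h1 := PfC5.en_le (N n).G hF hL hM (hG.rho_nonneg n) hb hs fun x hx => by
    have a1 := hd x hx
    have a2 := hgb x (Metric.self_subset_cthickening _ (hin x hx))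
    have a3 := abs_sub (u n x) (g x)
    linarith
  have h2 := hCS.2.2.1 (N n) K2 g L hg
  have h3 : L ^ 2 * (N n).X K2 ≤ L ^ 2 * C := mul_le_mul_of_nonneg_left hn.1 (sq_nonneg L)
  have h4 : L * (L + (|g 0| + L * |R|)) * ∑ x ∈ (N n).pts K2, ρ n x ≤
      L * (L + (|g 0| + L * |R|)) * C := mul_le_mul_of_nonneg_left hn.2.2 (mul_nonneg hL hM)
  have h5 : (N n).pts K' ⊆ (N n).pts K2 := fun x hx =>
    (N n).mem_pts.2 ⟨((N n).mem_pts.1 hx).1,
      Metric.self_subset_cthickening _ (Or.inl ((N n).mem_pts.1 hx).2)⟩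
  have h6 := (N n).G.en_mono h5 (u n)
  linarith

end Pool.Agent.Lib.MP_0d9445_pr.Walk
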