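import Pool.Agent.Lib.MP_0d9445_pr.Walk.Iface

noncomputable section

open MeasureTheory ProbabilityTheory Set Filter Topology
open scoped NNReal ENNReal Classical

namespace Pool.Agent.Lib.MP_0d9445_pr.Walk

open BM Cell

namespace PfT2

/-- the path after one step -/
def tl (w : ℕ → ℂ) (i : ℕ) : ℂ := w (i + 1)

/-- an exit from the neighbourhood of the current anchor happens at age at most `d` -/
def bad (In : ℂ → Set ℂ) (d : ℕ) : ℕ → ℂ → ℕ → (ℕ → ℂ) → Prop
  | 0, _, _, _ => False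
  | N + 1, a, s, w =>
    (w 1 ∈ In a ∧ bad In d N a (s + 1) (tl w)) ∨
      (w 1 ∉ In a ∧ (s + 1 ≤ d ∨ bad In d N (w 1) 0 (tl w)))

theorem step (St : ℂ → Set ℂ) (N : ℕ) (y : ℂ) (F : (ℕ → ℂ) → ℝ) :
    walkExp St (N + 1) y F =
      walkExp St 1 y fun w => walkExp St N (w 1) fun w' => F (consPath y w') := rfl

theorem tl_cons (y : ℂ) (w : ℕ → ℂ) : tl (consPath y w) = w := rfl

theorem traj_tl {St : ℂ → Set ℂ} {N : ℕ} {y : ℂ} {w : ℕ → ℂ} (h : IsTraj St (N + 1) y w) :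
    IsTraj St N (w 1) (tl w) :=
  ⟨rfl, fun i hi => h.2.1 (i + 1) (by omega), fun i hi => h.2.2 (i + 1) (by omega)⟩

section det

variable {St : ℂ → Set ℂ} {R : Set ℂ} {In : ℂ → Set ℂ} {η ε : ℝ} {d : ℕ}

theorem near_young (hIn : ∀ a ∈ R, ∀ y ∈ In a, ‖y - a‖ ≤ η) :
    ∀ (N : ℕ) (a : ℂ) (s : ℕ) (w : ℕ → ℂ), a ∈ R → w 0 ∈ In a → ¬ bad In d N a s w →
      ∀ j ≤ N, s + j ≤ d → ‖w j - a‖ ≤ η := by
  intro N
  induction N with
  | zero =>
    intro a s w ha hw _ j hj _
    obtain rfl : j = 0 := by omega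
    exact hIn a ha _ hw
  | succ N ih =>
    intro a s w ha hw hb j hj hs
    rcases j with _ | j
    · exact hIn a ha _ hw
    by_cases h1 : w 1 ∈ In a
    · exact ih a (s + 1) (tl w) ha h1 (fun k => hb (Or.inl ⟨h1, k⟩)) j (by omega) (by omega)
    · exact absurd (Or.inr ⟨h1, Or.inl (by omega)⟩) hb

theorem near_any (hC : Closed St R) (hε : ∀ y ∈ R, ∀ y' ∈ St y, ‖y - y'‖ ≤ ε)
    (hself : ∀ a ∈ R, a ∈ In a) (hIn : ∀ a ∈ R, ∀ y ∈ In a, ‖y - a‖ ≤ η) :
    ∀ (N : ℕ) (a : ℂ) (s : ℕ) (y : ℂ) (w : ℕ → ℂ), a ∈ R → y ∈ R → y ∈ In a → IsTraj St N y w →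
      ¬ bad In d N a s w → ∀ j ≤ N, j ≤ d → ‖w j - a‖ ≤ 2 * η + ε := by
  have h0 : ∀ a ∈ R, ∀ y ∈ In a, ‖y - a‖ ≤ 2 * η + ε := by
    intro a ha y hy
    obtain ⟨y', hy'⟩ := (hC a ha).2.1
    have e1 := hIn a ha y hy
    have e2 := (norm_nonneg _).trans (hε a ha y' hy')
    have e3 := norm_nonneg (y - a)
    linarith
  intro N
  induction N with
  | zero =>
    intro a s y w ha _ hy hw _ j hj _
    obtain rfl : j = 0 := by omega
    rw [hw.1]
    exact h0 a ha y hy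
  | succ N ih =>
    intro a s y w ha hyR hy hw hb j hj hs
    rcases j with _ | j
    · rw [hw.1]
      exact h0 a ha y hy
    have hst : w 1 ∈ St y := by
      have := hw.2.1 0 (by omega)
      rwa [hw.1] at this
    have h1R : w 1 ∈ R := (hC y hyR).2.2 hst
    by_cases h1 : w 1 ∈ In a
    · exact ih a (s + 1) (w 1) (tl w) ha h1R h1 (traj_tl hw) (fun k => hb (Or.inl ⟨h1, k⟩)) j
        (by omega) (by omega)
    · have e1 : ‖w (j + 1) - w 1‖ ≤ η := near_young hIn N (w 1) 0 (tl w) h1R (hself _ h1R)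
        (fun k => hb (Or.inr ⟨h1, Or.inr k⟩)) j (by omega) (by omega)
      have e2 : ‖w 1 - y‖ ≤ ε := by rw [norm_sub_rev]; exact hε y hyR _ hst
      have e3 := hIn a ha y hy
      have e4 : w (j + 1) - a = (w (j + 1) - w 1) + (w 1 - y) + (y - a) := by ring
      have e5 := norm_add₃_le (a := w (j + 1) - w 1) (b := w 1 - y) (c := y - a)
      rw [e4]
      linarith

theorem window (hC : Closed St R) (hε : ∀ y ∈ R, ∀ y' ∈ St y, ‖y - y'‖ ≤ ε)
    (hself : ∀ a ∈ R, a ∈ In a) (hIn : ∀ a ∈ R, ∀ y ∈ In a, ‖y - a‖ ≤ η) :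
    ∀ (N : ℕ) (a : ℂ) (s : ℕ) (y : ℂ) (w : ℕ → ℂ), a ∈ R → y ∈ R → y ∈ In a → IsTraj St N y w →
      ¬ bad In d N a s w → ∀ i j, i ≤ j → j ≤ N → j - i ≤ d → ‖w i - w j‖ ≤ 3 * η + ε := by
  have h0 : ∀ (N : ℕ) (a : ℂ) (s : ℕ) (y : ℂ) (w : ℕ → ℂ), a ∈ R → y ∈ R → y ∈ In a →
      IsTraj St N y w → ¬ bad In d N a s w → ∀ j, j ≤ N → j ≤ d → ‖w 0 - w j‖ ≤ 3 * η + ε := by
    intro N a s y w ha hyR hy hw hb j hj hd
    have e1 := near_any hC hε hself hIn N a s y w ha hyR hy hw hb j hj hd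
    have e2 := hIn a ha y hy
    have e3 : w 0 - w j = (y - a) - (w j - a) := by rw [hw.1]; ring
    have e4 := norm_sub_le (y - a) (w j - a)
    rw [e3]
    linarith
  intro N
  induction N with
  | zero =>
    intro a s y w ha hyR hy hw hb i j hij hj hd
    obtain rfl : i = 0 := by omega
    exact h0 0 a s y w ha hyR hy hw hb j hj (by omega)
  | succ N ih =>
    intro a s y w ha hyR hy hw hb i j hij hj hd
    rcases i with _ | i
    · exact h0 _ a s y w ha hyR hy hw hb j hj (by omega)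
    obtain ⟨j, rfl⟩ : ∃ j', j = j' + 1 := ⟨j - 1, by omega⟩
    have hst : w 1 ∈ St y := by
      have := hw.2.1 0 (by omega)
      rwa [hw.1] at this
    have h1R : w 1 ∈ R := (hC y hyR).2.2 hst
    by_cases h1 : w 1 ∈ In a
    · exact ih a (s + 1) (w 1) (tl w) ha h1R h1 (traj_tl hw) (fun k => hb (Or.inl ⟨h1, k⟩)) i j
        (by omega) (by omega) (by omega)
    · exact ih (w 1) 0 (w 1) (tl w) h1R h1R (hself _ h1R) (traj_tl hw)
        (fun k => hb (Or.inr ⟨h1, Or.inr k⟩)) i j (by omega) (by omega) (by omega)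

end det

theorem prob_bad (hB : WalkBasics) {St : ℂ → Set ℂ} {R : Set ℂ} {In : ℂ → Set ℂ}
    {W₀ W₁ : ℂ → ℂ → ℝ} {β₀ β₁ p : ℝ} {d : ℕ} (hC : Closed St R) (h0 : 1 ≤ β₀) (h1 : 1 ≤ β₁)
    (hA : ∀ a ∈ R, a ∈ In a ∧ W₀ a a ≤ 1 / 2 ∧ β₁ ^ d * W₁ a a ≤ p)
    (hW : ∀ a ∈ R, ∀ y ∈ R, 0 ≤ W₀ a y ∧ 0 ≤ W₁ a y ∧ (y ∉ In a → W₀ a y = 1 ∧ W₁ a y = 1) ∧
      (y ∈ In a → walkExp St 1 y (fun w => W₀ a (w 1)) ≤ β₀ * W₀ a y ∧
        walkExp St 1 y (fun w => W₁ a (w 1)) ≤ β₁ * W₁ a y)) (hp : 0 ≤ p) :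
    ∀ (N : ℕ) (a : ℂ) (s : ℕ) (y : ℂ), a ∈ R → y ∈ R → y ∈ In a →
      walkExp St N y (fun w => if bad In d N a s w then 1 else 0) ≤
        (if s ≤ d then β₁ ^ (d - s) else 0) * W₁ a y + 2 * p * β₀ ^ N * W₀ a y := by
  have hc : ∀ s, 0 ≤ (if s ≤ d then β₁ ^ (d - s) else 0) := by
    intro s
    split_ifs
    · positivity
    · exact le_rfl
  intro N
  induction N with
  | zero =>
    intro a s y ha hy _
    have e1 := mul_nonneg (hc s) (hW a ha y hy).2.1
    have e2 : 0 ≤ 2 * p * β₀ ^ 0 * W₀ a y := by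
      have := (hW a ha y hy).1
      positivity
    have e3 : walkExp St 0 y (fun w => if bad In d 0 a s w then (1 : ℝ) else 0) = 0 :=
      if_neg fun k => k
    rw [e3]
    linarith
  | succ N ih =>
    intro a s y ha hy hyI
    have hb0 : 1 ≤ β₀ ^ N := one_le_pow₀ h0
    have hB0 : 0 ≤ 2 * p * β₀ ^ N := by positivity
    have key : ∀ z ∈ R, walkExp St N z (fun w' =>
        if bad In d (N + 1) a s (consPath y w') then (1 : ℝ) else 0) ≤
        (if s + 1 ≤ d then β₁ ^ (d - (s + 1)) else 0) * W₁ a z + 2 * p * β₀ ^ N * W₀ a z := by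
      intro z hz
      by_cases hzI : z ∈ In a
      · refine le_trans (hB.mono St R N z _ _ hC hz fun w hw => ?_) (ih a (s + 1) z ha hz hzI)
        have e : w 0 ∈ In a := by rw [hw.1]; exact hzI
        by_cases k : bad In d (N + 1) a s (consPath y w)
        · rw [if_pos k]
          rcases k with k | k
          · rw [if_pos (show bad In d N a (s + 1) w from k.2)]
          · exact absurd e k.1
        · rw [if_neg k]
          split_ifs <;> norm_num
      obtain ⟨e0, e1⟩ := (hW a ha z hz).2.2.1 hzI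
      rw [e0, e1, mul_one, mul_one]
      by_cases hs : s + 1 ≤ d
      · rw [if_pos hs]
        have e2 : 1 ≤ β₁ ^ (d - (s + 1)) := one_le_pow₀ h1
        have e3 := hB.mono St R N z (fun w' =>
          if bad In d (N + 1) a s (consPath y w') then (1 : ℝ) else 0) (fun _ => 1) hC hz
          fun w _ => by split_ifs <;> norm_num
        rw [hB.const St R N z 1 hC hz] at e3
        linarith
      · rw [if_neg hs]
        have e2 := ih z 0 z hz hz (hA z hz).1
        rw [if_pos (Nat.zero_le d), Nat.sub_zero] at e2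
        have e3 := hB.mono St R N z (fun w' =>
          if bad In d (N + 1) a s (consPath y w') then (1 : ℝ) else 0)
          (fun w => if bad In d N z 0 w then 1 else 0) hC hz fun w hw => by
            by_cases k : bad In d (N + 1) a s (consPath y w)
            · rw [if_pos k]
              rcases k with k | k
              · exact absurd (hw.1 ▸ (show w 0 ∈ In a from k.1)) hzI
              · rcases k.2 with k | k
                · exact absurd k hs
                · rw [if_pos (hw.1 ▸ (show bad In d N (w 0) 0 w from k))]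
            · rw [if_neg k]
              split_ifs <;> norm_num
        have e4 := mul_le_mul_of_nonneg_left (hA z hz).2.1 hB0
        have e5 := (hA z hz).2.2
        have e6 := mul_le_mul_of_nonneg_left hb0 hp
        linarith
    rw [step]
    refine le_trans (hB.mono St R 1 y _ (fun w =>
      (if s + 1 ≤ d then β₁ ^ (d - (s + 1)) else 0) * W₁ a (w 1) + 2 * p * β₀ ^ N * W₀ a (w 1))
      hC hy fun w hw => key _ (hB.traj_mem St R 1 y w hC hy hw 1)) ?_
    rw [hB.add St R 1 y _ _ hC hy, hB.smul St R 1 y _ (fun w => W₁ a (w 1)) hC hy,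
      hB.smul St R 1 y _ (fun w => W₀ a (w 1)) hC hy]
    obtain ⟨g0, g1, -, g2⟩ := hW a ha y hy
    obtain ⟨g3, g4⟩ := g2 hyI
    have e1 := mul_le_mul_of_nonneg_left g3 hB0
    have e2 := mul_le_mul_of_nonneg_left g4 (hc (s + 1))
    have e3 : (if s + 1 ≤ d then β₁ ^ (d - (s + 1)) else 0) * β₁ ≤
        if s ≤ d then β₁ ^ (d - s) else 0 := by
      by_cases hs : s + 1 ≤ d
      · rw [if_pos hs, if_pos (by omega), ← pow_succ, show d - (s + 1) + 1 = d - s by omega]
      · rw [if_neg hs, zero_mul]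
        exact hc s
    have e4 := mul_le_mul_of_nonneg_right e3 g1
    rw [pow_succ]
    linarith

end PfT2

theorem T2_of (hWalkBasics : WalkBasics) : T2 := by
  intro St R In W₀ W₁ β₀ β₁ p η ε d hC hε h0 h1 hA hW x hx L
  have hp : 0 ≤ p := by
    have e1 := (hW x hx x hx).2.1
    refine le_trans ?_ (hA x hx).2.2.2
    positivity
  have e1 := PfT2.prob_bad hWalkBasics (d := d) hC h0 h1
    (fun a ha => ⟨(hA a ha).1, (hA a ha).2.2⟩) hW hp L x (d + 1) x hx hx (hA x hx).1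
  rw [if_neg (by omega), zero_mul, zero_add] at e1
  have e2 : 0 ≤ 2 * p * β₀ ^ L := by positivity
  have e3 := mul_le_mul_of_nonneg_left (hA x hx).2.2.1 e2
  refine le_trans (hWalkBasics.mono St R L x _ _ hC hx fun w hw => ?_) (e1.trans (by linarith))
  by_cases k : PfT2.bad In d L x (d + 1) w
  · rw [if_pos k]
    split_ifs <;> norm_num
  · rw [if_neg k, if_neg]
    rintro ⟨i, j, hij, hj, hd, hlt⟩
    exact absurd (PfT2.window hC hε (fun a ha => (hA a ha).1) (fun a ha => (hA a ha).2.1) L x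
      (d + 1) x w hx hx (hA x hx).1 hw k i j hij hj hd) (not_le.2 hlt)

end Pool.Agent.Lib.MP_0d9445_pr.Walk
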